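import Mathlib

/-!
# Interface between the two halves of the proof of `p_c(T_5) < 1/2` (MP_05ea9f_pr)

Time is cut into `m` finite slots (slot `i` is the time interval `(T i, T (i+1)]`, `i < m`) and one
last infinite slot `m`, the interval `(T m, ∞)`.
-/

namespace Pool.Agent.H41.GL

/-- Own data of a vertex: its initial spin (`true` is `+`) and, for each finite slot, whether its
clock rings at least once in the slot. -/
abbrev Own (m : ℕ) : Type := Bool × (Fin m → Bool)

/-- Data of the 4-ary tree of depth `R` below (and including) a vertex; depth `0` carries nothing. -/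
def D (m : ℕ) : ℕ → Type
  | 0 => Unit
  | R + 1 => Own m × (Fin 4 → D m R)

instance instFintypeD (m : ℕ) : (R : ℕ) → Fintype (D m R)
  | 0 => inferInstanceAs (Fintype Unit)
  | R + 1 => by
      haveI := instFintypeD m R
      exact inferInstanceAs (Fintype (Own m × (Fin 4 → D m R)))

instance instDecEqD (m : ℕ) : (R : ℕ) → DecidableEq (D m R)
  | 0 => inferInstanceAs (DecidableEq Unit)
  | R + 1 => by
      haveI := instDecEqD m R
      exact inferInstanceAs (DecidableEq (Own m × (Fin 4 → D m R)))

/-- The clock rings in slot `i`; in the last slot `m` (and beyond) this is taken to be true. -/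
def Rings {m : ℕ} (ρ : Fin m → Bool) (i : ℕ) : Prop :=
  ∀ h : i < m, ρ ⟨i, h⟩ = true

/-- Number of supporting neighbours in slot `i`: children whose interval `(c, l)` (on at the times
`T c, ..., T l`) contains the whole slot, plus one if the parent is on since time `T k`, `k ≤ i`. -/
def supp (q : Fin 4 → Option (ℕ × ℕ)) (k i : ℕ) : ℕ :=
  (Finset.univ.filter fun w => ∃ cl ∈ q w, cl.1 ≤ i ∧ i + 1 ≤ cl.2).card + (if k ≤ i then 1 else 0)

/-- `Valid m R d k c l`: given the data `d` of the depth-`R` tree below a vertex `v` and assuming that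
the parent of `v` is on from time `T k` on (`k = m + 1` : never), the statement `v` is on at the
times `T c, ..., T l` is justified (`l = m + 1`: for ever). -/
def Valid (m : ℕ) : (R : ℕ) → D m R → ℕ → ℕ → ℕ → Prop
  | 0, _, _, _, _ => True
  | R + 1, d, k, c, l =>
      c ≤ m ∧ c ≤ l ∧ l ≤ m + 1 ∧
      ∃ q : Fin 4 → Option (ℕ × ℕ),
        (∀ w cl, q w = some cl → Valid m R (d.2 w) c cl.1 cl.2) ∧
        (c = 0 → d.1.1 = true) ∧
        (0 < c → Rings d.1.2 (c - 1) ∧ 3 ≤ supp q k (c - 1)) ∧
        (∀ i, c ≤ i → i < l → Rings d.1.2 i → 3 ≤ supp q k i)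

/-- Probability weight of the own data: spin `+` with probability `p`, ring in slot `i` with
probability `r i`, all independent. -/
noncomputable def wtOwn (m : ℕ) (p : ℝ) (r : ℕ → ℝ) (o : Own m) : ℝ :=
  (if o.1 = true then p else 1 - p) * ∏ i : Fin m, (if o.2 i = true then r i else 1 - r i)

/-- Probability weight of the data of the depth-`R` tree. -/
noncomputable def wt (m : ℕ) (p : ℝ) (r : ℕ → ℝ) : (R : ℕ) → D m R → ℝ
  | 0, _ => 1
  | R + 1, d => wtOwn m p r d.1 * ∏ w : Fin 4, wt m p r R (d.2 w)

open Classical in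
/-- Probability that, with a parent on from time `0` on, the vertex is justified to be on for ever
from some time on. -/
noncomputable def survProb (m : ℕ) (p : ℝ) (r : ℕ → ℝ) (R : ℕ) : ℝ :=
  ∑ d : D m R, wt m p r R d * (if ∃ c, Valid m R d 0 c (m + 1) then 1 else 0)

/-- What the cavity certificate (theory of laws + numerics) delivers. -/
def CavityMain : Prop :=
  ∃ (m : ℕ) (r : ℕ → ℝ) (p0 q : ℝ), 0 < q ∧ 0 < p0 ∧ p0 < 1 / 2 ∧ (∀ i, 0 < r i ∧ r i < 1) ∧
    ∀ p, p0 ≤ p → p ≤ 1 → ∀ R, q ≤ survProb m p r R

end Pool.Agent.H41.GL
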