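import Pool.Agent.H41.GL.Vec

/-!
# Integer vectors approximating real vectors from below
-/

namespace Pool.Agent.H41.GL

open Finset

set_option linter.unusedSimpArgs false

/-- total over the simplex -/
noncomputable def tot4 (f : Cnt) : ℝ :=
  ∑ w ∈ range 5, ∑ a ∈ range (5 - w), ∑ y ∈ range (5 - w - a), ∑ x ∈ range (5 - w - a - y), f w a y x

theorem tot4_mvA (q : ℝ) (f : Cnt) : tot4 (mvA q f) = tot4 f := by
  simp only [tot4, mvA, Finset.sum_range_succ, Finset.sum_range_zero, Nat.choose, zero_add, add_zero,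
    Nat.add_zero, Nat.sub_self, Nat.reduceAdd, Nat.reduceSub, Nat.cast_one, Nat.cast_ofNat, pow_zero,
    one_mul, mul_one, Nat.sub_zero, pow_one]
  ring

theorem tot4_mvY (q : ℝ) (f : Cnt) : tot4 (mvY q f) = tot4 f := by
  simp only [tot4, mvY, Finset.sum_range_succ, Finset.sum_range_zero, Nat.choose, zero_add, add_zero,
    Nat.add_zero, Nat.sub_self, Nat.reduceAdd, Nat.reduceSub, Nat.cast_one, Nat.cast_ofNat, pow_zero,
    one_mul, mul_one, Nat.sub_zero, pow_one]
  ring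

theorem tot4_mvX (q : ℝ) (f : Cnt) : tot4 (mvX q f) = tot4 f := by
  simp only [tot4, mvX, Finset.sum_range_succ, Finset.sum_range_zero, Nat.choose, zero_add, add_zero,
    Nat.add_zero, Nat.sub_self, Nat.reduceAdd, Nat.reduceSub, Nat.cast_one, Nat.cast_ofNat, pow_zero,
    one_mul, mul_one, Nat.sub_zero, pow_one]
  ring

theorem tot4_mvXY (q : ℝ) (f : Cnt) : tot4 (mvXY q f) = tot4 f := by
  simp only [tot4, mvXY, Finset.sum_range_succ, Finset.sum_range_zero, Nat.choose, zero_add, add_zero,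
    Nat.add_zero, Nat.sub_self, Nat.reduceAdd, Nat.reduceSub, Nat.cast_one, Nat.cast_ofNat, pow_zero,
    one_mul, mul_one, Nat.sub_zero, pow_one]
  ring

theorem tot4_mvWX (q : ℝ) (f : Cnt) : tot4 (mvWX q f) = tot4 f := by
  simp only [tot4, mvWX, Finset.sum_range_succ, Finset.sum_range_zero, Nat.choose, zero_add, add_zero,
    Nat.add_zero, Nat.sub_self, Nat.reduceAdd, Nat.reduceSub, Nat.cast_one, Nat.cast_ofNat, pow_zero,
    one_mul, mul_one, Nat.sub_zero, pow_one]
  ring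

theorem tot4_le {f g : Cnt} (h : ∀ w a y x, w + a + y + x ≤ 4 → f w a y x ≤ g w a y x) :
    tot4 f ≤ tot4 g := by
  unfold tot4
  refine Finset.sum_le_sum fun w hw => Finset.sum_le_sum fun a ha => Finset.sum_le_sum fun y hy =>
    Finset.sum_le_sum fun x hx => h w a y x ?_
  simp only [Finset.mem_range] at hw ha hy hx
  omega

theorem tot4_congr {f g : Cnt} (h : ∀ w a y x, w + a + y + x ≤ 4 → f w a y x = g w a y x) :
    tot4 f = tot4 g :=
  le_antisymm (tot4_le fun w a y x hs => (h w a y x hs).le)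
    (tot4_le fun w a y x hs => (h w a y x hs).ge)

theorem tot4_add (f g : Cnt) : tot4 (fun w a y x => f w a y x + g w a y x) = tot4 f + tot4 g := by
  simp only [tot4, Finset.sum_add_distrib]

theorem tot4_sub (f g : Cnt) : tot4 (fun w a y x => f w a y x - g w a y x) = tot4 f - tot4 g := by
  simp only [tot4, Finset.sum_sub_distrib]

theorem tot4_mul (c : ℝ) (f : Cnt) : tot4 (fun w a y x => c * f w a y x) = c * tot4 f := by
  simp only [tot4, Finset.mul_sum]

theorem tot4_one : tot4 (fun _ _ _ _ => 1) = 70 := by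
  simp only [tot4, Finset.sum_const, Finset.card_range, Finset.sum_range_succ, Finset.sum_range_zero]
  norm_num

theorem tot4_nonneg {f : Cnt} (h : ∀ w a y x, w + a + y + x ≤ 4 → 0 ≤ f w a y x) : 0 ≤ tot4 f := by
  have := tot4_le (f := fun _ _ _ _ => 0) (g := f) h
  have h0 : tot4 (fun _ _ _ _ => 0) = 0 := by simp [tot4]
  linarith

theorem le_tot4 {f : Cnt} (h : ∀ w a y x, w + a + y + x ≤ 4 → 0 ≤ f w a y x) (w a y x : ℕ)
    (hs : w + a + y + x ≤ 4) : f w a y x ≤ tot4 f := by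
  unfold tot4
  have h3 : f w a y x ≤ ∑ x ∈ range (5 - w - a - y), f w a y x :=
    Finset.single_le_sum (f := fun x => f w a y x)
      (fun i hi => h w a y i (by simp only [Finset.mem_range] at hi; omega))
      (Finset.mem_range.2 (by omega))
  have h2 : ∑ x ∈ range (5 - w - a - y), f w a y x ≤
      ∑ y ∈ range (5 - w - a), ∑ x ∈ range (5 - w - a - y), f w a y x :=
    Finset.single_le_sum (f := fun y => ∑ x ∈ range (5 - w - a - y), f w a y x)
      (fun i hi => Finset.sum_nonneg fun j hj => h w a i j (by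
        simp only [Finset.mem_range] at hi hj; omega))
      (Finset.mem_range.2 (by omega))
  have h1 : ∑ y ∈ range (5 - w - a), ∑ x ∈ range (5 - w - a - y), f w a y x ≤
      ∑ a ∈ range (5 - w), ∑ y ∈ range (5 - w - a), ∑ x ∈ range (5 - w - a - y), f w a y x :=
    Finset.single_le_sum
      (f := fun a => ∑ y ∈ range (5 - w - a), ∑ x ∈ range (5 - w - a - y), f w a y x)
      (fun i hi => Finset.sum_nonneg fun j hj => Finset.sum_nonneg fun l hl => h w i j l (by
        simp only [Finset.mem_range] at hi hj hl; omega))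
      (Finset.mem_range.2 (by omega))
  have h0 : ∑ a ∈ range (5 - w), ∑ y ∈ range (5 - w - a), ∑ x ∈ range (5 - w - a - y), f w a y x ≤
      ∑ w ∈ range 5, ∑ a ∈ range (5 - w), ∑ y ∈ range (5 - w - a),
        ∑ x ∈ range (5 - w - a - y), f w a y x :=
    Finset.single_le_sum
      (f := fun w => ∑ a ∈ range (5 - w), ∑ y ∈ range (5 - w - a),
        ∑ x ∈ range (5 - w - a - y), f w a y x)
      (fun i hi => Finset.sum_nonneg fun j hj => Finset.sum_nonneg fun l hl =>
        Finset.sum_nonneg fun n hn => h i j l n (by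
          simp only [Finset.mem_range] at hi hj hl hn; omega))
      (Finset.mem_range.2 (by omega))
  linarith

/-- no mass outside of the simplex -/
def Sup (f : Cnt) : Prop := ∀ w a y x, 4 < w + a + y + x → f w a y x = 0

theorem sum_shrink (g : ℕ → ℝ) (n : ℕ) (hn : n ≤ 5) (h : ∀ i, n ≤ i → i < 5 → g i = 0) :
    ∑ i ∈ range 5, g i = ∑ i ∈ range n, g i := by
  symm
  apply Finset.sum_subset (Finset.range_subset_range.2 hn)
  intro i hi hi'
  simp only [Finset.mem_range] at hi hi'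
  exact h i (by omega) hi

theorem tot_eq (f : Cnt) (h : Sup f) : tot f = tot4 f := by
  unfold tot tot4
  refine Finset.sum_congr rfl fun w hw => ?_
  rw [Finset.mem_range] at hw
  have h3 : ∀ w a y, ∑ x ∈ range 5, f w a y x = ∑ x ∈ range (5 - w - a - y), f w a y x :=
    fun w a y => sum_shrink _ _ (by omega) fun i hi _ => h w a y i (by omega)
  have h2 : ∀ w a, ∑ y ∈ range 5, ∑ x ∈ range 5, f w a y x =
      ∑ y ∈ range (5 - w - a), ∑ x ∈ range (5 - w - a - y), f w a y x := fun w a => by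
    rw [sum_shrink _ (5 - w - a) (by omega) fun i hi _ =>
      Finset.sum_eq_zero fun j _ => h w a i j (by omega)]
    · exact Finset.sum_congr rfl fun y _ => h3 w a y
  rw [sum_shrink _ (5 - w) (by omega) fun i hi _ =>
      Finset.sum_eq_zero fun j _ => Finset.sum_eq_zero fun l _ => h w i j l (by omega)]
  exact Finset.sum_congr rfl fun a _ => h2 w a

theorem sumLe_eq (n : ℕ) (g : ℕ → ℕ) : sumLe n g = ∑ i ∈ range (n + 1), g i := by
  induction n with
  | zero => simp [sumLe]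
  | succ n ih => rw [Finset.sum_range_succ, ← ih]; rfl

/-- cast of an integer vector -/
def cst (v : CN) : Cnt := fun w a y x => (v w a y x : ℝ)

theorem tot4N_cast (v : CN) : (tot4N v : ℝ) = tot4 (cst v) := by
  unfold tot4N tot4 cst
  simp only [sumLe_eq, Nat.cast_sum]
  refine Finset.sum_congr rfl fun w hw => ?_
  have e1 : 4 - w + 1 = 5 - w := by have := Finset.mem_range.1 hw; omega
  rw [e1]
  refine Finset.sum_congr rfl fun a ha => ?_
  have e2 : 4 - w - a + 1 = 5 - w - a := by have := Finset.mem_range.1 ha; omega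
  rw [e2]
  refine Finset.sum_congr rfl fun y hy => ?_
  have e3 : 4 - w - a - y + 1 = 5 - w - a - y := by have := Finset.mem_range.1 hy; omega
  rw [e3]

/-- `v` approximates `2 ^ 60 * X` from below, with total error at most `e` -/
structure Apx (e : ℝ) (v : CN) (X : Cnt) : Prop where
  nn : ∀ w a y x, 0 ≤ X w a y x
  sup : Sup X
  mass : tot4 X ≤ 1
  le : ∀ w a y x, w + a + y + x ≤ 4 → (v w a y x : ℝ) ≤ 2 ^ 60 * X w a y x
  err : 2 ^ 60 * tot4 X - tot4 (cst v) ≤ e

theorem Apx.mono {e e' : ℝ} {v : CN} {X : Cnt} (h : Apx e v X) (he : e ≤ e') : Apx e' v X :=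
  ⟨h.nn, h.sup, h.mass, h.le, h.err.trans he⟩

theorem Apx.bdd {e : ℝ} {v : CN} {X : Cnt} (h : Apx e v X) (w a y x : ℕ) (hs : w + a + y + x ≤ 4) :
    v w a y x ≤ 2 ^ 60 := by
  have h1 := h.le w a y x hs
  have h2 := le_tot4 (fun w a y x _ => h.nn w a y x) w a y x hs
  have h3 := h.mass
  have : (v w a y x : ℝ) ≤ ((2 ^ 60 : ℕ) : ℝ) := by push_cast; nlinarith
  exact_mod_cast this

theorem Apx.totLe {e : ℝ} {v : CN} {X : Cnt} (h : Apx e v X) : (tot4N v : ℝ) ≤ 2 ^ 60 * tot4 X := by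
  rw [tot4N_cast, ← tot4_mul]
  exact tot4_le h.le

theorem Apx.totGe {e : ℝ} {v : CN} {X : Cnt} (h : Apx e v X) : 2 ^ 60 * tot4 X ≤ tot4N v + e := by
  rw [tot4N_cast]
  linarith [h.err]

theorem Apx.totBdd {e : ℝ} {v : CN} {X : Cnt} (h : Apx e v X) : tot4N v ≤ 2 ^ 60 := by
  have h1 := h.totLe
  have h3 := h.mass
  have : (tot4N v : ℝ) ≤ ((2 ^ 60 : ℕ) : ℝ) := by push_cast; nlinarith
  exact_mod_cast this

/-- general step -/
theorem apx_step {e : ℝ} {v v' : CN} {X : Cnt} (h : Apx e v X) (F : Cnt → Cnt)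
    (hnn : ∀ f : Cnt, (∀ w a y x, 0 ≤ f w a y x) → ∀ w a y x, 0 ≤ F f w a y x)
    (hsup : Sup X → Sup (F X)) (htot : ∀ f, tot4 (F f) = tot4 f)
    (hmono : ∀ f g : Cnt, (∀ w a y x, w + a + y + x ≤ 4 → f w a y x ≤ g w a y x) →
      ∀ w a y x, w + a + y + x ≤ 4 → F f w a y x ≤ F g w a y x)
    (hlin : ∀ (c : ℝ) (f : Cnt), ∀ w a y x, F (fun w a y x => c * f w a y x) w a y x = c * F f w a y x)
    (h1 : ∀ w a y x, w + a + y + x ≤ 4 → (v' w a y x : ℝ) ≤ F (cst v) w a y x)
    (h2 : ∀ w a y x, w + a + y + x ≤ 4 → F (cst v) w a y x ≤ (v' w a y x : ℝ) + 1) :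
    Apx (e + 70) v' (F X) where
  nn := hnn X h.nn
  sup := hsup h.sup
  mass := by rw [htot]; exact h.mass
  le := fun w a y x hs => by
    refine (h1 w a y x hs).trans ?_
    rw [← hlin]
    exact hmono _ _ h.le w a y x hs
  err := by
    rw [htot]
    have h3 : tot4 (F (cst v)) ≤ tot4 (cst v') + 70 := by
      rw [← tot4_one, ← tot4_add]
      exact tot4_le h2
    rw [htot] at h3
    linarith [h.err]

theorem div_bounds (n : ℕ) (k : ℕ) : ((n / 2 ^ k : ℕ) : ℝ) ≤ (n : ℝ) / 2 ^ k ∧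
    (n : ℝ) / 2 ^ k ≤ ((n / 2 ^ k : ℕ) : ℝ) + 1 := by
  have hp : (0 : ℝ) < 2 ^ k := by positivity
  have h1 : 2 ^ k * (n / 2 ^ k) ≤ n := Nat.mul_div_le n (2 ^ k)
  have h2 : n < 2 ^ k * (n / 2 ^ k + 1) := Nat.lt_mul_div_succ n (by positivity)
  constructor
  · rw [le_div_iff₀ hp]
    have : ((2 ^ k * (n / 2 ^ k) : ℕ) : ℝ) ≤ n := by exact_mod_cast h1
    push_cast at this
    linarith
  · rw [div_le_iff₀ hp]
    have : (n : ℝ) ≤ ((2 ^ k * (n / 2 ^ k + 1) : ℕ) : ℝ) := by exact_mod_cast h2.le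
    push_cast at this
    linarith

theorem cf_cast (Q a u : ℕ) (hQ : Q ≤ DD) (h : a + u ≤ 4) :
    (cf Q a u : ℝ) = 2 ^ 80 * (((a + u).choose a : ℝ) * (1 - (Q : ℝ) / DD) ^ a * ((Q : ℝ) / DD) ^ u) := by
  unfold cf
  simp only [Nat.mul_eq, Nat.pow_eq, Nat.sub_eq]
  push_cast [Nat.cast_sub hQ]
  have hD : (DD : ℝ) = 2 ^ 20 := by unfold DD; norm_num
  have h4 : (DD : ℝ) ^ (4 - (a + u)) * ((DD : ℝ) ^ a * (DD : ℝ) ^ u) = 2 ^ 80 := by
    rw [← pow_add, ← pow_add, hD, ← pow_mul]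
    congr 1
    omega
  have hD0 : (DD : ℝ) ≠ 0 := by rw [hD]; positivity
  have h5 : (DD : ℝ) - Q = DD * (1 - (Q : ℝ) / DD) := by field_simp
  have h6 : (Q : ℝ) = DD * ((Q : ℝ) / DD) := by field_simp
  calc ((a + u).choose a : ℝ) * (((DD : ℝ) - Q) ^ a * ((Q : ℝ) ^ u * (DD : ℝ) ^ (4 - (a + u))))
      = ((a + u).choose a : ℝ) * ((DD * (1 - (Q : ℝ) / DD)) ^ a *
          ((DD * ((Q : ℝ) / DD)) ^ u * (DD : ℝ) ^ (4 - (a + u)))) := by rw [← h5, ← h6]
    _ = ((DD : ℝ) ^ (4 - (a + u)) * ((DD : ℝ) ^ a * (DD : ℝ) ^ u)) *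
          (((a + u).choose a : ℝ) * (1 - (Q : ℝ) / DD) ^ a * ((Q : ℝ) / DD) ^ u) := by
        rw [mul_pow, mul_pow]; ring
    _ = _ := by rw [h4]

theorem cf_le (Q a u : ℕ) (hQ : Q ≤ DD) (h : a + u ≤ 4) : cf Q a u ≤ 2 ^ 80 := by
  have h0 : (0 : ℝ) < DD := by unfold DD; norm_num
  have hq0 : (0 : ℝ) ≤ (Q : ℝ) / DD := by positivity
  have hq1 : (Q : ℝ) / DD ≤ 1 := by
    rw [div_le_one h0]; exact_mod_cast hQ
  have h1 : ((a + u).choose a : ℝ) * (1 - (Q : ℝ) / DD) ^ a * ((Q : ℝ) / DD) ^ u ≤ 1 := by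
    have h2 := add_pow (1 - (Q : ℝ) / DD) ((Q : ℝ) / DD) (a + u)
    rw [sub_add_cancel, one_pow] at h2
    have h3 := Finset.single_le_sum (s := range (a + u + 1))
      (f := fun m => (1 - (Q : ℝ) / DD) ^ m * ((Q : ℝ) / DD) ^ (a + u - m) * ((a + u).choose m : ℝ))
      (fun i _ => by
        have : (0 : ℝ) ≤ 1 - (Q : ℝ) / DD := by linarith
        positivity)
      (Finset.mem_range.2 (by omega : a < a + u + 1))
    rw [← h2] at h3
    simp only [Nat.add_sub_cancel_left] at h3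
    linarith
  have h2 : (cf Q a u : ℝ) ≤ ((2 ^ 80 : ℕ) : ℝ) := by
    rw [cf_cast Q a u hQ h]; push_cast; nlinarith
  exact_mod_cast h2

/-- division by `2 ^ 80` in one lane -/
def d80 (e : ℕ) : ℕ := e / 2 ^ 80

theorem frac01 {Q : ℕ} (hQ : Q ≤ DD) : 0 ≤ (Q : ℝ) / DD ∧ (Q : ℝ) / DD ≤ 1 := by
  have h0 : (0 : ℝ) < DD := by unfold DD; norm_num
  exact ⟨by positivity, by rw [div_le_one h0]; exact_mod_cast hQ⟩

theorem coef_nonneg {q : ℝ} (h0 : 0 ≤ q) (h1 : q ≤ 1) (n a u : ℕ) :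
    0 ≤ (n : ℝ) * (1 - q) ^ a * q ^ u := by
  have : (0 : ℝ) ≤ 1 - q := by linarith
  positivity

theorem apx_mA {e : ℝ} {v : CN} {X : Cnt} (h : Apx e v X) (Q : ℕ) (hQ : Q ≤ DD) :
    Apx (e + 70) (mA d80 (cf Q) v) (mvA ((Q : ℝ) / DD) X) := by
  obtain ⟨hq0, hq1⟩ := frac01 hQ
  have key : ∀ w a y x, w + a + y + x ≤ 4 →
      ((sumLe (4 - (w + a + y + x)) fun u => Nat.mul (cf Q a u) (v w (a + u) y x) : ℕ) : ℝ) / 2 ^ 80 =
        mvA ((Q : ℝ) / DD) (cst v) w a y x := by
    intro w a y x hs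
    rw [sumLe_eq]
    have e1 : 4 - (w + a + y + x) + 1 = 5 - (w + a + y + x) := by omega
    rw [e1]
    unfold mvA cst
    rw [Nat.cast_sum, Finset.sum_div]
    refine Finset.sum_congr rfl fun u hu => ?_
    rw [Finset.mem_range] at hu
    simp only [Nat.mul_eq]
    push_cast
    rw [cf_cast Q a u hQ (by omega)]
    field_simp
  refine apx_step h (mvA ((Q : ℝ) / DD)) ?_ ?_ (tot4_mvA _) ?_ ?_ ?_ ?_
  · intro f hf w a y x
    exact Finset.sum_nonneg fun u _ => mul_nonneg (coef_nonneg hq0 hq1 _ _ _) (hf _ _ _ _)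
  · intro _ w a y x hs
    unfold mvA
    have : 5 - (w + a + y + x) = 0 := by omega
    rw [this, Finset.sum_range_zero]
  · intro f g hfg w a y x hs
    exact Finset.sum_le_sum fun u hu => mul_le_mul_of_nonneg_left
      (hfg _ _ _ _ (by rw [Finset.mem_range] at hu; omega)) (coef_nonneg hq0 hq1 _ _ _)
  · intro c f w a y x
    unfold mvA
    rw [Finset.mul_sum]
    exact Finset.sum_congr rfl fun u _ => by ring
  · intro w a y x hs
    rw [← key w a y x hs]
    exact (div_bounds _ 80).1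
  · intro w a y x hs
    rw [← key w a y x hs]
    exact (div_bounds _ 80).2

theorem apx_mY {e : ℝ} {v : CN} {X : Cnt} (h : Apx e v X) (Q : ℕ) (hQ : Q ≤ DD) :
    Apx (e + 70) (mY d80 (cf Q) v) (mvY ((Q : ℝ) / DD) X) := by
  obtain ⟨hq0, hq1⟩ := frac01 hQ
  have key : ∀ w a y x, w + a + y + x ≤ 4 →
      ((sumLe (4 - (w + a + y + x)) fun u => Nat.mul (cf Q y u) (v w a (y + u) x) : ℕ) : ℝ) / 2 ^ 80 =
        mvY ((Q : ℝ) / DD) (cst v) w a y x := by
    intro w a y x hs
    rw [sumLe_eq]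
    have e1 : 4 - (w + a + y + x) + 1 = 5 - (w + a + y + x) := by omega
    rw [e1]
    unfold mvY cst
    rw [Nat.cast_sum, Finset.sum_div]
    refine Finset.sum_congr rfl fun u hu => ?_
    rw [Finset.mem_range] at hu
    simp only [Nat.mul_eq]
    push_cast
    rw [cf_cast Q y u hQ (by omega)]
    field_simp
  refine apx_step h (mvY ((Q : ℝ) / DD)) ?_ ?_ (tot4_mvY _) ?_ ?_ ?_ ?_
  · intro f hf w a y x
    exact Finset.sum_nonneg fun u _ => mul_nonneg (coef_nonneg hq0 hq1 _ _ _) (hf _ _ _ _)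
  · intro _ w a y x hs
    unfold mvY
    have : 5 - (w + a + y + x) = 0 := by omega
    rw [this, Finset.sum_range_zero]
  · intro f g hfg w a y x hs
    exact Finset.sum_le_sum fun u hu => mul_le_mul_of_nonneg_left
      (hfg _ _ _ _ (by rw [Finset.mem_range] at hu; omega)) (coef_nonneg hq0 hq1 _ _ _)
  · intro c f w a y x
    unfold mvY
    rw [Finset.mul_sum]
    exact Finset.sum_congr rfl fun u _ => by ring
  · intro w a y x hs
    rw [← key w a y x hs]
    exact (div_bounds _ 80).1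
  · intro w a y x hs
    rw [← key w a y x hs]
    exact (div_bounds _ 80).2

theorem apx_mX {e : ℝ} {v : CN} {X : Cnt} (h : Apx e v X) (Q : ℕ) (hQ : Q ≤ DD) :
    Apx (e + 70) (mX d80 (cf Q) v) (mvX ((Q : ℝ) / DD) X) := by
  obtain ⟨hq0, hq1⟩ := frac01 hQ
  have key : ∀ w a y x, w + a + y + x ≤ 4 →
      ((sumLe (4 - (w + a + y + x)) fun u => Nat.mul (cf Q x u) (v w a y (x + u)) : ℕ) : ℝ) / 2 ^ 80 =
        mvX ((Q : ℝ) / DD) (cst v) w a y x := by
    intro w a y x hs
    rw [sumLe_eq]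
    have e1 : 4 - (w + a + y + x) + 1 = 5 - (w + a + y + x) := by omega
    rw [e1]
    unfold mvX cst
    rw [Nat.cast_sum, Finset.sum_div]
    refine Finset.sum_congr rfl fun u hu => ?_
    rw [Finset.mem_range] at hu
    simp only [Nat.mul_eq]
    push_cast
    rw [cf_cast Q x u hQ (by omega)]
    field_simp
  refine apx_step h (mvX ((Q : ℝ) / DD)) ?_ ?_ (tot4_mvX _) ?_ ?_ ?_ ?_
  · intro f hf w a y x
    exact Finset.sum_nonneg fun u _ => mul_nonneg (coef_nonneg hq0 hq1 _ _ _) (hf _ _ _ _)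
  · intro _ w a y x hs
    unfold mvX
    have : 5 - (w + a + y + x) = 0 := by omega
    rw [this, Finset.sum_range_zero]
  · intro f g hfg w a y x hs
    exact Finset.sum_le_sum fun u hu => mul_le_mul_of_nonneg_left
      (hfg _ _ _ _ (by rw [Finset.mem_range] at hu; omega)) (coef_nonneg hq0 hq1 _ _ _)
  · intro c f w a y x
    unfold mvX
    rw [Finset.mul_sum]
    exact Finset.sum_congr rfl fun u _ => by ring
  · intro w a y x hs
    rw [← key w a y x hs]
    exact (div_bounds _ 80).1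
  · intro w a y x hs
    rw [← key w a y x hs]
    exact (div_bounds _ 80).2

theorem apx_mXY {e : ℝ} {v : CN} {X : Cnt} (h : Apx e v X) (Q : ℕ) (hQ : Q ≤ DD) :
    Apx (e + 70) (mXY d80 (cf Q) v) (mvXY ((Q : ℝ) / DD) X) := by
  obtain ⟨hq0, hq1⟩ := frac01 hQ
  have key : ∀ w a y x, w + a + y + x ≤ 4 →
      ((sumLe y fun u => Nat.mul (cf Q x u) (v w a (y - u) (x + u)) : ℕ) : ℝ) / 2 ^ 80 =
        mvXY ((Q : ℝ) / DD) (cst v) w a y x := by
    intro w a y x hs
    rw [sumLe_eq]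
    unfold mvXY cst
    rw [Nat.cast_sum, Finset.sum_div]
    refine Finset.sum_congr rfl fun u hu => ?_
    rw [Finset.mem_range] at hu
    simp only [Nat.mul_eq]
    push_cast
    rw [cf_cast Q x u hQ (by omega)]
    field_simp
  refine apx_step h (mvXY ((Q : ℝ) / DD)) ?_ ?_ (tot4_mvXY _) ?_ ?_ ?_ ?_
  · intro f hf w a y x
    exact Finset.sum_nonneg fun u _ => mul_nonneg (coef_nonneg hq0 hq1 _ _ _) (hf _ _ _ _)
  · intro hX w a y x hs
    unfold mvXY
    refine Finset.sum_eq_zero fun u hu => ?_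
    rw [Finset.mem_range] at hu
    rw [hX _ _ _ _ (by omega), mul_zero]
  · intro f g hfg w a y x hs
    exact Finset.sum_le_sum fun u hu => mul_le_mul_of_nonneg_left
      (hfg _ _ _ _ (by rw [Finset.mem_range] at hu; omega)) (coef_nonneg hq0 hq1 _ _ _)
  · intro c f w a y x
    unfold mvXY
    rw [Finset.mul_sum]
    exact Finset.sum_congr rfl fun u _ => by ring
  · intro w a y x hs
    rw [← key w a y x hs]
    exact (div_bounds _ 80).1
  · intro w a y x hs
    rw [← key w a y x hs]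
    exact (div_bounds _ 80).2

theorem apx_mWX {e : ℝ} {v : CN} {X : Cnt} (h : Apx e v X) (Q : ℕ) (hQ : Q ≤ DD) :
    Apx (e + 70) (mWX d80 (cf Q) v) (mvWX ((Q : ℝ) / DD) X) := by
  obtain ⟨hq0, hq1⟩ := frac01 hQ
  have key : ∀ w a y x, w + a + y + x ≤ 4 →
      ((sumLe x fun u => Nat.mul (cf Q w u) (v (w + u) a y (x - u)) : ℕ) : ℝ) / 2 ^ 80 =
        mvWX ((Q : ℝ) / DD) (cst v) w a y x := by
    intro w a y x hs
    rw [sumLe_eq]
    unfold mvWX cst
    rw [Nat.cast_sum, Finset.sum_div]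
    refine Finset.sum_congr rfl fun u hu => ?_
    rw [Finset.mem_range] at hu
    simp only [Nat.mul_eq]
    push_cast
    rw [cf_cast Q w u hQ (by omega)]
    field_simp
  refine apx_step h (mvWX ((Q : ℝ) / DD)) ?_ ?_ (tot4_mvWX _) ?_ ?_ ?_ ?_
  · intro f hf w a y x
    exact Finset.sum_nonneg fun u _ => mul_nonneg (coef_nonneg hq0 hq1 _ _ _) (hf _ _ _ _)
  · intro hX w a y x hs
    unfold mvWX
    refine Finset.sum_eq_zero fun u hu => ?_
    rw [Finset.mem_range] at hu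
    rw [hX _ _ _ _ (by omega), mul_zero]
  · intro f g hfg w a y x hs
    exact Finset.sum_le_sum fun u hu => mul_le_mul_of_nonneg_left
      (hfg _ _ _ _ (by rw [Finset.mem_range] at hu; omega)) (coef_nonneg hq0 hq1 _ _ _)
  · intro c f w a y x
    unfold mvWX
    rw [Finset.mul_sum]
    exact Finset.sum_congr rfl fun u _ => by ring
  · intro w a y x hs
    rw [← key w a y x hs]
    exact (div_bounds _ 80).1
  · intro w a y x hs
    rw [← key w a y x hs]
    exact (div_bounds _ 80).2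

/-- relabelling -/
theorem apx_rlb {e : ℝ} {v : CN} {X : Cnt} (h : Apx e v X) : Apx e (rlb v) (mvXY 1 X) := by
  have key : ∀ w a y x, w + a + y + x ≤ 4 → (rlb v w a y x : ℝ) = mvXY 1 (cst v) w a y x := by
    intro w a y x hs
    cases x with
    | zero =>
        change ((sumLe y fun u => v w a (y - u) u : ℕ) : ℝ) = _
        rw [sumLe_eq]
        unfold mvXY cst
        rw [Nat.cast_sum]
        refine Finset.sum_congr rfl fun u hu => ?_
        simp
    | succ x =>
        change ((0 : ℕ) : ℝ) = _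
        unfold mvXY
        rw [Nat.cast_zero]
        symm
        refine Finset.sum_eq_zero fun u hu => ?_
        simp
  have hnn : ∀ f : Cnt, (∀ w a y x, 0 ≤ f w a y x) → ∀ w a y x, 0 ≤ mvXY 1 f w a y x :=
    fun f hf w a y x =>
      Finset.sum_nonneg fun u _ => mul_nonneg (coef_nonneg zero_le_one le_rfl _ _ _) (hf _ _ _ _)
  refine ⟨hnn X h.nn, ?_, ?_, ?_, ?_⟩
  · intro w a y x hs
    unfold mvXY
    refine Finset.sum_eq_zero fun u hu => ?_
    rw [Finset.mem_range] at hu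
    rw [h.sup _ _ _ _ (by omega), mul_zero]
  · rw [tot4_mvXY]; exact h.mass
  · intro w a y x hs
    rw [key w a y x hs]
    unfold mvXY
    rw [Finset.mul_sum]
    refine Finset.sum_le_sum fun u hu => ?_
    rw [Finset.mem_range] at hu
    have h1 := h.le w a (y - u) (x + u) (by omega)
    have h2 := coef_nonneg zero_le_one le_rfl ((x + u).choose x) x u
    have h3 := mul_le_mul_of_nonneg_left h1 h2
    unfold cst
    linarith
  · have h1 : tot4 (cst (rlb v)) = tot4 (mvXY 1 (cst v)) := tot4_congr key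
    rw [h1, tot4_mvXY, tot4_mvXY]
    exact h.err

/-- multiply by `N / DD` (at least `t` on) or `N' / DD` (fewer), one lane -/
def fcL (t N N' : ℕ) (v : CN) : CN := fun w a y x =>
  if t ≤ a + y + x then v w a y x * N / 2 ^ 20 else v w a y x * N' / 2 ^ 20

theorem apx_fac {e : ℝ} {v : CN} {X : Cnt} (h : Apx e v X) (t N N' : ℕ) (hN : N ≤ DD) (hN' : N' ≤ DD) :
    Apx (e + 70) (fcL t N N' v) (fac t ((N : ℝ) / DD) ((N' : ℝ) / DD) X) := by
  obtain ⟨h0, h1⟩ := frac01 hN
  obtain ⟨h0', h1'⟩ := frac01 hN'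
  have hD : (DD : ℝ) = 2 ^ 20 := by unfold DD; norm_num
  have hle : ∀ w a y x, w + a + y + x ≤ 4 → (fcL t N N' v w a y x : ℝ) ≤
      fac t ((N : ℝ) / DD) ((N' : ℝ) / DD) (cst v) w a y x := by
    intro w a y x hs
    unfold fcL fac cst
    split_ifs
    · have := (div_bounds (v w a y x * N) 20).1
      push_cast at this ⊢
      rw [hD]; linarith [this, mul_div_assoc ((v w a y x : ℝ)) (N : ℝ) (2 ^ 20),
        mul_comm ((v w a y x : ℝ)) ((N : ℝ) / 2 ^ 20)]
    · have := (div_bounds (v w a y x * N') 20).1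
      push_cast at this ⊢
      rw [hD]; linarith [this, mul_div_assoc ((v w a y x : ℝ)) (N' : ℝ) (2 ^ 20),
        mul_comm ((v w a y x : ℝ)) ((N' : ℝ) / 2 ^ 20)]
  have hge : ∀ w a y x, w + a + y + x ≤ 4 →
      fac t ((N : ℝ) / DD) ((N' : ℝ) / DD) (cst v) w a y x ≤ (fcL t N N' v w a y x : ℝ) + 1 := by
    intro w a y x hs
    unfold fcL fac cst
    split_ifs
    · have := (div_bounds (v w a y x * N) 20).2
      push_cast at this ⊢
      rw [hD]; linarith [this, mul_div_assoc ((v w a y x : ℝ)) (N : ℝ) (2 ^ 20),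
        mul_comm ((v w a y x : ℝ)) ((N : ℝ) / 2 ^ 20)]
    · have := (div_bounds (v w a y x * N') 20).2
      push_cast at this ⊢
      rw [hD]; linarith [this, mul_div_assoc ((v w a y x : ℝ)) (N' : ℝ) (2 ^ 20),
        mul_comm ((v w a y x : ℝ)) ((N' : ℝ) / 2 ^ 20)]
  have hX1 : ∀ w a y x, fac t ((N : ℝ) / DD) ((N' : ℝ) / DD) X w a y x ≤ X w a y x := by
    intro w a y x
    have := h.nn w a y x
    unfold fac
    split_ifs <;> nlinarith
  refine ⟨?_, ?_, ?_, ?_, ?_⟩
  · intro w a y x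
    have := h.nn w a y x
    unfold fac
    split_ifs <;> positivity
  · intro w a y x hs
    unfold fac
    rw [h.sup w a y x hs]; simp
  · exact (tot4_le fun w a y x _ => hX1 w a y x).trans h.mass
  · intro w a y x hs
    refine (hle w a y x hs).trans ?_
    have := h.le w a y x hs
    unfold fac cst
    split_ifs <;> nlinarith
  · have h2 : tot4 (fun w a y x => 2 ^ 60 * fac t ((N : ℝ) / DD) ((N' : ℝ) / DD) X w a y x -
        (fcL t N N' v w a y x : ℝ)) ≤ tot4 (fun w a y x => (2 ^ 60 * X w a y x - (v w a y x : ℝ)) + 1) := by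
      refine tot4_le fun w a y x hs => ?_
      have h3 := hge w a y x hs
      have h4 := h.le w a y x hs
      have h5 : 2 ^ 60 * fac t ((N : ℝ) / DD) ((N' : ℝ) / DD) X w a y x -
          fac t ((N : ℝ) / DD) ((N' : ℝ) / DD) (cst v) w a y x ≤ 2 ^ 60 * X w a y x - (v w a y x : ℝ) := by
        unfold fac cst
        split_ifs <;> nlinarith
      linarith
    have h6 := tot4_add (fun w a y x => 2 ^ 60 * X w a y x - (v w a y x : ℝ)) (fun _ _ _ _ => 1)
    have h7 : tot4 (fun w a y x => 2 ^ 60 * X w a y x - (v w a y x : ℝ)) = _ :=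
      tot4_sub (fun w a y x => 2 ^ 60 * X w a y x) (cst v)
    have h8 : tot4 (fun w a y x => 2 ^ 60 * fac t ((N : ℝ) / DD) ((N' : ℝ) / DD) X w a y x -
        (fcL t N N' v w a y x : ℝ)) = _ :=
      tot4_sub (fun w a y x => 2 ^ 60 * fac t ((N : ℝ) / DD) ((N' : ℝ) / DD) X w a y x)
        (cst (fcL t N N' v))
    have h9 := tot4_mul (2 ^ 60) X
    have h10 := tot4_mul (2 ^ 60) (fac t ((N : ℝ) / DD) ((N' : ℝ) / DD) X)
    have h11 := tot4_one
    have h12 := h.err
    rw [h6, h7, h8, h9, h10, h11] at h2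
    linarith

end Pool.Agent.H41.GL
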