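import Pool.Agent.H41.GL.CavWon

/-!
# The abstract cavity theorem
-/

namespace Pool.Agent.H41.GL

open Finset

/-! ## validity of declared histories -/

theorem shape_bad_append {h : List St} (H : shape h = .bad) (g : List St) :
    shape (g ++ h) = .bad := by
  induction g with
  | nil => exact H
  | cons a g ih => exact shape_cons_bad ih a

theorem ext_iff {m : ℕ} (ρ : Fin m → Bool) (i : ℕ) : ext ρ i = true ↔ Rings ρ i := by
  unfold ext Rings
  by_cases h : i < m
  · simp [h]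
  · simp [h]

/-- the on-interval declared by a history of length `l + 1` -/
def itv (l : ℕ) (h : List St) : Option (ℕ × ℕ) :=
  match shape h with
  | .on c => some (c, l)
  | .en c l' => some (c, l')
  | _ => none

theorem itv_spec {l : ℕ} {h : List St} (hb : shape h ≠ .bad) {g : List St} {t : List St}
    (hh : h = g ++ .o :: .o :: t) (hl : h.length = l + 1) :
    ∃ cl ∈ itv l h, cl.1 ≤ t.length ∧ t.length + 1 ≤ cl.2 := by
  have h1 : shape (.o :: .o :: t) ≠ .bad := by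
    intro h1
    exact hb (by rw [hh]; exact shape_bad_append h1 g)
  have h2 : shape (.o :: t) ≠ .bad := fun h2 => h1 (shape_cons_bad h2 _)
  obtain ⟨c, hc⟩ := shape_o h2
  have h3 : shape (.o :: .o :: t) = .on c := by
    rw [shape, hc]
  have h4 := shape_on_lt hc
  simp only [List.length_cons] at h4
  have h5 := shape_ext h3 g (by rw [← hh]; exact hb)
  rw [← hh] at h5
  have h6 : g.length + (t.length + 2) = l + 1 := by
    rw [← hl, hh]; simp
  rcases h5 with h5 | ⟨l', h5, h7⟩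
  · exact ⟨(c, l), by simp [itv, h5], by simp only; omega, by simp only; omega⟩
  · simp only [List.length_cons] at h7
    exact ⟨(c, l'), by simp [itv, h5], by simp only; omega, by simp only; omega⟩

theorem cntOn_le {l k i : ℕ} {Z : List (Fin 4 → St)} (hZ : Z.length = l + 1)
    (hb : ∀ w, shape (Z.map fun q => q w) ≠ .bad)
    (H : ∃ g z' z zs, Z = g ++ z' :: z :: zs ∧ zs.length = i ∧ okS k i z z' = true) :
    3 ≤ supp (fun w => itv l (Z.map fun q => q w)) k i := by
  obtain ⟨g, z', z, zs, h1, h2, h3⟩ := H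
  unfold okS at h3
  have h3' := of_decide_eq_true h3
  refine le_trans h3' ?_
  unfold supp
  refine Nat.add_le_add_right ?_ _
  unfold cntOn
  refine Finset.card_le_card ?_
  intro w hw
  simp only [mem_filter, mem_univ, true_and] at hw ⊢
  have h4 : Z.map (fun q => q w) = g.map (fun q => q w) ++ .o :: .o :: zs.map (fun q => q w) := by
    rw [h1]
    simp [hw.1, hw.2]
  have h5 := itv_spec (hb w) h4 (by simpa using hZ)
  simpa [h2] using h5

theorem valid_of_declared {m R : ℕ} {d : D m (R + 1)} {k c l : ℕ} (hcl : c ≤ l)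
    (hl : l ≤ m + 1) {us : Fams} (hus : ∀ w, IsFam m (us w))
    (hval : ∀ w k' c' l', k' ≤ m + 1 → c' ≤ l' → l' ≤ m + 1 → 0 < us w k' c' l' →
      Valid m R (d.2 w) k' c' l')
    {ι : Bool} (hι : ι = true → d.1.1 = true) {Z : List (Fin 4 → St)} (hZ : Z.length = l + 1)
    (hpos : ∏ w, lawU (us w c) (Z.map fun q => q w) ≠ 0)
    (hv : vsh m ι (ext d.1.2) k Z = .on c) : Valid m (R + 1) d k c l := by
  obtain ⟨v1, v2, v3, v4⟩ := vsh_on_lt hv
  obtain ⟨s1, s2⟩ := vsh_on_spec hv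
  have hne : ∀ w, lawU (us w c) (Z.map fun q => q w) ≠ 0 := fun w =>
    (Finset.prod_ne_zero_iff.1 hpos) w (mem_univ w)
  have hgt : ∀ w, 0 < lawU (us w c) (Z.map fun q => q w) := fun w =>
    lt_of_le_of_ne (lawU_nonneg (hus w) (by omega) (by simp [hZ]; omega)) (hne w).symm
  have hb : ∀ w, shape (Z.map fun q => q w) ≠ .bad := by
    intro w hw
    apply hne w
    simp [lawU, hw]
  refine ⟨v2, hcl, hl, fun w => itv l (Z.map fun q => q w), ?_, ?_, ?_, ?_⟩
  · intro w cl hq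
    have hg := hgt w
    change itv l (Z.map fun q => q w) = some cl at hq
    unfold lawU at hg
    unfold itv at hq
    cases hs : shape (Z.map fun q => q w) with
    | wt => rw [hs] at hq; cases hq
    | on c' =>
        rw [hs] at hq hg
        cases hq
        have h1 := shape_on_lt hs
        simp only [List.length_map, hZ] at h1 hg
        exact hval w c c' l (by omega) (by omega) hl hg
    | en c' l' =>
        rw [hs] at hq hg
        cases hq
        have h1 := shape_en_lt hs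
        simp only [List.length_map, hZ] at h1 hg
        have h2 := (hus w).nonneg c c' (l' + 1) (by omega) (by omega) (by omega)
        exact hval w c c' l' (by omega) h1.1 (by omega) (by linarith)
    | bad => rw [hs] at hq; cases hq
  · intro h0
    exact hι (v3 h0)
  · intro h0
    obtain ⟨g, z', z, zs, e1, e2, e3, e4⟩ := s1 h0
    exact ⟨(ext_iff _ _).1 e3, cntOn_le hZ hb ⟨g, z', z, zs, e1, e2, e4⟩⟩
  · intro i hi hil hr
    exact cntOn_le hZ hb (s2 i hi (by omega) ((ext_iff _ _).2 hr))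

/-! ## weights -/

theorem wtRing_sum (m : ℕ) (r : ℕ → ℝ) : ∑ ρ : Fin m → Bool, wtRing m r ρ = 1 := by
  unfold wtRing
  have h := (Finset.prod_univ_sum (fun _ : Fin m => (univ : Finset Bool))
    (fun (i : Fin m) (b : Bool) => if b = true then r i else 1 - r i)).symm
  rw [Fintype.piFinset_univ] at h
  rw [h]
  simp

theorem wtRing_nonneg {m : ℕ} {r : ℕ → ℝ} (hr : ∀ i, 0 < r i ∧ r i < 1) (ρ : Fin m → Bool) :
    0 ≤ wtRing m r ρ := by
  refine Finset.prod_nonneg fun i _ => ?_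
  have := hr i
  split_ifs <;> linarith

theorem wtOwn_eq (m : ℕ) (p : ℝ) (r : ℕ → ℝ) (o : Own m) :
    wtOwn m p r o = (if o.1 = true then p else 1 - p) * wtRing m r o.2 := rfl

theorem sum_D_succ {m R : ℕ} (f : D m (R + 1) → ℝ) :
    ∑ d, f d = ∑ o : Own m, ∑ d2 : Fin 4 → D m R, f (o, d2) :=
  Fintype.sum_prod_type (f := (f : Own m × (Fin 4 → D m R) → ℝ))

theorem sum_prod_children {m R : ℕ} (g : Fin 4 → D m R → ℝ) :
    ∑ d2 : Fin 4 → D m R, ∏ w, g w (d2 w) = ∏ w, ∑ d, g w d := by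
  have h := (Finset.prod_univ_sum (fun _ : Fin 4 => (univ : Finset (D m R))) g).symm
  rw [Fintype.piFinset_univ] at h
  exact h

theorem wt_nonneg {m : ℕ} {p : ℝ} {r : ℕ → ℝ} (hp0 : 0 ≤ p) (hp1 : p ≤ 1)
    (hr : ∀ i, 0 < r i ∧ r i < 1) : ∀ (R : ℕ) (d : D m R), 0 ≤ wt m p r R d
  | 0, _ => zero_le_one
  | R + 1, d => by
      refine mul_nonneg ?_ (Finset.prod_nonneg fun w _ => wt_nonneg hp0 hp1 hr R _)
      rw [wtOwn_eq]
      refine mul_nonneg ?_ (wtRing_nonneg hr _)
      split_ifs <;> linarith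

theorem wt_sum (m : ℕ) (p : ℝ) (r : ℕ → ℝ) : ∀ R : ℕ, ∑ d : D m R, wt m p r R d = 1
  | 0 => by
      show ∑ d : Unit, (1 : ℝ) = 1
      simp
  | R + 1 => by
      rw [sum_D_succ]
      have h1 : ∀ o : Own m, ∑ d2 : Fin 4 → D m R, wt m p r (R + 1) (o, d2) = wtOwn m p r o := by
        intro o
        show ∑ d2 : Fin 4 → D m R, wtOwn m p r o * ∏ w, wt m p r R (d2 w) = _
        rw [← Finset.mul_sum, sum_prod_children fun _ d => wt m p r R d]
        simp [wt_sum m p r R]
      rw [Finset.sum_congr rfl fun o _ => h1 o, Fintype.sum_prod_type, Fintype.sum_bool]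
      have h2 : ∀ b : Bool, ∑ ρ : Fin m → Bool, wtOwn m p r (b, ρ) =
          if b = true then p else 1 - p := by
        intro b
        show ∑ ρ : Fin m → Bool, (if b = true then p else 1 - p) * wtRing m r ρ = _
        rw [← Finset.mul_sum, wtRing_sum, mul_one]
      rw [h2, h2]
      simp

/-! ## the thinned masses -/

/-- probability that a vertex with spin `i` declares `i'` -/
noncomputable def thin (p0 p : ℝ) (i i' : Bool) : ℝ :=
  if i = true then (if i' = true then p0 / p else 1 - p0 / p)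
  else (if i' = true then 0 else 1)

theorem thin_nonneg {p0 p : ℝ} (h0 : 0 < p0) (h1 : p0 ≤ p) (i i' : Bool) :
    0 ≤ thin p0 p i i' := by
  have hp : 0 < p := lt_of_lt_of_le h0 h1
  have h2 : p0 / p ≤ 1 := (div_le_one hp).2 h1
  have h3 : 0 ≤ p0 / p := by positivity
  unfold thin
  split_ifs <;> linarith

theorem thin_sum (p0 p : ℝ) (i : Bool) : ∑ i', thin p0 p i i' = 1 := by
  cases i <;> simp [thin]

/-- mass declared by a vertex with own data `o` -/
noncomputable def Aw (m : ℕ) (p0 p : ℝ) (o : Own m) (us : Fams) (k c l : ℕ) : ℝ :=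
  ∑ i' : Bool, thin p0 p o.1 i' * Won m i' (ext o.2) k us c l

section Aw

variable {m : ℕ} {p0 p : ℝ} (h0 : 0 < p0) (h1 : p0 ≤ p) {o : Own m} {us : Fams}
  (hus : ∀ w, IsFam m (us w))

include h0 h1 hus

theorem Aw_nonneg {k c l : ℕ} (hc : c ≤ m + 1) (hl : l ≤ m + 1) :
    0 ≤ Aw m p0 p o us k c l :=
  Finset.sum_nonneg fun _ _ => mul_nonneg (thin_nonneg h0 h1 _ _) (Won_nonneg hus hc hl)

theorem Aw_anti {k c l : ℕ} (hcl : c ≤ l) (hl : l ≤ m) :
    Aw m p0 p o us k c (l + 1) ≤ Aw m p0 p o us k c l :=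
  Finset.sum_le_sum fun _ _ =>
    mul_le_mul_of_nonneg_left (Won_anti hus hcl hl) (thin_nonneg h0 h1 _ _)

theorem Aw_tot {k : ℕ} : ∑ c ∈ range (m + 1), Aw m p0 p o us k c c ≤ 1 := by
  unfold Aw
  rw [Finset.sum_comm]
  calc ∑ i' : Bool, ∑ c ∈ range (m + 1), thin p0 p o.1 i' * Won m i' (ext o.2) k us c c
      ≤ ∑ i' : Bool, thin p0 p o.1 i' := by
        refine Finset.sum_le_sum fun i' _ => ?_
        rw [← Finset.mul_sum]
        exact mul_le_of_le_one_right (thin_nonneg h0 h1 _ _) (Won_tot hus)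
    _ = 1 := thin_sum _ _ _

end Aw

theorem Aw_adapt {m : ℕ} {p0 p : ℝ} {o : Own m} {us : Fams} {k c l : ℕ} (hk : k ≤ m + 1)
    (hl : l ≤ k) : Aw m p0 p o us k c l = Aw m p0 p o us (m + 1) c l := by
  unfold Aw
  exact Finset.sum_congr rfl fun i' _ => by rw [Won_adapt hk hl]

/-- averages of products of laws -/
theorem avg_prod {m R : ℕ} {p : ℝ} {r : ℕ → ℝ} {U : ℕ → ℕ → ℕ → ℝ}
    {u : D m R → ℕ → ℕ → ℕ → ℝ} {c : ℕ} (hc : c ≤ m + 1)
    (havg : ∀ k c l, k ≤ m + 1 → c ≤ l → l ≤ m + 1 →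
      ∑ d, wt m p r R d * u d k c l = U k c l)
    {z : List (Fin 4 → St)} (hz : z.length ≤ m + 2) :
    ∑ d2 : Fin 4 → D m R, (∏ w, wt m p r R (d2 w)) * ∏ w, lawU (u (d2 w) c) (z.map fun q => q w) =
      ∏ w, lawU (U c) (z.map fun q => q w) := by
  have h1 : ∀ d2 : Fin 4 → D m R,
      (∏ w, wt m p r R (d2 w)) * ∏ w, lawU (u (d2 w) c) (z.map fun q => q w) =
      ∏ w, (wt m p r R (d2 w) * lawU (u (d2 w) c) (z.map fun q => q w)) :=
    fun d2 => Finset.prod_mul_distrib.symm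
  rw [Finset.sum_congr rfl fun d2 _ => h1 d2,
    sum_prod_children fun w d => wt m p r R d * lawU (u d c) (z.map fun q => q w)]
  refine Finset.prod_congr rfl fun w _ => ?_
  exact lawU_avg univ _ (wt_sum m p r R) _ _ m
    (fun c' l' h1 h2 => havg c c' l' hc h1 h2) (by simpa using hz)

theorem avg_Won {m R : ℕ} {p : ℝ} {r : ℕ → ℝ} {U : ℕ → ℕ → ℕ → ℝ}
    {u : D m R → ℕ → ℕ → ℕ → ℝ} {ι : Bool} {rg : ℕ → Bool} {k c l : ℕ} (hc : c ≤ m + 1)
    (hl : l ≤ m + 1)
    (havg : ∀ k c l, k ≤ m + 1 → c ≤ l → l ≤ m + 1 →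
      ∑ d, wt m p r R d * u d k c l = U k c l) :
    ∑ d2 : Fin 4 → D m R, (∏ w, wt m p r R (d2 w)) * Won m ι rg k (fun w => u (d2 w)) c l =
      Won m ι rg k (fun _ => U) c l := by
  unfold Won
  simp only [← hsum_mul_left]
  rw [← hsum_sum]
  refine hsum_congr _ _ _ fun z hz => ?_
  simp only [← mul_assoc]
  rw [← Finset.sum_mul, avg_prod hc havg (by omega)]

theorem avg_Aw {m R : ℕ} {p0 p : ℝ} (h0 : 0 < p0) (h1 : p0 ≤ p) {r : ℕ → ℝ}
    {U : ℕ → ℕ → ℕ → ℝ} {u : D m R → ℕ → ℕ → ℕ → ℝ} {k c l : ℕ} (hc : c ≤ m + 1)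
    (hl : l ≤ m + 1)
    (havg : ∀ k c l, k ≤ m + 1 → c ≤ l → l ≤ m + 1 →
      ∑ d, wt m p r R d * u d k c l = U k c l) :
    ∑ d : D m (R + 1), wt m p r (R + 1) d * Aw m p0 p d.1 (fun w => u (d.2 w)) k c l =
      SU m p0 r U k c l := by
  have hp : p ≠ 0 := (lt_of_lt_of_le h0 h1).ne'
  rw [sum_D_succ]
  have e1 : ∀ o : Own m, ∑ d2 : Fin 4 → D m R,
      wt m p r (R + 1) (o, d2) * Aw m p0 p o (fun w => u (d2 w)) k c l =
      wtOwn m p r o * Aw m p0 p o (fun _ => U) k c l := by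
    intro o
    show ∑ d2 : Fin 4 → D m R, (wtOwn m p r o * ∏ w, wt m p r R (d2 w)) *
      ∑ i' : Bool, thin p0 p o.1 i' * Won m i' (ext o.2) k (fun w => u (d2 w)) c l = _
    simp only [mul_assoc, Aw]
    rw [← Finset.mul_sum]
    congr 1
    simp only [Finset.mul_sum]
    rw [Finset.sum_comm]
    refine Finset.sum_congr rfl fun i' _ => ?_
    rw [← avg_Won (ι := i') (rg := ext o.2) (k := k) hc hl havg, Finset.mul_sum]
    exact Finset.sum_congr rfl fun d2 _ => by ring
  have e2 : ∀ d2 o, wt m p r (R + 1) ((o, d2) : D m (R + 1)) *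
      Aw m p0 p (((o, d2) : D m (R + 1)).1) (fun w => u (((o, d2) : D m (R + 1)).2 w)) k c l =
      wt m p r (R + 1) (o, d2) * Aw m p0 p o (fun w => u (d2 w)) k c l := fun _ _ => rfl
  have e3 : ∀ o : Own m, ∑ d2 : Fin 4 → D m R, wt m p r (R + 1) ((o, d2) : D m (R + 1)) *
      Aw m p0 p (((o, d2) : D m (R + 1)).1) (fun w => u (((o, d2) : D m (R + 1)).2 w)) k c l =
      wtOwn m p r o * Aw m p0 p o (fun _ => U) k c l := by
    intro o
    rw [Finset.sum_congr rfl fun d2 _ => e2 d2 o]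
    exact e1 o
  rw [Finset.sum_congr rfl fun o _ => e3 o, Fintype.sum_prod_type, Finset.sum_comm]
  unfold SU
  rw [Finset.mul_sum]
  refine Finset.sum_congr rfl fun ρ _ => ?_
  rw [Fintype.sum_bool]
  simp only [wtOwn_eq, Aw, Fintype.sum_bool, thin, if_true, Bool.false_eq_true, if_false]
  by_cases hc0 : c = 0
  · subst hc0
    simp only [Won_false, if_true, decide_true]
    field_simp
    ring
  · have hd : decide (c = 0) = false := by simpa using hc0
    simp only [Won_true hc0, if_neg hc0, hd]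
    field_simp
    ring

/-! ## the induction -/

theorem SU_nonneg {m : ℕ} {p0 : ℝ} (h0 : 0 < p0) (h1 : p0 < 1) {r : ℕ → ℝ}
    (hr : ∀ i, 0 < r i ∧ r i < 1) {U : ℕ → ℕ → ℕ → ℝ} (hU : IsFam m U) {k c l : ℕ}
    (hc : c ≤ m + 1) (hl : l ≤ m + 1) : 0 ≤ SU m p0 r U k c l := by
  unfold SU
  refine mul_nonneg (by split_ifs <;> linarith) (Finset.sum_nonneg fun ρ _ => ?_)
  exact mul_nonneg (wtRing_nonneg hr ρ) (Won_nonneg (fun _ => hU) hc hl)

theorem SU_adapt {m : ℕ} {p0 : ℝ} {r : ℕ → ℝ} {U : ℕ → ℕ → ℕ → ℝ} {k c l : ℕ}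
    (hk : k ≤ m + 1) (hl : l ≤ k) : SU m p0 r U k c l = SU m p0 r U (m + 1) c l := by
  unfold SU
  congr 1
  exact Finset.sum_congr rfl fun ρ _ => by rw [Won_adapt hk hl]

/-- the invariant of the induction -/
structure Good (m : ℕ) (p : ℝ) (r : ℕ → ℝ) (U : ℕ → ℕ → ℕ → ℝ) (R : ℕ)
    (u : D m R → ℕ → ℕ → ℕ → ℝ) : Prop where
  fam : ∀ d, IsFam m (u d)
  val : ∀ d k c l, k ≤ m + 1 → c ≤ l → l ≤ m + 1 → 0 < u d k c l → Valid m R d k c l
  avg : ∀ k c l, k ≤ m + 1 → c ≤ l → l ≤ m + 1 → ∑ d, wt m p r R d * u d k c l = U k c l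

section Step

variable {m : ℕ} {p0 : ℝ} {r : ℕ → ℝ} {U : ℕ → ℕ → ℕ → ℝ} (h0 : 0 < p0) (h1 : p0 < 1)
  (hr : ∀ i, 0 < r i ∧ r i < 1) (hU : IsFam m U)
  (D1 : ∀ k c, k ≤ m + 1 → c ≤ m → U k c c ≤ SU m p0 r U k c c)
  (D2 : ∀ k c l, k ≤ m + 1 → c ≤ l → l ≤ m →
      U k c (l + 1) * SU m p0 r U k c l ≤ U k c l * SU m p0 r U k c (l + 1))

set_option linter.unusedSectionVars false

include h0 h1 hr hU D1 D2

theorem U_zero_of_SU {k c l : ℕ} (hk : k ≤ m + 1) (hcl : c ≤ l) (hl : l ≤ m + 1)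
    (hS : SU m p0 r U k c l = 0) : U k c l = 0 := by
  obtain ⟨n, rfl⟩ := Nat.exists_eq_add_of_le hcl
  induction n with
  | zero =>
      refine le_antisymm ?_ (hU.nonneg k c _ hk hcl hl)
      rcases Nat.lt_or_ge m c with hc | hc
      · have : c = m + 1 := by omega
        subst this
        rw [hU.zero k _ hk]
      · rw [← hS]
        exact D1 k c hk hc
  | succ n ih =>
      refine le_antisymm ?_ (hU.nonneg k c _ hk hcl hl)
      by_cases h2 : SU m p0 r U k c (c + n) = 0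
      · have h3 := ih (by omega) (by omega) h2
        rw [← h3]
        exact hU.anti k c (c + n) hk (by omega) (by omega)
      · have h3 := D2 k c (c + n) hk (by omega) (by omega)
        rw [show c + n + 1 = c + (n + 1) from rfl, hS, mul_zero] at h3
        have h4 : 0 < SU m p0 r U k c (c + n) :=
          lt_of_le_of_ne (SU_nonneg h0 h1 hr hU (by omega) (by omega)) (Ne.symm h2)
        by_contra h5
        push Not at h5
        have := mul_pos h5 h4
        linarith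

theorem phi_nonneg {k c l : ℕ} (hk : k ≤ m + 1) (hcl : c ≤ l) (hl : l ≤ m + 1) :
    0 ≤ U k c l / SU m p0 r U k c l :=
  div_nonneg (hU.nonneg k c l hk hcl hl) (SU_nonneg h0 h1 hr hU (by omega) hl)

theorem phi_anti {k c l : ℕ} (hk : k ≤ m + 1) (hcl : c ≤ l) (hl : l ≤ m) :
    U k c (l + 1) / SU m p0 r U k c (l + 1) ≤ U k c l / SU m p0 r U k c l := by
  have e0 := phi_nonneg h0 h1 hr hU D1 D2 hk hcl (l := l) (by omega)
  by_cases h2 : SU m p0 r U k c (l + 1) = 0
  · rw [h2, div_zero]; exact e0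
  by_cases h3 : SU m p0 r U k c l = 0
  · have h4 := U_zero_of_SU h0 h1 hr hU D1 D2 hk hcl (l := l) (by omega) h3
    have h5 : U k c (l + 1) = 0 :=
      le_antisymm (by rw [← h4]; exact hU.anti k c l hk hcl hl)
        (hU.nonneg k c _ hk (by omega) (by omega))
    rw [h5, zero_div]
    exact e0
  · have h4 : 0 < SU m p0 r U k c l :=
      lt_of_le_of_ne (SU_nonneg h0 h1 hr hU (by omega) (by omega)) (Ne.symm h3)
    have h5 : 0 < SU m p0 r U k c (l + 1) :=
      lt_of_le_of_ne (SU_nonneg h0 h1 hr hU (by omega) (by omega)) (Ne.symm h2)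
    rw [div_le_div_iff₀ h5 h4]
    exact D2 k c l hk hcl hl

theorem phi_le_one {k c : ℕ} (hk : k ≤ m + 1) (hc : c ≤ m) :
    U k c c / SU m p0 r U k c c ≤ 1 :=
  div_le_one_of_le₀ (D1 k c hk hc) (SU_nonneg h0 h1 hr hU (by omega) (by omega))

theorem step {p : ℝ} (hp : p0 ≤ p) {R : ℕ} {u : D m R → ℕ → ℕ → ℕ → ℝ}
    (hu : Good m p r U R u) : ∃ u' : D m (R + 1) → ℕ → ℕ → ℕ → ℝ, Good m p r U (R + 1) u' := by
  refine ⟨fun d k c l => Aw m p0 p d.1 (fun w => u (d.2 w)) k c l *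
    (U k c l / SU m p0 r U k c l), ?_, ?_, ?_⟩
  · intro d
    have hus : ∀ w, IsFam m ((fun w => u (d.2 w)) w) := fun w => hu.fam _
    constructor
    · intro k c l hk hcl hl
      exact mul_nonneg (Aw_nonneg h0 hp hus (by omega) hl)
        (phi_nonneg h0 h1 hr hU D1 D2 hk hcl hl)
    · intro k c l hk hcl hl
      exact mul_le_mul (Aw_anti h0 hp hus hcl hl) (phi_anti h0 h1 hr hU D1 D2 hk hcl hl)
        (phi_nonneg h0 h1 hr hU D1 D2 hk (by omega) (by omega))
        (Aw_nonneg h0 hp hus (by omega) (by omega))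
    · intro k hk
      refine le_trans (Finset.sum_le_sum fun c hc => ?_)
        (Aw_tot h0 hp (o := d.1) hus (k := k))
      rw [mem_range] at hc
      exact mul_le_of_le_one_right (Aw_nonneg h0 hp hus (by omega) (by omega))
        (phi_le_one h0 h1 hr hU D1 D2 hk (by omega))
    · intro k c l hk hcl hl
      rw [Aw_adapt hk hl, SU_adapt hk hl, hU.adapt k c l hk hcl hl]
    · intro k l hk
      rw [hU.zero k l hk, zero_div, mul_zero]
  · intro d k c l hk hcl hl hpos
    have hus : ∀ w, IsFam m ((fun w => u (d.2 w)) w) := fun w => hu.fam _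
    have hA : 0 < Aw m p0 p d.1 (fun w => u (d.2 w)) k c l := by
      have hn := Aw_nonneg h0 hp (o := d.1) hus (k := k) (c := c) (l := l) (by omega) hl
      refine lt_of_le_of_ne hn fun h => ?_
      change 0 < Aw m p0 p d.1 (fun w => u (d.2 w)) k c l * (U k c l / SU m p0 r U k c l) at hpos
      rw [← h, zero_mul] at hpos
      exact lt_irrefl _ hpos
    unfold Aw at hA
    obtain ⟨i', hi'⟩ : ∃ i' : Bool, 0 < thin p0 p d.1.1 i' *
        Won m i' (ext d.1.2) k (fun w => u (d.2 w)) c l := by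
      by_contra hc
      push Not at hc
      exact absurd (Finset.sum_nonpos fun i' _ => hc i') (not_le.2 hA)
    have hth : thin p0 p d.1.1 i' ≠ 0 := by
      intro h
      simp [h] at hi'
    have hW : 0 < Won m i' (ext d.1.2) k (fun w => u (d.2 w)) c l := by
      have hn := Won_nonneg (m := m) (ι := i') (rg := ext d.1.2) (k := k) hus
        (c := c) (l := l) (by omega) hl
      refine lt_of_le_of_ne hn fun h => ?_
      simp [← h] at hi'
    obtain ⟨Z, hZ, hZp⟩ := hsum_pos_exists _ _ hW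
    have hv : vsh m i' (ext d.1.2) k Z = .on c := by
      by_contra h
      rw [if_neg h, mul_zero] at hZp
      exact lt_irrefl _ hZp
    rw [if_pos hv, mul_one] at hZp
    refine valid_of_declared hcl hl hus (fun w k' c' l' => hu.val _ k' c' l') (ι := i') ?_ hZ
      hZp.ne' hv
    intro hi
    by_contra hd
    apply hth
    simp [thin, hi, hd]
  · intro k c l hk hcl hl
    have e1 := avg_Aw h0 hp (r := r) (k := k) (c := c) (l := l) (by omega) hl hu.avg
    simp only [← mul_assoc]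
    rw [← Finset.sum_mul, e1]
    by_cases h2 : SU m p0 r U k c l = 0
    · rw [h2, U_zero_of_SU h0 h1 hr hU D1 D2 hk hcl hl h2]
      simp
    · field_simp

end Step

theorem good_all {m : ℕ} {p0 : ℝ} {r : ℕ → ℝ} {U : ℕ → ℕ → ℕ → ℝ} (h0 : 0 < p0) (h1 : p0 < 1)
    (hr : ∀ i, 0 < r i ∧ r i < 1) (hU : IsFam m U)
    (D1 : ∀ k c, k ≤ m + 1 → c ≤ m → U k c c ≤ SU m p0 r U k c c)
    (D2 : ∀ k c l, k ≤ m + 1 → c ≤ l → l ≤ m →
      U k c (l + 1) * SU m p0 r U k c l ≤ U k c l * SU m p0 r U k c (l + 1))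
    {p : ℝ} (hp : p0 ≤ p) : ∀ R : ℕ, ∃ u : D m R → ℕ → ℕ → ℕ → ℝ, Good m p r U R u
  | 0 => by
      refine ⟨fun _ => U, fun _ => hU, fun _ _ _ _ _ _ _ _ => trivial, ?_⟩
      intro k c l _ _ _
      show ∑ d : Unit, 1 * U k c l = U k c l
      simp
  | R + 1 => by
      obtain ⟨u, hu⟩ := good_all h0 h1 hr hU D1 D2 hp R
      exact step h0 h1 hr hU D1 D2 hp hu

theorem IsFam.anti_le {m : ℕ} {u : ℕ → ℕ → ℕ → ℝ} (hu : IsFam m u) {k c : ℕ}
    (hk : k ≤ m + 1) : ∀ {l : ℕ}, c ≤ l → l ≤ m + 1 → u k c l ≤ u k c c := by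
  intro l hcl
  induction l, hcl using Nat.le_induction with
  | base => intro _; exact le_rfl
  | succ l hcl ih =>
      intro hl
      exact le_trans (hu.anti k c l hk hcl (by omega)) (ih (by omega))

/-- **Abstract cavity theorem.** -/
theorem cavity_thm : CavityThm := by
  intro m p0 r U h0 h1 hr hU D1 D2 p hp hp1 R
  classical
  obtain ⟨u, hu⟩ := good_all h0 h1 hr hU D1 D2 hp R
  have e1 : ∑ c ∈ range (m + 1), U 0 c (m + 1) =
      ∑ d : D m R, wt m p r R d * ∑ c ∈ range (m + 1), u d 0 c (m + 1) := by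
    simp only [Finset.mul_sum]
    rw [Finset.sum_comm]
    refine Finset.sum_congr rfl fun c hc => ?_
    rw [mem_range] at hc
    exact (hu.avg 0 c (m + 1) (by omega) (by omega) le_rfl).symm
  rw [e1]
  unfold survProb
  refine Finset.sum_le_sum fun d _ => ?_
  refine mul_le_mul_of_nonneg_left ?_
    (wt_nonneg (le_of_lt (lt_of_lt_of_le h0 hp)) hp1 hr R d)
  have hle : ∑ c ∈ range (m + 1), u d 0 c (m + 1) ≤ 1 := by
    refine le_trans (Finset.sum_le_sum fun c hc => ?_) ((hu.fam d).tot 0 (by omega))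
    rw [mem_range] at hc
    exact (hu.fam d).anti_le (by omega) (by omega) le_rfl
  split_ifs with hex
  · exact hle
  · refine Finset.sum_nonpos fun c hc => ?_
    rw [mem_range] at hc
    by_contra hpos
    push Not at hpos
    exact hex ⟨c, hu.val d 0 c (m + 1) (by omega) (by omega) le_rfl hpos⟩

end Pool.Agent.H41.GL
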