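import Pool.Agent.H41.GL.Chain

/-!
# The masses defined by hazards form a consistent family
-/

namespace Pool.Agent.H41.GL

open Finset

set_option linter.unusedSectionVars false

section

variable {m : ℕ} {p0 : ℝ} {H : Haz} (h0 : 0 < p0) (h1 : p0 < 1) (hH : IsHaz m H)

include h0 h1 hH

theorem Wm_nonneg (k : ℕ) : ∀ i, 0 ≤ Wm m p0 H k i
  | 0 => by simp only [Wm]; linarith
  | i + 1 => mul_nonneg (Wm_nonneg k i) (by linarith [(hH.al01 (par m k i) i).2])

theorem Am_nonneg (k : ℕ) : ∀ i, 0 ≤ Am m p0 H k i
  | 0 => by simp only [Am]; linarith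
  | i + 1 => mul_nonneg (Am_nonneg k i) (by linarith [(hH.a01 (par m k i) i).2])

theorem Am_anti (k i : ℕ) : Am m p0 H k (i + 1) ≤ Am m p0 H k i := by
  have e1 := Am_nonneg h0 h1 hH k i
  have e2 := (hH.a01 (par m k i) i).1
  simp only [Am]
  nlinarith [mul_nonneg e1 e2]

theorem XY_nonneg (k c : ℕ) : ∀ j, 0 ≤ (XY m p0 H k c j).1 ∧ 0 ≤ (XY m p0 H k c j).2
  | 0 => by
      have e1 := mul_nonneg (Wm_nonneg h0 h1 hH k (c - 1)) (hH.al01 (par m k (c - 1)) (c - 1)).1
      simp only [XY]
      split_ifs
      · exact ⟨le_rfl, e1⟩
      · exact ⟨e1, le_rfl⟩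
  | j + 1 => by
      obtain ⟨e1, e2⟩ := XY_nonneg k c j
      have hx : 0 ≤ 1 - H.x (par m k (c + j)) (c + j) := by
        linarith [(hH.x01 (par m k (c + j)) (c + j)).2]
      have hy : 0 ≤ 1 - H.y (par m k (c + j)) (c + j) := by
        linarith [(hH.y01 (par m k (c + j)) (c + j)).2]
      have hl : 0 ≤ 1 - H.la (par m k (c + j)) (c + j) := by
        linarith [(hH.la01 (par m k (c + j)) (c + j)).2]
      have hl' := (hH.la01 (par m k (c + j)) (c + j)).1
      have f1 := mul_nonneg e1 hx
      have f2 := mul_nonneg e2 hy
      have f3 := mul_nonneg f1 hl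
      have f4 := add_nonneg f2 (mul_nonneg f1 hl')
      simp only [XY]
      split_ifs
      · exact ⟨le_rfl, add_nonneg f3 f4⟩
      · exact ⟨f3, f4⟩

theorem XY_anti (k c j : ℕ) : (XY m p0 H k c (j + 1)).1 + (XY m p0 H k c (j + 1)).2 ≤
    (XY m p0 H k c j).1 + (XY m p0 H k c j).2 := by
  obtain ⟨e1, e2⟩ := XY_nonneg h0 h1 hH k c j
  have hx := mul_nonneg e1 (hH.x01 (par m k (c + j)) (c + j)).1
  have hy := mul_nonneg e2 (hH.y01 (par m k (c + j)) (c + j)).1
  simp only [XY]
  split_ifs
  · simp only
    nlinarith
  · simp only
    nlinarith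

end

theorem XY_adapt {m : ℕ} {p0 : ℝ} {H : Haz} {k c : ℕ} (hk : k ≤ m) (hc : 1 ≤ c) :
    ∀ j, (c + j < k → XY m p0 H k c j = XY m p0 H (m + 1) c j) ∧
      (c + j = k → (XY m p0 H k c j).1 + (XY m p0 H k c j).2 =
        (XY m p0 H (m + 1) c j).1 + (XY m p0 H (m + 1) c j).2) := by
  have hW : ∀ i, i ≤ k → Wm m p0 H k i = Wm m p0 H (m + 1) i := by
    intro i
    induction i with
    | zero => intro _; rfl
    | succ i ih =>
        intro hi
        simp only [Wm]
        rw [ih (by omega), par, par, if_pos (by omega), if_pos (by omega)]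
  intro j
  induction j with
  | zero =>
      have e1 : c ≤ k → par m k (c - 1) = par m (m + 1) (c - 1) := by
        intro hck
        rw [par, par, if_pos (by omega), if_pos (by omega)]
      constructor
      · intro hck
        simp only [XY]
        rw [e1 (by omega), hW _ (by omega), if_neg (by omega), if_neg (by omega)]
      · intro hck
        simp only [XY]
        rw [e1 (by omega), hW _ (by omega), if_pos (by omega), if_neg (by omega)]
        simp
  | succ j ih =>
      have e1 : c + j < k → par m k (c + j) = par m (m + 1) (c + j) := by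
        intro hck
        rw [par, par, if_pos (by omega), if_pos (by omega)]
      constructor
      · intro hck
        simp only [XY]
        rw [e1 (by omega), ih.1 (by omega), if_neg (by omega), if_neg (by omega)]
      · intro hck
        simp only [XY]
        rw [e1 (by omega), ih.1 (by omega), if_pos (by omega), if_neg (by omega)]
        simp

theorem fam_thm : FamThm := by
  intro m p0 H h0 h1 hH
  constructor
  · intro k c l hk hcl hl
    unfold UH
    split_ifs
    · exact Am_nonneg h0 h1 hH k l
    · have := XY_nonneg h0 h1 hH k c (l - c)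
      exact add_nonneg this.1 this.2
    · exact le_rfl
  · intro k c l hk hcl hl
    unfold UH
    split_ifs
    · exact Am_anti h0 h1 hH k l
    · rw [show l + 1 - c = l - c + 1 by omega]
      exact XY_anti h0 h1 hH k c (l - c)
    · exact le_rfl
  · intro k hk
    have e1 : ∀ n, n ≤ m → ∑ c ∈ range (n + 1), UH m p0 H k c c = 1 - Wm m p0 H k n := by
      intro n
      induction n with
      | zero =>
          intro _
          simp [UH, Am, Wm]
      | succ n ih =>
          intro hn
          rw [Finset.sum_range_succ, ih (by omega)]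
          have e2 : UH m p0 H k (n + 1) (n + 1) = Wm m p0 H k n * H.al (par m k n) n := by
            unfold UH
            rw [if_neg (by omega), if_pos (by omega), Nat.sub_self]
            simp only [XY, Nat.add_sub_cancel]
            split_ifs <;> simp
          rw [e2]
          simp only [Wm]
          ring
    rw [e1 m le_rfl]
    linarith [Wm_nonneg h0 h1 hH k m]
  · intro k c l hk hcl hl
    rcases Nat.lt_or_ge m k with h | h
    · have : k = m + 1 := by omega
      rw [this]
    · unfold UH
      split_ifs with g1 g2
      · have e1 : ∀ i, i ≤ k → Am m p0 H k i = Am m p0 H (m + 1) i := by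
          intro i
          induction i with
          | zero => intro _; rfl
          | succ i ih =>
              intro hi
              simp only [Am]
              rw [ih (by omega), par, par, if_pos (by omega), if_pos (by omega)]
        exact e1 l hl
      · have e2 := XY_adapt (p0 := p0) (H := H) (k := k) (c := c) h (by omega) (l - c)
        rcases Nat.lt_or_ge (c + (l - c)) k with h3 | h3
        · rw [e2.1 h3]
        · exact e2.2 (by omega)
      · rfl
  · intro k l hk
    unfold UH
    rw [if_neg (by omega), if_neg (by omega)]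

end Pool.Agent.H41.GL
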