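import Pool.Agent.H41.GL.FwdMove

/-!
# The forward recursion computes the averaged masses
-/

namespace Pool.Agent.H41.GL

open Finset

/-- mass of the joint histories of length `n + 1` ending in the configuration `η` -/
noncomputable def GG (m : ℕ) (p0 : ℝ) (r : ℕ → ℝ) (H : Haz) (k c n : ℕ) (η : Cfg) : ℝ :=
  hsum (n + 1) fun z => (∏ w, psi m p0 H c (z.map fun q => q w) (η w)) * phi m r k c z

/-! ## initial vector -/

theorem ini_eq (p0 : ℝ) :
    cn (fun η : Cfg => ∏ v, vini p0 (η v)) = ini p0 := by
  have e1 : (fun η : Cfg => ∏ v, vini p0 (η v)) =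
      push (KM .W .A p0) (fun η => if η = (fun _ => Ty.W) then 1 else 0) := by
    funext θ
    unfold push
    rw [Finset.sum_eq_single (fun _ => Ty.W)]
    · simp only [if_true, mul_one]
      refine Finset.prod_congr rfl fun v _ => ?_
      cases θ v <;> simp [vini, vec, KM]
    · intro η _ h
      show _ * (if η = (fun _ => Ty.W) then (1 : ℝ) else 0) = 0
      rw [if_neg h, mul_zero]
    · intro h
      exact absurd (mem_univ _) h
  rw [e1]
  funext w a y x
  rw [cn_push (by decide), Finset.sum_eq_single (fun _ => Ty.W)]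
  · have c0 : cnt (fun _ => Ty.W) .W = 4 := by decide
    have c1 : cnt (fun _ => Ty.W) .A = 0 := by decide
    have c2 : cnt (fun _ => Ty.W) .Y = 0 := by decide
    have c3 : cnt (fun _ => Ty.W) .X = 0 := by decide
    rw [if_pos rfl, one_mul, c0, c1]
    unfold ini
    by_cases h : w + a = 4 ∧ y = 0 ∧ x = 0
    · obtain ⟨h1, h2, h3⟩ := h
      rw [if_pos ⟨h1, h2, h3⟩, Finset.sum_eq_single a]
      · have h4 : 4 - a = w := by omega
        simp only [ind]
        rw [h4, if_pos (by simp [c2, c3, h2, h3])]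
        ring
      · intro j hj hja
        rw [mem_range] at hj
        simp only [ind]
        rw [if_neg (by simp; omega)]
        ring
      · intro h
        rw [mem_range] at h
        omega
    · rw [if_neg h]
      refine Finset.sum_eq_zero fun j hj => ?_
      rw [mem_range] at hj
      simp only [ind]
      rw [if_neg (by simp [c2, c3]; omega)]
      ring
  · intro η _ h
    rw [if_neg h, zero_mul]
  · intro h
    exact absurd (mem_univ _) h

theorem GG_zero (m : ℕ) (p0 : ℝ) (r : ℕ → ℝ) (H : Haz) (k c : ℕ) :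
    GG m p0 r H k c 0 = fun η : Cfg => ∏ v, vini p0 (η v) := by
  funext η
  unfold GG
  rw [hsum_succ]
  show ∑ a : Fin 4 → St, (∏ w, psi m p0 H c (([a] : List (Fin 4 → St)).map fun q => q w) (η w)) *
    phi m r k c [a] = _
  rw [Finset.sum_eq_single fun w => proj (η w)]
  · simp [psi, phi]
  · intro a _ ha
    have : ∃ w, a w ≠ proj (η w) := by
      by_contra hc
      push Not at hc
      exact ha (funext hc)
    obtain ⟨w, hw⟩ := this
    rw [Finset.prod_eq_zero (mem_univ w), zero_mul]
    simp [psi, hw]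
  · intro h
    exact absurd (mem_univ _) h

/-! ## one slot -/

theorem psi_head_zero {m : ℕ} {p0 : ℝ} {H : Haz} {c : ℕ} {s : St} {h : List St} {y : Ty}
    (hs : s ≠ proj y) : psi m p0 H c (s :: h) y = 0 := by
  cases h <;> simp [psi, hs]

theorem GG_succ {m : ℕ} {p0 : ℝ} {r : ℕ → ℝ} {H : Haz} {k c n : ℕ} (η' : Cfg) :
    GG m p0 r H k c (n + 1) η' =
      ∑ η : Cfg, ((∏ w, Kf m H c n (η w) (η' w)) *
        fct m r c n (okS k n (fun w => proj (η w)) (fun w => proj (η' w)))) *
        GG m p0 r H k c n η := by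
  unfold GG
  rw [hsum_succ]
  simp only [← hsum_mul_left]
  rw [← hsum_sum]
  refine hsum_congr _ _ _ fun z hz => ?_
  cases z with
  | nil => simp at hz
  | cons z0 zs =>
      have hzs : zs.length = n := by simpa using hz
      rw [Finset.sum_eq_single fun w => proj (η' w)]
      · have e1 : ∀ w, psi m p0 H c
            (((fun w => proj (η' w)) :: z0 :: zs).map fun q => q w) (η' w) =
            ∑ y ∈ (univ : Finset Ty), Kf m H c n y (η' w) *
              psi m p0 H c ((z0 :: zs).map fun q => q w) y := by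
          intro w
          simp only [List.map_cons, psi, if_true, List.length_map, hzs, adv]
        rw [Finset.prod_congr rfl fun w _ => e1 w, Finset.prod_univ_sum, Fintype.piFinset_univ,
          Finset.sum_mul]
        refine Finset.sum_congr rfl fun η _ => ?_
        rw [Finset.prod_mul_distrib, phi, hzs]
        by_cases h0 : z0 = fun w => proj (η w)
        · rw [h0]; ring
        · have : ∃ w, z0 w ≠ proj (η w) := by
            by_contra hc
            push Not at hc
            exact h0 (funext hc)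
          obtain ⟨w, hw⟩ := this
          have e2 : ∏ w, psi m p0 H c ((z0 :: zs).map fun q => q w) (η w) = 0 := by
            refine Finset.prod_eq_zero (mem_univ w) ?_
            rw [List.map_cons]
            exact psi_head_zero hw
          rw [e2]; ring
      · intro a _ ha
        have : ∃ w, a w ≠ proj (η' w) := by
          by_contra hc
          push Not at hc
          exact ha (funext hc)
        obtain ⟨w, hw⟩ := this
        rw [Finset.prod_eq_zero (mem_univ w), zero_mul]
        rw [List.map_cons]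
        exact psi_head_zero hw
      · intro h
        exact absurd (mem_univ _) h

theorem Kd_zero {H : Haz} {κ i : ℕ} {s t : Ty} (h1 : s ≠ t) (h2 : t ≠ .E) : Kd H κ i s t = 0 := by
  unfold Kd kmul
  cases s <;> cases t <;> simp [sum_Ty, KM] at h1 h2 ⊢

theorem Km_zero {H : Haz} {κ i : ℕ} {t s' : Ty} (h1 : proj t = .o) (h2 : proj s' ≠ .o) :
    Km H κ i t s' = 0 := by
  unfold Km kmul
  cases t <;> cases s' <;> simp [sum_Ty, KM, proj] at h1 h2 ⊢

theorem Km_E {H : Haz} {κ i : ℕ} {s' : Ty} (h2 : proj s' = .o) :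
    Km H κ i .E s' = 0 := by
  unfold Km kmul
  cases s' <;> simp [sum_Ty, KM, proj] at h2 ⊢

theorem Kr_zero {m : ℕ} {H : Haz} {c i : ℕ} {t s' : Ty} (h1 : proj t = .o) (h2 : proj s' ≠ .o) :
    Kr m H c i t s' = 0 := by
  unfold Kr
  split_ifs
  · unfold kmul
    refine Finset.sum_eq_zero fun u _ => ?_
    by_cases hu : proj u = .o
    · have : KM .X .Y 1 u s' = 0 := by
        cases u <;> cases s' <;> simp [KM, proj] at hu h2 ⊢
      rw [this, mul_zero]
    · rw [Km_zero h1 hu, zero_mul]
  · exact Km_zero h1 h2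

theorem Kr_E {m : ℕ} {H : Haz} {c i : ℕ} {s' : Ty} (h2 : proj s' = .o) :
    Kr m H c i .E s' = 0 := by
  unfold Kr
  split_ifs
  · unfold kmul
    refine Finset.sum_eq_zero fun u _ => ?_
    by_cases hu : proj u = .o
    · rw [Km_E hu, zero_mul]
    · have : KM .X .Y 1 u s' = 0 := by
        cases u <;> cases s' <;> simp [KM, proj] at hu h2 ⊢
      rw [this, mul_zero]
  · exact Km_E h2

/-- number of children on through the slot -/
def onc (θ : Cfg) : ℕ := cnt θ .A + cnt θ .Y + cnt θ .X

theorem onc_eq (θ : Cfg) : onc θ = (univ.filter fun v => proj (θ v) = .o).card := by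
  unfold onc cnt
  rw [← Finset.card_union_of_disjoint, ← Finset.card_union_of_disjoint]
  · congr 1
    ext v
    simp only [mem_union, mem_filter, mem_univ, true_and]
    cases θ v <;> simp [proj]
  · rw [Finset.disjoint_left]
    intro v hv hv'
    simp only [mem_union, mem_filter, mem_univ, true_and] at hv hv'
    rw [hv'] at hv
    simp at hv
  · rw [Finset.disjoint_left]
    intro v hv hv'
    simp only [mem_filter, mem_univ, true_and] at hv hv'
    rw [hv'] at hv
    simp at hv

theorem okS_onc (k n : ℕ) {η θ η' : Cfg} (h1 : ∀ w, η w = θ w ∨ θ w = .E)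
    (h2 : ∀ w, proj (θ w) = .o → proj (η' w) = .o) (h3 : ∀ w, θ w = .E → proj (η' w) ≠ .o) :
    okS k n (fun w => proj (η w)) (fun w => proj (η' w)) = decide (thr k n ≤ onc θ) := by
  have e1 : cntOn (fun w => proj (η w)) (fun w => proj (η' w)) = onc θ := by
    rw [onc_eq]
    unfold cntOn
    congr 1
    ext w
    simp only [mem_filter, mem_univ, true_and]
    constructor
    · rintro ⟨g1, g2⟩
      rcases h1 w with h | h
      · rw [← h]; exact g1
      · exact absurd g2 (h3 w h)
    · intro g
      refine ⟨?_, h2 w g⟩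
      rcases h1 w with h | h
      · rw [h]; exact g
      · rw [h] at g; simp [proj] at g
  unfold okS
  rw [e1]
  unfold thr
  rw [decide_eq_decide]
  split_ifs <;> omega

theorem GG_step {m : ℕ} {p0 : ℝ} {r : ℕ → ℝ} {H : Haz} {k c n : ℕ} :
    GG m p0 r H k c (n + 1) =
      push (Kr m H c n) (fun θ => fct m r c n (decide (thr k n ≤ onc θ)) *
        push (Kd H (par m c n) n) (GG m p0 r H k c n) θ) := by
  funext η'
  rw [GG_succ]
  unfold push
  have e1 : ∀ η : Cfg, ∏ w, Kf m H c n (η w) (η' w) =
      ∑ θ : Cfg, ∏ w, (Kd H (par m c n) n (η w) (θ w) * Kr m H c n (θ w) (η' w)) := by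
    intro η
    have h := Finset.prod_univ_sum (fun _ : Fin 4 => (univ : Finset Ty))
      (fun w t => Kd H (par m c n) n (η w) t * Kr m H c n t (η' w))
    rw [Fintype.piFinset_univ] at h
    exact h
  simp only [e1, Finset.sum_mul, Finset.mul_sum]
  rw [Finset.sum_comm]
  refine Finset.sum_congr rfl fun θ _ => Finset.sum_congr rfl fun η _ => ?_
  rw [Finset.prod_mul_distrib]
  by_cases h0 : (∏ w, Kd H (par m c n) n (η w) (θ w)) * ∏ w, Kr m H c n (θ w) (η' w) = 0
  · have g1 : ∀ A B C F G : ℝ, A * B = 0 → A * B * F * G = B * (C * (A * G)) := by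
      intro A B C F G h
      rw [h]
      have : B * (C * (A * G)) = (A * B) * (C * G) := by ring
      rw [this, h]
      ring
    exact g1 _ _ _ _ _ h0
  · have h1 := left_ne_zero_of_mul h0
    have h2 := right_ne_zero_of_mul h0
    rw [Finset.prod_ne_zero_iff] at h1 h2
    rw [okS_onc k n (η := η) (θ := θ) (η' := η')]
    · ring
    · intro w
      by_contra hc
      push Not at hc
      exact h1 w (mem_univ w) (Kd_zero hc.1 hc.2)
    · intro w hw
      by_contra hc
      exact h2 w (mem_univ w) (Kr_zero hw hc)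
    · intro w hw hc
      apply h2 w (mem_univ w)
      rw [hw]
      exact Kr_E hc

/-! ## counts -/

theorem cn_fac (t : ℕ) (s s' : ℝ) (G : Cfg → ℝ) :
    cn (fun θ => (if t ≤ onc θ then s else s') * G θ) = fac t s s' (cn G) := by
  funext w a y x
  have e1 : ∀ η : Cfg, ind w a y x (cnt η) * ((if t ≤ onc η then s else s') * G η) =
      (if t ≤ a + y + x then s else s') * (ind w a y x (cnt η) * G η) := by
    intro η
    unfold ind onc
    by_cases h1 : cnt η .W = w ∧ cnt η .A = a ∧ cnt η .Y = y ∧ cnt η .X = x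
    · rw [if_pos h1]
      obtain ⟨g1, g2, g3, g4⟩ := h1
      rw [g2, g3, g4]
      ring
    · rw [if_neg h1]
      ring
  unfold fac
  simp only [cn_eq]
  rw [Finset.sum_congr rfl fun η _ => e1 η, ← Finset.mul_sum]
  split_ifs <;> rfl

theorem cn_push_Kd (H : Haz) (κ i : ℕ) (G : Cfg → ℝ) :
    cn (push (Kd H κ i) G) = drp H κ i (cn G) := by
  unfold Kd drp
  rw [push_kmul, push_kmul, cn_X, cn_Y, cn_A]

theorem cn_push_Km (H : Haz) (κ i : ℕ) (G : Cfg → ℝ) :
    cn (push (Km H κ i) G) = mvWX (H.al κ i) (mvXY (H.la κ i) (cn G)) := by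
  unfold Km
  rw [push_kmul, cn_WX, cn_XY]

theorem cn_step {m : ℕ} {p0 : ℝ} {r : ℕ → ℝ} {H : Haz} {k c n : ℕ} {s s' : ℝ}
    (hs : fct m r c n true = s) (hs' : fct m r c n false = s') (hc : n + 1 ≠ c) :
    cn (GG m p0 r H k c (n + 1)) = mvWX (H.al (par m c n) n) (mvXY (H.la (par m c n) n)
      (fac (thr k n) s s' (drp H (par m c n) n (cn (GG m p0 r H k c n))))) := by
  have e1 : (fun θ => fct m r c n (decide (thr k n ≤ onc θ)) *
        push (Kd H (par m c n) n) (GG m p0 r H k c n) θ) =
      fun θ => (if thr k n ≤ onc θ then s else s') *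
        push (Kd H (par m c n) n) (GG m p0 r H k c n) θ := by
    funext θ
    by_cases h : thr k n ≤ onc θ
    · simp [h, hs]
    · simp [h, hs']
  rw [GG_step, Kr, if_neg hc, cn_push_Km, e1, cn_fac, cn_push_Kd]

theorem cn_step_c {m : ℕ} {p0 : ℝ} {r : ℕ → ℝ} {H : Haz} {k c n : ℕ} {s s' : ℝ}
    (hs : fct m r c n true = s) (hs' : fct m r c n false = s') (hc : n + 1 = c) :
    cn (GG m p0 r H k c (n + 1)) = mvXY 1 (mvWX (H.al (par m c n) n) (mvXY (H.la (par m c n) n)
      (fac (thr k n) s s' (drp H (par m c n) n (cn (GG m p0 r H k c n)))))) := by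
  have e1 : (fun θ => fct m r c n (decide (thr k n ≤ onc θ)) *
        push (Kd H (par m c n) n) (GG m p0 r H k c n) θ) =
      fun θ => (if thr k n ≤ onc θ then s else s') *
        push (Kd H (par m c n) n) (GG m p0 r H k c n) θ := by
    funext θ
    by_cases h : thr k n ≤ onc θ
    · simp [h, hs]
    · simp [h, hs']
  rw [GG_step, Kr, if_pos hc, push_kmul, cn_XY, cn_push_Km, e1, cn_fac, cn_push_Kd]

theorem WV_eq {m : ℕ} {p0 : ℝ} {r : ℕ → ℝ} {H : Haz} {k c : ℕ} :
    ∀ n, n < c → cn (GG m p0 r H k c n) = WV m p0 r H k n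
  | 0, _ => by rw [GG_zero, ini_eq]; rfl
  | n + 1, h => by
      have hp : par m c n = m + 1 := by rw [par, if_pos (by omega)]
      rw [cn_step (s := 1 - r n) (s' := 1) (by rw [fct, if_pos h]; simp)
        (by rw [fct, if_pos h]; simp) (by omega), WV_eq n (by omega), hp]
      rfl

theorem OV_eq {m : ℕ} {p0 : ℝ} {r : ℕ → ℝ} {H : Haz} {k c : ℕ} :
    ∀ j, cn (GG m p0 r H k c (c + j)) = OV m p0 r H k c j
  | 0 => by
      rw [Nat.add_zero, OV]
      split_ifs with h
      · subst h
        rw [GG_zero, ini_eq]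
      · obtain ⟨n, rfl⟩ : ∃ n, c = n + 1 := ⟨c - 1, by omega⟩
        have hp : par m (n + 1) n = m + 1 := by rw [par, if_pos (by omega)]
        rw [cn_step_c (s := r n) (s' := 0)
          (by rw [fct, if_neg (lt_irrefl _), if_pos rfl]; simp)
          (by rw [fct, if_neg (lt_irrefl _), if_pos rfl]; simp) rfl, WV_eq n (by omega), hp]
        rfl
  | j + 1 => by
      have hp : par m c (c + j) = c := by rw [par, if_neg (by omega)]
      have h1 : ¬ c + j + 1 < c := by omega
      have h2 : ¬ c + j + 1 = c := by omega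
      rw [← Nat.add_assoc, cn_step (s := 1) (s' := 1 - rr m r (c + j))
        (by rw [fct, if_neg h1, if_neg h2]; simp)
        (by rw [fct, if_neg h1, if_neg h2]; simp) h2, OV_eq j, hp]
      rfl

/-! ## the theorem -/

theorem fwd_thm : FwdThm := by
  intro m p0 r H h0 h1 hr hH k c l hk hc hcl hl
  unfold SU
  congr 1
  have e1 : ∑ ρ : Fin m → Bool, wtRing m r ρ *
      Won m (decide (c = 0)) (ext ρ) k (fun _ => UH m p0 H) c l = ∑ η, GG m p0 r H k c l η := by
    unfold Won GG
    simp only [← hsum_mul_left]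
    rw [← hsum_sum, ← hsum_sum]
    refine hsum_congr _ _ _ fun z hz => ?_
    have e2 : ∀ ρ : Fin m → Bool, wtRing m r ρ *
        ((∏ w : Fin 4, lawU (UH m p0 H c) (z.map fun q => q w)) *
          (if vsh m (decide (c = 0)) (ext ρ) k z = .on c then 1 else 0)) =
        (∏ w : Fin 4, lawU (UH m p0 H c) (z.map fun q => q w)) * (wtRing m r ρ *
          (if vsh m (decide (c = 0)) (ext ρ) k z = .on c then 1 else 0)) := by
      intro ρ; ring
    rw [Finset.sum_congr rfl fun ρ _ => e2 ρ, ← Finset.mul_sum,
      avg_vsh r hc (by omega) (by omega), ← Finset.sum_mul]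
    congr 1
    have e3 : ∀ w : Fin 4, lawU (UH m p0 H c) (z.map fun q => q w) =
        ∑ y ∈ (univ : Finset Ty), psi m p0 H c (z.map fun q => q w) y := by
      intro w
      refine (psi_sum hH hc ?_ (by simp; omega)).symm
      intro h
      have := congrArg List.length h
      simp at this
      rw [this] at hz
      simp at hz
    rw [Finset.prod_congr rfl fun w _ => e3 w, Finset.prod_univ_sum, Fintype.piFinset_univ]
  rw [e1, ← tot_cn]
  have e4 : l = c + (l - c) := by omega
  conv_lhs => rw [e4]
  rw [OV_eq]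

end Pool.Agent.H41.GL
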