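import Pool.Agent.H41.GL.Wait
import Pool.Agent.H41.GL.Cavity
import Pool.Agent.H41.GL.Fwd
import Pool.Agent.H41.GL.Fam

/-!
# From the checks to the cavity statement
-/

namespace Pool.Agent.H41.GL

open Finset

/-! ### supports -/

theorem sup_mvA (q : ℝ) (f : Cnt) : Sup (mvA q f) := by
  intro w a y x hs
  unfold mvA
  have : 5 - (w + a + y + x) = 0 := by omega
  rw [this, Finset.sum_range_zero]

theorem sup_mvY (q : ℝ) (f : Cnt) : Sup (mvY q f) := by
  intro w a y x hs
  unfold mvY
  have : 5 - (w + a + y + x) = 0 := by omega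
  rw [this, Finset.sum_range_zero]

theorem sup_mvX (q : ℝ) (f : Cnt) : Sup (mvX q f) := by
  intro w a y x hs
  unfold mvX
  have : 5 - (w + a + y + x) = 0 := by omega
  rw [this, Finset.sum_range_zero]

theorem sup_mvXY (q : ℝ) {f : Cnt} (hf : Sup f) : Sup (mvXY q f) := by
  intro w a y x hs
  unfold mvXY
  refine Finset.sum_eq_zero fun u hu => ?_
  rw [Finset.mem_range] at hu
  rw [hf _ _ _ _ (by omega), mul_zero]

theorem sup_mvWX (q : ℝ) {f : Cnt} (hf : Sup f) : Sup (mvWX q f) := by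
  intro w a y x hs
  unfold mvWX
  refine Finset.sum_eq_zero fun u hu => ?_
  rw [Finset.mem_range] at hu
  rw [hf _ _ _ _ (by omega), mul_zero]

theorem sup_fac (t : ℕ) (s s' : ℝ) {f : Cnt} (hf : Sup f) : Sup (fac t s s' f) := by
  intro w a y x hs
  unfold fac
  rw [hf w a y x hs]; simp

theorem sup_drp (H : Haz) (κ i : ℕ) (f : Cnt) : Sup (drp H κ i f) := by
  unfold drp; exact sup_mvX _ _

theorem sup_ini (p0 : ℝ) : Sup (ini p0) := by
  intro w a y x hs
  unfold ini
  rw [if_neg (by omega)]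

theorem sup_OV (m : ℕ) (p0 : ℝ) (r : ℕ → ℝ) (H : Haz) (k c j : ℕ) : Sup (OV m p0 r H k c j) := by
  cases j with
  | zero =>
      rw [OV]
      split_ifs
      · exact sup_ini p0
      · exact sup_mvXY _ (sup_mvWX _ (sup_mvXY _ (sup_fac _ _ _ (sup_drp _ _ _ _))))
  | succ j =>
      rw [OV]
      exact sup_mvWX _ (sup_mvXY _ (sup_fac _ _ _ (sup_drp _ _ _ _)))

theorem tot4_ini (p0 : ℝ) : tot4 (ini p0) = 1 := by
  simp only [tot4, ini, Finset.sum_range_succ, Finset.sum_range_zero]
  norm_num [Nat.choose]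
  ring

/-! ### adaptedness of the vectors -/

theorem WV_adapt (m : ℕ) (p0 : ℝ) (r : ℕ → ℝ) (H : Haz) (k k' : ℕ) :
    ∀ i, i ≤ k → i ≤ k' → WV m p0 r H k i = WV m p0 r H k' i := by
  intro i
  induction i with
  | zero => intro _ _; rfl
  | succ i ih =>
      intro h1 h2
      rw [WV, WV, ih (by omega) (by omega)]
      have e1 : thr k i = thr k' i := by unfold thr; rw [if_neg (by omega), if_neg (by omega)]
      rw [e1]

theorem OV_adapt (m : ℕ) (p0 : ℝ) (r : ℕ → ℝ) (H : Haz) (k k' c : ℕ) :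
    ∀ j, c + j ≤ k → c + j ≤ k' → OV m p0 r H k c j = OV m p0 r H k' c j := by
  intro j
  induction j with
  | zero =>
      intro h1 h2
      rw [OV, OV]
      by_cases hc : c = 0
      · rw [if_pos hc, if_pos hc]
      · rw [if_neg hc, if_neg hc, WV_adapt m p0 r H k k' (c - 1) (by omega) (by omega)]
        have e1 : thr k (c - 1) = thr k' (c - 1) := by
          unfold thr; rw [if_neg (by omega), if_neg (by omega)]
        rw [e1]
  | succ j ih =>
      intro h1 h2
      rw [OV, OV, ih (by omega) (by omega)]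
      have e1 : thr k (c + j) = thr k' (c + j) := by
        unfold thr; rw [if_neg (by omega), if_neg (by omega)]
      rw [e1]

/-! ### initial vector -/

theorem iniN_PA (P0 : ℕ) (hP : P0 ≤ DD) : PA 70 (iniN P0) fun _ => ini ((P0 : ℝ) / DD) := by
  obtain ⟨hq0, hq1⟩ := frac01 hP
  have hVV : VV = 2 ^ 60 := by unfold VV; norm_num
  have hD : (DD : ℝ) = 2 ^ 20 := by unfold DD; norm_num
  have hDp := DD_pos
  refine ⟨fun _ w a y b => if w + a = 4 ∧ y = 0 ∧ b = 0 then
      (Nat.choose 4 a * (P0 ^ a * (DD - P0) ^ w)) * VV / 2 ^ 80 else 0, ?_, ?_⟩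
  · intro w a y b hs
    unfold iniN
    by_cases h1 : w + a = 4
    · have e1 : Nat.beq (Nat.add w a) 4 = true := by rw [Nat.add_eq, h1]; rfl
      rw [e1, cond_true]
      by_cases h2 : y + b = 0
      · have e2 : Nat.beq (Nat.add y b) 0 = true := by rw [Nat.add_eq, h2]; rfl
        rw [e2, cond_true, Nat.mul_eq, ← pk_const]
        refine pk_congr fun k _ => ?_
        beta_reduce
        rw [if_pos ⟨h1, by omega, by omega⟩]
        rfl
      · have e2 : Nat.beq (Nat.add y b) 0 = false := by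
          rw [Bool.eq_false_iff]; intro hh; exact h2 (Nat.eq_of_beq_eq_true hh)
        rw [e2, cond_false]
        refine pk_zero.symm.trans (pk_congr fun k _ => ?_)
        beta_reduce
        rw [if_neg (by omega)]
    · have e1 : Nat.beq (Nat.add w a) 4 = false := by
        rw [Bool.eq_false_iff]; intro hh; exact h1 (Nat.eq_of_beq_eq_true hh)
      rw [e1, cond_false]
      refine pk_zero.symm.trans (pk_congr fun k _ => ?_)
      beta_reduce
      rw [if_neg (by omega)]
  · intro k hk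
    have key : ∀ w a : ℕ, w + a = 4 →
        ((Nat.choose 4 a * (P0 ^ a * (DD - P0) ^ w) * VV : ℕ) : ℝ) / 2 ^ 80 =
          2 ^ 60 * (((4 : ℕ).choose a : ℝ) * ((P0 : ℝ) / DD) ^ a * (1 - (P0 : ℝ) / DD) ^ w) := by
      intro w a hwa
      rw [hVV]
      push_cast [Nat.cast_sub hP]
      have h5 : (DD : ℝ) - P0 = DD * (1 - (P0 : ℝ) / DD) := by field_simp
      have h6 : (P0 : ℝ) = DD * ((P0 : ℝ) / DD) := by field_simp
      have h4 : (DD : ℝ) ^ a * (DD : ℝ) ^ w = 2 ^ 80 := by
        rw [← pow_add, hD, ← pow_mul, add_comm a w, hwa]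
      have h7 : (1152921504606846976 : ℝ) = 2 ^ 60 := by norm_num
      rw [h7]
      calc ((4 : ℕ).choose a : ℝ) * ((P0 : ℝ) ^ a * ((DD : ℝ) - P0) ^ w) * 2 ^ 60 / 2 ^ 80
          = ((4 : ℕ).choose a : ℝ) * ((DD * ((P0 : ℝ) / DD)) ^ a *
              (DD * (1 - (P0 : ℝ) / DD)) ^ w) * 2 ^ 60 / 2 ^ 80 := by rw [← h5, ← h6]
        _ = ((DD : ℝ) ^ a * (DD : ℝ) ^ w) * (((4 : ℕ).choose a : ℝ) * ((P0 : ℝ) / DD) ^ a *
              (1 - (P0 : ℝ) / DD) ^ w) * 2 ^ 60 / 2 ^ 80 := by rw [mul_pow, mul_pow]; ring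
        _ = _ := by rw [h4]; ring
    have hge0 : ∀ w a y x, 0 ≤ ini ((P0 : ℝ) / DD) w a y x := by
      intro w a y x
      unfold ini
      split_ifs
      · have : (0 : ℝ) ≤ 1 - (P0 : ℝ) / DD := by linarith
        positivity
      · exact le_rfl
    refine ⟨hge0, sup_ini _, (tot4_ini _).le, ?_, ?_⟩
    · intro w a y x hs
      unfold ini
      beta_reduce
      by_cases h : w + a = 4 ∧ y = 0 ∧ x = 0
      · rw [if_pos h, if_pos h, ← key w a h.1]
        exact (div_bounds _ 80).1
      · rw [if_neg h, if_neg h]; simp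
    · rw [← tot4_mul, ← tot4_sub, ← tot4_one]
      refine tot4_le fun w a y x hs => ?_
      unfold cst ini
      beta_reduce
      by_cases h : w + a = 4 ∧ y = 0 ∧ x = 0
      · rw [if_pos h, if_pos h, ← key w a h.1]
        have := (div_bounds (Nat.choose 4 a * (P0 ^ a * (DD - P0) ^ w) * VV) 80).2
        linarith
      · rw [if_neg h, if_neg h]; simp

theorem Am_pos {p0 : ℝ} {H : Haz} (hp : 0 < p0) : ∀ n, (∀ i < n, H.a 0 i < 1) →
    0 < Am 136 p0 H 0 n := by
  intro n
  induction n with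
  | zero => intro _; exact hp
  | succ n ih =>
      intro h
      rw [Am]
      have h1 := ih fun i hi => h i (by omega)
      have hp : par 136 0 n = 0 := by unfold par; rw [if_neg (by omega)]
      rw [hp]
      have h2 := h n (by omega)
      have : 0 < 1 - H.a 0 n := by linarith
      positivity

/-- the checks imply the cavity statement -/
theorem num_main (L : List Slot) (hL : GoodSlots L) (P0 : ℕ) (hP0 : 0 < P0) (hP1 : 2 * P0 < DD)
    (hz : app (kSum fun S => zRun L 0 S) (iniN P0) = true)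
    (hw : ∀ c, 1 ≤ c → c ≤ 136 → ∃ lo hi, lo ≤ c ∧ c ≤ hi ∧
      app (wRun lo hi L 0 (Nat.mul ONES VV)) (iniN P0) = true) : CavityMain := by
  have hDp := DD_pos
  have hP : P0 ≤ DD := by omega
  set p0 : ℝ := (P0 : ℝ) / DD with hp0def
  have hp0 : 0 < p0 := by
    have : (0 : ℝ) < P0 := by exact_mod_cast hP0
    positivity
  have hp1 : p0 < 1 / 2 := by
    rw [hp0def, div_lt_iff₀ hDp]
    have : (2 : ℝ) * P0 < DD := by exact_mod_cast hP1
    linarith
  have hr : ∀ i, 0 < rL L i ∧ rL L i < 1 := by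
    intro i
    unfold rL
    split_ifs with h
    · have hg := (hL.2 i (by omega)).hRm h
      constructor
      · have : (0 : ℝ) < (slt L i).R := by exact_mod_cast hg.1
        positivity
      · rw [div_lt_one hDp]; exact_mod_cast hg.2
    · norm_num
  have hH := isHaz_HL hL
  have hfam := fam_thm 136 p0 (HL L) hp0 (by linarith) hH
  have hfwd := fwd_thm 136 p0 (rL L) (HL L) hp0 (by linarith) hr hH
  have htot : ∀ k c j, tot (OV 136 p0 (rL L) (HL L) k c j) = tot4 (OVL p0 L k c j) := fun k c j =>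
    tot_eq _ (sup_OV _ _ _ _ _ _ _)
  have hPA0 : PA 70 (iniN P0) fun k => OVL p0 L k 0 0 := by
    refine (iniN_PA P0 hP).congr fun k _ => ?_
    unfold OVL
    rw [OV, if_pos rfl]
  have hPAW : PA 70 (iniN P0) fun k => WVL p0 L k 0 := (iniN_PA P0 hP).congr fun k _ => rfl
  have hEPS : (EPS : ℝ) = 131072 := by unfold EPS; norm_num
  -- runs
  have hz2 : ∀ j', j' ≤ 136 → ∀ k, k ≤ 137 → D2' p0 L k 0 j' := by
    intro j' hj' k hk
    rw [kSum_eq] at hz
    have := zRun_spec hL hfam 137 0 (by norm_num) (iniN P0) 70 (by rw [hEPS]; norm_num) hPA0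
      (by rw [List.drop_zero]; exact hz) j' (Nat.zero_le _) hj' k hk
    exact this
  have hw2 : ∀ c, 1 ≤ c → c ≤ 136 → (∀ k < 138, D1' p0 L k c) ∧
        ∀ j', c + j' ≤ 136 → ∀ k, (k = 0 ∨ k = 137 ∨ (1 ≤ k ∧ k ≤ c + j' ∧ k ≤ 136)) →
          D2' p0 L k c j' := by
    intro c hc hc'
    obtain ⟨lo, hi, h1, h2, h3⟩ := hw c hc hc'
    have hom : Nat.mul ONES VV = pk fun _ => VV := by rw [Nat.mul_eq, pk_const]
    rw [hom] at h3
    have hVV : VV = 2 ^ 60 := by unfold VV; norm_num
    refine wRun_spec hL (by linarith) hfam lo hi 137 0 (by norm_num) (iniN P0) (fun _ => VV) 70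
      (by rw [hEPS]; norm_num) hPAW (fun k _ => hVV.le) ?_
      (by rw [List.drop_zero]; exact h3) c (by omega) h2 hc' h1
    intro k _
    rw [Wm, hVV]
    push_cast
    linarith
  -- (D1)
  have D1 : ∀ k c, k ≤ 136 + 1 → c ≤ 136 →
      UH 136 p0 (HL L) k c c ≤ SU 136 p0 (rL L) (UH 136 p0 (HL L)) k c c := by
    intro k c hk hc
    rw [hfwd k c c hk hc le_rfl (by omega), Nat.sub_self, htot]
    by_cases h0 : c = 0
    · subst h0
      rw [if_pos rfl]
      have : tot4 (OVL p0 L k 0 0) = 1 := by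
        unfold OVL
        rw [OV, if_pos rfl]
        exact tot4_ini p0
      rw [this, mul_one]
      unfold UH
      rw [if_pos rfl, Am]
    · rw [if_neg h0]
      exact (hw2 c (by omega) hc).1 k (by omega)
  -- (D2)
  have D2 : ∀ k c l, k ≤ 136 + 1 → c ≤ l → l ≤ 136 →
      UH 136 p0 (HL L) k c (l + 1) * SU 136 p0 (rL L) (UH 136 p0 (HL L)) k c l ≤
        UH 136 p0 (HL L) k c l * SU 136 p0 (rL L) (UH 136 p0 (HL L)) k c (l + 1) := by
    intro k c l hk hcl hl
    rw [hfwd k c l hk (by omega) hcl (by omega), hfwd k c (l + 1) hk (by omega) (by omega) (by omega),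
      htot, htot]
    obtain ⟨j, rfl⟩ := Nat.exists_eq_add_of_le hcl
    have e1 : c + j - c = j := by omega
    have e2 : c + j + 1 - c = j + 1 := by omega
    rw [e1, e2]
    have hc0 : (0 : ℝ) ≤ if c = 0 then p0 else 1 - p0 := by split_ifs <;> linarith
    have main : D2' p0 L k c j := by
      by_cases h0 : c = 0
      · subst h0
        exact hz2 j (by omega) k hk
      · have hh := (hw2 c (by omega) (by omega)).2 j (by omega)
        by_cases hk0 : k = 0
        · exact hh k (Or.inl hk0)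
        by_cases hk1 : k = 137
        · exact hh k (Or.inr (Or.inl hk1))
        by_cases hk2 : k ≤ c + j
        · exact hh k (Or.inr (Or.inr ⟨by omega, hk2, by omega⟩))
        · have h137 := hh 137 (Or.inr (Or.inl rfl))
          unfold D2' at h137 ⊢
          have a1 := hfam.adapt k c (c + j + 1) hk (by omega) (by omega)
          have a2 := hfam.adapt k c (c + j) hk (by omega) (by omega)
          have a3 : OVL p0 L k c j = OVL p0 L 137 c j :=
            OV_adapt 136 p0 (rL L) (HL L) k 137 c j (by omega) (by omega)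
          have a4 : OVL p0 L k c (j + 1) = OVL p0 L 137 c (j + 1) :=
            OV_adapt 136 p0 (rL L) (HL L) k 137 c (j + 1) (by omega) (by omega)
          rw [a1, a2, a3, a4]
          exact h137
    unfold D2' at main
    have := mul_le_mul_of_nonneg_left main hc0
    nlinarith [this]
  refine ⟨136, rL L, p0, ∑ c ∈ range (136 + 1), UH 136 p0 (HL L) 0 c (136 + 1), ?_, hp0, hp1, hr, ?_⟩
  · have h1 : 0 < UH 136 p0 (HL L) 0 0 (136 + 1) := by
      unfold UH
      rw [if_pos rfl]
      refine Am_pos hp0 _ fun i hi => ?_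
      change (fld 0 (slt L i).ea : ℝ) / DD < 1
      rw [div_lt_one hDp]
      exact_mod_cast (hL.2 i (by omega)).a0
    have h2 : UH 136 p0 (HL L) 0 0 (136 + 1) ≤
        ∑ c ∈ range (136 + 1), UH 136 p0 (HL L) 0 c (136 + 1) :=
      Finset.single_le_sum (f := fun c => UH 136 p0 (HL L) 0 c (136 + 1))
        (fun c hc => hfam.nonneg 0 c (136 + 1) (by omega)
          (by have := Finset.mem_range.1 hc; omega) le_rfl)
        (Finset.mem_range.2 (by norm_num))
    linarith
  · intro p hp hp' R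
    exact cavity_thm 136 p0 (rL L) (UH 136 p0 (HL L)) hp0 (by linarith) hr hfam D1 D2 p hp hp' R

end Pool.Agent.H41.GL
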