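import Pool.Agent.H41.GL.Laws

/-!
# Basic lemmas for the cavity theorem: sums over lists, shapes, laws
-/

namespace Pool.Agent.H41.GL

open Finset

/-! ## sums over lists -/

section hsum

variable {α : Type} [Fintype α]

theorem hsum_succ (n : ℕ) (f : List α → ℝ) :
    hsum (n + 1) f = hsum n fun h => ∑ a, f (a :: h) := rfl

theorem hsum_congr : ∀ (n : ℕ) (f g : List α → ℝ), (∀ h, h.length = n → f h = g h) →
    hsum n f = hsum n g
  | 0, f, g, H => H [] rfl
  | n + 1, f, g, H => by
      refine hsum_congr n _ _ fun h hh => ?_
      exact Finset.sum_congr rfl fun a _ => H (a :: h) (by simp [hh])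

theorem hsum_mono : ∀ (n : ℕ) (f g : List α → ℝ), (∀ h, h.length = n → f h ≤ g h) →
    hsum n f ≤ hsum n g
  | 0, f, g, H => H [] rfl
  | n + 1, f, g, H => by
      refine hsum_mono n _ _ fun h hh => ?_
      exact Finset.sum_le_sum fun a _ => H (a :: h) (by simp [hh])

theorem hsum_zero : ∀ n : ℕ, hsum n (fun _ : List α => (0 : ℝ)) = 0
  | 0 => rfl
  | n + 1 => by
      show hsum n (fun h : List α => ∑ a : α, (0 : ℝ)) = 0
      simpa using hsum_zero n

theorem hsum_nonneg (n : ℕ) (f : List α → ℝ) (H : ∀ h, h.length = n → 0 ≤ f h) :
    0 ≤ hsum n f := by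
  have := hsum_mono n (fun _ => 0) f H
  rwa [hsum_zero] at this

theorem hsum_eq_zero (n : ℕ) (f : List α → ℝ) (H : ∀ h, h.length = n → f h = 0) :
    hsum n f = 0 := by
  rw [hsum_congr n f (fun _ => 0) H, hsum_zero]

theorem hsum_pos_exists (n : ℕ) (f : List α → ℝ) (H : 0 < hsum n f) :
    ∃ h, h.length = n ∧ 0 < f h := by
  by_contra hc
  push Not at hc
  have := hsum_mono n f (fun _ => 0) hc
  rw [hsum_zero] at this
  exact absurd H (not_lt.2 this)

theorem hsum_add : ∀ (n : ℕ) (f g : List α → ℝ),
    hsum n (fun h => f h + g h) = hsum n f + hsum n g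
  | 0, f, g => rfl
  | n + 1, f, g => by
      show hsum n (fun h => ∑ a, (f (a :: h) + g (a :: h))) = _
      simp only [Finset.sum_add_distrib]
      exact hsum_add n _ _

theorem hsum_mul_left : ∀ (n : ℕ) (x : ℝ) (f : List α → ℝ),
    hsum n (fun h => x * f h) = x * hsum n f
  | 0, x, f => rfl
  | n + 1, x, f => by
      show hsum n (fun h => ∑ a, (x * f (a :: h))) = _
      simp only [← Finset.mul_sum]
      exact hsum_mul_left n _ _

theorem hsum_sum {ι : Type} (n : ℕ) (s : Finset ι) (f : ι → List α → ℝ) :
    hsum n (fun h => ∑ i ∈ s, f i h) = ∑ i ∈ s, hsum n (f i) := by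
  classical
  induction s using Finset.induction_on with
  | empty => simp [hsum_zero]
  | insert i s hi ih =>
      simp only [Finset.sum_insert hi]
      rw [hsum_add, ih]

end hsum

/-! ## shapes -/

theorem shape_on_lt {h : List St} {c : ℕ} (H : shape h = .on c) : c < h.length := by
  induction h generalizing c with
  | nil => simp [shape] at H
  | cons a h ih =>
      cases a with
      | w => simp only [shape] at H; split_ifs at H
      | o =>
          simp only [shape] at H
          split at H
          · cases H; simp
          · rename_i c' hc'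
            cases H
            have := ih hc'
            simp only [List.length_cons]; omega
          · cases H
      | e =>
          simp only [shape] at H
          split at H
          · cases H
          · cases H
          · cases H

theorem shape_en_lt {h : List St} {c l : ℕ} (H : shape h = .en c l) :
    c ≤ l ∧ l + 2 ≤ h.length := by
  induction h generalizing c l with
  | nil => simp [shape] at H
  | cons a h ih =>
      cases a with
      | w => simp only [shape] at H; split_ifs at H
      | o =>
          simp only [shape] at H
          split at H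
          · cases H
          · cases H
          · cases H
      | e =>
          simp only [shape] at H
          split at H
          · rename_i c' hc'
            cases H
            have := shape_on_lt hc'
            simp only [List.length_cons]; omega
          · rename_i c' l' hc'
            cases H
            have := ih hc'
            simp only [List.length_cons]; omega
          · cases H

theorem shape_cons_bad {h : List St} (H : shape h = .bad) (a : St) : shape (a :: h) = .bad := by
  cases a <;> simp [shape, H]

theorem shape_o {h : List St} (H : shape (.o :: h) ≠ .bad) :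
    ∃ c, shape (.o :: h) = .on c := by
  revert H
  simp only [shape]
  split
  · intro _; exact ⟨_, rfl⟩
  · intro _; exact ⟨_, rfl⟩
  · intro h; exact absurd rfl h

/-- once on, always on or ended. -/
theorem shape_ext {h : List St} {c : ℕ} (H : shape h = .on c) (g : List St)
    (hb : shape (g ++ h) ≠ .bad) :
    shape (g ++ h) = .on c ∨ ∃ l, shape (g ++ h) = .en c l ∧ h.length ≤ l + 1 := by
  induction g with
  | nil => exact Or.inl H
  | cons a g ih =>
      have hb' : shape (g ++ h) ≠ .bad := fun h' => hb (shape_cons_bad h' a)
      have h0 := shape_on_lt H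
      rcases ih hb' with h1 | ⟨l, h1, h2⟩
      · cases a with
        | w => exact absurd (by simp [shape, h1]) hb
        | o => left; simp [shape, h1]
        | e =>
            right
            refine ⟨(g ++ h).length - 1, by simp [shape, h1], ?_⟩
            simp only [List.length_append]; omega
      · cases a with
        | w => exact absurd (by simp [shape, h1]) hb
        | o => exact absurd (by simp [shape, h1]) hb
        | e => right; exact ⟨l, by simp [shape, h1], h2⟩

/-! ## laws -/

theorem lawU_nil (u : ℕ → ℕ → ℝ) : lawU u [] = 1 := by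
  simp [lawU, shape]

theorem sum_St (f : St → ℝ) : ∑ s, f s = f .w + f .o + f .e := by
  have : (univ : Finset St) = {.w, .o, .e} := by decide
  rw [this, Finset.sum_insert (by decide), Finset.sum_insert (by decide), Finset.sum_singleton]
  ring

/-- the law is consistent. -/
theorem lawU_sum (u : ℕ → ℕ → ℝ) (h : List St) : ∑ s, lawU u (s :: h) = lawU u h := by
  rw [sum_St]
  cases hs : shape h with
  | wt =>
      simp only [lawU, shape, hs, if_true, List.length_cons, Finset.sum_range_succ]
      simp
      ring
  | on c =>
      have h0 := shape_on_lt hs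
      have h1 : h.length + 1 - 1 = h.length - 1 + 1 := by omega
      simp only [lawU, shape, hs, List.length_cons, h1]
      simp
  | en c l =>
      simp [lawU, shape, hs]
  | bad =>
      simp [lawU, shape, hs]

theorem prod_lawU_sum (u : Fin 4 → ℕ → ℕ → ℝ) (z : List (Fin 4 → St)) :
    ∑ a : Fin 4 → St, ∏ w, lawU (u w) ((a :: z).map fun q => q w) =
      ∏ w, lawU (u w) (z.map fun q => q w) := by
  have h1 : ∀ w, lawU (u w) (z.map fun q => q w) =
      ∑ s ∈ (univ : Finset St), lawU (u w) (s :: z.map fun q => q w) :=
    fun w => (lawU_sum (u w) _).symm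
  simp only [h1, Finset.prod_univ_sum, Fintype.piFinset_univ, List.map_cons]

theorem lawU_nonneg {m : ℕ} {U : ℕ → ℕ → ℕ → ℝ} (hU : IsFam m U) {k : ℕ} (hk : k ≤ m + 1)
    {h : List St} (hl : h.length ≤ m + 2) : 0 ≤ lawU (U k) h := by
  unfold lawU
  cases hs : shape h with
  | wt =>
      have h1 : ∑ c ∈ range h.length, U k c c ≤ ∑ c ∈ range (m + 2), U k c c := by
        refine Finset.sum_le_sum_of_subset_of_nonneg (by simpa using hl) ?_
        intro c hc _
        rw [mem_range] at hc
        exact hU.nonneg k c c hk le_rfl (by omega)
      rw [Finset.sum_range_succ, hU.zero k _ hk] at h1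
      have := hU.tot k hk
      simp only
      linarith
  | on c =>
      have := shape_on_lt hs
      exact hU.nonneg k c _ hk (by omega) (by omega)
  | en c l =>
      have := shape_en_lt hs
      exact sub_nonneg.2 (hU.anti k c l hk (by omega) (by omega))
  | bad => exact le_rfl

theorem lawU_adapt {m : ℕ} {U : ℕ → ℕ → ℕ → ℝ} (hU : IsFam m U) {k : ℕ} (hk : k ≤ m + 1)
    {h : List St} (hl : h.length ≤ k + 1) : lawU (U k) h = lawU (U (m + 1)) h := by
  unfold lawU
  cases hs : shape h with
  | wt =>
      simp only
      congr 1
      refine Finset.sum_congr rfl fun c hc => ?_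
      rw [mem_range] at hc
      exact hU.adapt k c c hk le_rfl (by omega)
  | on c =>
      have := shape_on_lt hs
      exact hU.adapt k c _ hk (by omega) (by omega)
  | en c l =>
      have := shape_en_lt hs
      simp only
      rw [hU.adapt k c l hk (by omega) (by omega), hU.adapt k c (l + 1) hk (by omega) (by omega)]
  | bad => rfl

/-- the law is affine in the family. -/
theorem lawU_avg {ι : Type} (s : Finset ι) (a : ι → ℝ) (ha : ∑ i ∈ s, a i = 1)
    (v : ι → ℕ → ℕ → ℝ) (V : ℕ → ℕ → ℝ) (m : ℕ)
    (hv : ∀ c l, c ≤ l → l ≤ m + 1 → ∑ i ∈ s, a i * v i c l = V c l)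
    {h : List St} (hl : h.length ≤ m + 2) :
    ∑ i ∈ s, a i * lawU (v i) h = lawU V h := by
  unfold lawU
  cases hs : shape h with
  | wt =>
      simp only [mul_sub, mul_one, Finset.sum_sub_distrib, ha, Finset.mul_sum]
      rw [Finset.sum_comm]
      congr 1
      refine Finset.sum_congr rfl fun c hc => ?_
      rw [mem_range] at hc
      exact hv c c le_rfl (by omega)
  | on c =>
      have := shape_on_lt hs
      exact hv c _ (by omega) (by omega)
  | en c l =>
      have := shape_en_lt hs
      simp only [mul_sub, Finset.sum_sub_distrib]
      rw [hv c l (by omega) (by omega), hv c (l + 1) (by omega) (by omega)]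
  | bad => simp

end Pool.Agent.H41.GL
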