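import Pool.Agent.H41.GL.CavBasic

/-!
# Declared histories of a vertex: combinatorics and total mass
-/

namespace Pool.Agent.H41.GL

open Finset

/-! ## declared shapes -/

theorem vsh_on_lt {m : ℕ} {ι : Bool} {rg : ℕ → Bool} {k : ℕ} :
    ∀ {Z : List (Fin 4 → St)} {c : ℕ}, vsh m ι rg k Z = .on c →
      c < Z.length ∧ c ≤ m ∧ (c = 0 → ι = true) ∧ (ι = true → c = 0)
  | [], c, H => by simp [vsh] at H
  | [z], c, H => by
      simp only [vsh] at H
      split_ifs at H with h
      cases H
      simp [h]
  | z' :: z :: zs, c, H => by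
      have ih := @vsh_on_lt m ι rg k (z :: zs)
      have ih0 : ∀ Z : List (Fin 4 → St), Z ≠ [] → ι = true → vsh m ι rg k Z ≠ .wt := by
        intro Z hZ hι
        induction Z with
        | nil => exact absurd rfl hZ
        | cons a Z ihZ =>
            cases Z with
            | nil => simp [vsh, hι]
            | cons b Z =>
                simp only [vsh]
                have := ihZ (by simp)
                split
                · exact absurd (by assumption) this
                · split <;> simp
                · assumption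
      simp only [vsh] at H
      split at H
      · rename_i hw
        split_ifs at H with hc
        cases H
        simp only [Bool.and_eq_true, decide_eq_true_eq] at hc
        refine ⟨by simp, by omega, by simp, ?_⟩
        intro hι
        exact absurd hw (ih0 _ (by simp) hι)
      · rename_i c' hc'
        split_ifs at H with hc
        cases H
        obtain ⟨h1, h2, h3, h4⟩ := ih hc'
        refine ⟨?_, h2, h3, h4⟩
        simp only [List.length_cons] at h1 ⊢
        omega
      · rename_i s h1 h2
        exact absurd H (h2 c)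

/-- reading off the conditions of a declared on-interval. -/
theorem vsh_on_spec {m : ℕ} {ι : Bool} {rg : ℕ → Bool} {k : ℕ} :
    ∀ {Z : List (Fin 4 → St)} {c : ℕ}, vsh m ι rg k Z = .on c →
      (0 < c → ∃ g z' z zs, Z = g ++ z' :: z :: zs ∧ zs.length = c - 1 ∧ rg (c - 1) = true ∧
        okS k (c - 1) z z' = true) ∧
      (∀ i, c ≤ i → i + 1 < Z.length → rg i = true →
        ∃ g z' z zs, Z = g ++ z' :: z :: zs ∧ zs.length = i ∧ okS k i z z' = true)
  | [], c, H => by simp [vsh] at H
  | [z], c, H => by
      have h1 := vsh_on_lt H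
      refine ⟨fun h => absurd h1.1 (by simp; omega), ?_⟩
      intro i hi h2
      simp at h2
  | z' :: z :: zs, c, H => by
      have ih := @vsh_on_spec m ι rg k (z :: zs)
      simp only [vsh] at H
      split at H
      · rename_i hw
        split_ifs at H with hc
        cases H
        simp only [Bool.and_eq_true, decide_eq_true_eq] at hc
        refine ⟨fun _ => ⟨[], z', z, zs, by simp, by simp, by simpa using hc.1.1,
          by simpa using hc.1.2⟩, ?_⟩
        intro i hi h2
        simp only [List.length_cons] at h2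
        omega
      · rename_i c' hc'
        split_ifs at H with hc
        cases H
        obtain ⟨h1, h2⟩ := ih hc'
        constructor
        · intro h0
          obtain ⟨g, y', y, ys, e1, e2, e3, e4⟩ := h1 h0
          exact ⟨z' :: g, y', y, ys, by rw [e1]; rfl, e2, e3, e4⟩
        · intro i hi h3 hr
          by_cases h4 : i + 1 < (z :: zs).length
          · obtain ⟨g, y', y, ys, e1, e2, e3⟩ := h2 i hi h4 hr
            exact ⟨z' :: g, y', y, ys, by rw [e1]; rfl, e2, e3⟩
          · have h5 : zs.length = i := by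
              simp only [List.length_cons] at h3 h4
              omega
            refine ⟨[], z', z, zs, rfl, h5, ?_⟩
            rw [h5, hr] at hc
            simpa using hc
      · rename_i s h1 h2
        exact absurd H (h2 c)

/-- the declared shape does not depend on the later status of the parent. -/
theorem vsh_adapt {m : ℕ} {ι : Bool} {rg : ℕ → Bool} {k : ℕ} (hk : k ≤ m + 1) :
    ∀ {Z : List (Fin 4 → St)}, Z.length ≤ k + 1 → vsh m ι rg k Z = vsh m ι rg (m + 1) Z
  | [], _ => rfl
  | [z], _ => rfl
  | z' :: z :: zs, H => by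
      simp only [List.length_cons] at H
      have ih := @vsh_adapt m ι rg k hk (z :: zs) (by simp only [List.length_cons]; omega)
      have hS : okS k zs.length z z' = okS (m + 1) zs.length z z' := by
        unfold okS
        rw [if_neg (by omega), if_neg (by omega)]
      simp only [vsh, ih, hS]

theorem vsh_cons_on {m : ℕ} {ι : Bool} {rg : ℕ → Bool} {k : ℕ} {a : Fin 4 → St}
    {Z : List (Fin 4 → St)} {c : ℕ} (hc : c < Z.length) (H : vsh m ι rg k (a :: Z) = .on c) :
    vsh m ι rg k Z = .on c := by
  cases Z with
  | nil => simp at hc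
  | cons z zs =>
      simp only [vsh] at H
      split at H
      · split_ifs at H
        cases H
        simp at hc
      · rename_i c' hc'
        split_ifs at H
        cases H
        exact hc'
      · rename_i s h1 h2
        exact absurd H (h2 c)

/-- waiting at time `n` : at time `n + 1` waiting or on since `n + 1`. -/
theorem vsh_split {m : ℕ} {ι : Bool} {rg : ℕ → Bool} {k n : ℕ} {a : Fin 4 → St}
    {Z : List (Fin 4 → St)} (hZ : Z.length = n + 1) :
    ((if vsh m ι rg k (a :: Z) = .wt then 1 else 0) +
      (if vsh m ι rg k (a :: Z) = .on (n + 1) then 1 else 0) : ℝ) =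
      if vsh m ι rg k Z = .wt then 1 else 0 := by
  cases Z with
  | nil => simp at hZ
  | cons z zs =>
      have hz : zs.length = n := by simpa using hZ
      have h0 := @vsh_on_lt m ι rg k (z :: zs)
      by_cases hw : vsh m ι rg k (z :: zs) = .wt
      · by_cases hc : (rg zs.length && okS k zs.length z a && decide (zs.length < m)) = true
        · simp only [vsh, hw, hc, if_true]
          simp [hz]
        · simp only [vsh, hw, hc]
          simp
      · have h1 : vsh m ι rg k (a :: z :: zs) ≠ .wt := by
          intro h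
          simp only [vsh] at h
          split at h
          · exact hw (by assumption)
          · split_ifs at h
          · exact hw h
        have h2 : vsh m ι rg k (a :: z :: zs) ≠ .on (n + 1) := by
          intro h
          simp only [vsh] at h
          split at h
          · exact hw (by assumption)
          · rename_i c' hc'
            have := (h0 hc').1
            split_ifs at h
            cases h
            simp only [List.length_cons] at this
            omega
          · rename_i s h3 h4
            exact h4 _ h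
        rw [if_neg h1, if_neg h2, if_neg hw, add_zero]

/-! ## masses -/

variable {m : ℕ}

/-- the families of the four children. -/
abbrev Fams : Type := Fin 4 → ℕ → ℕ → ℕ → ℝ

theorem prodLaw_nonneg {u : Fams} (hu : ∀ w, IsFam m (u w)) {k : ℕ} (hk : k ≤ m + 1)
    {z : List (Fin 4 → St)} (hl : z.length ≤ m + 2) :
    0 ≤ ∏ w, lawU (u w k) (z.map fun q => q w) :=
  Finset.prod_nonneg fun w _ => lawU_nonneg (hu w) hk (by simpa using hl)

theorem prodLaw_adapt {u : Fams} (hu : ∀ w, IsFam m (u w)) {k : ℕ} (hk : k ≤ m + 1)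
    {z : List (Fin 4 → St)} (hl : z.length ≤ k + 1) :
    ∏ w, lawU (u w k) (z.map fun q => q w) = ∏ w, lawU (u w (m + 1)) (z.map fun q => q w) :=
  Finset.prod_congr rfl fun w _ => lawU_adapt (hu w) hk (by simpa using hl)

theorem Won_nonneg {u : Fams} (hu : ∀ w, IsFam m (u w)) {ι : Bool} {rg : ℕ → Bool} {k c l : ℕ}
    (hc : c ≤ m + 1) (hl : l ≤ m + 1) : 0 ≤ Won m ι rg k u c l := by
  refine hsum_nonneg _ _ fun z hz => mul_nonneg (prodLaw_nonneg hu hc (by omega)) ?_
  split_ifs <;> simp

theorem Won_anti {u : Fams} (hu : ∀ w, IsFam m (u w)) {ι : Bool} {rg : ℕ → Bool} {k c l : ℕ}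
    (hcl : c ≤ l) (hl : l ≤ m) : Won m ι rg k u c (l + 1) ≤ Won m ι rg k u c l := by
  unfold Won
  rw [hsum_succ]
  refine hsum_mono _ _ _ fun z hz => ?_
  have h1 : (∏ w, lawU (u w c) (z.map fun q => q w)) * (if vsh m ι rg k z = .on c then 1 else 0) =
      ∑ a : Fin 4 → St, (∏ w, lawU (u w c) ((a :: z).map fun q => q w)) *
        (if vsh m ι rg k z = .on c then 1 else 0) := by
    rw [← Finset.sum_mul, prod_lawU_sum fun w => u w c]
  rw [h1]
  refine Finset.sum_le_sum fun a _ => ?_
  refine mul_le_mul_of_nonneg_left ?_ (prodLaw_nonneg hu (by omega) (by simp; omega))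
  by_cases h2 : vsh m ι rg k (a :: z) = .on c
  · rw [if_pos h2, if_pos (vsh_cons_on (by omega) h2)]
  · rw [if_neg h2]
    split_ifs <;> simp

/-- mass of waiting -/
noncomputable def Ww (m : ℕ) (ι : Bool) (rg : ℕ → Bool) (k : ℕ) (u : Fams) (n : ℕ) : ℝ :=
  hsum (n + 1) fun z =>
    (∏ w, lawU (u w (m + 1)) (z.map fun q => q w)) * (if vsh m ι rg k z = .wt then 1 else 0)

theorem Ww_zero {u : Fams} (hu : ∀ w, IsFam m (u w)) {ι : Bool} {rg : ℕ → Bool} {k : ℕ} :
    Won m ι rg k u 0 0 + Ww m ι rg k u 0 = 1 := by
  have h1 : Won m ι rg k u 0 0 = hsum 1 fun z =>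
      (∏ w, lawU (u w (m + 1)) (z.map fun q => q w)) *
        (if vsh m ι rg k z = .on 0 then 1 else 0) := by
    unfold Won
    refine hsum_congr _ _ _ fun z hz => ?_
    rw [prodLaw_adapt hu (Nat.zero_le _) (by omega)]
  rw [h1]
  unfold Ww
  rw [← hsum_add, hsum_succ]
  have h2 : ∀ a : Fin 4 → St,
      (∏ w, lawU (u w (m + 1)) (([a] : List (Fin 4 → St)).map fun q => q w)) *
        (if vsh m ι rg k [a] = .on 0 then 1 else 0) +
      (∏ w, lawU (u w (m + 1)) (([a] : List (Fin 4 → St)).map fun q => q w)) *
        (if vsh m ι rg k [a] = .wt then 1 else 0) =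
      (∏ w, lawU (u w (m + 1)) (([a] : List (Fin 4 → St)).map fun q => q w)) := by
    intro a
    cases ι <;> simp [vsh]
  have h3 : hsum 0 (fun z : List (Fin 4 → St) => ∏ w, lawU (u w (m + 1)) (z.map fun q => q w)) = 1 := by
    show ∏ w, lawU (u w (m + 1)) (([] : List (Fin 4 → St)).map fun q => q w) = 1
    simp [lawU_nil]
  refine Eq.trans ?_ h3
  refine hsum_congr _ _ _ fun z hz => ?_
  obtain rfl : z = [] := List.length_eq_zero_iff.1 hz
  rw [Finset.sum_congr rfl fun a _ => h2 a, prod_lawU_sum fun w => u w (m + 1)]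

theorem Ww_succ {u : Fams} (hu : ∀ w, IsFam m (u w)) {ι : Bool} {rg : ℕ → Bool} {k n : ℕ}
    (hn : n + 1 ≤ m + 1) :
    Won m ι rg k u (n + 1) (n + 1) + Ww m ι rg k u (n + 1) = Ww m ι rg k u n := by
  have h1 : Won m ι rg k u (n + 1) (n + 1) = hsum (n + 2) fun z =>
      (∏ w, lawU (u w (m + 1)) (z.map fun q => q w)) *
        (if vsh m ι rg k z = .on (n + 1) then 1 else 0) := by
    unfold Won
    refine hsum_congr _ _ _ fun z hz => ?_
    rw [prodLaw_adapt hu hn (by omega)]
  rw [h1]
  unfold Ww
  rw [← hsum_add, hsum_succ]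
  refine hsum_congr _ _ _ fun z hz => ?_
  have h2 : ∀ a : Fin 4 → St,
      (∏ w, lawU (u w (m + 1)) ((a :: z).map fun q => q w)) *
        (if vsh m ι rg k (a :: z) = .on (n + 1) then 1 else 0) +
      (∏ w, lawU (u w (m + 1)) ((a :: z).map fun q => q w)) *
        (if vsh m ι rg k (a :: z) = .wt then 1 else 0) =
      (∏ w, lawU (u w (m + 1)) ((a :: z).map fun q => q w)) *
        (if vsh m ι rg k z = .wt then 1 else 0) := by
    intro a
    rw [← mul_add, ← vsh_split (m := m) (ι := ι) (rg := rg) (k := k) (a := a) hz]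
    ring
  rw [Finset.sum_congr rfl fun a _ => h2 a, ← Finset.sum_mul, prod_lawU_sum fun w => u w (m + 1)]

theorem Won_tot {u : Fams} (hu : ∀ w, IsFam m (u w)) {ι : Bool} {rg : ℕ → Bool} {k : ℕ} :
    ∑ c ∈ range (m + 1), Won m ι rg k u c c ≤ 1 := by
  have h1 : ∀ n, n ≤ m → ∑ c ∈ range (n + 1), Won m ι rg k u c c + Ww m ι rg k u n = 1 := by
    intro n
    induction n with
    | zero =>
        intro _
        rw [Finset.sum_range_one]
        exact Ww_zero hu
    | succ n ih =>
        intro hn
        rw [Finset.sum_range_succ, add_assoc, Ww_succ hu (by omega)]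
        exact ih (by omega)
  have h2 := h1 m le_rfl
  have h3 : 0 ≤ Ww m ι rg k u m := by
    refine hsum_nonneg _ _ fun z hz => mul_nonneg (prodLaw_nonneg hu le_rfl (by omega)) ?_
    split_ifs <;> simp
  linarith

theorem Won_adapt {u : Fams} {ι : Bool} {rg : ℕ → Bool} {k c l : ℕ} (hk : k ≤ m + 1)
    (hl : l ≤ k) : Won m ι rg k u c l = Won m ι rg (m + 1) u c l := by
  unfold Won
  refine hsum_congr _ _ _ fun z hz => ?_
  rw [vsh_adapt hk (by omega)]

theorem Won_true {u : Fams} {rg : ℕ → Bool} {k c l : ℕ} (hc : c ≠ 0) :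
    Won m true rg k u c l = 0 := by
  refine hsum_eq_zero _ _ fun z _ => ?_
  rw [if_neg, mul_zero]
  intro h
  exact hc ((vsh_on_lt h).2.2.2 rfl)

theorem Won_false {u : Fams} {rg : ℕ → Bool} {k l : ℕ} :
    Won m false rg k u 0 l = 0 := by
  refine hsum_eq_zero _ _ fun z _ => ?_
  rw [if_neg, mul_zero]
  intro h
  have := (vsh_on_lt h).2.2.1 rfl
  simp at this

end Pool.Agent.H41.GL
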