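import Pool.Agent.H41.GL.Laws

/-!
# The concrete family of masses (from hazards) and the 70-state forward recursion (statements)

A child is of one of the types `W` (waiting), `A` (on since time `0`), `Y` (old on), `X` (new on), `E`
(ended).  In slot `i`, for a parent of class `κ`, the types move, one after the other, as follows:
`A → E` with probability `a κ i`, `Y → E` with probability `y κ i`, `X → E` with probability `x κ i`
(drops), then `X → Y` with probability `la κ i`, then `W → X` with probability `al κ i`; finally, if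
the parent is on since time `k = i + 1 ≤ m`, all `X` become `Y`.
For a parent on since time `k` the class is `m + 1` (parent not on) in the slots `i < k`, and `k` in
the slots `i ≥ k`.
-/

namespace Pool.Agent.H41.GL

open Finset

/-- hazards, as functions of the class and the slot -/
structure Haz where
  a : ℕ → ℕ → ℝ
  x : ℕ → ℕ → ℝ
  y : ℕ → ℕ → ℝ
  la : ℕ → ℕ → ℝ
  al : ℕ → ℕ → ℝ

/-- class relevant in slot `i` for a parent on since time `k` -/
def par (m k i : ℕ) : ℕ := if i < k then m + 1 else k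

/-- mass of waiting at time `i`, for a parent on since time `k` -/
noncomputable def Wm (m : ℕ) (p0 : ℝ) (H : Haz) (k : ℕ) : ℕ → ℝ
  | 0 => 1 - p0
  | i + 1 => Wm m p0 H k i * (1 - H.al (par m k i) i)

/-- masses of the types `X` and `Y` at time `c + j`, of a child on since time `c ≥ 1` -/
noncomputable def XY (m : ℕ) (p0 : ℝ) (H : Haz) (k c : ℕ) : ℕ → ℝ × ℝ
  | 0 =>
      let s := Wm m p0 H k (c - 1) * H.al (par m k (c - 1)) (c - 1)
      if c = k then (0, s) else (s, 0)
  | j + 1 =>
      let i := c + j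
      let κ := par m k i
      let X1 := (XY m p0 H k c j).1 * (1 - H.x κ i)
      let Y1 := (XY m p0 H k c j).2 * (1 - H.y κ i)
      let X2 := X1 * (1 - H.la κ i)
      let Y2 := Y1 + X1 * H.la κ i
      if i + 1 = k ∧ k ≤ m then (0, X2 + Y2) else (X2, Y2)

/-- mass of type `A` at time `l` -/
noncomputable def Am (m : ℕ) (p0 : ℝ) (H : Haz) (k : ℕ) : ℕ → ℝ
  | 0 => p0
  | i + 1 => Am m p0 H k i * (1 - H.a (par m k i) i)

/-- the family of masses defined by the hazards -/
noncomputable def UH (m : ℕ) (p0 : ℝ) (H : Haz) (k c l : ℕ) : ℝ :=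
  if c = 0 then Am m p0 H k l
  else if c ≤ m then (XY m p0 H k c (l - c)).1 + (XY m p0 H k c (l - c)).2 else 0

/-- hazards are probabilities; nobody starts in the last slot -/
structure IsHaz (m : ℕ) (H : Haz) : Prop where
  a01 : ∀ κ i, 0 ≤ H.a κ i ∧ H.a κ i ≤ 1
  x01 : ∀ κ i, 0 ≤ H.x κ i ∧ H.x κ i ≤ 1
  y01 : ∀ κ i, 0 ≤ H.y κ i ∧ H.y κ i ≤ 1
  la01 : ∀ κ i, 0 ≤ H.la κ i ∧ H.la κ i ≤ 1
  al01 : ∀ κ i, 0 ≤ H.al κ i ∧ H.al κ i ≤ 1
  alm : ∀ κ, H.al κ m = 0

/-! ### vectors indexed by the numbers `(w, a, y, x)` of children of the types `W, A, Y, X` -/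

/-- mass of the children configurations with `w, a, y, x` children of types `W, A, Y, X` -/
abbrev Cnt : Type := ℕ → ℕ → ℕ → ℕ → ℝ

noncomputable def mvA (q : ℝ) (f : Cnt) : Cnt := fun w a y x =>
  ∑ u ∈ range (5 - (w + a + y + x)), ((a + u).choose a : ℝ) * (1 - q) ^ a * q ^ u * f w (a + u) y x

noncomputable def mvY (q : ℝ) (f : Cnt) : Cnt := fun w a y x =>
  ∑ u ∈ range (5 - (w + a + y + x)), ((y + u).choose y : ℝ) * (1 - q) ^ y * q ^ u * f w a (y + u) x

noncomputable def mvX (q : ℝ) (f : Cnt) : Cnt := fun w a y x =>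
  ∑ u ∈ range (5 - (w + a + y + x)), ((x + u).choose x : ℝ) * (1 - q) ^ x * q ^ u * f w a y (x + u)

noncomputable def mvXY (q : ℝ) (f : Cnt) : Cnt := fun w a y x =>
  ∑ u ∈ range (y + 1), ((x + u).choose x : ℝ) * (1 - q) ^ x * q ^ u * f w a (y - u) (x + u)

noncomputable def mvWX (q : ℝ) (f : Cnt) : Cnt := fun w a y x =>
  ∑ u ∈ range (x + 1), ((w + u).choose w : ℝ) * (1 - q) ^ w * q ^ u * f (w + u) a y (x - u)

/-- the three drop moves of slot `i` for children of a parent of class `κ` -/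
noncomputable def drp (H : Haz) (κ i : ℕ) (f : Cnt) : Cnt :=
  mvX (H.x κ i) (mvY (H.y κ i) (mvA (H.a κ i) f))

/-- number of children needed on in slot `i` when the parent is on since `k` -/
def thr (k i : ℕ) : ℕ := if k ≤ i then 2 else 3

/-- multiply the entries with at least `t` children on by `s` and the others by `s'` -/
noncomputable def fac (t : ℕ) (s s' : ℝ) (f : Cnt) : Cnt := fun w a y x =>
  if t ≤ a + y + x then s * f w a y x else s' * f w a y x

/-- ring probabilities, `1` in the last slot -/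
noncomputable def rr (m : ℕ) (r : ℕ → ℝ) (i : ℕ) : ℝ := if i < m then r i else 1

/-- initial vector -/
noncomputable def ini (p0 : ℝ) : Cnt := fun w a y x =>
  if w + a = 4 ∧ y = 0 ∧ x = 0 then ((4 : ℕ).choose a : ℝ) * p0 ^ a * (1 - p0) ^ w else 0

/-- vector of the children at time `i`, on the event that the vertex is still waiting -/
noncomputable def WV (m : ℕ) (p0 : ℝ) (r : ℕ → ℝ) (H : Haz) (k : ℕ) : ℕ → Cnt
  | 0 => ini p0
  | i + 1 => mvWX (H.al (m + 1) i) (mvXY (H.la (m + 1) i)
      (fac (thr k i) (1 - r i) 1 (drp H (m + 1) i (WV m p0 r H k i))))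

/-- vector of the children at time `c + j`, on the event that the vertex is on at the times
`c, ..., c + j` -/
noncomputable def OV (m : ℕ) (p0 : ℝ) (r : ℕ → ℝ) (H : Haz) (k c : ℕ) : ℕ → Cnt
  | 0 => if c = 0 then ini p0 else
      mvXY 1 (mvWX (H.al (m + 1) (c - 1)) (mvXY (H.la (m + 1) (c - 1))
        (fac (thr k (c - 1)) (r (c - 1)) 0 (drp H (m + 1) (c - 1) (WV m p0 r H k (c - 1))))))
  | j + 1 =>
      mvWX (H.al c (c + j)) (mvXY (H.la c (c + j))
        (fac (thr k (c + j)) 1 (1 - rr m r (c + j)) (drp H c (c + j) (OV m p0 r H k c j))))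

/-- total mass -/
noncomputable def tot (f : Cnt) : ℝ :=
  ∑ w ∈ range 5, ∑ a ∈ range 5, ∑ y ∈ range 5, ∑ x ∈ range 5, f w a y x

/-- Statement of module GL-FWD, part 1. -/
def FamThm : Prop :=
  ∀ (m : ℕ) (p0 : ℝ) (H : Haz), 0 < p0 → p0 < 1 → IsHaz m H → IsFam m (UH m p0 H)

/-- Statement of module GL-FWD, part 2: the 70-state forward recursion computes `SU`. -/
def FwdThm : Prop :=
  ∀ (m : ℕ) (p0 : ℝ) (r : ℕ → ℝ) (H : Haz), 0 < p0 → p0 < 1 → (∀ i, 0 < r i ∧ r i < 1) → IsHaz m H →
    ∀ k c l, k ≤ m + 1 → c ≤ m → c ≤ l → l ≤ m + 1 →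
      SU m p0 r (UH m p0 H) k c l =
        (if c = 0 then p0 else 1 - p0) * tot (OV m p0 r H k c (l - c))

end Pool.Agent.H41.GL
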