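import Pool.Agent.H41.GL.Lane

/-!
# Soundness of the packed checks
-/

namespace Pool.Agent.H41.GL

open Finset

/-- slot `i` of a certificate -/
def slt (L : List Slot) (i : ℕ) : Slot := L.getD i ⟨0, 0, 0, 0, 0, 0, 0, 0, 0, 0, 0⟩

/-- the hazards of a certificate -/
noncomputable def HL (L : List Slot) : Haz where
  a κ i := (fld κ (slt L i).ea : ℝ) / DD
  x κ i := ((if κ = 0 then (slt L i).x0 else if κ = 137 then (slt L i).xi
    else fld κ (slt L i).ex : ℕ) : ℝ) / DD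
  y κ i := ((if κ = 0 then (slt L i).y0 else if κ = 137 then (slt L i).yi
    else fld κ (slt L i).ey : ℕ) : ℝ) / DD
  la κ i := ((if κ = 0 then (slt L i).l0 else if κ = 137 then (slt L i).li else 0 : ℕ) : ℝ) / DD
  al κ i := (fld κ (slt L i).al : ℝ) / DD

/-- ring probabilities of a certificate -/
noncomputable def rL (L : List Slot) (i : ℕ) : ℝ := if i < 136 then ((slt L i).R : ℝ) / DD else 1 / 2

/-- conditions on a slot -/
structure GoodSlot (l : ℕ) (s : Slot) : Prop where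
  hR : s.R ≤ DD
  hRm : l < 136 → 0 < s.R ∧ s.R < DD
  hRf : l = 136 → s.R = DD
  wa : s.ea < 2 ^ (144 * 138)
  wx : s.ex < 2 ^ (144 * 138)
  wy : s.ey < 2 ^ (144 * 138)
  wal : s.al < 2 ^ (144 * 138)
  fa : ∀ k < 138, fld k s.ea ≤ DD
  fx : ∀ k < 138, fld k s.ex ≤ DD
  fy : ∀ k < 138, fld k s.ey ≤ DD
  fal : ∀ k < 138, fld k s.al ≤ DD
  pa : ∀ k < 138, fld k s.ea = fld (par 136 k l) s.ea
  pal : ∀ k < 138, fld k s.al = fld (par 136 k l) s.al
  x0 : s.x0 ≤ DD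
  y0 : s.y0 ≤ DD
  l0 : s.l0 ≤ DD
  xi : s.xi ≤ DD
  yi : s.yi ≤ DD
  li : s.li ≤ DD
  a0 : fld 0 s.ea < DD
  fin : l = 136 → s.xi = DD ∧ s.yi = DD ∧ s.al = 0

/-- conditions on a certificate -/
def GoodSlots (L : List Slot) : Prop := L.length = 137 ∧ ∀ l < 137, GoodSlot l (slt L l)

theorem drop_eq {L : List Slot} (hL : L.length = 137) (l : ℕ) (hl : l < 137) :
    L.drop l = slt L l :: L.drop (l + 1) := by
  rw [List.drop_eq_getElem_cons (by omega : l < L.length)]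
  unfold slt
  rw [List.getD_eq_getElem _ _ (by omega : l < L.length)]

theorem DD_pos : (0 : ℝ) < DD := by unfold DD; norm_num

theorem rr_eq {L : List Slot} (h : GoodSlots L) (i : ℕ) (hi : i ≤ 136) :
    rr 136 (rL L) i = ((slt L i).R : ℝ) / DD := by
  unfold rr rL
  by_cases h1 : i < 136
  · rw [if_pos h1, if_pos h1]
  · have h2 : i = 136 := by omega
    subst h2
    rw [if_neg h1, (h.2 136 (by norm_num)).hRf rfl, DD_div]

theorem mvXY_zero (f : Cnt) : mvXY 0 f = f := by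
  funext w a y x
  unfold mvXY
  rw [Finset.sum_eq_single 0]
  · simp
  · intro u _ hu
    rw [zero_pow hu]; ring
  · intro h
    exact absurd (Finset.mem_range.2 (Nat.succ_pos y)) h

/-! ### unfolding the runs -/

/-- vector after one slot, for a vertex on since `c ≥ 1` -/
def stOn (c l : ℕ) (s : Slot) (v : CN) : CN :=
  mWX (tr80 M80) (cf (fld c s.al)) (fcP M20 (low l) (Nat.sub DD s.R)
    (mX (tr80 M80) (cf (fld c s.ex)) (mY (tr80 M80) (cf (fld c s.ey))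
      (mA (tr80 M80) (cf (fld c s.ea)) v))))

theorem onRun_cons (c : ℕ) (s : Slot) (ss : List Slot) (l S0 m0 m1 g0 g1 : ℕ) :
    onRun c (s :: ss) l S0 m0 m1 g0 g1 =
      cA (fld c s.ea) (cY (fld c s.ey) (cX (fld c s.ex)
        (kF M20 (low l) (Nat.sub DD s.R) (cWX (fld c s.al) (kSum fun S1 =>
          kGuard (chkE S0 S1 (mixE c s.ex s.ey)) (kGuard (chkH 0 S0 S1 m0 m1 s.x0 s.y0)
            (kGuard (chkH 137 S0 S1 g0 g1 s.xi s.yi)
              (onRun c ss (Nat.succ l) S1 (nM0 m0 s.x0 s.l0) (nM1 m0 m1 s.x0 s.y0 s.l0)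
                (nM0 g0 s.xi s.li) (nM1 g0 g1 s.xi s.yi s.li))))))))) := rfl

theorem onRun_app (c : ℕ) (s : Slot) (ss : List Slot) (l S0 m0 m1 g0 g1 : ℕ) (v : CN)
    (h : app (onRun c (s :: ss) l S0 m0 m1 g0 g1) v = true) :
    chkE S0 (tot4N (stOn c l s v)) (mixE c s.ex s.ey) = true ∧
    chkH 0 S0 (tot4N (stOn c l s v)) m0 m1 s.x0 s.y0 = true ∧
    chkH 137 S0 (tot4N (stOn c l s v)) g0 g1 s.xi s.yi = true ∧
    app (onRun c ss (Nat.succ l) (tot4N (stOn c l s v)) (nM0 m0 s.x0 s.l0)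
      (nM1 m0 m1 s.x0 s.y0 s.l0) (nM0 g0 s.xi s.li) (nM1 g0 g1 s.xi s.yi s.li))
      (stOn c l s v) = true := by
  rw [onRun_cons, cA_eq, cY_eq, cX_eq, kF_eq, cWX_eq, kSum_eq, kGuard_eq, kGuard_eq, kGuard_eq] at h
  change cond (chkE S0 (tot4N (stOn c l s v)) (mixE c s.ex s.ey)) (cond
    (chkH 0 S0 (tot4N (stOn c l s v)) m0 m1 s.x0 s.y0) (cond
    (chkH 137 S0 (tot4N (stOn c l s v)) g0 g1 s.xi s.yi)
    (app (onRun c ss (Nat.succ l) (tot4N (stOn c l s v)) (nM0 m0 s.x0 s.l0)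
      (nM1 m0 m1 s.x0 s.y0 s.l0) (nM0 g0 s.xi s.li) (nM1 g0 g1 s.xi s.yi s.li))
      (stOn c l s v)) false) false) false = true at h
  revert h
  generalize chkE S0 (tot4N (stOn c l s v)) (mixE c s.ex s.ey) = b1
  generalize chkH 0 S0 (tot4N (stOn c l s v)) m0 m1 s.x0 s.y0 = b2
  generalize chkH 137 S0 (tot4N (stOn c l s v)) g0 g1 s.xi s.yi = b3
  generalize app (onRun c ss (Nat.succ l) (tot4N (stOn c l s v)) (nM0 m0 s.x0 s.l0)
      (nM1 m0 m1 s.x0 s.y0 s.l0) (nM0 g0 s.xi s.li) (nM1 g0 g1 s.xi s.yi s.li))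
      (stOn c l s v) = b4
  revert b1 b2 b3 b4
  decide

/-- vector after one slot, for a vertex on since `0` -/
def stZ (l : ℕ) (s : Slot) (v : CN) : CN :=
  mWX (tr80 M80) (cf (fld 0 s.al)) (mXY (tr80 M80) (cf s.l0) (fcP M20 (low l) (Nat.sub DD s.R)
    (mX (tr80 M80) (cf s.x0) (mY (tr80 M80) (cf s.y0)
      (mA (tr80 M80) (cf (fld 0 s.ea)) v)))))

theorem zRun_cons (s : Slot) (ss : List Slot) (l S0 : ℕ) :
    zRun (s :: ss) l S0 =
      cA (fld 0 s.ea) (cY s.y0 (cX s.x0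
        (kF M20 (low l) (Nat.sub DD s.R) (cXY s.l0 (cWX (fld 0 s.al) (kSum fun S1 =>
          kGuard (chkE S0 S1 s.ea) (zRun ss (Nat.succ l) S1))))))) := rfl

theorem zRun_app (s : Slot) (ss : List Slot) (l S0 : ℕ) (v : CN)
    (h : app (zRun (s :: ss) l S0) v = true) :
    chkE S0 (tot4N (stZ l s v)) s.ea = true ∧
    app (zRun ss (Nat.succ l) (tot4N (stZ l s v))) (stZ l s v) = true := by
  rw [zRun_cons, cA_eq, cY_eq, cX_eq, kF_eq, cXY_eq, cWX_eq, kSum_eq, kGuard_eq] at h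
  change cond (chkE S0 (tot4N (stZ l s v)) s.ea)
    (app (zRun ss (Nat.succ l) (tot4N (stZ l s v))) (stZ l s v)) false = true at h
  revert h
  generalize chkE S0 (tot4N (stZ l s v)) s.ea = b1
  generalize app (zRun ss (Nat.succ l) (tot4N (stZ l s v))) (stZ l s v) = b2
  revert b1 b2
  decide

/-- vector after the drops, for a waiting vertex -/
def stD (s : Slot) (v : CN) : CN :=
  mX (tr80 M80) (cf s.xi) (mY (tr80 M80) (cf s.yi) (mA (tr80 M80) (cf (fld 137 s.ea)) v))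

/-- vector after one slot, still waiting -/
def stW (i : ℕ) (s : Slot) (v : CN) : CN :=
  mWX (tr80 M80) (cf (fld 137 s.al)) (mXY (tr80 M80) (cf s.li)
    (spR M20 (low i) (Nat.sub DD s.R) (stD s v)))

/-- vector after one slot, started -/
def stS (i : ℕ) (s : Slot) (v : CN) : CN :=
  rlb (mWX (tr80 M80) (cf (fld 137 s.al)) (mXY (tr80 M80) (cf s.li)
    (spZ M20 (low i) s.R (stD s v))))

theorem wRun_cons (lo hi : ℕ) (s : Slot) (ss : List Slot) (i om : ℕ) :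
    wRun lo hi (s :: ss) i om =
      cA (fld 137 s.ea) (cY s.yi (cX s.xi (kBoth
        (kZ M20 (low i) s.R (cXY s.li (cWX (fld 137 s.al) (kR (kSum fun S =>
          kGuard (geAll (Nat.mul S DD) (pmul om s.al))
            (cond (Nat.ble lo (Nat.succ i)) (onRun (Nat.succ i) ss (Nat.succ i) S 1 0 1 0) kTrue))))))
        (kRst M20 (low i) (Nat.sub DD s.R) (cXY s.li (cWX (fld 137 s.al) (kSum fun S' =>
          kGuard (Nat.ble 0 S')
            (cond (Nat.ble hi (Nat.succ i)) kTrue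
              (wRun lo hi ss (Nat.succ i) (nOm om (pmul om s.al))))))))))) := rfl

theorem wRun_app (lo hi : ℕ) (s : Slot) (ss : List Slot) (i om : ℕ) (v : CN)
    (h : app (wRun lo hi (s :: ss) i om) v = true) :
    geAll (Nat.mul (tot4N (stS i s v)) DD) (pmul om s.al) = true ∧
    (lo ≤ i + 1 →
      app (onRun (Nat.succ i) ss (Nat.succ i) (tot4N (stS i s v)) 1 0 1 0) (stS i s v) = true) ∧
    (i + 1 < hi → app (wRun lo hi ss (Nat.succ i) (nOm om (pmul om s.al))) (stW i s v) = true) := by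
  rw [wRun_cons, cA_eq, cY_eq, cX_eq, kBoth_eq, kZ_eq, cXY_eq, cWX_eq, kR_eq, kSum_eq, kGuard_eq,
    kRst_eq, cXY_eq, cWX_eq, kSum_eq, kGuard_eq] at h
  change cond (cond (geAll (Nat.mul (tot4N (stS i s v)) DD) (pmul om s.al))
      (app (cond (Nat.ble lo (Nat.succ i))
        (onRun (Nat.succ i) ss (Nat.succ i) (tot4N (stS i s v)) 1 0 1 0) kTrue) (stS i s v)) false)
    (cond (Nat.ble 0 (tot4N (stW i s v))) (app (cond (Nat.ble hi (Nat.succ i)) kTrue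
      (wRun lo hi ss (Nat.succ i) (nOm om (pmul om s.al)))) (stW i s v)) false) false = true at h
  have h0 : Nat.ble 0 (tot4N (stW i s v)) = true := Nat.ble_eq_true_of_le (Nat.zero_le _)
  rw [h0, cond_true] at h
  refine ⟨?_, ?_, ?_⟩
  · revert h
    generalize geAll (Nat.mul (tot4N (stS i s v)) DD) (pmul om s.al) = b1
    cases b1 <;> simp
  · intro hlo
    have h1 : Nat.ble lo (Nat.succ i) = true := Nat.ble_eq_true_of_le hlo
    rw [h1, cond_true] at h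
    revert h
    generalize geAll (Nat.mul (tot4N (stS i s v)) DD) (pmul om s.al) = b1
    generalize app (onRun (Nat.succ i) ss (Nat.succ i) (tot4N (stS i s v)) 1 0 1 0) (stS i s v) = b2
    cases b1 <;> cases b2 <;> simp
  · intro hhi
    have h1 : Nat.ble hi (Nat.succ i) = false := by
      rw [Bool.eq_false_iff]; intro hh
      have := Nat.le_of_ble_eq_true hh
      omega
    rw [h1, cond_false] at h
    revert h
    generalize app (wRun lo hi ss (Nat.succ i) (nOm om (pmul om s.al))) (stW i s v) = b3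
    cases b3
    · intro h
      simp at h
    · simp

/-! ### the checks -/

theorem chkE_spec (t0 t1 ee : ℕ → ℕ) (h0 : ∀ k < 138, t0 k ≤ 2 ^ 60) (h1 : ∀ k < 138, t1 k ≤ 2 ^ 60)
    (he : ∀ k < 138, ee k ≤ DD) (h : chkE (pk t0) (pk t1) (pk ee) = true) :
    ∀ k < 138, (t0 k + EPS) * DD ≤ t1 k * DD + (t0 k + EPS) * ee k := by
  unfold chkE at h
  have hs : Nat.add (pk t0) EP = pk fun k => t0 k + EPS := by
    rw [EP_eq, Nat.add_eq, pk_add]
  have hE : EPS < 2 ^ 18 := by unfold EPS; norm_num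
  have hD : DD = 2 ^ 20 := by unfold DD; norm_num
  rw [hs, pmul_spec, Nat.mul_eq, Nat.mul_eq, pk_mul', pk_mul', Nat.add_eq, pk_add] at h
  · refine geAll_spec _ _ ?_ ?_ h
    · intro k hk
      have a1 : t1 k * DD ≤ 2 ^ 60 * 2 ^ 20 := by rw [hD]; exact Nat.mul_le_mul_right _ (h1 k hk)
      have a2 : (t0 k + EPS) * ee k ≤ (2 ^ 60 + 2 ^ 18) * 2 ^ 20 :=
        Nat.mul_le_mul (by have := h0 k hk; omega) (by have := he k hk; omega)
      calc t1 k * DD + (t0 k + EPS) * ee k ≤ 2 ^ 60 * 2 ^ 20 + (2 ^ 60 + 2 ^ 18) * 2 ^ 20 :=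
            Nat.add_le_add a1 a2
        _ < 2 ^ 143 := by norm_num
    · intro k hk
      calc (t0 k + EPS) * DD ≤ (2 ^ 60 + 2 ^ 18) * 2 ^ 20 :=
            Nat.mul_le_mul (by have := h0 k hk; omega) (by omega)
        _ < 2 ^ 143 := by norm_num
  · intro k hk
    have := h0 k hk
    calc t0 k + EPS ≤ 2 ^ 60 + 2 ^ 18 := by omega
      _ < 2 ^ 144 := by norm_num
  · intro k hk
    have := he k hk
    rw [hD] at this
    calc ee k ≤ 2 ^ 20 := this
      _ < 2 ^ 21 := by norm_num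

/-- real inequality from the check of a one-stage class -/
theorem ratio_E {t0 t1 ee : ℕ} {e T0 T1 : ℝ} (h : (t0 + EPS) * DD ≤ t1 * DD + (t0 + EPS) * ee)
    (hee : ee ≤ DD) (h0 : 2 ^ 60 * T0 ≤ t0 + e) (he : e ≤ EPS) (h1 : (t1 : ℝ) ≤ 2 ^ 60 * T1) :
    (1 - (ee : ℝ) / DD) * T0 ≤ T1 := by
  have hD := DD_pos
  have h2 : ((t0 : ℝ) + EPS) * DD ≤ t1 * DD + (t0 + EPS) * ee := by exact_mod_cast h
  have h3 : (1 - (ee : ℝ) / DD) * ((t0 : ℝ) + EPS) ≤ t1 := by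
    have h4 : (1 - (ee : ℝ) / DD) * ((t0 : ℝ) + EPS) * DD =
        ((t0 : ℝ) + EPS) * DD - (t0 + EPS) * ee := by field_simp
    have h5 : (1 - (ee : ℝ) / DD) * ((t0 : ℝ) + EPS) * DD ≤ t1 * DD := by rw [h4]; linarith
    exact le_of_mul_le_mul_right h5 hD
  have h6 : 0 ≤ 1 - (ee : ℝ) / DD := by
    have := (frac01 hee).2
    linarith
  have h7 : (1 - (ee : ℝ) / DD) * (2 ^ 60 * T0) ≤ (1 - (ee : ℝ) / DD) * ((t0 : ℝ) + EPS) :=
    mul_le_mul_of_nonneg_left (by linarith) h6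
  have h8 : (2 : ℝ) ^ 60 * ((1 - (ee : ℝ) / DD) * T0) ≤ 2 ^ 60 * T1 := by
    calc (2 : ℝ) ^ 60 * ((1 - (ee : ℝ) / DD) * T0) = (1 - (ee : ℝ) / DD) * (2 ^ 60 * T0) := by ring
      _ ≤ (t1 : ℝ) := h7.trans h3
      _ ≤ _ := h1
  exact le_of_mul_le_mul_left h8 (by positivity)

/-- real inequality from the check of a two-stage class -/
theorem ratio_H {t0 t1 m0 m1 x y : ℕ} {e T0 T1 τ : ℝ}
    (h : (t0 + EPS) * (m0 * (DD - x) + m1 * (DD - y)) ≤ t1 * (m0 + m1) * DD)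
    (hx : x ≤ DD) (hy : y ≤ DD) (hτ : 0 ≤ τ)
    (h0 : 2 ^ 60 * T0 ≤ t0 + e) (he : e ≤ EPS) (h1 : (t1 : ℝ) ≤ 2 ^ 60 * T1) :
    (τ * m0 * (1 - (x : ℝ) / DD) + τ * m1 * (1 - (y : ℝ) / DD)) * T0 ≤ (τ * m0 + τ * m1) * T1 := by
  have hD := DD_pos
  have h2 : ((t0 : ℝ) + EPS) * (m0 * ((DD : ℝ) - x) + m1 * ((DD : ℝ) - y)) ≤
      t1 * (m0 + m1) * DD := by
    have h3 : (((t0 + EPS) * (m0 * (DD - x) + m1 * (DD - y)) : ℕ) : ℝ) ≤
        ((t1 * (m0 + m1) * DD : ℕ) : ℝ) := by exact_mod_cast h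
    push_cast [Nat.cast_sub hx, Nat.cast_sub hy] at h3
    exact h3
  have hx1 := (frac01 hx).2
  have hy1 := (frac01 hy).2
  have h6 : 0 ≤ (m0 : ℝ) * (1 - (x : ℝ) / DD) + m1 * (1 - (y : ℝ) / DD) := by
    have a1 : (0 : ℝ) ≤ 1 - (x : ℝ) / DD := by linarith
    have a2 : (0 : ℝ) ≤ 1 - (y : ℝ) / DD := by linarith
    positivity
  have h7 : ((m0 : ℝ) * (1 - (x : ℝ) / DD) + m1 * (1 - (y : ℝ) / DD)) * ((t0 : ℝ) + EPS) ≤
      t1 * (m0 + m1) := by
    have h4 : ((m0 : ℝ) * (1 - (x : ℝ) / DD) + m1 * (1 - (y : ℝ) / DD)) * ((t0 : ℝ) + EPS) * DD =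
        ((t0 : ℝ) + EPS) * (m0 * ((DD : ℝ) - x) + m1 * ((DD : ℝ) - y)) := by field_simp
    have h5 : ((m0 : ℝ) * (1 - (x : ℝ) / DD) + m1 * (1 - (y : ℝ) / DD)) * ((t0 : ℝ) + EPS) * DD ≤
        t1 * (m0 + m1) * DD := by rw [h4]; exact h2
    exact le_of_mul_le_mul_right h5 hD
  have h8 : ((m0 : ℝ) * (1 - (x : ℝ) / DD) + m1 * (1 - (y : ℝ) / DD)) * (2 ^ 60 * T0) ≤
      (2 ^ 60 * T1) * (m0 + m1) := by
    calc ((m0 : ℝ) * (1 - (x : ℝ) / DD) + m1 * (1 - (y : ℝ) / DD)) * (2 ^ 60 * T0)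
        ≤ ((m0 : ℝ) * (1 - (x : ℝ) / DD) + m1 * (1 - (y : ℝ) / DD)) * ((t0 : ℝ) + EPS) :=
          mul_le_mul_of_nonneg_left (by linarith) h6
      _ ≤ t1 * (m0 + m1) := h7
      _ ≤ _ := mul_le_mul_of_nonneg_right h1 (by positivity)
  have h9 : ((m0 : ℝ) * (1 - (x : ℝ) / DD) + m1 * (1 - (y : ℝ) / DD)) * T0 ≤ T1 * (m0 + m1) := by
    have h10 : 2 ^ 60 * (((m0 : ℝ) * (1 - (x : ℝ) / DD) + m1 * (1 - (y : ℝ) / DD)) * T0) ≤
        2 ^ 60 * (T1 * (m0 + m1)) := by linarith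
    exact le_of_mul_le_mul_left h10 (by positivity)
  have h11 := mul_le_mul_of_nonneg_left h9 hτ
  calc (τ * m0 * (1 - (x : ℝ) / DD) + τ * m1 * (1 - (y : ℝ) / DD)) * T0
      = τ * (((m0 : ℝ) * (1 - (x : ℝ) / DD) + m1 * (1 - (y : ℝ) / DD)) * T0) := by ring
    _ ≤ τ * (T1 * (m0 + m1)) := h11
    _ = _ := by ring

theorem chkH_spec {k S0 S1 m0 m1 x y : ℕ} (h : chkH k S0 S1 m0 m1 x y = true) :
    (fld k S0 + EPS) * (m0 * (DD - x) + m1 * (DD - y)) ≤ fld k S1 * (m0 + m1) * DD :=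
  Nat.le_of_ble_eq_true h

/-- lanes of `mixE` -/
theorem mixE_eq {c ex ey : ℕ} (hc : 1 ≤ c) (hx : ex < 2 ^ (144 * 138)) (hy : ey < 2 ^ (144 * 138)) :
    mixE c ex ey = pk fun k => if k < c then fld k ex else fld k ey := by
  unfold mixE
  have h1 := land_low (fun k => fld k ex) (fun k _ => fld_lt k ex) (Nat.pred c)
  have h2 := sub_low (fun k => fld k ey) (fun k _ => fld_lt k ey) (Nat.pred c)
  rw [← eq_pk ex hx] at h1
  rw [← eq_pk ey hy] at h2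
  rw [h1, h2, Nat.add_eq, pk_add]
  refine pk_congr fun k _ => ?_
  have h3 : (k ≤ Nat.pred c) ↔ k < c := by rw [Nat.pred_eq_sub_one]; omega
  simp only [h3]
  split_ifs <;> simp

end Pool.Agent.H41.GL
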