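import Pool.Agent.H41.GL.Vec

/-!
# Straight-line code for the packed recursion (generated)
-/

namespace Pool.Agent.H41.GL

set_option linter.all false

/-- functions of 70 numbers -/
abbrev K70 : Type := ℕ → ℕ → ℕ → ℕ → ℕ → ℕ → ℕ → ℕ → ℕ → ℕ → ℕ → ℕ → ℕ → ℕ → ℕ → ℕ → ℕ → ℕ → ℕ → ℕ → ℕ → ℕ → ℕ → ℕ → ℕ → ℕ → ℕ → ℕ → ℕ → ℕ → ℕ → ℕ → ℕ → ℕ → ℕ → ℕ → ℕ → ℕ → ℕ → ℕ → ℕ → ℕ → ℕ → ℕ → ℕ → ℕ → ℕ → ℕ → ℕ → ℕ → ℕ → ℕ → ℕ → ℕ → ℕ → ℕ → ℕ → ℕ → ℕ → ℕ → ℕ → ℕ → ℕ → ℕ → ℕ → ℕ → ℕ → ℕ → ℕ → ℕ → Bool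

/-- apply to a vector -/
def app (k : K70) (v : CN) : Bool :=
  k (v 0 0 0 0) (v 0 0 0 1) (v 0 0 0 2) (v 0 0 0 3) (v 0 0 0 4) (v 0 0 1 0) (v 0 0 1 1) (v 0 0 1 2) (v 0 0 1 3) (v 0 0 2 0) (v 0 0 2 1) (v 0 0 2 2) (v 0 0 3 0) (v 0 0 3 1) (v 0 0 4 0) (v 0 1 0 0) (v 0 1 0 1) (v 0 1 0 2) (v 0 1 0 3) (v 0 1 1 0) (v 0 1 1 1) (v 0 1 1 2) (v 0 1 2 0) (v 0 1 2 1) (v 0 1 3 0) (v 0 2 0 0) (v 0 2 0 1) (v 0 2 0 2) (v 0 2 1 0) (v 0 2 1 1) (v 0 2 2 0) (v 0 3 0 0) (v 0 3 0 1) (v 0 3 1 0) (v 0 4 0 0) (v 1 0 0 0) (v 1 0 0 1) (v 1 0 0 2) (v 1 0 0 3) (v 1 0 1 0) (v 1 0 1 1) (v 1 0 1 2) (v 1 0 2 0) (v 1 0 2 1) (v 1 0 3 0) (v 1 1 0 0) (v 1 1 0 1) (v 1 1 0 2) (v 1 1 1 0) (v 1 1 1 1) (v 1 1 2 0) (v 1 2 0 0) (v 1 2 0 1) (v 1 2 1 0) (v 1 3 0 0) (v 2 0 0 0) (v 2 0 0 1) (v 2 0 0 2) (v 2 0 1 0) (v 2 0 1 1) (v 2 0 2 0) (v 2 1 0 0) (v 2 1 0 1) (v 2 1 1 0) (v 2 2 0 0) (v 3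 0 0 0) (v 3 0 0 1) (v 3 0 1 0) (v 3 1 0 0) (v 4 0 0 0)

def kA (M t00 t01 t02 t03 t04 t10 t11 t12 t13 t20 t21 t22 t30 t31 t40 : ℕ) (k : K70) : K70 := fun x0 x1 x2 x3 x4 x5 x6 x7 x8 x9 x10 x11 x12 x13 x14 x15 x16 x17 x18 x19 x20 x21 x22 x23 x24 x25 x26 x27 x28 x29 x30 x31 x32 x33 x34 x35 x36 x37 x38 x39 x40 x41 x42 x43 x44 x45 x46 x47 x48 x49 x50 x51 x52 x53 x54 x55 x56 x57 x58 x59 x60 x61 x62 x63 x64 x65 x66 x67 x68 x69 =>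
  k
    (tr80 M (Nat.add (Nat.add (Nat.add (Nat.add (Nat.mul t00 x0) (Nat.mul t01 x15)) (Nat.mul t02 x25)) (Nat.mul t03 x31)) (Nat.mul t04 x34)))
    (tr80 M (Nat.add (Nat.add (Nat.add (Nat.mul t00 x1) (Nat.mul t01 x16)) (Nat.mul t02 x26)) (Nat.mul t03 x32)))
    (tr80 M (Nat.add (Nat.add (Nat.mul t00 x2) (Nat.mul t01 x17)) (Nat.mul t02 x27)))
    (tr80 M (Nat.add (Nat.mul t00 x3) (Nat.mul t01 x18)))
    (tr80 M (Nat.mul t00 x4))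
    (tr80 M (Nat.add (Nat.add (Nat.add (Nat.mul t00 x5) (Nat.mul t01 x19)) (Nat.mul t02 x28)) (Nat.mul t03 x33)))
    (tr80 M (Nat.add (Nat.add (Nat.mul t00 x6) (Nat.mul t01 x20)) (Nat.mul t02 x29)))
    (tr80 M (Nat.add (Nat.mul t00 x7) (Nat.mul t01 x21)))
    (tr80 M (Nat.mul t00 x8))
    (tr80 M (Nat.add (Nat.add (Nat.mul t00 x9) (Nat.mul t01 x22)) (Nat.mul t02 x30)))
    (tr80 M (Nat.add (Nat.mul t00 x10) (Nat.mul t01 x23)))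
    (tr80 M (Nat.mul t00 x11))
    (tr80 M (Nat.add (Nat.mul t00 x12) (Nat.mul t01 x24)))
    (tr80 M (Nat.mul t00 x13))
    (tr80 M (Nat.mul t00 x14))
    (tr80 M (Nat.add (Nat.add (Nat.add (Nat.mul t10 x15) (Nat.mul t11 x25)) (Nat.mul t12 x31)) (Nat.mul t13 x34)))
    (tr80 M (Nat.add (Nat.add (Nat.mul t10 x16) (Nat.mul t11 x26)) (Nat.mul t12 x32)))
    (tr80 M (Nat.add (Nat.mul t10 x17) (Nat.mul t11 x27)))
    (tr80 M (Nat.mul t10 x18))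
    (tr80 M (Nat.add (Nat.add (Nat.mul t10 x19) (Nat.mul t11 x28)) (Nat.mul t12 x33)))
    (tr80 M (Nat.add (Nat.mul t10 x20) (Nat.mul t11 x29)))
    (tr80 M (Nat.mul t10 x21))
    (tr80 M (Nat.add (Nat.mul t10 x22) (Nat.mul t11 x30)))
    (tr80 M (Nat.mul t10 x23))
    (tr80 M (Nat.mul t10 x24))
    (tr80 M (Nat.add (Nat.add (Nat.mul t20 x25) (Nat.mul t21 x31)) (Nat.mul t22 x34)))
    (tr80 M (Nat.add (Nat.mul t20 x26) (Nat.mul t21 x32)))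
    (tr80 M (Nat.mul t20 x27))
    (tr80 M (Nat.add (Nat.mul t20 x28) (Nat.mul t21 x33)))
    (tr80 M (Nat.mul t20 x29))
    (tr80 M (Nat.mul t20 x30))
    (tr80 M (Nat.add (Nat.mul t30 x31) (Nat.mul t31 x34)))
    (tr80 M (Nat.mul t30 x32))
    (tr80 M (Nat.mul t30 x33))
    (tr80 M (Nat.mul t40 x34))
    (tr80 M (Nat.add (Nat.add (Nat.add (Nat.mul t00 x35) (Nat.mul t01 x45)) (Nat.mul t02 x51)) (Nat.mul t03 x54)))
    (tr80 M (Nat.add (Nat.add (Nat.mul t00 x36) (Nat.mul t01 x46)) (Nat.mul t02 x52)))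
    (tr80 M (Nat.add (Nat.mul t00 x37) (Nat.mul t01 x47)))
    (tr80 M (Nat.mul t00 x38))
    (tr80 M (Nat.add (Nat.add (Nat.mul t00 x39) (Nat.mul t01 x48)) (Nat.mul t02 x53)))
    (tr80 M (Nat.add (Nat.mul t00 x40) (Nat.mul t01 x49)))
    (tr80 M (Nat.mul t00 x41))
    (tr80 M (Nat.add (Nat.mul t00 x42) (Nat.mul t01 x50)))
    (tr80 M (Nat.mul t00 x43))
    (tr80 M (Nat.mul t00 x44))
    (tr80 M (Nat.add (Nat.add (Nat.mul t10 x45) (Nat.mul t11 x51)) (Nat.mul t12 x54)))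
    (tr80 M (Nat.add (Nat.mul t10 x46) (Nat.mul t11 x52)))
    (tr80 M (Nat.mul t10 x47))
    (tr80 M (Nat.add (Nat.mul t10 x48) (Nat.mul t11 x53)))
    (tr80 M (Nat.mul t10 x49))
    (tr80 M (Nat.mul t10 x50))
    (tr80 M (Nat.add (Nat.mul t20 x51) (Nat.mul t21 x54)))
    (tr80 M (Nat.mul t20 x52))
    (tr80 M (Nat.mul t20 x53))
    (tr80 M (Nat.mul t30 x54))
    (tr80 M (Nat.add (Nat.add (Nat.mul t00 x55) (Nat.mul t01 x61)) (Nat.mul t02 x64)))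
    (tr80 M (Nat.add (Nat.mul t00 x56) (Nat.mul t01 x62)))
    (tr80 M (Nat.mul t00 x57))
    (tr80 M (Nat.add (Nat.mul t00 x58) (Nat.mul t01 x63)))
    (tr80 M (Nat.mul t00 x59))
    (tr80 M (Nat.mul t00 x60))
    (tr80 M (Nat.add (Nat.mul t10 x61) (Nat.mul t11 x64)))
    (tr80 M (Nat.mul t10 x62))
    (tr80 M (Nat.mul t10 x63))
    (tr80 M (Nat.mul t20 x64))
    (tr80 M (Nat.add (Nat.mul t00 x65) (Nat.mul t01 x68)))
    (tr80 M (Nat.mul t00 x66))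
    (tr80 M (Nat.mul t00 x67))
    (tr80 M (Nat.mul t10 x68))
    (tr80 M (Nat.mul t00 x69))

def kY (M t00 t01 t02 t03 t04 t10 t11 t12 t13 t20 t21 t22 t30 t31 t40 : ℕ) (k : K70) : K70 := fun x0 x1 x2 x3 x4 x5 x6 x7 x8 x9 x10 x11 x12 x13 x14 x15 x16 x17 x18 x19 x20 x21 x22 x23 x24 x25 x26 x27 x28 x29 x30 x31 x32 x33 x34 x35 x36 x37 x38 x39 x40 x41 x42 x43 x44 x45 x46 x47 x48 x49 x50 x51 x52 x53 x54 x55 x56 x57 x58 x59 x60 x61 x62 x63 x64 x65 x66 x67 x68 x69 =>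
  k
    (tr80 M (Nat.add (Nat.add (Nat.add (Nat.add (Nat.mul t00 x0) (Nat.mul t01 x5)) (Nat.mul t02 x9)) (Nat.mul t03 x12)) (Nat.mul t04 x14)))
    (tr80 M (Nat.add (Nat.add (Nat.add (Nat.mul t00 x1) (Nat.mul t01 x6)) (Nat.mul t02 x10)) (Nat.mul t03 x13)))
    (tr80 M (Nat.add (Nat.add (Nat.mul t00 x2) (Nat.mul t01 x7)) (Nat.mul t02 x11)))
    (tr80 M (Nat.add (Nat.mul t00 x3) (Nat.mul t01 x8)))
    (tr80 M (Nat.mul t00 x4))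
    (tr80 M (Nat.add (Nat.add (Nat.add (Nat.mul t10 x5) (Nat.mul t11 x9)) (Nat.mul t12 x12)) (Nat.mul t13 x14)))
    (tr80 M (Nat.add (Nat.add (Nat.mul t10 x6) (Nat.mul t11 x10)) (Nat.mul t12 x13)))
    (tr80 M (Nat.add (Nat.mul t10 x7) (Nat.mul t11 x11)))
    (tr80 M (Nat.mul t10 x8))
    (tr80 M (Nat.add (Nat.add (Nat.mul t20 x9) (Nat.mul t21 x12)) (Nat.mul t22 x14)))
    (tr80 M (Nat.add (Nat.mul t20 x10) (Nat.mul t21 x13)))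
    (tr80 M (Nat.mul t20 x11))
    (tr80 M (Nat.add (Nat.mul t30 x12) (Nat.mul t31 x14)))
    (tr80 M (Nat.mul t30 x13))
    (tr80 M (Nat.mul t40 x14))
    (tr80 M (Nat.add (Nat.add (Nat.add (Nat.mul t00 x15) (Nat.mul t01 x19)) (Nat.mul t02 x22)) (Nat.mul t03 x24)))
    (tr80 M (Nat.add (Nat.add (Nat.mul t00 x16) (Nat.mul t01 x20)) (Nat.mul t02 x23)))
    (tr80 M (Nat.add (Nat.mul t00 x17) (Nat.mul t01 x21)))
    (tr80 M (Nat.mul t00 x18))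
    (tr80 M (Nat.add (Nat.add (Nat.mul t10 x19) (Nat.mul t11 x22)) (Nat.mul t12 x24)))
    (tr80 M (Nat.add (Nat.mul t10 x20) (Nat.mul t11 x23)))
    (tr80 M (Nat.mul t10 x21))
    (tr80 M (Nat.add (Nat.mul t20 x22) (Nat.mul t21 x24)))
    (tr80 M (Nat.mul t20 x23))
    (tr80 M (Nat.mul t30 x24))
    (tr80 M (Nat.add (Nat.add (Nat.mul t00 x25) (Nat.mul t01 x28)) (Nat.mul t02 x30)))
    (tr80 M (Nat.add (Nat.mul t00 x26) (Nat.mul t01 x29)))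
    (tr80 M (Nat.mul t00 x27))
    (tr80 M (Nat.add (Nat.mul t10 x28) (Nat.mul t11 x30)))
    (tr80 M (Nat.mul t10 x29))
    (tr80 M (Nat.mul t20 x30))
    (tr80 M (Nat.add (Nat.mul t00 x31) (Nat.mul t01 x33)))
    (tr80 M (Nat.mul t00 x32))
    (tr80 M (Nat.mul t10 x33))
    (tr80 M (Nat.mul t00 x34))
    (tr80 M (Nat.add (Nat.add (Nat.add (Nat.mul t00 x35) (Nat.mul t01 x39)) (Nat.mul t02 x42)) (Nat.mul t03 x44)))
    (tr80 M (Nat.add (Nat.add (Nat.mul t00 x36) (Nat.mul t01 x40)) (Nat.mul t02 x43)))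
    (tr80 M (Nat.add (Nat.mul t00 x37) (Nat.mul t01 x41)))
    (tr80 M (Nat.mul t00 x38))
    (tr80 M (Nat.add (Nat.add (Nat.mul t10 x39) (Nat.mul t11 x42)) (Nat.mul t12 x44)))
    (tr80 M (Nat.add (Nat.mul t10 x40) (Nat.mul t11 x43)))
    (tr80 M (Nat.mul t10 x41))
    (tr80 M (Nat.add (Nat.mul t20 x42) (Nat.mul t21 x44)))
    (tr80 M (Nat.mul t20 x43))
    (tr80 M (Nat.mul t30 x44))
    (tr80 M (Nat.add (Nat.add (Nat.mul t00 x45) (Nat.mul t01 x48)) (Nat.mul t02 x50)))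
    (tr80 M (Nat.add (Nat.mul t00 x46) (Nat.mul t01 x49)))
    (tr80 M (Nat.mul t00 x47))
    (tr80 M (Nat.add (Nat.mul t10 x48) (Nat.mul t11 x50)))
    (tr80 M (Nat.mul t10 x49))
    (tr80 M (Nat.mul t20 x50))
    (tr80 M (Nat.add (Nat.mul t00 x51) (Nat.mul t01 x53)))
    (tr80 M (Nat.mul t00 x52))
    (tr80 M (Nat.mul t10 x53))
    (tr80 M (Nat.mul t00 x54))
    (tr80 M (Nat.add (Nat.add (Nat.mul t00 x55) (Nat.mul t01 x58)) (Nat.mul t02 x60)))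
    (tr80 M (Nat.add (Nat.mul t00 x56) (Nat.mul t01 x59)))
    (tr80 M (Nat.mul t00 x57))
    (tr80 M (Nat.add (Nat.mul t10 x58) (Nat.mul t11 x60)))
    (tr80 M (Nat.mul t10 x59))
    (tr80 M (Nat.mul t20 x60))
    (tr80 M (Nat.add (Nat.mul t00 x61) (Nat.mul t01 x63)))
    (tr80 M (Nat.mul t00 x62))
    (tr80 M (Nat.mul t10 x63))
    (tr80 M (Nat.mul t00 x64))
    (tr80 M (Nat.add (Nat.mul t00 x65) (Nat.mul t01 x67)))
    (tr80 M (Nat.mul t00 x66))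
    (tr80 M (Nat.mul t10 x67))
    (tr80 M (Nat.mul t00 x68))
    (tr80 M (Nat.mul t00 x69))

def kX (M t00 t01 t02 t03 t04 t10 t11 t12 t13 t20 t21 t22 t30 t31 t40 : ℕ) (k : K70) : K70 := fun x0 x1 x2 x3 x4 x5 x6 x7 x8 x9 x10 x11 x12 x13 x14 x15 x16 x17 x18 x19 x20 x21 x22 x23 x24 x25 x26 x27 x28 x29 x30 x31 x32 x33 x34 x35 x36 x37 x38 x39 x40 x41 x42 x43 x44 x45 x46 x47 x48 x49 x50 x51 x52 x53 x54 x55 x56 x57 x58 x59 x60 x61 x62 x63 x64 x65 x66 x67 x68 x69 =>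
  k
    (tr80 M (Nat.add (Nat.add (Nat.add (Nat.add (Nat.mul t00 x0) (Nat.mul t01 x1)) (Nat.mul t02 x2)) (Nat.mul t03 x3)) (Nat.mul t04 x4)))
    (tr80 M (Nat.add (Nat.add (Nat.add (Nat.mul t10 x1) (Nat.mul t11 x2)) (Nat.mul t12 x3)) (Nat.mul t13 x4)))
    (tr80 M (Nat.add (Nat.add (Nat.mul t20 x2) (Nat.mul t21 x3)) (Nat.mul t22 x4)))
    (tr80 M (Nat.add (Nat.mul t30 x3) (Nat.mul t31 x4)))
    (tr80 M (Nat.mul t40 x4))
    (tr80 M (Nat.add (Nat.add (Nat.add (Nat.mul t00 x5) (Nat.mul t01 x6)) (Nat.mul t02 x7)) (Nat.mul t03 x8)))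
    (tr80 M (Nat.add (Nat.add (Nat.mul t10 x6) (Nat.mul t11 x7)) (Nat.mul t12 x8)))
    (tr80 M (Nat.add (Nat.mul t20 x7) (Nat.mul t21 x8)))
    (tr80 M (Nat.mul t30 x8))
    (tr80 M (Nat.add (Nat.add (Nat.mul t00 x9) (Nat.mul t01 x10)) (Nat.mul t02 x11)))
    (tr80 M (Nat.add (Nat.mul t10 x10) (Nat.mul t11 x11)))
    (tr80 M (Nat.mul t20 x11))
    (tr80 M (Nat.add (Nat.mul t00 x12) (Nat.mul t01 x13)))
    (tr80 M (Nat.mul t10 x13))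
    (tr80 M (Nat.mul t00 x14))
    (tr80 M (Nat.add (Nat.add (Nat.add (Nat.mul t00 x15) (Nat.mul t01 x16)) (Nat.mul t02 x17)) (Nat.mul t03 x18)))
    (tr80 M (Nat.add (Nat.add (Nat.mul t10 x16) (Nat.mul t11 x17)) (Nat.mul t12 x18)))
    (tr80 M (Nat.add (Nat.mul t20 x17) (Nat.mul t21 x18)))
    (tr80 M (Nat.mul t30 x18))
    (tr80 M (Nat.add (Nat.add (Nat.mul t00 x19) (Nat.mul t01 x20)) (Nat.mul t02 x21)))
    (tr80 M (Nat.add (Nat.mul t10 x20) (Nat.mul t11 x21)))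
    (tr80 M (Nat.mul t20 x21))
    (tr80 M (Nat.add (Nat.mul t00 x22) (Nat.mul t01 x23)))
    (tr80 M (Nat.mul t10 x23))
    (tr80 M (Nat.mul t00 x24))
    (tr80 M (Nat.add (Nat.add (Nat.mul t00 x25) (Nat.mul t01 x26)) (Nat.mul t02 x27)))
    (tr80 M (Nat.add (Nat.mul t10 x26) (Nat.mul t11 x27)))
    (tr80 M (Nat.mul t20 x27))
    (tr80 M (Nat.add (Nat.mul t00 x28) (Nat.mul t01 x29)))
    (tr80 M (Nat.mul t10 x29))
    (tr80 M (Nat.mul t00 x30))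
    (tr80 M (Nat.add (Nat.mul t00 x31) (Nat.mul t01 x32)))
    (tr80 M (Nat.mul t10 x32))
    (tr80 M (Nat.mul t00 x33))
    (tr80 M (Nat.mul t00 x34))
    (tr80 M (Nat.add (Nat.add (Nat.add (Nat.mul t00 x35) (Nat.mul t01 x36)) (Nat.mul t02 x37)) (Nat.mul t03 x38)))
    (tr80 M (Nat.add (Nat.add (Nat.mul t10 x36) (Nat.mul t11 x37)) (Nat.mul t12 x38)))
    (tr80 M (Nat.add (Nat.mul t20 x37) (Nat.mul t21 x38)))
    (tr80 M (Nat.mul t30 x38))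
    (tr80 M (Nat.add (Nat.add (Nat.mul t00 x39) (Nat.mul t01 x40)) (Nat.mul t02 x41)))
    (tr80 M (Nat.add (Nat.mul t10 x40) (Nat.mul t11 x41)))
    (tr80 M (Nat.mul t20 x41))
    (tr80 M (Nat.add (Nat.mul t00 x42) (Nat.mul t01 x43)))
    (tr80 M (Nat.mul t10 x43))
    (tr80 M (Nat.mul t00 x44))
    (tr80 M (Nat.add (Nat.add (Nat.mul t00 x45) (Nat.mul t01 x46)) (Nat.mul t02 x47)))
    (tr80 M (Nat.add (Nat.mul t10 x46) (Nat.mul t11 x47)))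
    (tr80 M (Nat.mul t20 x47))
    (tr80 M (Nat.add (Nat.mul t00 x48) (Nat.mul t01 x49)))
    (tr80 M (Nat.mul t10 x49))
    (tr80 M (Nat.mul t00 x50))
    (tr80 M (Nat.add (Nat.mul t00 x51) (Nat.mul t01 x52)))
    (tr80 M (Nat.mul t10 x52))
    (tr80 M (Nat.mul t00 x53))
    (tr80 M (Nat.mul t00 x54))
    (tr80 M (Nat.add (Nat.add (Nat.mul t00 x55) (Nat.mul t01 x56)) (Nat.mul t02 x57)))
    (tr80 M (Nat.add (Nat.mul t10 x56) (Nat.mul t11 x57)))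
    (tr80 M (Nat.mul t20 x57))
    (tr80 M (Nat.add (Nat.mul t00 x58) (Nat.mul t01 x59)))
    (tr80 M (Nat.mul t10 x59))
    (tr80 M (Nat.mul t00 x60))
    (tr80 M (Nat.add (Nat.mul t00 x61) (Nat.mul t01 x62)))
    (tr80 M (Nat.mul t10 x62))
    (tr80 M (Nat.mul t00 x63))
    (tr80 M (Nat.mul t00 x64))
    (tr80 M (Nat.add (Nat.mul t00 x65) (Nat.mul t01 x66)))
    (tr80 M (Nat.mul t10 x66))
    (tr80 M (Nat.mul t00 x67))
    (tr80 M (Nat.mul t00 x68))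
    (tr80 M (Nat.mul t00 x69))

def kXY (M t00 t01 t02 t03 t04 t10 t11 t12 t13 t20 t21 t22 t30 t31 t40 : ℕ) (k : K70) : K70 := fun x0 x1 x2 x3 x4 x5 x6 x7 x8 x9 x10 x11 x12 x13 x14 x15 x16 x17 x18 x19 x20 x21 x22 x23 x24 x25 x26 x27 x28 x29 x30 x31 x32 x33 x34 x35 x36 x37 x38 x39 x40 x41 x42 x43 x44 x45 x46 x47 x48 x49 x50 x51 x52 x53 x54 x55 x56 x57 x58 x59 x60 x61 x62 x63 x64 x65 x66 x67 x68 x69 =>
  k
    (tr80 M (Nat.mul t00 x0))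
    (tr80 M (Nat.mul t10 x1))
    (tr80 M (Nat.mul t20 x2))
    (tr80 M (Nat.mul t30 x3))
    (tr80 M (Nat.mul t40 x4))
    (tr80 M (Nat.add (Nat.mul t00 x5) (Nat.mul t01 x1)))
    (tr80 M (Nat.add (Nat.mul t10 x6) (Nat.mul t11 x2)))
    (tr80 M (Nat.add (Nat.mul t20 x7) (Nat.mul t21 x3)))
    (tr80 M (Nat.add (Nat.mul t30 x8) (Nat.mul t31 x4)))
    (tr80 M (Nat.add (Nat.add (Nat.mul t00 x9) (Nat.mul t01 x6)) (Nat.mul t02 x2)))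
    (tr80 M (Nat.add (Nat.add (Nat.mul t10 x10) (Nat.mul t11 x7)) (Nat.mul t12 x3)))
    (tr80 M (Nat.add (Nat.add (Nat.mul t20 x11) (Nat.mul t21 x8)) (Nat.mul t22 x4)))
    (tr80 M (Nat.add (Nat.add (Nat.add (Nat.mul t00 x12) (Nat.mul t01 x10)) (Nat.mul t02 x7)) (Nat.mul t03 x3)))
    (tr80 M (Nat.add (Nat.add (Nat.add (Nat.mul t10 x13) (Nat.mul t11 x11)) (Nat.mul t12 x8)) (Nat.mul t13 x4)))
    (tr80 M (Nat.add (Nat.add (Nat.add (Nat.add (Nat.mul t00 x14) (Nat.mul t01 x13)) (Nat.mul t02 x11)) (Nat.mul t03 x8)) (Nat.mul t04 x4)))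
    (tr80 M (Nat.mul t00 x15))
    (tr80 M (Nat.mul t10 x16))
    (tr80 M (Nat.mul t20 x17))
    (tr80 M (Nat.mul t30 x18))
    (tr80 M (Nat.add (Nat.mul t00 x19) (Nat.mul t01 x16)))
    (tr80 M (Nat.add (Nat.mul t10 x20) (Nat.mul t11 x17)))
    (tr80 M (Nat.add (Nat.mul t20 x21) (Nat.mul t21 x18)))
    (tr80 M (Nat.add (Nat.add (Nat.mul t00 x22) (Nat.mul t01 x20)) (Nat.mul t02 x17)))
    (tr80 M (Nat.add (Nat.add (Nat.mul t10 x23) (Nat.mul t11 x21)) (Nat.mul t12 x18)))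
    (tr80 M (Nat.add (Nat.add (Nat.add (Nat.mul t00 x24) (Nat.mul t01 x23)) (Nat.mul t02 x21)) (Nat.mul t03 x18)))
    (tr80 M (Nat.mul t00 x25))
    (tr80 M (Nat.mul t10 x26))
    (tr80 M (Nat.mul t20 x27))
    (tr80 M (Nat.add (Nat.mul t00 x28) (Nat.mul t01 x26)))
    (tr80 M (Nat.add (Nat.mul t10 x29) (Nat.mul t11 x27)))
    (tr80 M (Nat.add (Nat.add (Nat.mul t00 x30) (Nat.mul t01 x29)) (Nat.mul t02 x27)))
    (tr80 M (Nat.mul t00 x31))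
    (tr80 M (Nat.mul t10 x32))
    (tr80 M (Nat.add (Nat.mul t00 x33) (Nat.mul t01 x32)))
    (tr80 M (Nat.mul t00 x34))
    (tr80 M (Nat.mul t00 x35))
    (tr80 M (Nat.mul t10 x36))
    (tr80 M (Nat.mul t20 x37))
    (tr80 M (Nat.mul t30 x38))
    (tr80 M (Nat.add (Nat.mul t00 x39) (Nat.mul t01 x36)))
    (tr80 M (Nat.add (Nat.mul t10 x40) (Nat.mul t11 x37)))
    (tr80 M (Nat.add (Nat.mul t20 x41) (Nat.mul t21 x38)))
    (tr80 M (Nat.add (Nat.add (Nat.mul t00 x42) (Nat.mul t01 x40)) (Nat.mul t02 x37)))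
    (tr80 M (Nat.add (Nat.add (Nat.mul t10 x43) (Nat.mul t11 x41)) (Nat.mul t12 x38)))
    (tr80 M (Nat.add (Nat.add (Nat.add (Nat.mul t00 x44) (Nat.mul t01 x43)) (Nat.mul t02 x41)) (Nat.mul t03 x38)))
    (tr80 M (Nat.mul t00 x45))
    (tr80 M (Nat.mul t10 x46))
    (tr80 M (Nat.mul t20 x47))
    (tr80 M (Nat.add (Nat.mul t00 x48) (Nat.mul t01 x46)))
    (tr80 M (Nat.add (Nat.mul t10 x49) (Nat.mul t11 x47)))
    (tr80 M (Nat.add (Nat.add (Nat.mul t00 x50) (Nat.mul t01 x49)) (Nat.mul t02 x47)))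
    (tr80 M (Nat.mul t00 x51))
    (tr80 M (Nat.mul t10 x52))
    (tr80 M (Nat.add (Nat.mul t00 x53) (Nat.mul t01 x52)))
    (tr80 M (Nat.mul t00 x54))
    (tr80 M (Nat.mul t00 x55))
    (tr80 M (Nat.mul t10 x56))
    (tr80 M (Nat.mul t20 x57))
    (tr80 M (Nat.add (Nat.mul t00 x58) (Nat.mul t01 x56)))
    (tr80 M (Nat.add (Nat.mul t10 x59) (Nat.mul t11 x57)))
    (tr80 M (Nat.add (Nat.add (Nat.mul t00 x60) (Nat.mul t01 x59)) (Nat.mul t02 x57)))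
    (tr80 M (Nat.mul t00 x61))
    (tr80 M (Nat.mul t10 x62))
    (tr80 M (Nat.add (Nat.mul t00 x63) (Nat.mul t01 x62)))
    (tr80 M (Nat.mul t00 x64))
    (tr80 M (Nat.mul t00 x65))
    (tr80 M (Nat.mul t10 x66))
    (tr80 M (Nat.add (Nat.mul t00 x67) (Nat.mul t01 x66)))
    (tr80 M (Nat.mul t00 x68))
    (tr80 M (Nat.mul t00 x69))

def kWX (M t00 t01 t02 t03 t04 t10 t11 t12 t13 t20 t21 t22 t30 t31 t40 : ℕ) (k : K70) : K70 := fun x0 x1 x2 x3 x4 x5 x6 x7 x8 x9 x10 x11 x12 x13 x14 x15 x16 x17 x18 x19 x20 x21 x22 x23 x24 x25 x26 x27 x28 x29 x30 x31 x32 x33 x34 x35 x36 x37 x38 x39 x40 x41 x42 x43 x44 x45 x46 x47 x48 x49 x50 x51 x52 x53 x54 x55 x56 x57 x58 x59 x60 x61 x62 x63 x64 x65 x66 x67 x68 x69 =>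
  k
    (tr80 M (Nat.mul t00 x0))
    (tr80 M (Nat.add (Nat.mul t00 x1) (Nat.mul t01 x35)))
    (tr80 M (Nat.add (Nat.add (Nat.mul t00 x2) (Nat.mul t01 x36)) (Nat.mul t02 x55)))
    (tr80 M (Nat.add (Nat.add (Nat.add (Nat.mul t00 x3) (Nat.mul t01 x37)) (Nat.mul t02 x56)) (Nat.mul t03 x65)))
    (tr80 M (Nat.add (Nat.add (Nat.add (Nat.add (Nat.mul t00 x4) (Nat.mul t01 x38)) (Nat.mul t02 x57)) (Nat.mul t03 x66)) (Nat.mul t04 x69)))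
    (tr80 M (Nat.mul t00 x5))
    (tr80 M (Nat.add (Nat.mul t00 x6) (Nat.mul t01 x39)))
    (tr80 M (Nat.add (Nat.add (Nat.mul t00 x7) (Nat.mul t01 x40)) (Nat.mul t02 x58)))
    (tr80 M (Nat.add (Nat.add (Nat.add (Nat.mul t00 x8) (Nat.mul t01 x41)) (Nat.mul t02 x59)) (Nat.mul t03 x67)))
    (tr80 M (Nat.mul t00 x9))
    (tr80 M (Nat.add (Nat.mul t00 x10) (Nat.mul t01 x42)))
    (tr80 M (Nat.add (Nat.add (Nat.mul t00 x11) (Nat.mul t01 x43)) (Nat.mul t02 x60)))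
    (tr80 M (Nat.mul t00 x12))
    (tr80 M (Nat.add (Nat.mul t00 x13) (Nat.mul t01 x44)))
    (tr80 M (Nat.mul t00 x14))
    (tr80 M (Nat.mul t00 x15))
    (tr80 M (Nat.add (Nat.mul t00 x16) (Nat.mul t01 x45)))
    (tr80 M (Nat.add (Nat.add (Nat.mul t00 x17) (Nat.mul t01 x46)) (Nat.mul t02 x61)))
    (tr80 M (Nat.add (Nat.add (Nat.add (Nat.mul t00 x18) (Nat.mul t01 x47)) (Nat.mul t02 x62)) (Nat.mul t03 x68)))
    (tr80 M (Nat.mul t00 x19))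
    (tr80 M (Nat.add (Nat.mul t00 x20) (Nat.mul t01 x48)))
    (tr80 M (Nat.add (Nat.add (Nat.mul t00 x21) (Nat.mul t01 x49)) (Nat.mul t02 x63)))
    (tr80 M (Nat.mul t00 x22))
    (tr80 M (Nat.add (Nat.mul t00 x23) (Nat.mul t01 x50)))
    (tr80 M (Nat.mul t00 x24))
    (tr80 M (Nat.mul t00 x25))
    (tr80 M (Nat.add (Nat.mul t00 x26) (Nat.mul t01 x51)))
    (tr80 M (Nat.add (Nat.add (Nat.mul t00 x27) (Nat.mul t01 x52)) (Nat.mul t02 x64)))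
    (tr80 M (Nat.mul t00 x28))
    (tr80 M (Nat.add (Nat.mul t00 x29) (Nat.mul t01 x53)))
    (tr80 M (Nat.mul t00 x30))
    (tr80 M (Nat.mul t00 x31))
    (tr80 M (Nat.add (Nat.mul t00 x32) (Nat.mul t01 x54)))
    (tr80 M (Nat.mul t00 x33))
    (tr80 M (Nat.mul t00 x34))
    (tr80 M (Nat.mul t10 x35))
    (tr80 M (Nat.add (Nat.mul t10 x36) (Nat.mul t11 x55)))
    (tr80 M (Nat.add (Nat.add (Nat.mul t10 x37) (Nat.mul t11 x56)) (Nat.mul t12 x65)))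
    (tr80 M (Nat.add (Nat.add (Nat.add (Nat.mul t10 x38) (Nat.mul t11 x57)) (Nat.mul t12 x66)) (Nat.mul t13 x69)))
    (tr80 M (Nat.mul t10 x39))
    (tr80 M (Nat.add (Nat.mul t10 x40) (Nat.mul t11 x58)))
    (tr80 M (Nat.add (Nat.add (Nat.mul t10 x41) (Nat.mul t11 x59)) (Nat.mul t12 x67)))
    (tr80 M (Nat.mul t10 x42))
    (tr80 M (Nat.add (Nat.mul t10 x43) (Nat.mul t11 x60)))
    (tr80 M (Nat.mul t10 x44))
    (tr80 M (Nat.mul t10 x45))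
    (tr80 M (Nat.add (Nat.mul t10 x46) (Nat.mul t11 x61)))
    (tr80 M (Nat.add (Nat.add (Nat.mul t10 x47) (Nat.mul t11 x62)) (Nat.mul t12 x68)))
    (tr80 M (Nat.mul t10 x48))
    (tr80 M (Nat.add (Nat.mul t10 x49) (Nat.mul t11 x63)))
    (tr80 M (Nat.mul t10 x50))
    (tr80 M (Nat.mul t10 x51))
    (tr80 M (Nat.add (Nat.mul t10 x52) (Nat.mul t11 x64)))
    (tr80 M (Nat.mul t10 x53))
    (tr80 M (Nat.mul t10 x54))
    (tr80 M (Nat.mul t20 x55))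
    (tr80 M (Nat.add (Nat.mul t20 x56) (Nat.mul t21 x65)))
    (tr80 M (Nat.add (Nat.add (Nat.mul t20 x57) (Nat.mul t21 x66)) (Nat.mul t22 x69)))
    (tr80 M (Nat.mul t20 x58))
    (tr80 M (Nat.add (Nat.mul t20 x59) (Nat.mul t21 x67)))
    (tr80 M (Nat.mul t20 x60))
    (tr80 M (Nat.mul t20 x61))
    (tr80 M (Nat.add (Nat.mul t20 x62) (Nat.mul t21 x68)))
    (tr80 M (Nat.mul t20 x63))
    (tr80 M (Nat.mul t20 x64))
    (tr80 M (Nat.mul t30 x65))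
    (tr80 M (Nat.add (Nat.mul t30 x66) (Nat.mul t31 x69)))
    (tr80 M (Nat.mul t30 x67))
    (tr80 M (Nat.mul t30 x68))
    (tr80 M (Nat.mul t40 x69))

def kR (k : K70) : K70 := fun x0 x1 x2 x3 x4 x5 x6 x7 x8 x9 x10 x11 x12 x13 x14 x15 x16 x17 x18 x19 x20 x21 x22 x23 x24 x25 x26 x27 x28 x29 x30 x31 x32 x33 x34 x35 x36 x37 x38 x39 x40 x41 x42 x43 x44 x45 x46 x47 x48 x49 x50 x51 x52 x53 x54 x55 x56 x57 x58 x59 x60 x61 x62 x63 x64 x65 x66 x67 x68 x69 =>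
  k
    x0
    0
    0
    0
    0
    (Nat.add x5 x1)
    0
    0
    0
    (Nat.add (Nat.add x9 x6) x2)
    0
    0
    (Nat.add (Nat.add (Nat.add x12 x10) x7) x3)
    0
    (Nat.add (Nat.add (Nat.add (Nat.add x14 x13) x11) x8) x4)
    x15
    0
    0
    0
    (Nat.add x19 x16)
    0
    0
    (Nat.add (Nat.add x22 x20) x17)
    0
    (Nat.add (Nat.add (Nat.add x24 x23) x21) x18)
    x25
    0
    0
    (Nat.add x28 x26)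
    0
    (Nat.add (Nat.add x30 x29) x27)
    x31
    0
    (Nat.add x33 x32)
    x34
    x35
    0
    0
    0
    (Nat.add x39 x36)
    0
    0
    (Nat.add (Nat.add x42 x40) x37)
    0
    (Nat.add (Nat.add (Nat.add x44 x43) x41) x38)
    x45
    0
    0
    (Nat.add x48 x46)
    0
    (Nat.add (Nat.add x50 x49) x47)
    x51
    0
    (Nat.add x53 x52)
    x54
    x55
    0
    0
    (Nat.add x58 x56)
    0
    (Nat.add (Nat.add x60 x59) x57)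
    x61
    0
    (Nat.add x63 x62)
    x64
    x65
    0
    (Nat.add x67 x66)
    x68
    x69

def kSum (k : ℕ → K70) : K70 := fun x0 x1 x2 x3 x4 x5 x6 x7 x8 x9 x10 x11 x12 x13 x14 x15 x16 x17 x18 x19 x20 x21 x22 x23 x24 x25 x26 x27 x28 x29 x30 x31 x32 x33 x34 x35 x36 x37 x38 x39 x40 x41 x42 x43 x44 x45 x46 x47 x48 x49 x50 x51 x52 x53 x54 x55 x56 x57 x58 x59 x60 x61 x62 x63 x64 x65 x66 x67 x68 x69 =>
  k (Nat.add (Nat.add (Nat.add (Nat.add (Nat.add (Nat.add (Nat.add (Nat.add (Nat.add (Nat.add (Nat.add (Nat.add (Nat.add (Nat.add (Nat.add (Nat.add x0 x1) x2) x3) x4) (Nat.add (Nat.add (Nat.add x5 x6) x7) x8)) (Nat.add (Nat.add x9 x10) x11)) (Nat.add x12 x13)) x14) (Nat.add (Nat.add (Nat.add (Nat.add (Nat.add (Nat.add x15 x16) x17) x18) (Nat.add (Nat.add x19 x20) x21)) (Nat.add x22 x23)) x24)) (Nat.add (Nat.add (Nat.add (Nat.add x25 x26) x27)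 (Nat.add x28 x29)) x30)) (Nat.add (Nat.add x31 x32) x33)) x34) (Nat.add (Nat.add (Nat.add (Nat.add (Nat.add (Nat.add (Nat.add (Nat.add (Nat.add x35 x36) x37) x38) (Nat.add (Nat.add x39 x40) x41)) (Nat.add x42 x43)) x44) (Nat.add (Nat.add (Nat.add (Nat.add x45 x46) x47) (Nat.add x48 x49)) x50)) (Nat.add (Nat.add x51 x52) x53)) x54)) (Nat.add (Nat.add (Nat.add (Nat.add (Nat.add (Nat.add x55 x56) x57) (Nat.add x58 x59)) x60) (Nat.add (Nat.add x61 x62) x63)) x64)) (Nat.add (Nat.add (Nat.add x65 x66) x67) x68)) x69) x0 x1 x2 x3 x4 x5 x6 x7 x8 x9 x10 x11 x12 x13 x14 x15 x16 x17 x18 x19 x20 x21 x22 x23 x24 x25 x26 x27 x28 x29 x30 x31 x32 x33 x34 x35 x36 x37 x38 x39 x40 x41 x42 x43 x44 x45 x46 x47 x48 x49 x50 x51 x52 x53 x54 x55 x56 x57 x58 x59 x60 x61 x62 x63 x64 x65 x66 x67 x68 x69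

def kF (M B keep : ℕ) (k : K70) : K70 := fun x0 x1 x2 x3 x4 x5 x6 x7 x8 x9 x10 x11 x12 x13 x14 x15 x16 x17 x18 x19 x20 x21 x22 x23 x24 x25 x26 x27 x28 x29 x30 x31 x32 x33 x34 x35 x36 x37 x38 x39 x40 x41 x42 x43 x44 x45 x46 x47 x48 x49 x50 x51 x52 x53 x54 x55 x56 x57 x58 x59 x60 x61 x62 x63 x64 x65 x66 x67 x68 x69 =>
  k
    (tr20 M (Nat.mul x0 keep))
    (tr20 M (Nat.mul x1 keep))
    (Nat.add (Nat.land x2 B) (tr20 M (Nat.mul (Nat.sub x2 (Nat.land x2 B)) keep)))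
    x3
    x4
    (tr20 M (Nat.mul x5 keep))
    (Nat.add (Nat.land x6 B) (tr20 M (Nat.mul (Nat.sub x6 (Nat.land x6 B)) keep)))
    x7
    x8
    (Nat.add (Nat.land x9 B) (tr20 M (Nat.mul (Nat.sub x9 (Nat.land x9 B)) keep)))
    x10
    x11
    x12
    x13
    x14
    (tr20 M (Nat.mul x15 keep))
    (Nat.add (Nat.land x16 B) (tr20 M (Nat.mul (Nat.sub x16 (Nat.land x16 B)) keep)))
    x17
    x18
    (Nat.add (Nat.land x19 B) (tr20 M (Nat.mul (Nat.sub x19 (Nat.land x19 B)) keep)))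
    x20
    x21
    x22
    x23
    x24
    (Nat.add (Nat.land x25 B) (tr20 M (Nat.mul (Nat.sub x25 (Nat.land x25 B)) keep)))
    x26
    x27
    x28
    x29
    x30
    x31
    x32
    x33
    x34
    (tr20 M (Nat.mul x35 keep))
    (tr20 M (Nat.mul x36 keep))
    (Nat.add (Nat.land x37 B) (tr20 M (Nat.mul (Nat.sub x37 (Nat.land x37 B)) keep)))
    x38
    (tr20 M (Nat.mul x39 keep))
    (Nat.add (Nat.land x40 B) (tr20 M (Nat.mul (Nat.sub x40 (Nat.land x40 B)) keep)))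
    x41
    (Nat.add (Nat.land x42 B) (tr20 M (Nat.mul (Nat.sub x42 (Nat.land x42 B)) keep)))
    x43
    x44
    (tr20 M (Nat.mul x45 keep))
    (Nat.add (Nat.land x46 B) (tr20 M (Nat.mul (Nat.sub x46 (Nat.land x46 B)) keep)))
    x47
    (Nat.add (Nat.land x48 B) (tr20 M (Nat.mul (Nat.sub x48 (Nat.land x48 B)) keep)))
    x49
    x50
    (Nat.add (Nat.land x51 B) (tr20 M (Nat.mul (Nat.sub x51 (Nat.land x51 B)) keep)))
    x52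
    x53
    x54
    (tr20 M (Nat.mul x55 keep))
    (tr20 M (Nat.mul x56 keep))
    (Nat.add (Nat.land x57 B) (tr20 M (Nat.mul (Nat.sub x57 (Nat.land x57 B)) keep)))
    (tr20 M (Nat.mul x58 keep))
    (Nat.add (Nat.land x59 B) (tr20 M (Nat.mul (Nat.sub x59 (Nat.land x59 B)) keep)))
    (Nat.add (Nat.land x60 B) (tr20 M (Nat.mul (Nat.sub x60 (Nat.land x60 B)) keep)))
    (tr20 M (Nat.mul x61 keep))
    (Nat.add (Nat.land x62 B) (tr20 M (Nat.mul (Nat.sub x62 (Nat.land x62 B)) keep)))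
    (Nat.add (Nat.land x63 B) (tr20 M (Nat.mul (Nat.sub x63 (Nat.land x63 B)) keep)))
    (Nat.add (Nat.land x64 B) (tr20 M (Nat.mul (Nat.sub x64 (Nat.land x64 B)) keep)))
    (tr20 M (Nat.mul x65 keep))
    (tr20 M (Nat.mul x66 keep))
    (tr20 M (Nat.mul x67 keep))
    (tr20 M (Nat.mul x68 keep))
    (tr20 M (Nat.mul x69 keep))

def kZ (M B r : ℕ) (k : K70) : K70 := fun x0 x1 x2 x3 x4 x5 x6 x7 x8 x9 x10 x11 x12 x13 x14 x15 x16 x17 x18 x19 x20 x21 x22 x23 x24 x25 x26 x27 x28 x29 x30 x31 x32 x33 x34 x35 x36 x37 x38 x39 x40 x41 x42 x43 x44 x45 x46 x47 x48 x49 x50 x51 x52 x53 x54 x55 x56 x57 x58 x59 x60 x61 x62 x63 x64 x65 x66 x67 x68 x69 =>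
  k
    0
    0
    (tr20 M (Nat.mul (Nat.land x2 B) r))
    (tr20 M (Nat.mul x3 r))
    (tr20 M (Nat.mul x4 r))
    0
    (tr20 M (Nat.mul (Nat.land x6 B) r))
    (tr20 M (Nat.mul x7 r))
    (tr20 M (Nat.mul x8 r))
    (tr20 M (Nat.mul (Nat.land x9 B) r))
    (tr20 M (Nat.mul x10 r))
    (tr20 M (Nat.mul x11 r))
    (tr20 M (Nat.mul x12 r))
    (tr20 M (Nat.mul x13 r))
    (tr20 M (Nat.mul x14 r))
    0
    (tr20 M (Nat.mul (Nat.land x16 B) r))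
    (tr20 M (Nat.mul x17 r))
    (tr20 M (Nat.mul x18 r))
    (tr20 M (Nat.mul (Nat.land x19 B) r))
    (tr20 M (Nat.mul x20 r))
    (tr20 M (Nat.mul x21 r))
    (tr20 M (Nat.mul x22 r))
    (tr20 M (Nat.mul x23 r))
    (tr20 M (Nat.mul x24 r))
    (tr20 M (Nat.mul (Nat.land x25 B) r))
    (tr20 M (Nat.mul x26 r))
    (tr20 M (Nat.mul x27 r))
    (tr20 M (Nat.mul x28 r))
    (tr20 M (Nat.mul x29 r))
    (tr20 M (Nat.mul x30 r))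
    (tr20 M (Nat.mul x31 r))
    (tr20 M (Nat.mul x32 r))
    (tr20 M (Nat.mul x33 r))
    (tr20 M (Nat.mul x34 r))
    0
    0
    (tr20 M (Nat.mul (Nat.land x37 B) r))
    (tr20 M (Nat.mul x38 r))
    0
    (tr20 M (Nat.mul (Nat.land x40 B) r))
    (tr20 M (Nat.mul x41 r))
    (tr20 M (Nat.mul (Nat.land x42 B) r))
    (tr20 M (Nat.mul x43 r))
    (tr20 M (Nat.mul x44 r))
    0
    (tr20 M (Nat.mul (Nat.land x46 B) r))
    (tr20 M (Nat.mul x47 r))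
    (tr20 M (Nat.mul (Nat.land x48 B) r))
    (tr20 M (Nat.mul x49 r))
    (tr20 M (Nat.mul x50 r))
    (tr20 M (Nat.mul (Nat.land x51 B) r))
    (tr20 M (Nat.mul x52 r))
    (tr20 M (Nat.mul x53 r))
    (tr20 M (Nat.mul x54 r))
    0
    0
    (tr20 M (Nat.mul (Nat.land x57 B) r))
    0
    (tr20 M (Nat.mul (Nat.land x59 B) r))
    (tr20 M (Nat.mul (Nat.land x60 B) r))
    0
    (tr20 M (Nat.mul (Nat.land x62 B) r))
    (tr20 M (Nat.mul (Nat.land x63 B) r))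
    (tr20 M (Nat.mul (Nat.land x64 B) r))
    0
    0
    0
    0
    0

def kRst (M B r' : ℕ) (k : K70) : K70 := fun x0 x1 x2 x3 x4 x5 x6 x7 x8 x9 x10 x11 x12 x13 x14 x15 x16 x17 x18 x19 x20 x21 x22 x23 x24 x25 x26 x27 x28 x29 x30 x31 x32 x33 x34 x35 x36 x37 x38 x39 x40 x41 x42 x43 x44 x45 x46 x47 x48 x49 x50 x51 x52 x53 x54 x55 x56 x57 x58 x59 x60 x61 x62 x63 x64 x65 x66 x67 x68 x69 =>
  k
    x0
    x1
    (Nat.add (Nat.sub x2 (Nat.land x2 B)) (tr20 M (Nat.mul (Nat.land x2 B) r')))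
    (tr20 M (Nat.mul x3 r'))
    (tr20 M (Nat.mul x4 r'))
    x5
    (Nat.add (Nat.sub x6 (Nat.land x6 B)) (tr20 M (Nat.mul (Nat.land x6 B) r')))
    (tr20 M (Nat.mul x7 r'))
    (tr20 M (Nat.mul x8 r'))
    (Nat.add (Nat.sub x9 (Nat.land x9 B)) (tr20 M (Nat.mul (Nat.land x9 B) r')))
    (tr20 M (Nat.mul x10 r'))
    (tr20 M (Nat.mul x11 r'))
    (tr20 M (Nat.mul x12 r'))
    (tr20 M (Nat.mul x13 r'))
    (tr20 M (Nat.mul x14 r'))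
    x15
    (Nat.add (Nat.sub x16 (Nat.land x16 B)) (tr20 M (Nat.mul (Nat.land x16 B) r')))
    (tr20 M (Nat.mul x17 r'))
    (tr20 M (Nat.mul x18 r'))
    (Nat.add (Nat.sub x19 (Nat.land x19 B)) (tr20 M (Nat.mul (Nat.land x19 B) r')))
    (tr20 M (Nat.mul x20 r'))
    (tr20 M (Nat.mul x21 r'))
    (tr20 M (Nat.mul x22 r'))
    (tr20 M (Nat.mul x23 r'))
    (tr20 M (Nat.mul x24 r'))
    (Nat.add (Nat.sub x25 (Nat.land x25 B)) (tr20 M (Nat.mul (Nat.land x25 B) r')))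
    (tr20 M (Nat.mul x26 r'))
    (tr20 M (Nat.mul x27 r'))
    (tr20 M (Nat.mul x28 r'))
    (tr20 M (Nat.mul x29 r'))
    (tr20 M (Nat.mul x30 r'))
    (tr20 M (Nat.mul x31 r'))
    (tr20 M (Nat.mul x32 r'))
    (tr20 M (Nat.mul x33 r'))
    (tr20 M (Nat.mul x34 r'))
    x35
    x36
    (Nat.add (Nat.sub x37 (Nat.land x37 B)) (tr20 M (Nat.mul (Nat.land x37 B) r')))
    (tr20 M (Nat.mul x38 r'))
    x39
    (Nat.add (Nat.sub x40 (Nat.land x40 B)) (tr20 M (Nat.mul (Nat.land x40 B) r')))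
    (tr20 M (Nat.mul x41 r'))
    (Nat.add (Nat.sub x42 (Nat.land x42 B)) (tr20 M (Nat.mul (Nat.land x42 B) r')))
    (tr20 M (Nat.mul x43 r'))
    (tr20 M (Nat.mul x44 r'))
    x45
    (Nat.add (Nat.sub x46 (Nat.land x46 B)) (tr20 M (Nat.mul (Nat.land x46 B) r')))
    (tr20 M (Nat.mul x47 r'))
    (Nat.add (Nat.sub x48 (Nat.land x48 B)) (tr20 M (Nat.mul (Nat.land x48 B) r')))
    (tr20 M (Nat.mul x49 r'))
    (tr20 M (Nat.mul x50 r'))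
    (Nat.add (Nat.sub x51 (Nat.land x51 B)) (tr20 M (Nat.mul (Nat.land x51 B) r')))
    (tr20 M (Nat.mul x52 r'))
    (tr20 M (Nat.mul x53 r'))
    (tr20 M (Nat.mul x54 r'))
    x55
    x56
    (Nat.add (Nat.sub x57 (Nat.land x57 B)) (tr20 M (Nat.mul (Nat.land x57 B) r')))
    x58
    (Nat.add (Nat.sub x59 (Nat.land x59 B)) (tr20 M (Nat.mul (Nat.land x59 B) r')))
    (Nat.add (Nat.sub x60 (Nat.land x60 B)) (tr20 M (Nat.mul (Nat.land x60 B) r')))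
    x61
    (Nat.add (Nat.sub x62 (Nat.land x62 B)) (tr20 M (Nat.mul (Nat.land x62 B) r')))
    (Nat.add (Nat.sub x63 (Nat.land x63 B)) (tr20 M (Nat.mul (Nat.land x63 B) r')))
    (Nat.add (Nat.sub x64 (Nat.land x64 B)) (tr20 M (Nat.mul (Nat.land x64 B) r')))
    x65
    x66
    x67
    x68
    x69

def kBoth (k k' : K70) : K70 := fun x0 x1 x2 x3 x4 x5 x6 x7 x8 x9 x10 x11 x12 x13 x14 x15 x16 x17 x18 x19 x20 x21 x22 x23 x24 x25 x26 x27 x28 x29 x30 x31 x32 x33 x34 x35 x36 x37 x38 x39 x40 x41 x42 x43 x44 x45 x46 x47 x48 x49 x50 x51 x52 x53 x54 x55 x56 x57 x58 x59 x60 x61 x62 x63 x64 x65 x66 x67 x68 x69 => cond (k x0 x1 x2 x3 x4 x5 x6 x7 x8 x9 x10 x11 x12 x13 x14 x15 x16 x17 x18 x19 x20 x21 x22 x23 x24 x25 x26 x27 x28 x29 x30 x31 x32 x33 x34 x35 x36 x37 x38 x39 x40 x41 x42 x43 x44 x45 x46 x47 x48 x49 x50 x51 x52 x53 x54 x55 x56 x57 x58 x59 x60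 x61 x62 x63 x64 x65 x66 x67 x68 x69) (k' x0 x1 x2 x3 x4 x5 x6 x7 x8 x9 x10 x11 x12 x13 x14 x15 x16 x17 x18 x19 x20 x21 x22 x23 x24 x25 x26 x27 x28 x29 x30 x31 x32 x33 x34 x35 x36 x37 x38 x39 x40 x41 x42 x43 x44 x45 x46 x47 x48 x49 x50 x51 x52 x53 x54 x55 x56 x57 x58 x59 x60 x61 x62 x63 x64 x65 x66 x67 x68 x69) false

def kGuard (b : Bool) (k : K70) : K70 := fun x0 x1 x2 x3 x4 x5 x6 x7 x8 x9 x10 x11 x12 x13 x14 x15 x16 x17 x18 x19 x20 x21 x22 x23 x24 x25 x26 x27 x28 x29 x30 x31 x32 x33 x34 x35 x36 x37 x38 x39 x40 x41 x42 x43 x44 x45 x46 x47 x48 x49 x50 x51 x52 x53 x54 x55 x56 x57 x58 x59 x60 x61 x62 x63 x64 x65 x66 x67 x68 x69 => cond b (k x0 x1 x2 x3 x4 x5 x6 x7 x8 x9 x10 x11 x12 x13 x14 x15 x16 x17 x18 x19 x20 x21 x22 x23 x24 x25 x26 x27 x28 x29 x30 x31 x32 x33 x34 x35 x36 x37 x38 x39 x40 x41 x42 x43 x44 x45 x46 x47 x48 x49 x50 x51 x52 x53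 x54 x55 x56 x57 x58 x59 x60 x61 x62 x63 x64 x65 x66 x67 x68 x69) false

def kTrue : K70 := fun x0 x1 x2 x3 x4 x5 x6 x7 x8 x9 x10 x11 x12 x13 x14 x15 x16 x17 x18 x19 x20 x21 x22 x23 x24 x25 x26 x27 x28 x29 x30 x31 x32 x33 x34 x35 x36 x37 x38 x39 x40 x41 x42 x43 x44 x45 x46 x47 x48 x49 x50 x51 x52 x53 x54 x55 x56 x57 x58 x59 x60 x61 x62 x63 x64 x65 x66 x67 x68 x69 => true

theorem kA_eq (M : ℕ) (T : ℕ → ℕ → ℕ) (k : K70) (v : CN) :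
    app (kA M (T 0 0) (T 0 1) (T 0 2) (T 0 3) (T 0 4) (T 1 0) (T 1 1) (T 1 2) (T 1 3) (T 2 0) (T 2 1) (T 2 2) (T 3 0) (T 3 1) (T 4 0) k) v = app k (mA (tr80 M) T v) := rfl

theorem kY_eq (M : ℕ) (T : ℕ → ℕ → ℕ) (k : K70) (v : CN) :
    app (kY M (T 0 0) (T 0 1) (T 0 2) (T 0 3) (T 0 4) (T 1 0) (T 1 1) (T 1 2) (T 1 3) (T 2 0) (T 2 1) (T 2 2) (T 3 0) (T 3 1) (T 4 0) k) v = app k (mY (tr80 M) T v) := rfl

theorem kX_eq (M : ℕ) (T : ℕ → ℕ → ℕ) (k : K70) (v : CN) :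
    app (kX M (T 0 0) (T 0 1) (T 0 2) (T 0 3) (T 0 4) (T 1 0) (T 1 1) (T 1 2) (T 1 3) (T 2 0) (T 2 1) (T 2 2) (T 3 0) (T 3 1) (T 4 0) k) v = app k (mX (tr80 M) T v) := rfl

theorem kXY_eq (M : ℕ) (T : ℕ → ℕ → ℕ) (k : K70) (v : CN) :
    app (kXY M (T 0 0) (T 0 1) (T 0 2) (T 0 3) (T 0 4) (T 1 0) (T 1 1) (T 1 2) (T 1 3) (T 2 0) (T 2 1) (T 2 2) (T 3 0) (T 3 1) (T 4 0) k) v = app k (mXY (tr80 M) T v) := rfl

theorem kWX_eq (M : ℕ) (T : ℕ → ℕ → ℕ) (k : K70) (v : CN) :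
    app (kWX M (T 0 0) (T 0 1) (T 0 2) (T 0 3) (T 0 4) (T 1 0) (T 1 1) (T 1 2) (T 1 3) (T 2 0) (T 2 1) (T 2 2) (T 3 0) (T 3 1) (T 4 0) k) v = app k (mWX (tr80 M) T v) := rfl

theorem kR_eq (k : K70) (v : CN) : app (kR k) v = app k (rlb v) := rfl

theorem kSum_eq (k : ℕ → K70) (v : CN) : app (kSum k) v = app (k (tot4N v)) v := rfl

theorem kF_eq (M B keep : ℕ) (k : K70) (v : CN) : app (kF M B keep k) v = app k (fcP M B keep v) := rfl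

theorem kZ_eq (M B r : ℕ) (k : K70) (v : CN) : app (kZ M B r k) v = app k (spZ M B r v) := rfl

theorem kRst_eq (M B r : ℕ) (k : K70) (v : CN) : app (kRst M B r k) v = app k (spR M B r v) := rfl

theorem kBoth_eq (k k' : K70) (v : CN) : app (kBoth k k') v = cond (app k v) (app k' v) false := rfl

theorem kGuard_eq (b : Bool) (k : K70) (v : CN) : app (kGuard b k) v = cond b (app k v) false := rfl

theorem kTrue_eq (v : CN) : app kTrue v = true := rfl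

end Pool.Agent.H41.GL
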