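import Pool.Agent.H41.GL.FwdLaw

/-!
# From the four children to counts
-/

namespace Pool.Agent.H41.GL

open Finset

/-- configurations of hidden types of the four children -/
abbrev Cfg : Type := Fin 4 → Ty

/-- number of children of type `s` -/
def cnt (η : Cfg) (s : Ty) : ℕ := (univ.filter fun v => η v = s).card

/-- push forward with the same kernel for all children, independently -/
def push (K : Ty → Ty → ℝ) (G : Cfg → ℝ) (θ : Cfg) : ℝ := ∑ η, (∏ v, K (η v) (θ v)) * G η

theorem push_kmul (K L : Ty → Ty → ℝ) (G : Cfg → ℝ) : push (kmul K L) G = push L (push K G) := by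
  funext θ
  unfold push kmul
  have e1 : ∀ η : Cfg, ∏ v, ∑ s', K (η v) s' * L s' (θ v) =
      ∑ ζ : Cfg, ∏ v, (K (η v) (ζ v) * L (ζ v) (θ v)) := by
    intro η
    have h := Finset.prod_univ_sum (fun _ : Fin 4 => (univ : Finset Ty))
      (fun v s' => K (η v) s' * L s' (θ v))
    rw [Fintype.piFinset_univ] at h
    exact h
  simp only [e1, Finset.sum_mul, Finset.mul_sum]
  rw [Finset.sum_comm]
  refine Finset.sum_congr rfl fun ζ _ => Finset.sum_congr rfl fun η _ => ?_
  rw [Finset.prod_mul_distrib]
  ring

/-- pushing forward and then summing a function -/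
theorem sum_push (K : Ty → Ty → ℝ) (G F : Cfg → ℝ) :
    ∑ θ, F θ * push K G θ = ∑ η, G η * ∑ θ, (∏ v, K (η v) (θ v)) * F θ := by
  unfold push
  simp only [Finset.mul_sum]
  rw [Finset.sum_comm]
  exact Finset.sum_congr rfl fun η _ => Finset.sum_congr rfl fun θ _ => by ring

/-- move the coordinates in `S` to `t'` -/
def mvS (t' : Ty) (η : Cfg) (S : Finset (Fin 4)) : Cfg := fun v => if v ∈ S then t' else η v

theorem cnt_mvS {t t' : Ty} (htt : t ≠ t') {η : Cfg} {S : Finset (Fin 4)}
    (hS : S ⊆ univ.filter fun v => η v = t) (s : Ty) :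
    cnt (mvS t' η S) s = if s = t then cnt η t - S.card
      else if s = t' then cnt η t' + S.card else cnt η s := by
  have hm : ∀ v ∈ S, η v = t := fun v hv => by
    have := hS hv
    simpa using this
  unfold cnt mvS
  split_ifs with h1 h2
  · subst h1
    rw [← Finset.card_sdiff_of_subset hS]
    congr 1
    ext v
    simp only [mem_filter, mem_univ, true_and, mem_sdiff]
    by_cases hv : v ∈ S
    · simp [hv, htt.symm]
    · simp [hv]
  · subst h2
    have hd : Disjoint (univ.filter fun v => η v = s) S := by
      rw [Finset.disjoint_left]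
      intro v hv hv'
      simp only [mem_filter, mem_univ, true_and] at hv
      exact htt ((hm v hv').symm.trans hv)
    rw [← Finset.card_union_of_disjoint hd]
    congr 1
    ext v
    simp only [mem_filter, mem_univ, true_and, mem_union]
    by_cases hv : v ∈ S
    · simp [hv]
    · simp [hv]
  · congr 1
    ext v
    simp only [mem_filter, mem_univ, true_and]
    by_cases hv : v ∈ S
    · simp only [hv, if_true, hm v hv]
      exact ⟨fun h => absurd h.symm h2, fun h => absurd h.symm h1⟩
    · simp [hv]

theorem prod_KM {t t' : Ty} (htt : t ≠ t') (q : ℝ) {η : Cfg} {S : Finset (Fin 4)}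
    (hS : S ⊆ univ.filter fun v => η v = t) :
    ∏ v, KM t t' q (η v) (mvS t' η S v) = q ^ S.card * (1 - q) ^ (cnt η t - S.card) := by
  have hm : ∀ v ∈ S, η v = t := fun v hv => by
    have := hS hv
    simpa using this
  have e1 : ∀ v, KM t t' q (η v) (mvS t' η S v) =
      (if v ∈ S then q else 1) *
        (if v ∈ (univ.filter fun v => η v = t) \ S then 1 - q else 1) := by
    intro v
    unfold KM mvS
    by_cases hv : v ∈ S
    · simp [hv, hm v hv, htt.symm]
    · by_cases ht : η v = t
      · simp [hv, ht]
      · simp [hv, ht]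
  rw [Finset.prod_congr rfl fun v _ => e1 v, Finset.prod_mul_distrib, Finset.prod_ite_mem,
    Finset.prod_ite_mem, Finset.univ_inter, Finset.univ_inter, Finset.prod_const,
    Finset.prod_const, Finset.card_sdiff_of_subset hS]
  rfl

/-- one move of all children, on functions of the counts -/
theorem sum_KM {t t' : Ty} (htt : t ≠ t') (q : ℝ) (η : Cfg) (Φ : (Ty → ℕ) → ℝ) :
    ∑ θ, (∏ v, KM t t' q (η v) (θ v)) * Φ (cnt θ) =
      ∑ j ∈ range (cnt η t + 1), ((cnt η t).choose j : ℝ) * (q ^ j * (1 - q) ^ (cnt η t - j) *
        Φ fun s => if s = t then cnt η t - j else if s = t' then cnt η t' + j else cnt η s) := by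
  have e1 : ∑ S ∈ (univ.filter fun v => η v = t).powerset,
      (q ^ S.card * (1 - q) ^ (cnt η t - S.card) *
        Φ fun s => if s = t then cnt η t - S.card else if s = t' then cnt η t' + S.card
          else cnt η s) = ∑ θ, (∏ v, KM t t' q (η v) (θ v)) * Φ (cnt θ) := by
    refine Finset.sum_of_injOn (mvS t' η) ?_ ?_ ?_ ?_
    · intro S hS S' hS' h
      simp only [coe_powerset, Set.mem_preimage, Set.mem_powerset_iff, coe_subset] at hS hS'
      ext v
      have hv := congrFun h v
      unfold mvS at hv
      constructor
      · intro h1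
        by_contra h2
        have h3 : η v = t := by simpa using hS h1
        simp only [h1, h2, if_true, if_false, h3] at hv
        exact htt hv.symm
      · intro h1
        by_contra h2
        have h3 : η v = t := by simpa using hS' h1
        simp only [h1, h2, if_true, if_false, h3] at hv
        exact htt hv
    · intro S _
      simp
    · intro θ _ hθ
      have h1 : ∃ v, KM t t' q (η v) (θ v) = 0 := by
        by_contra hc
        push Not at hc
        apply hθ
        refine ⟨univ.filter fun v => η v = t ∧ θ v = t', ?_, ?_⟩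
        · simp only [coe_powerset, Set.mem_preimage, Set.mem_powerset_iff, coe_subset]
          intro v hv
          simp only [mem_filter, mem_univ, true_and] at hv ⊢
          exact hv.1
        · funext v
          have h2 := hc v
          unfold KM at h2
          unfold mvS
          by_cases ht : η v = t
          · by_cases ht' : θ v = t'
            · simp [ht, ht']
            · simp only [ht, if_true, ht', if_false] at h2
              by_cases h3 : θ v = t
              · simp [h3, ht]
                intro h4
                exact absurd h4 htt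
              · rw [if_neg h3] at h2
                exact absurd rfl h2
          · rw [if_neg ht] at h2
            by_cases h3 : θ v = η v
            · simp [ht, h3]
            · rw [if_neg h3] at h2
              exact absurd rfl h2
      obtain ⟨v, hv⟩ := h1
      rw [Finset.prod_eq_zero (mem_univ v) hv, zero_mul]
    · intro S hS
      rw [mem_powerset] at hS
      rw [prod_KM htt q hS]
      congr 2
      funext s
      exact (cnt_mvS htt hS s).symm
  rw [← e1]
  have e2 := Finset.sum_powerset_apply_card (x := univ.filter fun v => η v = t)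
      (fun j => q ^ j * (1 - q) ^ (cnt η t - j) *
        Φ fun s => if s = t then cnt η t - j else if s = t' then cnt η t' + j
          else cnt η s)
  rw [e2]
  simp only [nsmul_eq_mul]
  rfl

/-- mass of the configurations with given counts -/
noncomputable def cn (G : Cfg → ℝ) : Cnt := fun w a y x =>
  ∑ η, (if cnt η .W = w ∧ cnt η .A = a ∧ cnt η .Y = y ∧ cnt η .X = x then 1 else 0) * G η

theorem cnt_sum (η : Cfg) : cnt η .W + cnt η .A + cnt η .Y + cnt η .X + cnt η .E = 4 := by
  have h1 : ∑ s, cnt η s = 4 := by
    have := Finset.card_eq_sum_card_fiberwise (f := η) (s := (univ : Finset (Fin 4)))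
      (t := (univ : Finset Ty)) (fun _ _ => by simp)
    simp only [card_univ, Fintype.card_fin] at this
    exact this.symm
  have h2 : (univ : Finset Ty) = {.W, .A, .Y, .X, .E} := by decide
  rw [h2, Finset.sum_insert (by decide), Finset.sum_insert (by decide),
    Finset.sum_insert (by decide), Finset.sum_insert (by decide), Finset.sum_singleton] at h1
  omega

theorem tot_cn (G : Cfg → ℝ) : tot (cn G) = ∑ η, G η := by
  unfold tot cn
  have e1 : ∀ η : Cfg, (∑ w ∈ range 5, ∑ a ∈ range 5, ∑ y ∈ range 5, ∑ x ∈ range 5,
      (if cnt η .W = w ∧ cnt η .A = a ∧ cnt η .Y = y ∧ cnt η .X = x then 1 else 0) * G η) =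
      G η := by
    intro η
    have h := cnt_sum η
    rw [Finset.sum_eq_single (cnt η .W), Finset.sum_eq_single (cnt η .A),
      Finset.sum_eq_single (cnt η .Y), Finset.sum_eq_single (cnt η .X)]
    · simp
    · intro b _ hb
      rw [if_neg (by tauto), zero_mul]
    · intro hb
      rw [mem_range] at hb
      omega
    · intro b _ hb
      exact Finset.sum_eq_zero fun _ _ => by rw [if_neg (by tauto), zero_mul]
    · intro hb
      rw [mem_range] at hb
      omega
    · intro b _ hb
      exact Finset.sum_eq_zero fun _ _ => Finset.sum_eq_zero fun _ _ => by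
        rw [if_neg (by tauto), zero_mul]
    · intro hb
      rw [mem_range] at hb
      omega
    · intro b _ hb
      exact Finset.sum_eq_zero fun _ _ => Finset.sum_eq_zero fun _ _ =>
        Finset.sum_eq_zero fun _ _ => by rw [if_neg (by tauto), zero_mul]
    · intro hb
      rw [mem_range] at hb
      omega
  have e2 : (∑ w ∈ range 5, ∑ a ∈ range 5, ∑ y ∈ range 5, ∑ x ∈ range 5, ∑ η,
      (if cnt η .W = w ∧ cnt η .A = a ∧ cnt η .Y = y ∧ cnt η .X = x then 1 else 0) * G η) =
      ∑ η, (∑ w ∈ range 5, ∑ a ∈ range 5, ∑ y ∈ range 5, ∑ x ∈ range 5,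
      (if cnt η .W = w ∧ cnt η .A = a ∧ cnt η .Y = y ∧ cnt η .X = x then 1 else 0) * G η) := by
    rw [Finset.sum_comm (s := (univ : Finset Cfg))]
    refine Finset.sum_congr rfl fun w _ => ?_
    rw [Finset.sum_comm (s := (univ : Finset Cfg))]
    refine Finset.sum_congr rfl fun a _ => ?_
    rw [Finset.sum_comm (s := (univ : Finset Cfg))]
    refine Finset.sum_congr rfl fun y _ => ?_
    rw [Finset.sum_comm (s := (univ : Finset Cfg))]
  rw [e2]
  exact Finset.sum_congr rfl fun η _ => e1 η

/-- the indicator of given counts, as a function of the counts -/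
noncomputable def ind (w a y x : ℕ) (n : Ty → ℕ) : ℝ :=
  if n .W = w ∧ n .A = a ∧ n .Y = y ∧ n .X = x then 1 else 0

theorem cn_eq (G : Cfg → ℝ) (w a y x : ℕ) : cn G w a y x = ∑ η, ind w a y x (cnt η) * G η := rfl

theorem cn_push {t t' : Ty} (htt : t ≠ t') (q : ℝ) (G : Cfg → ℝ) (w a y x : ℕ) :
    cn (push (KM t t' q) G) w a y x = ∑ η, G η *
      ∑ j ∈ range (cnt η t + 1), ((cnt η t).choose j : ℝ) * (q ^ j * (1 - q) ^ (cnt η t - j) *
        ind w a y x fun s => if s = t then cnt η t - j else if s = t' then cnt η t' + j
          else cnt η s) := by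
  rw [cn_eq, sum_push]
  exact Finset.sum_congr rfl fun η _ => by rw [sum_KM htt]

theorem mul_ind_comm (g : ℝ) {ι : Type} (s : Finset ι) (f : ι → ℝ) :
    ∑ i ∈ s, f i * g = g * ∑ i ∈ s, f i := by
  rw [Finset.mul_sum]; exact Finset.sum_congr rfl fun _ _ => mul_comm _ _


end Pool.Agent.H41.GL
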