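import Pool.Agent.H41.GL.FwdRing

/-!
# Hidden types of a child
-/

namespace Pool.Agent.H41.GL

open Finset

/-- types of a child: waiting, on since time `0`, old on, new on, ended -/
inductive Ty
  | W
  | A
  | Y
  | X
  | E
  deriving DecidableEq, Fintype

/-- visible status of a type -/
def proj : Ty → St
  | .W => .w
  | .E => .e
  | _ => .o

theorem sum_Ty (f : Ty → ℝ) : ∑ s, f s = f .W + f .A + f .Y + f .X + f .E := by
  have : (univ : Finset Ty) = {.W, .A, .Y, .X, .E} := by decide
  rw [this, Finset.sum_insert (by decide), Finset.sum_insert (by decide),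
    Finset.sum_insert (by decide), Finset.sum_insert (by decide), Finset.sum_singleton]
  ring

/-- the move `t → t'` with probability `q` -/
def KM (t t' : Ty) (q : ℝ) (s s' : Ty) : ℝ :=
  if s = t then (if s' = t then 1 - q else if s' = t' then q else 0)
  else (if s' = s then 1 else 0)

/-- composition of kernels -/
def kmul (K L : Ty → Ty → ℝ) (s s'' : Ty) : ℝ := ∑ s', K s s' * L s' s''

/-- drops of slot `i` -/
def Kd (H : Haz) (κ i : ℕ) : Ty → Ty → ℝ :=
  kmul (kmul (KM .A .E (H.a κ i)) (KM .Y .E (H.y κ i))) (KM .X .E (H.x κ i))

/-- moves after the drops -/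
def Km (H : Haz) (κ i : ℕ) : Ty → Ty → ℝ :=
  kmul (KM .X .Y (H.la κ i)) (KM .W .X (H.al κ i))

/-- moves after the drops, including the relabelling at the time when the parent is on -/
def Kr (m : ℕ) (H : Haz) (c i : ℕ) : Ty → Ty → ℝ :=
  if i + 1 = c then kmul (Km H (par m c i) i) (KM .X .Y 1) else Km H (par m c i) i

/-- full kernel of slot `i`, for a parent on since time `c` -/
def Kf (m : ℕ) (H : Haz) (c i : ℕ) : Ty → Ty → ℝ :=
  kmul (Kd H (par m c i) i) (Kr m H c i)

/-- the law of the hidden type after one slot -/
def adv (K : Ty → Ty → ℝ) (v : Ty → ℝ) (s' : Ty) : ℝ := ∑ s, K s s' * v s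

theorem adv_kmul (K L : Ty → Ty → ℝ) (v : Ty → ℝ) : adv (kmul K L) v = adv L (adv K v) := by
  funext s
  unfold adv kmul
  simp only [Finset.sum_mul, Finset.mul_sum]
  rw [Finset.sum_comm]
  exact Finset.sum_congr rfl fun _ _ => Finset.sum_congr rfl fun _ _ => by ring

/-- vectors indexed by types -/
def vec (w a y x e : ℝ) : Ty → ℝ
  | .W => w
  | .A => a
  | .Y => y
  | .X => x
  | .E => e

theorem adv_AE (q w a y x e : ℝ) :
    adv (KM .A .E q) (vec w a y x e) = vec w (a * (1 - q)) y x (e + a * q) := by
  funext s
  unfold adv
  rw [sum_Ty]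
  cases s <;> simp [KM, vec] <;> ring

theorem adv_YE (q w a y x e : ℝ) :
    adv (KM .Y .E q) (vec w a y x e) = vec w a (y * (1 - q)) x (e + y * q) := by
  funext s
  unfold adv
  rw [sum_Ty]
  cases s <;> simp [KM, vec] <;> ring

theorem adv_XE (q w a y x e : ℝ) :
    adv (KM .X .E q) (vec w a y x e) = vec w a y (x * (1 - q)) (e + x * q) := by
  funext s
  unfold adv
  rw [sum_Ty]
  cases s <;> simp [KM, vec] <;> ring

theorem adv_XY (q w a y x e : ℝ) :
    adv (KM .X .Y q) (vec w a y x e) = vec w a (y + x * q) (x * (1 - q)) e := by
  funext s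
  unfold adv
  rw [sum_Ty]
  cases s <;> simp [KM, vec] <;> ring

theorem adv_WX (q w a y x e : ℝ) :
    adv (KM .W .X q) (vec w a y x e) = vec (w * (1 - q)) a y (x + w * q) e := by
  funext s
  unfold adv
  rw [sum_Ty]
  cases s <;> simp [KM, vec] <;> ring

/-- initial law of the type -/
def vini (p0 : ℝ) : Ty → ℝ := vec (1 - p0) p0 0 0 0

/-- joint law of the visible history (newest first) and of the hidden type at the newest time -/
def psi (m : ℕ) (p0 : ℝ) (H : Haz) (c : ℕ) : List St → Ty → ℝ
  | [] => fun _ => 0
  | [s] => fun y => if s = proj y then vini p0 y else 0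
  | s :: h' :: h => fun y => if s = proj y then adv (Kf m H c h.length) (psi m p0 H c (h' :: h)) y
      else 0

/-- restriction of a vector to the types with a given visible status -/
def rst (s : St) (v : Ty → ℝ) (y : Ty) : ℝ := if s = proj y then v y else 0

theorem rst_w (w a y x e : ℝ) : rst .w (vec w a y x e) = vec w 0 0 0 0 := by
  funext s; cases s <;> simp [rst, proj, vec]

theorem rst_o (w a y x e : ℝ) : rst .o (vec w a y x e) = vec 0 a y x 0 := by
  funext s; cases s <;> simp [rst, proj, vec]

theorem rst_e (w a y x e : ℝ) : rst .e (vec w a y x e) = vec 0 0 0 0 e := by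
  funext s; cases s <;> simp [rst, proj, vec]

theorem psi_one (m : ℕ) (p0 : ℝ) (H : Haz) (c : ℕ) (s : St) :
    psi m p0 H c [s] = rst s (vini p0) := rfl

theorem psi_cons (m : ℕ) (p0 : ℝ) (H : Haz) (c : ℕ) (s s' : St) (h : List St) :
    psi m p0 H c (s :: s' :: h) =
      rst s (adv (Kf m H c h.length) (psi m p0 H c (s' :: h))) := rfl

/-- the full kernel on vectors -/
theorem adv_Kf {m : ℕ} (H : Haz) (c i : ℕ) (w a y x e : ℝ) :
    adv (Kf m H c i) (vec w a y x e) =
      vec (w * (1 - H.al (par m c i) i)) (a * (1 - H.a (par m c i) i))
        (if i + 1 = c then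
          (y * (1 - H.y (par m c i) i) + x * (1 - H.x (par m c i) i) * H.la (par m c i) i) +
          (x * (1 - H.x (par m c i) i) * (1 - H.la (par m c i) i) + w * H.al (par m c i) i)
         else y * (1 - H.y (par m c i) i) + x * (1 - H.x (par m c i) i) * H.la (par m c i) i)
        (if i + 1 = c then 0
         else x * (1 - H.x (par m c i) i) * (1 - H.la (par m c i) i) + w * H.al (par m c i) i)
        (e + a * H.a (par m c i) i + y * H.y (par m c i) i + x * H.x (par m c i) i) := by
  unfold Kf Kd Kr Km
  split_ifs
  · simp only [adv_kmul, adv_AE, adv_YE, adv_XE, adv_XY, adv_WX]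
    congr 1 <;> ring
  · simp only [adv_kmul, adv_AE, adv_YE, adv_XE, adv_XY, adv_WX]

/-- the vector carried by a history -/
noncomputable def lvec (m : ℕ) (p0 : ℝ) (H : Haz) (c : ℕ) (h : List St) : Ty → ℝ :=
  match shape h with
  | .wt => vec (Wm m p0 H c (h.length - 1)) 0 0 0 0
  | .on c' => if c' = 0 then vec 0 (Am m p0 H c (h.length - 1)) 0 0 0
      else vec 0 0 (XY m p0 H c c' (h.length - 1 - c')).2 (XY m p0 H c c' (h.length - 1 - c')).1 0
  | .en c' l => if c' = 0 then vec 0 0 0 0 (Am m p0 H c l - Am m p0 H c (l + 1))
      else vec 0 0 0 0 (((XY m p0 H c c' (l - c')).1 + (XY m p0 H c c' (l - c')).2) -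
        ((XY m p0 H c c' (l + 1 - c')).1 + (XY m p0 H c c' (l + 1 - c')).2))
  | .bad => vec 0 0 0 0 0

theorem psi_eq {m : ℕ} {p0 : ℝ} {H : Haz} {c : ℕ} (hc : c ≤ m) :
    ∀ (s : St) (h : List St), psi m p0 H c (s :: h) = lvec m p0 H c (s :: h)
  | s, [] => by
      rw [psi_one, vini]
      cases s
      · rw [rst_w]; simp [lvec, shape, Wm]
      · rw [rst_o]; simp [lvec, shape, Am]
      · rw [rst_e]; simp [lvec, shape]
  | s, s' :: h => by
      rw [psi_cons, psi_eq hc s' h]
      have hn : h.length = (s' :: h).length - 1 := by simp
      generalize ht : s' :: h = t at hn ⊢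
      have htl : t.length = h.length + 1 := by rw [← ht]; simp
      unfold lvec
      cases hs : shape t with
      | wt =>
          simp only
          rw [adv_Kf, ← hn]
          cases s
          · rw [rst_w]
            simp only [shape, hs, if_true, List.length_cons, htl, Nat.add_sub_cancel, Wm]
          · rw [rst_o]
            simp only [shape, hs, htl, List.length_cons, Nat.add_sub_cancel]
            rw [if_neg (Nat.succ_ne_zero _), Nat.sub_self]
            simp only [XY, Nat.add_sub_cancel]
            split_ifs <;> simp
          · rw [rst_e]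
            simp [shape, hs]
      | on c' =>
          have h1 := shape_on_lt hs
          simp only
          split_ifs with h0
          · subst h0
            rw [adv_Kf, ← hn]
            cases s
            · rw [rst_w]; simp [shape, hs]
            · rw [rst_o]
              simp only [shape, hs, htl, List.length_cons, Nat.add_sub_cancel, if_true, Am]
              simp
            · rw [rst_e]
              simp only [shape, hs, htl, List.length_cons, Nat.add_sub_cancel, if_true, Am]
              congr 1
              ring
          · rw [adv_Kf, ← hn]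
            obtain ⟨j, hj⟩ : ∃ j, h.length = c' + j := ⟨h.length - c', by omega⟩
            have e1 : h.length - c' = j := by omega
            have e2 : h.length + 1 - c' = j + 1 := by omega
            have e3 : (h.length + 1 = c ∧ c ≤ m) ↔ h.length + 1 = c := ⟨fun h => h.1, fun h => ⟨h, hc⟩⟩
            cases s
            · rw [rst_w]; simp [shape, hs]
            · rw [rst_o]
              simp only [shape, hs, htl, List.length_cons, Nat.add_sub_cancel, if_neg h0, e1, e2,
                XY, ← hj, e3]
              split_ifs
              · simp only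
                congr 1 <;> ring
              · simp only
                congr 1 <;> ring
            · rw [rst_e]
              simp only [shape, hs, htl, Nat.add_sub_cancel, if_neg h0, e1, e2, XY, ← hj, e3]
              split_ifs
              · simp only
                congr 1; ring
              · simp only
                congr 1; ring
      | en c' l =>
          simp only
          split_ifs with h0
          · rw [adv_Kf]
            cases s
            · rw [rst_w]; simp [shape, hs]
            · rw [rst_o]; simp [shape, hs]
            · rw [rst_e]; simp [shape, hs, h0]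
          · rw [adv_Kf]
            cases s
            · rw [rst_w]; simp [shape, hs]
            · rw [rst_o]; simp [shape, hs]
            · rw [rst_e]; simp [shape, hs, h0]
      | bad =>
          simp only
          rw [adv_Kf, shape_cons_bad hs]
          cases s
          · rw [rst_w]; simp
          · rw [rst_o]; simp
          · rw [rst_e]; simp

theorem UH_new {m : ℕ} {p0 : ℝ} {H : Haz} (k n : ℕ) (hn : n + 1 ≤ m) :
    UH m p0 H k (n + 1) (n + 1) = Wm m p0 H k n * H.al (par m k n) n := by
  unfold UH
  rw [if_neg (by omega), if_pos (by omega), Nat.sub_self]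
  simp only [XY, Nat.add_sub_cancel]
  split_ifs <;> simp

theorem Wm_sum {m : ℕ} {p0 : ℝ} {H : Haz} (hH : IsHaz m H) (k : ℕ) : ∀ n, n ≤ m + 1 →
    1 - ∑ c ∈ range (n + 1), UH m p0 H k c c = Wm m p0 H k n
  | 0, _ => by simp [UH, Am, Wm]
  | n + 1, hn => by
      have ih := Wm_sum (p0 := p0) hH k n (by omega)
      rw [Finset.sum_range_succ]
      have e2 : UH m p0 H k (n + 1) (n + 1) = Wm m p0 H k n * H.al (par m k n) n := by
        rcases Nat.lt_or_ge m (n + 1) with h | h
        · have : n = m := by omega
          subst this
          rw [hH.alm, mul_zero]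
          unfold UH
          rw [if_neg (by omega), if_neg (by omega)]
        · exact UH_new k n h
      rw [e2]
      simp only [Wm]
      rw [← ih]
      ring

/-- the visible law is the law given by the family -/
theorem psi_sum {m : ℕ} {p0 : ℝ} {H : Haz} (hH : IsHaz m H) {c : ℕ} (hc : c ≤ m) {h : List St}
    (h0 : h ≠ []) (hl : h.length ≤ m + 2) :
    ∑ y, psi m p0 H c h y = lawU (UH m p0 H c) h := by
  obtain ⟨s, t, rfl⟩ := List.exists_cons_of_ne_nil h0
  rw [psi_eq hc, sum_Ty]
  generalize hh : s :: t = h at hl ⊢
  have hp : 1 ≤ h.length := by rw [← hh]; simp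
  have hXY : XY m p0 H c (m + 1) 0 = (0, 0) := by
    simp only [XY, Nat.add_sub_cancel]
    rw [hH.alm, mul_zero]
    split_ifs <;> rfl
  unfold lvec lawU
  cases hs : shape h with
  | wt =>
      simp only [vec]
      have := Wm_sum (p0 := p0) hH c (h.length - 1) (by omega)
      rw [show h.length - 1 + 1 = h.length by omega] at this
      rw [this]; ring
  | on c' =>
      have h1 := shape_on_lt hs
      simp only
      split_ifs with h2
      · subst h2
        simp [vec, UH]
      · simp only [vec, UH, if_neg h2]
        split_ifs with h3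
        · ring
        · have h4 : c' = m + 1 := by omega
          have h5 : h.length - 1 - c' = 0 := by omega
          rw [h5, h4, hXY]; simp
  | en c' l =>
      have h1 := shape_en_lt hs
      simp only
      split_ifs with h2
      · subst h2
        simp [vec, UH]
      · have h3 : c' ≤ m := by omega
        simp only [vec, UH, if_neg h2, if_pos h3]
        ring
  | bad => simp [vec]

end Pool.Agent.H41.GL
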