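import Pool.Agent.H41.GL.FwdCount

/-!
# The five moves on counts
-/

namespace Pool.Agent.H41.GL

open Finset

theorem cn_A (q : ℝ) (G : Cfg → ℝ) : cn (push (KM .A .E q) G) = mvA q (cn G) := by
  funext w a y x
  rw [cn_push (by decide)]
  unfold mvA
  simp only [cn_eq, Finset.mul_sum]
  rw [Finset.sum_comm (s := range (5 - (w + a + y + x)))]
  refine Finset.sum_congr rfl fun η _ => ?_
  simp only [← mul_assoc]
  rw [← Finset.sum_mul, mul_comm _ (G η)]
  simp only [mul_assoc]
  rw [← Finset.mul_sum]
  congr 1
  have h4 := cnt_sum η
  by_cases hc : cnt η .W = w ∧ a ≤ cnt η .A ∧ cnt η .Y = y ∧ cnt η .X = x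
  · obtain ⟨c1, c2, c3, c4⟩ := hc
    rw [Finset.sum_eq_single (cnt η .A - a), Finset.sum_eq_single (cnt η .A - a)]
    · have h5 : a + (cnt η .A - a) = cnt η .A := by omega
      have h6 : cnt η .A - (cnt η .A - a) = a := by omega
      rw [h5, h6]
      have h7 : (cnt η .A).choose (cnt η .A - a) = (cnt η .A).choose a := by
        rw [Nat.choose_symm c2]
      rw [h7]
      simp only [ind]
      rw [if_pos (by simp; omega), if_pos (by simp; omega)]
      ring
    · intro u hu' hu
      rw [mem_range] at hu'
      simp only [ind]
      rw [if_neg (by omega)]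
      ring
    · intro h
      rw [mem_range] at h
      omega
    · intro j hj hu
      rw [mem_range] at hj
      simp only [ind]
      rw [if_neg]
      · ring
      · simp
        omega
    · intro h
      rw [mem_range] at h
      omega
  · rw [Finset.sum_eq_zero, Finset.sum_eq_zero]
    · intro u hu
      rw [mem_range] at hu
      simp only [ind]
      rw [if_neg (by omega)]
      ring
    · intro j hj
      rw [mem_range] at hj
      simp only [ind]
      rw [if_neg]
      · ring
      · simp
        omega

theorem cn_Y (q : ℝ) (G : Cfg → ℝ) : cn (push (KM .Y .E q) G) = mvY q (cn G) := by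
  funext w a y x
  rw [cn_push (by decide)]
  unfold mvY
  simp only [cn_eq, Finset.mul_sum]
  rw [Finset.sum_comm (s := range (5 - (w + a + y + x)))]
  refine Finset.sum_congr rfl fun η _ => ?_
  simp only [← mul_assoc]
  rw [← Finset.sum_mul, mul_comm _ (G η)]
  simp only [mul_assoc]
  rw [← Finset.mul_sum]
  congr 1
  have h4 := cnt_sum η
  by_cases hc : cnt η .W = w ∧ cnt η .A = a ∧ y ≤ cnt η .Y ∧ cnt η .X = x
  · obtain ⟨c1, c2, c3, c4⟩ := hc
    rw [Finset.sum_eq_single (cnt η .Y - y), Finset.sum_eq_single (cnt η .Y - y)]
    · have h5 : y + (cnt η .Y - y) = cnt η .Y := by omega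
      have h6 : cnt η .Y - (cnt η .Y - y) = y := by omega
      rw [h5, h6]
      have h7 : (cnt η .Y).choose (cnt η .Y - y) = (cnt η .Y).choose y := by
        rw [Nat.choose_symm c3]
      rw [h7]
      simp only [ind]
      rw [if_pos (by simp; omega), if_pos (by simp; omega)]
      ring
    · intro u hu' hu
      rw [mem_range] at hu'
      simp only [ind]
      rw [if_neg (by omega)]
      ring
    · intro h
      rw [mem_range] at h
      omega
    · intro j hj hu
      rw [mem_range] at hj
      simp only [ind]
      rw [if_neg]
      · ring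
      · simp
        omega
    · intro h
      rw [mem_range] at h
      omega
  · rw [Finset.sum_eq_zero, Finset.sum_eq_zero]
    · intro u hu
      rw [mem_range] at hu
      simp only [ind]
      rw [if_neg (by omega)]
      ring
    · intro j hj
      rw [mem_range] at hj
      simp only [ind]
      rw [if_neg]
      · ring
      · simp
        omega

theorem cn_X (q : ℝ) (G : Cfg → ℝ) : cn (push (KM .X .E q) G) = mvX q (cn G) := by
  funext w a y x
  rw [cn_push (by decide)]
  unfold mvX
  simp only [cn_eq, Finset.mul_sum]
  rw [Finset.sum_comm (s := range (5 - (w + a + y + x)))]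
  refine Finset.sum_congr rfl fun η _ => ?_
  simp only [← mul_assoc]
  rw [← Finset.sum_mul, mul_comm _ (G η)]
  simp only [mul_assoc]
  rw [← Finset.mul_sum]
  congr 1
  have h4 := cnt_sum η
  by_cases hc : cnt η .W = w ∧ cnt η .A = a ∧ cnt η .Y = y ∧ x ≤ cnt η .X
  · obtain ⟨c1, c2, c3, c4⟩ := hc
    rw [Finset.sum_eq_single (cnt η .X - x), Finset.sum_eq_single (cnt η .X - x)]
    · have h5 : x + (cnt η .X - x) = cnt η .X := by omega
      have h6 : cnt η .X - (cnt η .X - x) = x := by omega
      rw [h5, h6]
      have h7 : (cnt η .X).choose (cnt η .X - x) = (cnt η .X).choose x := by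
        rw [Nat.choose_symm c4]
      rw [h7]
      simp only [ind]
      rw [if_pos (by simp; omega), if_pos (by simp; omega)]
      ring
    · intro u hu' hu
      rw [mem_range] at hu'
      simp only [ind]
      rw [if_neg (by omega)]
      ring
    · intro h
      rw [mem_range] at h
      omega
    · intro j hj hu
      rw [mem_range] at hj
      simp only [ind]
      rw [if_neg]
      · ring
      · simp
        omega
    · intro h
      rw [mem_range] at h
      omega
  · rw [Finset.sum_eq_zero, Finset.sum_eq_zero]
    · intro u hu
      rw [mem_range] at hu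
      simp only [ind]
      rw [if_neg (by omega)]
      ring
    · intro j hj
      rw [mem_range] at hj
      simp only [ind]
      rw [if_neg]
      · ring
      · simp
        omega

theorem cn_XY (q : ℝ) (G : Cfg → ℝ) : cn (push (KM .X .Y q) G) = mvXY q (cn G) := by
  funext w a y x
  rw [cn_push (by decide)]
  unfold mvXY
  simp only [cn_eq, Finset.mul_sum]
  rw [Finset.sum_comm (s := range (y + 1))]
  refine Finset.sum_congr rfl fun η _ => ?_
  simp only [← mul_assoc]
  rw [← Finset.sum_mul, mul_comm _ (G η)]
  simp only [mul_assoc]
  rw [← Finset.mul_sum]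
  congr 1
  have h4 := cnt_sum η
  by_cases hc : cnt η .W = w ∧ cnt η .A = a ∧ cnt η .X + cnt η .Y = x + y ∧ x ≤ cnt η .X
  · obtain ⟨c1, c2, c3, c4⟩ := hc
    rw [Finset.sum_eq_single (cnt η .X - x), Finset.sum_eq_single (cnt η .X - x)]
    · have h5 : x + (cnt η .X - x) = cnt η .X := by omega
      have h6 : cnt η .X - (cnt η .X - x) = x := by omega
      rw [h5, h6]
      have h7 : (cnt η .X).choose (cnt η .X - x) = (cnt η .X).choose x := by
        rw [Nat.choose_symm c4]
      rw [h7]
      simp only [ind]
      rw [if_pos (by simp; omega), if_pos (by simp; omega)]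
      ring
    · intro u hu' hu
      rw [mem_range] at hu'
      simp only [ind]
      rw [if_neg (by omega)]
      ring
    · intro h
      rw [mem_range] at h
      omega
    · intro j hj hu
      rw [mem_range] at hj
      simp only [ind]
      rw [if_neg]
      · ring
      · simp
        omega
    · intro h
      rw [mem_range] at h
      omega
  · rw [Finset.sum_eq_zero, Finset.sum_eq_zero]
    · intro u hu
      rw [mem_range] at hu
      simp only [ind]
      rw [if_neg (by omega)]
      ring
    · intro j hj
      rw [mem_range] at hj
      simp only [ind]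
      rw [if_neg]
      · ring
      · simp
        omega

theorem cn_WX (q : ℝ) (G : Cfg → ℝ) : cn (push (KM .W .X q) G) = mvWX q (cn G) := by
  funext w a y x
  rw [cn_push (by decide)]
  unfold mvWX
  simp only [cn_eq, Finset.mul_sum]
  rw [Finset.sum_comm (s := range (x + 1))]
  refine Finset.sum_congr rfl fun η _ => ?_
  simp only [← mul_assoc]
  rw [← Finset.sum_mul, mul_comm _ (G η)]
  simp only [mul_assoc]
  rw [← Finset.mul_sum]
  congr 1
  have h4 := cnt_sum η
  by_cases hc : w ≤ cnt η .W ∧ cnt η .A = a ∧ cnt η .Y = y ∧ cnt η .W + cnt η .X = w + x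
  · obtain ⟨c1, c2, c3, c4⟩ := hc
    rw [Finset.sum_eq_single (cnt η .W - w), Finset.sum_eq_single (cnt η .W - w)]
    · have h5 : w + (cnt η .W - w) = cnt η .W := by omega
      have h6 : cnt η .W - (cnt η .W - w) = w := by omega
      rw [h5, h6]
      have h7 : (cnt η .W).choose (cnt η .W - w) = (cnt η .W).choose w := by
        rw [Nat.choose_symm c1]
      rw [h7]
      simp only [ind]
      rw [if_pos (by simp; omega), if_pos (by simp; omega)]
      ring
    · intro u hu' hu
      rw [mem_range] at hu'
      simp only [ind]
      rw [if_neg (by omega)]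
      ring
    · intro h
      rw [mem_range] at h
      omega
    · intro j hj hu
      rw [mem_range] at hj
      simp only [ind]
      rw [if_neg]
      · ring
      · simp
        omega
    · intro h
      rw [mem_range] at h
      omega
  · rw [Finset.sum_eq_zero, Finset.sum_eq_zero]
    · intro u hu
      rw [mem_range] at hu
      simp only [ind]
      rw [if_neg (by omega)]
      ring
    · intro j hj
      rw [mem_range] at hj
      simp only [ind]
      rw [if_neg]
      · ring
      · simp
        omega

end Pool.Agent.H41.GL
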