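import Pool.Agent.H41.GL.Chain
import Pool.Agent.H41.GL.Cavity

/-!
# Averaging over the ring indicators
-/

namespace Pool.Agent.H41.GL

open Finset

/-- averages over the ring indicators of products over slots -/
theorem ring_avg {m : ℕ} (r : ℕ → ℝ) {n : ℕ} (hn : n ≤ m + 1) (g : ℕ → Bool → ℝ) :
    ∑ ρ : Fin m → Bool, wtRing m r ρ * ∏ i ∈ range n, g i (ext ρ i) =
      ∏ i ∈ range n, (if i < m then r i * g i true + (1 - r i) * g i false else g i true) := by
  have e1 : ∀ f : ℕ → ℝ, ∏ i ∈ range n, f i =
      (∏ i : Fin m, if (i : ℕ) < n then f i else 1) * (if m < n then f m else 1) := by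
    intro f
    have h1 : ∏ i ∈ range n, f i = ∏ i ∈ range (m + 1), if i < n then f i else 1 := by
      rw [← Finset.prod_filter]
      refine Finset.prod_congr ?_ fun _ _ => rfl
      ext i
      simp only [mem_range, mem_filter]
      omega
    rw [h1, Finset.prod_range_succ, Finset.prod_range]
  have e2 : ∀ ρ : Fin m → Bool, wtRing m r ρ * ∏ i ∈ range n, g i (ext ρ i) =
      (∏ i : Fin m, ((if ρ i = true then r i else 1 - r i) *
        (if (i : ℕ) < n then g i (ρ i) else 1))) * (if m < n then g m true else 1) := by
    intro ρ
    rw [e1, ← mul_assoc, wtRing, ← Finset.prod_mul_distrib]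
    congr 1
    · refine Finset.prod_congr rfl fun i _ => ?_
      have : ext ρ i = ρ i := by simp [ext]
      rw [this]
    · have : ext ρ m = true := by simp [ext]
      rw [this]
  rw [Finset.sum_congr rfl fun ρ _ => e2 ρ, ← Finset.sum_mul, e1]
  have h := (Finset.prod_univ_sum (fun _ : Fin m => (univ : Finset Bool))
    (fun (i : Fin m) (b : Bool) => (if b = true then r i else 1 - r i) *
        (if (i : ℕ) < n then g i b else 1))).symm
  rw [Fintype.piFinset_univ] at h
  rw [h, if_neg (lt_irrefl m)]
  congr 1
  refine Finset.prod_congr rfl fun i _ => ?_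
  rw [Fintype.sum_bool, if_pos i.2]
  by_cases hi : (i : ℕ) < n
  · simp [hi]
  · simp [hi]

/-- okS of slot `i`, read off the joint history -/
def okL (k : ℕ) : List (Fin 4 → St) → ℕ → Bool
  | [], _ => true
  | [_], _ => true
  | z' :: z :: zs, i => if i = zs.length then okS k i z z' else okL k (z :: zs) i

/-- indicator factor of slot `i` -/
def gsl (c : ℕ) (i : ℕ) (ok b : Bool) : ℝ :=
  if i + 1 < c then (if b && ok then 0 else 1)
  else if i + 1 = c then (if b && ok then 1 else 0)
  else (if b && !ok then 0 else 1)

/-- averaged factor of slot `i` -/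
noncomputable def fct (m : ℕ) (r : ℕ → ℝ) (c i : ℕ) (ok : Bool) : ℝ :=
  if i + 1 < c then (if ok then 1 - r i else 1)
  else if i + 1 = c then (if ok then r i else 0)
  else (if ok then 1 else 1 - rr m r i)

/-- product of the averaged factors -/
noncomputable def phi (m : ℕ) (r : ℕ → ℝ) (k c : ℕ) : List (Fin 4 → St) → ℝ
  | [] => 1
  | [_] => 1
  | z' :: z :: zs => phi m r k c (z :: zs) * fct m r c zs.length (okS k zs.length z z')

theorem prod_okL {k : ℕ} (z' z : Fin 4 → St) (zs : List (Fin 4 → St)) (g : ℕ → Bool → ℝ) :
    ∏ i ∈ range (z :: zs).length, g i (okL k (z' :: z :: zs) i) =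
      (∏ i ∈ range zs.length, g i (okL k (z :: zs) i)) *
        g zs.length (okS k zs.length z z') := by
  rw [List.length_cons, Finset.prod_range_succ]
  congr 1
  · refine Finset.prod_congr rfl fun i hi => ?_
    rw [mem_range] at hi
    simp only [okL]
    rw [if_neg (by omega)]
  · simp only [okL, if_true]

theorem phi_eq {m : ℕ} {r : ℕ → ℝ} {k c : ℕ} : ∀ (z : Fin 4 → St) (zs : List (Fin 4 → St)),
    phi m r k c (z :: zs) = ∏ i ∈ range zs.length, fct m r c i (okL k (z :: zs) i)
  | z, [] => by simp [phi]
  | z', z :: zs => by
      rw [prod_okL z' z zs (fct m r c), phi, phi_eq z zs]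

theorem vsh_wt_prod {m : ℕ} {rg : ℕ → Bool} {k c : ℕ} (hc : c ≤ m) :
    ∀ (z : Fin 4 → St) (zs : List (Fin 4 → St)), zs.length < c →
      (if vsh m false rg k (z :: zs) = .wt then (1 : ℝ) else 0) =
        ∏ i ∈ range zs.length, gsl c i (okL k (z :: zs) i) (rg i)
  | z, [], _ => by simp [vsh]
  | z', z :: zs, hl => by
      have hl' : zs.length + 1 < c := by simpa using hl
      have ih := vsh_wt_prod (rg := rg) (k := k) hc z zs (by omega)
      rw [prod_okL z' z zs fun i ok => gsl c i ok (rg i), ← ih]
      have hns : ∀ c' : ℕ, vsh m false rg k (z' :: z :: zs) = .wt →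
          vsh m false rg k (z :: zs) = .wt := by
        intro c' h
        simp only [vsh] at h
        split at h
        · assumption
        · split_ifs at h
        · exact h
      by_cases hw : vsh m false rg k (z :: zs) = .wt
      · rw [if_pos hw, one_mul]
        have hm : zs.length < m := by omega
        simp only [vsh, hw, gsl, hl', if_true, hm, decide_true, Bool.and_true]
        cases rg zs.length <;> cases okS k zs.length z z' <;> simp
      · rw [if_neg hw, zero_mul, if_neg fun h => hw (hns 0 h)]

theorem vsh_on_prod {m : ℕ} {rg : ℕ → Bool} {k c : ℕ} (hc : c ≤ m) :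
    ∀ (z : Fin 4 → St) (zs : List (Fin 4 → St)), c ≤ zs.length →
      (if vsh m (decide (c = 0)) rg k (z :: zs) = .on c then (1 : ℝ) else 0) =
        ∏ i ∈ range zs.length, gsl c i (okL k (z :: zs) i) (rg i)
  | z, [], h => by
      have : c = 0 := by simpa using h
      subst this
      simp [vsh]
  | z', z :: zs, hl => by
      rw [prod_okL z' z zs fun i ok => gsl c i ok (rg i)]
      simp only [List.length_cons] at hl
      rcases Nat.lt_or_ge zs.length c with h | h
      · have hcl : c = zs.length + 1 := by omega
        have hc0 : decide (c = 0) = false := by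
          rw [decide_eq_false_iff_not]; omega
        have ih := vsh_wt_prod (rg := rg) (k := k) hc z zs h
        rw [← ih, hc0]
        have h0 := @vsh_on_lt m false rg k (z :: zs)
        by_cases hw : vsh m false rg k (z :: zs) = .wt
        · rw [if_pos hw, one_mul]
          have hm : zs.length < m := by omega
          simp only [vsh, hw, gsl, hm, decide_true, Bool.and_true, ← hcl, lt_irrefl, if_true,
            if_false]
          cases rg zs.length <;> cases okS k zs.length z z' <;> simp
        · rw [if_neg hw, zero_mul, if_neg]
          intro h'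
          have := vsh_cons_on_or_wt h'
          rcases this with h1 | h1
          · have := (h0 h1).1
            simp only [List.length_cons] at this
            omega
          · exact hw h1
      · have ih := vsh_on_prod (rg := rg) (k := k) hc z zs h
        rw [← ih]
        by_cases hw : vsh m (decide (c = 0)) rg k (z :: zs) = .on c
        · rw [if_pos hw, one_mul]
          have h1 : ¬ zs.length + 1 < c := by omega
          have h2 : ¬ zs.length + 1 = c := by omega
          simp only [vsh, hw, gsl, h1, h2, if_false]
          cases rg zs.length <;> cases okS k zs.length z z' <;> simp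
        · rw [if_neg hw, zero_mul, if_neg]
          intro h'
          exact hw (vsh_cons_on (by simp only [List.length_cons]; omega) h')
where
  vsh_cons_on_or_wt {m : ℕ} {ι : Bool} {rg : ℕ → Bool} {k c : ℕ} {z' z : Fin 4 → St}
      {zs : List (Fin 4 → St)} (H : vsh m ι rg k (z' :: z :: zs) = .on c) :
      vsh m ι rg k (z :: zs) = .on c ∨ vsh m ι rg k (z :: zs) = .wt := by
    simp only [vsh] at H
    split at H
    · right; assumption
    · rename_i c' hc'
      split_ifs at H
      cases H
      left; exact hc'
    · rename_i s h1 h2
      exact absurd H (h2 c)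

/-- the averaged indicator -/
theorem avg_vsh {m : ℕ} (r : ℕ → ℝ) {k c : ℕ} (hc : c ≤ m) {Z : List (Fin 4 → St)}
    (h1 : c < Z.length) (h2 : Z.length ≤ m + 2) :
    ∑ ρ : Fin m → Bool, wtRing m r ρ *
      (if vsh m (decide (c = 0)) (ext ρ) k Z = .on c then (1 : ℝ) else 0) = phi m r k c Z := by
  cases Z with
  | nil => simp at h1
  | cons z zs =>
      simp only [List.length_cons] at h1 h2
      have e1 : ∀ ρ : Fin m → Bool, wtRing m r ρ *
          (if vsh m (decide (c = 0)) (ext ρ) k (z :: zs) = .on c then (1 : ℝ) else 0) =
          wtRing m r ρ * ∏ i ∈ range zs.length, (fun i b => gsl c i (okL k (z :: zs) i) b) i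
            (ext ρ i) := by
        intro ρ
        rw [vsh_on_prod hc z zs (by omega)]
      rw [Finset.sum_congr rfl fun ρ _ => e1 ρ,
        ring_avg r (n := zs.length) (by omega) fun i b => gsl c i (okL k (z :: zs) i) b, phi_eq]
      refine Finset.prod_congr rfl fun i hi => ?_
      rw [mem_range] at hi
      by_cases hA : i + 1 < c
      · have hm : i < m := by omega
        simp only [gsl, fct, hA, hm, if_true]
        cases okL k (z :: zs) i <;> simp
      · by_cases hB : i + 1 = c
        · have hm : i < m := by omega
          simp only [gsl, fct, hA, hm, if_true, if_false, hB]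
          cases okL k (z :: zs) i <;> simp
        · simp only [gsl, fct, hA, if_false, hB, rr]
          by_cases hm : i < m
          · cases okL k (z :: zs) i <;> simp [hm]
          · cases okL k (z :: zs) i <;> simp [hm]

end Pool.Agent.H41.GL
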