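import Pool.Agent.H41.GL.Chk
import Pool.Agent.H41.GL.Data

/-!
# The certificate is well formed
-/

namespace Pool.Agent.H41.GL

/-- all lanes are at most `DD` -/
def goodF (E : ℕ) : Bool := (List.range 138).all fun k => Nat.ble (fld k E) DD

/-- the lanes of the classes that are not yet active equal lane 137 -/
def goodP (l E : ℕ) : Bool := (List.range 138).all fun k => Nat.beq (fld k E) (fld (par 136 k l) E)

/-- checker of one slot -/
def goodB (l : ℕ) (s : Slot) : Bool :=
  Nat.ble s.R DD && (Nat.beq l 136 || (Nat.ble 1 s.R && Nat.ble (Nat.succ s.R) DD)) &&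
  (!(Nat.beq l 136) || Nat.beq s.R DD) &&
  Nat.ble (Nat.succ s.ea) (Nat.pow 2 (144 * 138)) && Nat.ble (Nat.succ s.ex) (Nat.pow 2 (144 * 138)) &&
  Nat.ble (Nat.succ s.ey) (Nat.pow 2 (144 * 138)) && Nat.ble (Nat.succ s.al) (Nat.pow 2 (144 * 138)) &&
  goodF s.ea && goodF s.ex && goodF s.ey && goodF s.al && goodP l s.ea && goodP l s.al &&
  Nat.ble s.x0 DD && Nat.ble s.y0 DD && Nat.ble s.l0 DD && Nat.ble s.xi DD && Nat.ble s.yi DD &&
  Nat.ble s.li DD && Nat.ble (Nat.succ (fld 0 s.ea)) DD &&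
  (!(Nat.beq l 136) || (Nat.beq s.xi DD && Nat.beq s.yi DD && Nat.beq s.al 0))

/-- checker of a list of slots, the first of which is slot `l` -/
def goodAll (L : List Slot) : ℕ → Bool :=
  @List.rec Slot (fun _ => ℕ → Bool) (fun _ => true) (fun s _ ih l => goodB l s && ih (Nat.succ l)) L

theorem goodF_spec {E : ℕ} (h : goodF E = true) : ∀ k < 138, fld k E ≤ DD := by
  intro k hk
  exact Nat.le_of_ble_eq_true (List.all_eq_true.1 h k (List.mem_range.2 hk))

theorem goodP_spec {l E : ℕ} (h : goodP l E = true) : ∀ k < 138, fld k E = fld (par 136 k l) E := by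
  intro k hk
  exact Nat.eq_of_beq_eq_true (List.all_eq_true.1 h k (List.mem_range.2 hk))

theorem goodB_spec {l : ℕ} {s : Slot} (h : goodB l s = true) : GoodSlot l s := by
  unfold goodB at h
  simp only [Bool.and_eq_true, Bool.or_eq_true, Bool.not_eq_true'] at h
  obtain ⟨⟨⟨⟨⟨⟨⟨⟨⟨⟨⟨⟨⟨⟨⟨⟨⟨⟨⟨⟨h1, h2⟩, h3⟩, h4⟩, h5⟩, h6⟩, h7⟩, h8⟩, h9⟩, h10⟩, h11⟩, h12⟩, h13⟩,
    h14⟩, h15⟩, h16⟩, h17⟩, h18⟩, h19⟩, h20⟩, h21⟩ := h
  refine ⟨Nat.le_of_ble_eq_true h1, ?_, ?_, Nat.le_of_ble_eq_true h4, Nat.le_of_ble_eq_true h5,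
    Nat.le_of_ble_eq_true h6, Nat.le_of_ble_eq_true h7, goodF_spec h8, goodF_spec h9, goodF_spec h10,
    goodF_spec h11, goodP_spec h12, goodP_spec h13, Nat.le_of_ble_eq_true h14,
    Nat.le_of_ble_eq_true h15, Nat.le_of_ble_eq_true h16, Nat.le_of_ble_eq_true h17,
    Nat.le_of_ble_eq_true h18, Nat.le_of_ble_eq_true h19, Nat.le_of_ble_eq_true h20, ?_⟩
  · intro hl
    rcases h2 with h2 | h2
    · have := Nat.eq_of_beq_eq_true h2
      omega
    · exact ⟨Nat.le_of_ble_eq_true h2.1, Nat.le_of_ble_eq_true h2.2⟩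
  · intro hl
    rcases h3 with h3 | h3
    · exact absurd h3 (by rw [hl]; decide)
    · exact Nat.eq_of_beq_eq_true h3
  · intro hl
    rcases h21 with h21 | h21
    · exact absurd h21 (by rw [hl]; decide)
    · exact ⟨Nat.eq_of_beq_eq_true h21.1.1, Nat.eq_of_beq_eq_true h21.1.2,
        Nat.eq_of_beq_eq_true h21.2⟩

theorem goodAll_spec (L : List Slot) : ∀ l, goodAll L l = true → ∀ i < L.length,
    GoodSlot (l + i) (slt L i) := by
  induction L with
  | nil => intro l _ i hi; simp at hi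
  | cons s L ih =>
      intro l h i hi
      have h' : (goodB l s && goodAll L (Nat.succ l)) = true := h
      rw [Bool.and_eq_true] at h'
      cases i with
      | zero => exact goodB_spec h'.1
      | succ i =>
          have := ih (l + 1) h'.2 i (by simpa using hi)
          have e : l + 1 + i = l + (i + 1) := by omega
          rw [e] at this
          exact this

theorem goodAll_slots : goodAll slots 0 = true := by decide +kernel

theorem good_slots : GoodSlots slots := by
  refine ⟨rfl, fun l hl => ?_⟩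
  have h := goodAll_spec slots 0 goodAll_slots l hl
  rw [Nat.zero_add] at h
  exact h

end Pool.Agent.H41.GL
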