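import Pool.Agent.H41.GL.Code

/-!
# The packed recursion as a Boolean check

`Slot` holds the data of one slot: ring probability numerator `R` (denominator `DD`; `R = DD` in the
last slot), hazards packed by the class (`ea`, `ex`, `ey`, `al`), and the hazards `x`, `y`, `la` of the
classes `0` and `137` (parent never on).
-/

namespace Pool.Agent.H41.GL

structure Slot where
  R : ℕ
  ea : ℕ
  ex : ℕ
  ey : ℕ
  al : ℕ
  x0 : ℕ
  y0 : ℕ
  l0 : ℕ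
  xi : ℕ
  yi : ℕ
  li : ℕ

/-- masks -/
def M80 : ℕ := Nat.mul ONES 18446744073709551615
def M20 : ℕ := Nat.mul ONES 21267647932558653966460912964485513215
/-- error bound, in all lanes -/
def EPS : ℕ := 131072
def EP : ℕ := Nat.mul ONES 131072
/-- mask of the lanes `k ≤ l` -/
def low (l : ℕ) : ℕ := Nat.sub (Nat.pow 2 (Nat.mul 144 (Nat.succ l))) 1

def cA (q : ℕ) (k : K70) : K70 :=
  kA M80 (cf q 0 0) (cf q 0 1) (cf q 0 2) (cf q 0 3) (cf q 0 4) (cf q 1 0) (cf q 1 1) (cf q 1 2)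
    (cf q 1 3) (cf q 2 0) (cf q 2 1) (cf q 2 2) (cf q 3 0) (cf q 3 1) (cf q 4 0) k
def cY (q : ℕ) (k : K70) : K70 :=
  kY M80 (cf q 0 0) (cf q 0 1) (cf q 0 2) (cf q 0 3) (cf q 0 4) (cf q 1 0) (cf q 1 1) (cf q 1 2)
    (cf q 1 3) (cf q 2 0) (cf q 2 1) (cf q 2 2) (cf q 3 0) (cf q 3 1) (cf q 4 0) k
def cX (q : ℕ) (k : K70) : K70 :=
  kX M80 (cf q 0 0) (cf q 0 1) (cf q 0 2) (cf q 0 3) (cf q 0 4) (cf q 1 0) (cf q 1 1) (cf q 1 2)
    (cf q 1 3) (cf q 2 0) (cf q 2 1) (cf q 2 2) (cf q 3 0) (cf q 3 1) (cf q 4 0) k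
def cXY (q : ℕ) (k : K70) : K70 :=
  kXY M80 (cf q 0 0) (cf q 0 1) (cf q 0 2) (cf q 0 3) (cf q 0 4) (cf q 1 0) (cf q 1 1) (cf q 1 2)
    (cf q 1 3) (cf q 2 0) (cf q 2 1) (cf q 2 2) (cf q 3 0) (cf q 3 1) (cf q 4 0) k
def cWX (q : ℕ) (k : K70) : K70 :=
  kWX M80 (cf q 0 0) (cf q 0 1) (cf q 0 2) (cf q 0 3) (cf q 0 4) (cf q 1 0) (cf q 1 1) (cf q 1 2)
    (cf q 1 3) (cf q 2 0) (cf q 2 1) (cf q 2 2) (cf q 3 0) (cf q 3 1) (cf q 4 0) k

theorem cA_eq (q : ℕ) (k : K70) (v : CN) : app (cA q k) v = app k (mA (tr80 M80) (cf q) v) := rfl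
theorem cY_eq (q : ℕ) (k : K70) (v : CN) : app (cY q k) v = app k (mY (tr80 M80) (cf q) v) := rfl
theorem cX_eq (q : ℕ) (k : K70) (v : CN) : app (cX q k) v = app k (mX (tr80 M80) (cf q) v) := rfl
theorem cXY_eq (q : ℕ) (k : K70) (v : CN) : app (cXY q k) v = app k (mXY (tr80 M80) (cf q) v) := rfl
theorem cWX_eq (q : ℕ) (k : K70) (v : CN) : app (cWX q k) v = app k (mWX (tr80 M80) (cf q) v) := rfl

/-- hidden masses: next values -/
def nM0 (m0 x la : ℕ) : ℕ := Nat.mul (Nat.mul m0 (Nat.sub DD x)) (Nat.sub DD la)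
def nM1 (m0 m1 x y la : ℕ) : ℕ :=
  Nat.add (Nat.mul (Nat.mul m1 (Nat.sub DD y)) DD) (Nat.mul (Nat.mul m0 (Nat.sub DD x)) la)

/-- check of the two-stage classes -/
def chkH (k S0 S1 m0 m1 x y : ℕ) : Bool :=
  Nat.ble
    (Nat.mul (Nat.add (fld k S0) EPS) (Nat.add (Nat.mul m0 (Nat.sub DD x)) (Nat.mul m1 (Nat.sub DD y))))
    (Nat.mul (Nat.mul (fld k S1) (Nat.add m0 m1)) DD)

/-- check of the one-stage classes -/
def chkE (S0 S1 E : ℕ) : Bool :=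
  geAll (Nat.add (Nat.mul S1 DD) (pmul (Nat.add S0 EP) E)) (Nat.mul (Nat.add S0 EP) DD)

/-- hazards used in slot `l` for a vertex on since `c`, lanes `k < c` from `ex`, `k ≥ c` from `ey` -/
def mixE (c ex ey : ℕ) : ℕ :=
  Nat.add (Nat.land ex (low (Nat.pred c))) (Nat.sub ey (Nat.land ey (low (Nat.pred c))))

/-- run of a vertex on since time `c ≥ 1`, from time `l` on -/
def onRun (c : ℕ) (L : List Slot) : ℕ → ℕ → ℕ → ℕ → ℕ → ℕ → K70 :=
  @List.rec Slot (fun _ => ℕ → ℕ → ℕ → ℕ → ℕ → ℕ → K70) (fun _ _ _ _ _ _ => kTrue)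
    (fun s _ ih l S0 m0 m1 g0 g1 =>
      cA (fld c s.ea) (cY (fld c s.ey) (cX (fld c s.ex)
        (kF M20 (low l) (Nat.sub DD s.R) (cWX (fld c s.al) (kSum fun S1 =>
          kGuard (chkE S0 S1 (mixE c s.ex s.ey)) (kGuard (chkH 0 S0 S1 m0 m1 s.x0 s.y0)
            (kGuard (chkH 137 S0 S1 g0 g1 s.xi s.yi)
              (ih (Nat.succ l) S1 (nM0 m0 s.x0 s.l0) (nM1 m0 m1 s.x0 s.y0 s.l0)
                (nM0 g0 s.xi s.li) (nM1 g0 g1 s.xi s.yi s.li))))))))))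
    L

/-- run of a vertex on since time `0` -/
def zRun (L : List Slot) : ℕ → ℕ → K70 :=
  @List.rec Slot (fun _ => ℕ → ℕ → K70) (fun _ _ => kTrue)
    (fun s _ ih l S0 =>
      cA (fld 0 s.ea) (cY s.y0 (cX s.x0
        (kF M20 (low l) (Nat.sub DD s.R) (cXY s.l0 (cWX (fld 0 s.al) (kSum fun S1 =>
          kGuard (chkE S0 S1 s.ea) (ih (Nat.succ l) S1))))))))
    L

/-- next upper bound for the waiting masses -/
def nOm (om P : ℕ) : ℕ :=
  Nat.land (Nat.shiftRight (Nat.add (Nat.sub (Nat.mul om DD) P) (Nat.mul ONES (Nat.pred DD))) 20) M20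

/-- run of a waiting vertex; the runs of the vertices on since `c` are started for `lo ≤ c ≤ hi` -/
def wRun (lo hi : ℕ) (L : List Slot) : ℕ → ℕ → K70 :=
  @List.rec Slot (fun _ => ℕ → ℕ → K70) (fun _ _ => kTrue)
    (fun s ss ih i om =>
      cA (fld 137 s.ea) (cY s.yi (cX s.xi (kBoth
        (kZ M20 (low i) s.R (cXY s.li (cWX (fld 137 s.al) (kR (kSum fun S =>
          kGuard (geAll (Nat.mul S DD) (pmul om s.al))
            (cond (Nat.ble lo (Nat.succ i)) (onRun (Nat.succ i) ss (Nat.succ i) S 1 0 1 0) kTrue))))))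
        (kRst M20 (low i) (Nat.sub DD s.R) (cXY s.li (cWX (fld 137 s.al) (kSum fun S' =>
          kGuard (Nat.ble 0 S')
            (cond (Nat.ble hi (Nat.succ i)) kTrue (ih (Nat.succ i) (nOm om (pmul om s.al)))))))))))
      )
    L

/-- initial vector -/
def iniN (P0 : ℕ) : CN := fun w a y x =>
  cond (Nat.beq (Nat.add w a) 4) (cond (Nat.beq (Nat.add y x) 0)
    (Nat.mul ONES (Nat.div (Nat.mul (Nat.mul (Nat.choose 4 a)
      (Nat.mul (Nat.pow P0 a) (Nat.pow (Nat.sub DD P0) w))) VV) (Nat.pow 2 80))) 0) 0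

end Pool.Agent.H41.GL
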