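import Pool.Agent.H41.GL.Apx
import Pool.Agent.H41.GL.Run

/-!
# Packed vectors: one step of the packed recursion is one step in every lane
-/

namespace Pool.Agent.H41.GL

open Finset

/-- `v` is the packed vector of the lanes `x k` -/
def Pkd (v : CN) (x : ℕ → CN) : Prop :=
  ∀ w a y b, w + a + y + b ≤ 4 → v w a y b = pk fun k => x k w a y b

/-- bounded lanes -/
def Bdd (x : ℕ → CN) : Prop := ∀ k < 138, ∀ w a y b, w + a + y + b ≤ 4 → x k w a y b ≤ 2 ^ 60

theorem sumLe_congr {n : ℕ} {g g' : ℕ → ℕ} (h : ∀ u ≤ n, g u = g' u) : sumLe n g = sumLe n g' := by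
  rw [sumLe_eq, sumLe_eq]
  exact Finset.sum_congr rfl fun u hu => h u (by have := Finset.mem_range.1 hu; omega)

theorem pk_sumLe (n : ℕ) (z : ℕ → ℕ → ℕ) :
    (sumLe n fun u => pk (z u)) = pk fun k => sumLe n fun u => z u k := by
  induction n with
  | zero => rfl
  | succ n ih =>
      change Nat.add (sumLe n fun u => pk (z u)) (pk (z (n + 1))) = _
      rw [ih]
      change (pk fun k => sumLe n fun u => z u k) + pk (z (n + 1)) = _
      rw [pk_add]
      rfl

theorem sumLe_le {n : ℕ} {g : ℕ → ℕ} {B : ℕ} (h : ∀ u ≤ n, g u ≤ B) : sumLe n g ≤ (n + 1) * B := by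
  rw [sumLe_eq]
  calc ∑ i ∈ range (n + 1), g i ≤ ∑ _i ∈ range (n + 1), B :=
        Finset.sum_le_sum fun i hi => h i (by have := Finset.mem_range.1 hi; omega)
    _ = _ := by simp

theorem M80_eq : M80 = pk fun _ => 2 ^ (144 - 80) - 1 := by
  have h : 2 ^ (144 - 80) - 1 = 18446744073709551615 := by norm_num
  unfold M80
  rw [h, pk_const, Nat.mul_eq]

theorem M20_eq : M20 = pk fun _ => 2 ^ (144 - 20) - 1 := by
  have h : 2 ^ (144 - 20) - 1 = 21267647932558653966460912964485513215 := by norm_num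
  unfold M20
  rw [h, pk_const, Nat.mul_eq]

theorem EP_eq : EP = pk fun _ => EPS := by
  unfold EP EPS
  rw [pk_const, Nat.mul_eq]

theorem tr80_pk (z : ℕ → ℕ) (h : ∀ k < 138, z k < 2 ^ 144) :
    tr80 M80 (pk z) = pk fun k => d80 (z k) := by
  unfold tr80; rw [M80_eq]; exact pk_trunc z h 80 (by norm_num)

theorem tr20_pk (z : ℕ → ℕ) (h : ∀ k < 138, z k < 2 ^ 144) :
    tr20 M20 (pk z) = pk fun k => z k / 2 ^ 20 := by
  unfold tr20; rw [M20_eq]; exact pk_trunc z h 20 (by norm_num)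

/-- packed sum with coefficients, then division by `2 ^ 80` -/
theorem trsum (n : ℕ) (hn : n ≤ 4) (c g : ℕ → ℕ) (z : ℕ → ℕ → ℕ) (hg : ∀ u ≤ n, g u = pk (z u))
    (hc : ∀ u ≤ n, c u ≤ 2 ^ 80) (hz : ∀ k < 138, ∀ u ≤ n, z u k ≤ 2 ^ 60) :
    tr80 M80 (sumLe n fun u => Nat.mul (c u) (g u)) =
      pk fun k => d80 (sumLe n fun u => Nat.mul (c u) (z u k)) := by
  have h1 : (sumLe n fun u => Nat.mul (c u) (g u)) = pk fun k => sumLe n fun u => Nat.mul (c u) (z u k) := by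
    rw [← pk_sumLe n fun u k => Nat.mul (c u) (z u k)]
    refine sumLe_congr fun u hu => ?_
    rw [hg u hu, Nat.mul_eq, pk_mul]
    rfl
  rw [h1]
  apply tr80_pk
  intro k hk
  have h2 : (sumLe n fun u => Nat.mul (c u) (z u k)) ≤ (n + 1) * (2 ^ 80 * 2 ^ 60) :=
    sumLe_le fun u hu => by
      rw [Nat.mul_eq]
      exact Nat.mul_le_mul (hc u hu) (hz k hk u hu)
  calc (sumLe n fun u => Nat.mul (c u) (z u k)) ≤ (n + 1) * (2 ^ 80 * 2 ^ 60) := h2
    _ ≤ 5 * (2 ^ 80 * 2 ^ 60) := Nat.mul_le_mul_right _ (by omega)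
    _ < 2 ^ 144 := by norm_num

theorem pkd_mA {v : CN} {x : ℕ → CN} (h : Pkd v x) (hb : Bdd x) (Q : ℕ) (hQ : Q ≤ DD) :
    Pkd (mA (tr80 M80) (cf Q) v) fun k => mA d80 (cf Q) (x k) := fun w a y b hs =>
  trsum (4 - (w + a + y + b)) (by omega) _ _ (fun u k => x k w (a + u) y b)
    (fun u hu => h w (a + u) y b (by omega)) (fun u hu => cf_le Q a u hQ (by omega))
    (fun k hk u hu => hb k hk w (a + u) y b (by omega))

theorem pkd_mY {v : CN} {x : ℕ → CN} (h : Pkd v x) (hb : Bdd x) (Q : ℕ) (hQ : Q ≤ DD) :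
    Pkd (mY (tr80 M80) (cf Q) v) fun k => mY d80 (cf Q) (x k) := fun w a y b hs =>
  trsum (4 - (w + a + y + b)) (by omega) _ _ (fun u k => x k w a (y + u) b)
    (fun u hu => h w a (y + u) b (by omega)) (fun u hu => cf_le Q y u hQ (by omega))
    (fun k hk u hu => hb k hk w a (y + u) b (by omega))

theorem pkd_mX {v : CN} {x : ℕ → CN} (h : Pkd v x) (hb : Bdd x) (Q : ℕ) (hQ : Q ≤ DD) :
    Pkd (mX (tr80 M80) (cf Q) v) fun k => mX d80 (cf Q) (x k) := fun w a y b hs =>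
  trsum (4 - (w + a + y + b)) (by omega) _ _ (fun u k => x k w a y (b + u))
    (fun u hu => h w a y (b + u) (by omega)) (fun u hu => cf_le Q b u hQ (by omega))
    (fun k hk u hu => hb k hk w a y (b + u) (by omega))

theorem pkd_mXY {v : CN} {x : ℕ → CN} (h : Pkd v x) (hb : Bdd x) (Q : ℕ) (hQ : Q ≤ DD) :
    Pkd (mXY (tr80 M80) (cf Q) v) fun k => mXY d80 (cf Q) (x k) := fun w a y b hs =>
  trsum y (by omega) _ _ (fun u k => x k w a (y - u) (b + u))
    (fun u hu => h w a (y - u) (b + u) (by omega)) (fun u hu => cf_le Q b u hQ (by omega))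
    (fun k hk u hu => hb k hk w a (y - u) (b + u) (by omega))

theorem pkd_mWX {v : CN} {x : ℕ → CN} (h : Pkd v x) (hb : Bdd x) (Q : ℕ) (hQ : Q ≤ DD) :
    Pkd (mWX (tr80 M80) (cf Q) v) fun k => mWX d80 (cf Q) (x k) := fun w a y b hs =>
  trsum b (by omega) _ _ (fun u k => x k (w + u) a y (b - u))
    (fun u hu => h (w + u) a y (b - u) (by omega)) (fun u hu => cf_le Q w u hQ (by omega))
    (fun k hk u hu => hb k hk (w + u) a y (b - u) (by omega))

theorem pkd_rlb {v : CN} {x : ℕ → CN} (h : Pkd v x) : Pkd (rlb v) fun k => rlb (x k) := by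
  intro w a y b hs
  cases b with
  | zero =>
      change (sumLe y fun u => v w a (y - u) u) = pk fun k => sumLe y fun u => x k w a (y - u) u
      rw [← pk_sumLe y fun u k => x k w a (y - u) u]
      exact sumLe_congr fun u hu => h w a (y - u) u (by omega)
  | succ b => exact pk_zero.symm

theorem pkd_tot {v : CN} {x : ℕ → CN} (h : Pkd v x) : tot4N v = pk fun k => tot4N (x k) := by
  unfold tot4N
  rw [← pk_sumLe 4 fun w k => sumLe (4 - w) fun a => sumLe (4 - w - a) fun y =>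
    sumLe (4 - w - a - y) fun b => x k w a y b]
  refine sumLe_congr fun w hw => ?_
  rw [← pk_sumLe (4 - w) fun a k => sumLe (4 - w - a) fun y =>
    sumLe (4 - w - a - y) fun b => x k w a y b]
  refine sumLe_congr fun a ha => ?_
  rw [← pk_sumLe (4 - w - a) fun y k => sumLe (4 - w - a - y) fun b => x k w a y b]
  refine sumLe_congr fun y hy => ?_
  rw [← pk_sumLe (4 - w - a - y) fun b k => x k w a y b]
  exact sumLe_congr fun b hb => h w a y b (by omega)

theorem low_eq (l : ℕ) : low l = 2 ^ (144 * (l + 1)) - 1 := rfl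

theorem land_low (z : ℕ → ℕ) (h : ∀ k < 138, z k < 2 ^ 144) (l : ℕ) :
    Nat.land (pk z) (low l) = pk fun k => if k ≤ l then z k else 0 := by
  rw [low_eq, pk_low z h (l + 1)]
  exact pk_congr fun k _ => by simp only [Nat.lt_succ_iff]

theorem sub_low (z : ℕ → ℕ) (h : ∀ k < 138, z k < 2 ^ 144) (l : ℕ) :
    Nat.sub (pk z) (Nat.land (pk z) (low l)) = pk fun k => if k ≤ l then 0 else z k := by
  rw [land_low z h l]
  change pk z - pk _ = _
  rw [pk_sub fun k _ => by split_ifs <;> omega]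
  exact pk_congr fun k _ => by split_ifs <;> simp

theorem le_lt144 {n : ℕ} (h : n ≤ 2 ^ 60) : n < 2 ^ 144 := lt_of_le_of_lt h (by norm_num)

theorem mul_lt144 {n r : ℕ} (h : n ≤ 2 ^ 60) (hr : r ≤ DD) : n * r < 2 ^ 144 := by
  calc n * r ≤ 2 ^ 60 * DD := Nat.mul_le_mul h hr
    _ < 2 ^ 144 := by unfold DD; norm_num

theorem mul_DD_div (n : ℕ) : n * DD / 2 ^ 20 = n := by
  have : DD = 2 ^ 20 := by unfold DD; norm_num
  rw [this, Nat.mul_div_cancel _ (by norm_num)]

/-- the factor while on -/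
theorem pkd_fcP {v : CN} {x : ℕ → CN} (h : Pkd v x) (hb : Bdd x) (l r : ℕ) (hr : r ≤ DD) :
    Pkd (fcP M20 (low l) r v) fun k => fcL (thr k l) DD r (x k) := by
  intro w a y b hs
  have hv := h w a y b hs
  have hx : ∀ k < 138, (fun k => x k w a y b) k < 2 ^ 144 := fun k hk => le_lt144 (hb k hk w a y b hs)
  unfold fcP fcL thr
  by_cases h3 : 3 ≤ a + y + b
  · have e3 : Nat.ble 3 (a + y + b) = true := Nat.ble_eq_true_of_le h3
    rw [e3, cond_true, hv]
    refine pk_congr fun k hk => ?_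
    beta_reduce
    rw [if_pos (by split_ifs <;> omega), mul_DD_div]
  · have e3 : Nat.ble 3 (a + y + b) = false := by
      rw [Bool.eq_false_iff]; intro hh; exact h3 (Nat.le_of_ble_eq_true hh)
    rw [e3, cond_false]
    by_cases h2 : 2 ≤ a + y + b
    · have e2 : Nat.ble 2 (a + y + b) = true := Nat.ble_eq_true_of_le h2
      rw [e2, cond_true, hv, sub_low _ hx, land_low _ hx]
      rw [Nat.mul_eq, pk_mul', tr20_pk]
      · rw [Nat.add_eq, pk_add]
        refine pk_congr fun k hk => ?_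
        beta_reduce
        by_cases hk' : k ≤ l
        · simp only [hk', if_true, zero_mul, Nat.zero_div, add_zero, h2]
          rw [mul_DD_div]
        · simp only [hk', if_false, zero_add, h3]
      · intro k hk
        split_ifs
        · simp
        · exact mul_lt144 (hb k hk w a y b hs) hr
    · have e2 : Nat.ble 2 (a + y + b) = false := by
        rw [Bool.eq_false_iff]; intro hh; exact h2 (Nat.le_of_ble_eq_true hh)
      rw [e2, cond_false, hv, Nat.mul_eq, pk_mul', tr20_pk]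
      · refine pk_congr fun k hk => ?_
        beta_reduce
        rw [if_neg (by split_ifs <;> omega)]
      · intro k hk
        exact mul_lt144 (hb k hk w a y b hs) hr

theorem pkd_spZ {v : CN} {x : ℕ → CN} (h : Pkd v x) (hb : Bdd x) (l r : ℕ) (hr : r ≤ DD) :
    Pkd (spZ M20 (low l) r v) fun k => fcL (thr k l) r 0 (x k) := by
  intro w a y b hs
  have hv := h w a y b hs
  have hx : ∀ k < 138, (fun k => x k w a y b) k < 2 ^ 144 := fun k hk => le_lt144 (hb k hk w a y b hs)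
  unfold spZ fcL thr
  by_cases h3 : 3 ≤ a + y + b
  · have e3 : Nat.ble 3 (a + y + b) = true := Nat.ble_eq_true_of_le h3
    rw [e3, cond_true, hv, Nat.mul_eq, pk_mul', tr20_pk]
    · refine pk_congr fun k hk => ?_
      beta_reduce
      rw [if_pos (by split_ifs <;> omega)]
    · intro k hk
      exact mul_lt144 (hb k hk w a y b hs) hr
  · have e3 : Nat.ble 3 (a + y + b) = false := by
      rw [Bool.eq_false_iff]; intro hh; exact h3 (Nat.le_of_ble_eq_true hh)
    rw [e3, cond_false]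
    by_cases h2 : 2 ≤ a + y + b
    · have e2 : Nat.ble 2 (a + y + b) = true := Nat.ble_eq_true_of_le h2
      rw [e2, cond_true, hv, land_low _ hx]
      rw [Nat.mul_eq, pk_mul', tr20_pk]
      · refine pk_congr fun k hk => ?_
        beta_reduce
        by_cases hk' : k ≤ l
        · simp only [hk', if_true, h2]
        · simp only [hk', if_false, h3, zero_mul, mul_zero, Nat.zero_div]
      · intro k hk
        split_ifs
        · exact mul_lt144 (hb k hk w a y b hs) hr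
        · simp
    · have e2 : Nat.ble 2 (a + y + b) = false := by
        rw [Bool.eq_false_iff]; intro hh; exact h2 (Nat.le_of_ble_eq_true hh)
      rw [e2, cond_false]
      refine pk_zero.symm.trans (pk_congr fun k hk => ?_)
      beta_reduce
      rw [if_neg (by split_ifs <;> omega)]
      simp

theorem pkd_spR {v : CN} {x : ℕ → CN} (h : Pkd v x) (hb : Bdd x) (l r : ℕ) (hr : r ≤ DD) :
    Pkd (spR M20 (low l) r v) fun k => fcL (thr k l) r DD (x k) := by
  intro w a y b hs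
  have hv := h w a y b hs
  have hx : ∀ k < 138, (fun k => x k w a y b) k < 2 ^ 144 := fun k hk => le_lt144 (hb k hk w a y b hs)
  unfold spR fcL thr
  by_cases h3 : 3 ≤ a + y + b
  · have e3 : Nat.ble 3 (a + y + b) = true := Nat.ble_eq_true_of_le h3
    rw [e3, cond_true, hv, Nat.mul_eq, pk_mul', tr20_pk]
    · refine pk_congr fun k hk => ?_
      beta_reduce
      rw [if_pos (by split_ifs <;> omega)]
    · intro k hk
      exact mul_lt144 (hb k hk w a y b hs) hr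
  · have e3 : Nat.ble 3 (a + y + b) = false := by
      rw [Bool.eq_false_iff]; intro hh; exact h3 (Nat.le_of_ble_eq_true hh)
    rw [e3, cond_false]
    by_cases h2 : 2 ≤ a + y + b
    · have e2 : Nat.ble 2 (a + y + b) = true := Nat.ble_eq_true_of_le h2
      rw [e2, cond_true, hv, sub_low _ hx, land_low _ hx]
      rw [Nat.mul_eq, pk_mul', tr20_pk]
      · rw [Nat.add_eq, pk_add]
        refine pk_congr fun k hk => ?_
        beta_reduce
        by_cases hk' : k ≤ l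
        · simp only [hk', if_true, h2, zero_add]
        · simp only [hk', if_false, h3, zero_mul, Nat.zero_div, add_zero]
          rw [mul_DD_div]
      · intro k hk
        split_ifs
        · exact mul_lt144 (hb k hk w a y b hs) hr
        · simp
    · have e2 : Nat.ble 2 (a + y + b) = false := by
        rw [Bool.eq_false_iff]; intro hh; exact h2 (Nat.le_of_ble_eq_true hh)
      rw [e2, cond_false, hv]
      refine pk_congr fun k hk => ?_
      beta_reduce
      rw [if_neg (by split_ifs <;> omega), mul_DD_div]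

/-! ### packed approximation -/

/-- the packed vector `v` approximates `2 ^ 60 * X k` in lane `k`, for all `k < 138` -/
def PA (e : ℝ) (v : CN) (X : ℕ → Cnt) : Prop :=
  ∃ x : ℕ → CN, Pkd v x ∧ ∀ k < 138, Apx e (x k) (X k)

theorem PA.mono {e e' : ℝ} {v : CN} {X : ℕ → Cnt} (h : PA e v X) (he : e ≤ e') : PA e' v X := by
  obtain ⟨x, h1, h2⟩ := h
  exact ⟨x, h1, fun k hk => (h2 k hk).mono he⟩

theorem PA.congr {e : ℝ} {v : CN} {X X' : ℕ → Cnt} (h : PA e v X) (he : ∀ k < 138, X k = X' k) :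
    PA e v X' := by
  obtain ⟨x, h1, h2⟩ := h
  exact ⟨x, h1, fun k hk => he k hk ▸ h2 k hk⟩

theorem bdd_of {e : ℝ} {x : ℕ → CN} {X : ℕ → Cnt} (h : ∀ k < 138, Apx e (x k) (X k)) : Bdd x :=
  fun k hk w a y b hs => (h k hk).bdd w a y b hs

theorem PA.mA {e : ℝ} {v : CN} {X : ℕ → Cnt} (h : PA e v X) (Q : ℕ) (hQ : Q ≤ DD) :
    PA (e + 70) (mA (tr80 M80) (cf Q) v) fun k => mvA ((Q : ℝ) / DD) (X k) := by
  obtain ⟨x, h1, h2⟩ := h
  exact ⟨_, pkd_mA h1 (bdd_of h2) Q hQ, fun k hk => apx_mA (h2 k hk) Q hQ⟩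

theorem PA.mY {e : ℝ} {v : CN} {X : ℕ → Cnt} (h : PA e v X) (Q : ℕ) (hQ : Q ≤ DD) :
    PA (e + 70) (mY (tr80 M80) (cf Q) v) fun k => mvY ((Q : ℝ) / DD) (X k) := by
  obtain ⟨x, h1, h2⟩ := h
  exact ⟨_, pkd_mY h1 (bdd_of h2) Q hQ, fun k hk => apx_mY (h2 k hk) Q hQ⟩

theorem PA.mX {e : ℝ} {v : CN} {X : ℕ → Cnt} (h : PA e v X) (Q : ℕ) (hQ : Q ≤ DD) :
    PA (e + 70) (mX (tr80 M80) (cf Q) v) fun k => mvX ((Q : ℝ) / DD) (X k) := by
  obtain ⟨x, h1, h2⟩ := h
  exact ⟨_, pkd_mX h1 (bdd_of h2) Q hQ, fun k hk => apx_mX (h2 k hk) Q hQ⟩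

theorem PA.mXY {e : ℝ} {v : CN} {X : ℕ → Cnt} (h : PA e v X) (Q : ℕ) (hQ : Q ≤ DD) :
    PA (e + 70) (mXY (tr80 M80) (cf Q) v) fun k => mvXY ((Q : ℝ) / DD) (X k) := by
  obtain ⟨x, h1, h2⟩ := h
  exact ⟨_, pkd_mXY h1 (bdd_of h2) Q hQ, fun k hk => apx_mXY (h2 k hk) Q hQ⟩

theorem PA.mWX {e : ℝ} {v : CN} {X : ℕ → Cnt} (h : PA e v X) (Q : ℕ) (hQ : Q ≤ DD) :
    PA (e + 70) (mWX (tr80 M80) (cf Q) v) fun k => mvWX ((Q : ℝ) / DD) (X k) := by
  obtain ⟨x, h1, h2⟩ := h
  exact ⟨_, pkd_mWX h1 (bdd_of h2) Q hQ, fun k hk => apx_mWX (h2 k hk) Q hQ⟩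

theorem PA.rlb {e : ℝ} {v : CN} {X : ℕ → Cnt} (h : PA e v X) :
    PA e (rlb v) fun k => mvXY 1 (X k) := by
  obtain ⟨x, h1, h2⟩ := h
  exact ⟨_, pkd_rlb h1, fun k hk => apx_rlb (h2 k hk)⟩

theorem DD_div : (DD : ℝ) / DD = 1 := by
  have : (DD : ℝ) ≠ 0 := by unfold DD; norm_num
  exact div_self this

theorem sub_div' {r : ℕ} (hr : r ≤ DD) : ((DD - r : ℕ) : ℝ) / DD = 1 - (r : ℝ) / DD := by
  rw [Nat.cast_sub hr, sub_div, DD_div]

theorem PA.fcP {e : ℝ} {v : CN} {X : ℕ → Cnt} (h : PA e v X) (l r : ℕ) (hr : r ≤ DD) :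
    PA (e + 70) (fcP M20 (low l) (Nat.sub DD r) v) fun k => fac (thr k l) 1 (1 - (r : ℝ) / DD) (X k) := by
  obtain ⟨x, h1, h2⟩ := h
  refine ⟨_, pkd_fcP h1 (bdd_of h2) l (Nat.sub DD r) (Nat.sub_le _ _), fun k hk => ?_⟩
  have h3 := apx_fac (h2 k hk) (thr k l) DD (Nat.sub DD r) le_rfl (Nat.sub_le _ _)
  rw [DD_div] at h3
  rw [← sub_div' hr]
  exact h3

theorem PA.spZ {e : ℝ} {v : CN} {X : ℕ → Cnt} (h : PA e v X) (l r : ℕ) (hr : r ≤ DD) :
    PA (e + 70) (spZ M20 (low l) r v) fun k => fac (thr k l) ((r : ℝ) / DD) 0 (X k) := by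
  obtain ⟨x, h1, h2⟩ := h
  refine ⟨_, pkd_spZ h1 (bdd_of h2) l r hr, fun k hk => ?_⟩
  have h3 := apx_fac (h2 k hk) (thr k l) r 0 hr (Nat.zero_le _)
  rw [Nat.cast_zero, zero_div] at h3
  exact h3

theorem PA.spR {e : ℝ} {v : CN} {X : ℕ → Cnt} (h : PA e v X) (l r : ℕ) (hr : r ≤ DD) :
    PA (e + 70) (spR M20 (low l) (Nat.sub DD r) v) fun k => fac (thr k l) (1 - (r : ℝ) / DD) 1 (X k) := by
  obtain ⟨x, h1, h2⟩ := h
  refine ⟨_, pkd_spR h1 (bdd_of h2) l (Nat.sub DD r) (Nat.sub_le _ _), fun k hk => ?_⟩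
  have h3 := apx_fac (h2 k hk) (thr k l) (Nat.sub DD r) DD (Nat.sub_le _ _) le_rfl
  rw [DD_div] at h3
  rw [← sub_div' hr]
  exact h3

/-- totals of a packed approximation -/
theorem PA.tot {e : ℝ} {v : CN} {X : ℕ → Cnt} (h : PA e v X) :
    ∃ t : ℕ → ℕ, tot4N v = pk t ∧ ∀ k < 138, t k ≤ 2 ^ 60 ∧ (t k : ℝ) ≤ 2 ^ 60 * tot4 (X k) ∧
      2 ^ 60 * tot4 (X k) ≤ t k + e := by
  obtain ⟨x, h1, h2⟩ := h
  exact ⟨_, pkd_tot h1, fun k hk => ⟨(h2 k hk).totBdd, (h2 k hk).totLe, (h2 k hk).totGe⟩⟩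

end Pool.Agent.H41.GL
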