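import Pool.Agent.H41.GL.Iface

/-!
# Laws of on/off histories and the abstract cavity theorem (statements)

Every vertex is, at each of the times `T 0, ..., T (m+1)`, waiting (`w`), on (`o`) or ended (`e`);
it is on during one interval of times `c, ..., l` only.  Histories are lists, newest status first.
-/

namespace Pool.Agent.H41.GL

open Finset

/-- status of a vertex: waiting (not yet on), on, ended (was on, is dead). -/
inductive St
  | w
  | o
  | e
  deriving DecidableEq, Fintype

/-- shape of a history -/
inductive Shape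
  | wt
  | on (c : ℕ)
  | en (c l : ℕ)
  | bad
  deriving DecidableEq

/-- shape of a history (newest first): always waiting; on since time `c`; on at the times
`c, ..., l` and ended afterwards; impossible. -/
def shape : List St → Shape
  | [] => .wt
  | .w :: h => if shape h = .wt then .wt else .bad
  | .o :: h => match shape h with
      | .wt => .on h.length
      | .on c => .on c
      | _ => .bad
  | .e :: h => match shape h with
      | .on c => .en c (h.length - 1)
      | .en c l => .en c l
      | _ => .bad

/-- The law on histories given by `u c l` = mass of on at the times `c, ..., l`. -/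
def lawU (u : ℕ → ℕ → ℝ) (h : List St) : ℝ :=
  match shape h with
  | .wt => 1 - ∑ c ∈ range h.length, u c c
  | .on c => u c (h.length - 1)
  | .en c l => u c l - u c (l + 1)
  | .bad => 0

/-- sum of `f` over all lists of length `n` -/
def hsum {α : Type} [Fintype α] : ℕ → (List α → ℝ) → ℝ
  | 0, f => f []
  | n + 1, f => hsum n fun h => ∑ a, f (a :: h)

/-- number of children that are on at both ends of a slot -/
def cntOn (z z' : Fin 4 → St) : ℕ := (univ.filter fun w => z w = .o ∧ z' w = .o).card

/-- the support (children on through the slot, and the parent if on since `k ≤ j`) is at least 3 -/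
def okS (k j : ℕ) (z z' : Fin 4 → St) : Bool :=
  decide (3 ≤ cntOn z z' + if k ≤ j then 1 else 0)

/-- Shape of the declared history of a vertex with declared initial status `ι` (true: on), ring
indicators `rg`, whose parent is on since time `k`, as a function of the joint history (newest
first) of its four children. -/
def vsh (m : ℕ) (ι : Bool) (rg : ℕ → Bool) (k : ℕ) : List (Fin 4 → St) → Shape
  | [] => .wt
  | [_] => if ι then .on 0 else .wt
  | z' :: z :: zs =>
      match vsh m ι rg k (z :: zs) with
      | .wt => if rg zs.length && okS k zs.length z z' && decide (zs.length < m)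
          then .on (zs.length + 1) else .wt
      | .on c => if rg zs.length && !okS k zs.length z z' then .en c zs.length else .on c
      | s => s

/-- Mass of declared on at the times `c, ..., l` of a vertex, its children being independent with
laws `lawU (u w c)` (`u w k` is the family of child `w` for a parent on since `k`). -/
def Won (m : ℕ) (ι : Bool) (rg : ℕ → Bool) (k : ℕ) (u : Fin 4 → ℕ → ℕ → ℕ → ℝ) (c l : ℕ) : ℝ :=
  hsum (l + 1) fun z =>
    (∏ w, lawU (u w c) (z.map fun q => q w)) * (if vsh m ι rg k z = .on c then 1 else 0)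

/-- extension of the ring indicators of the finite slots by `true` -/
def ext {m : ℕ} (ρ : Fin m → Bool) (i : ℕ) : Bool := if h : i < m then ρ ⟨i, h⟩ else true

/-- weight of the ring indicators -/
def wtRing (m : ℕ) (r : ℕ → ℝ) (ρ : Fin m → Bool) : ℝ :=
  ∏ i : Fin m, (if ρ i = true then r i else 1 - r i)

/-- Averaged mass of declared on at the times `c, ..., l` when all children have the family `U`
and the declared initial status is on with probability `p0`. -/
def SU (m : ℕ) (p0 : ℝ) (r : ℕ → ℝ) (U : ℕ → ℕ → ℕ → ℝ) (k c l : ℕ) : ℝ :=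
  (if c = 0 then p0 else 1 - p0) *
    ∑ ρ : Fin m → Bool, wtRing m r ρ * Won m (decide (c = 0)) (ext ρ) k (fun _ => U) c l

/-- `U k c l` is a consistent family of masses. -/
structure IsFam (m : ℕ) (U : ℕ → ℕ → ℕ → ℝ) : Prop where
  nonneg : ∀ k c l, k ≤ m + 1 → c ≤ l → l ≤ m + 1 → 0 ≤ U k c l
  anti : ∀ k c l, k ≤ m + 1 → c ≤ l → l ≤ m → U k c (l + 1) ≤ U k c l
  tot : ∀ k, k ≤ m + 1 → ∑ c ∈ range (m + 1), U k c c ≤ 1
  adapt : ∀ k c l, k ≤ m + 1 → c ≤ l → l ≤ k → U k c l = U (m + 1) c l
  zero : ∀ k l, k ≤ m + 1 → U k (m + 1) l = 0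

/-- **Abstract cavity theorem.** -/
def CavityThm : Prop :=
  ∀ (m : ℕ) (p0 : ℝ) (r : ℕ → ℝ) (U : ℕ → ℕ → ℕ → ℝ),
    0 < p0 → p0 < 1 → (∀ i, 0 < r i ∧ r i < 1) → IsFam m U →
    (∀ k c, k ≤ m + 1 → c ≤ m → U k c c ≤ SU m p0 r U k c c) →
    (∀ k c l, k ≤ m + 1 → c ≤ l → l ≤ m →
      U k c (l + 1) * SU m p0 r U k c l ≤ U k c l * SU m p0 r U k c (l + 1)) →
    ∀ p, p0 ≤ p → p ≤ 1 → ∀ R, ∑ c ∈ range (m + 1), U 0 c (m + 1) ≤ survProb m p r R

end Pool.Agent.H41.GL
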