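import Pool.Agent.H41.GL.Chk

/-!
# Soundness of the runs
-/

namespace Pool.Agent.H41.GL

open Finset

theorem fld_zero_of {κ E : ℕ} (hE : E < 2 ^ (144 * 138)) (hκ : 138 ≤ κ) : fld κ E = 0 := by
  change (E >>> (144 * κ)) &&& (2 ^ 144 - 1) = 0
  have h : E >>> (144 * κ) = 0 := by
    rw [Nat.shiftRight_eq_div_pow]
    exact Nat.div_eq_of_lt (lt_of_lt_of_le hE (Nat.pow_le_pow_right (by norm_num) (by omega)))
  rw [h]
  exact Nat.zero_and _

theorem fld_zero' (κ : ℕ) : fld κ 0 = 0 := by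
  change ((0 : ℕ) >>> (144 * κ)) &&& (2 ^ 144 - 1) = 0
  rw [Nat.zero_shiftRight]
  exact Nat.zero_and _

theorem slt_out {L : List Slot} (hL : L.length = 137) {i : ℕ} (hi : 137 ≤ i) :
    slt L i = ⟨0, 0, 0, 0, 0, 0, 0, 0, 0, 0, 0⟩ := by
  unfold slt
  rw [List.getD_eq_default _ _ (by omega)]

theorem isHaz_HL {L : List Slot} (hL : GoodSlots L) : IsHaz 136 (HL L) := by
  refine ⟨?_, ?_, ?_, ?_, ?_, ?_⟩
  · intro κ i
    apply frac01
    by_cases hi : i < 137
    · by_cases hκ : κ < 138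
      · exact (hL.2 i hi).fa κ hκ
      · rw [fld_zero_of (hL.2 i hi).wa (by omega)]; exact Nat.zero_le _
    · rw [slt_out hL.1 (by omega), fld_zero']; exact Nat.zero_le _
  · intro κ i
    apply frac01
    by_cases hi : i < 137
    · have hg := hL.2 i hi
      split_ifs
      · exact hg.x0
      · exact hg.xi
      · by_cases hκ : κ < 138
        · exact hg.fx κ hκ
        · rw [fld_zero_of hg.wx (by omega)]; exact Nat.zero_le _
    · rw [slt_out hL.1 (by omega)]
      simp only [fld_zero']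
      split_ifs <;> exact Nat.zero_le _
  · intro κ i
    apply frac01
    by_cases hi : i < 137
    · have hg := hL.2 i hi
      split_ifs
      · exact hg.y0
      · exact hg.yi
      · by_cases hκ : κ < 138
        · exact hg.fy κ hκ
        · rw [fld_zero_of hg.wy (by omega)]; exact Nat.zero_le _
    · rw [slt_out hL.1 (by omega)]
      simp only [fld_zero']
      split_ifs <;> exact Nat.zero_le _
  · intro κ i
    apply frac01
    by_cases hi : i < 137
    · have hg := hL.2 i hi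
      split_ifs
      · exact hg.l0
      · exact hg.li
      · exact Nat.zero_le _
    · rw [slt_out hL.1 (by omega)]
      split_ifs <;> exact Nat.zero_le _
  · intro κ i
    apply frac01
    by_cases hi : i < 137
    · by_cases hκ : κ < 138
      · exact (hL.2 i hi).fal κ hκ
      · rw [fld_zero_of (hL.2 i hi).wal (by omega)]; exact Nat.zero_le _
    · rw [slt_out hL.1 (by omega), fld_zero']; exact Nat.zero_le _
  · intro κ
    change (fld κ (slt L 136).al : ℝ) / DD = 0
    rw [((hL.2 136 (by norm_num)).fin rfl).2.2, fld_zero']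
    simp

/-- the vectors of a certificate -/
noncomputable def OVL (p0 : ℝ) (L : List Slot) (k c j : ℕ) : Cnt := OV 136 p0 (rL L) (HL L) k c j

noncomputable def WVL (p0 : ℝ) (L : List Slot) (k i : ℕ) : Cnt := WV 136 p0 (rL L) (HL L) k i

theorem OVL_succ {p0 : ℝ} {L : List Slot} (hL : GoodSlots L) (k c j : ℕ) (hc : 1 ≤ c) (hc' : c ≤ 136)
    (hj : c + j ≤ 136) :
    OVL p0 L k c (j + 1) = mvWX ((fld c (slt L (c + j)).al : ℝ) / DD)
      (fac (thr k (c + j)) 1 (1 - ((slt L (c + j)).R : ℝ) / DD)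
        (mvX ((fld c (slt L (c + j)).ex : ℝ) / DD) (mvY ((fld c (slt L (c + j)).ey : ℝ) / DD)
          (mvA ((fld c (slt L (c + j)).ea : ℝ) / DD) (OVL p0 L k c j))))) := by
  have hl : (HL L).la c (c + j) = 0 := by
    change ((if c = 0 then (slt L (c + j)).l0 else if c = 137 then (slt L (c + j)).li else 0 : ℕ) : ℝ)
      / DD = 0
    rw [if_neg (by omega), if_neg (by omega)]
    simp
  have hx : (HL L).x c (c + j) = (fld c (slt L (c + j)).ex : ℝ) / DD := by
    change ((if c = 0 then (slt L (c + j)).x0 else if c = 137 then (slt L (c + j)).xi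
      else fld c (slt L (c + j)).ex : ℕ) : ℝ) / DD = _
    rw [if_neg (by omega), if_neg (by omega)]
  have hy : (HL L).y c (c + j) = (fld c (slt L (c + j)).ey : ℝ) / DD := by
    change ((if c = 0 then (slt L (c + j)).y0 else if c = 137 then (slt L (c + j)).yi
      else fld c (slt L (c + j)).ey : ℕ) : ℝ) / DD = _
    rw [if_neg (by omega), if_neg (by omega)]
  unfold OVL
  rw [OV, hl, mvXY_zero, drp, hx, hy, rr_eq hL (c + j) hj]
  rfl

theorem OVL_zero_succ {p0 : ℝ} {L : List Slot} (hL : GoodSlots L) (k j : ℕ) (hj : j ≤ 136) :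
    OVL p0 L k 0 (j + 1) = mvWX ((fld 0 (slt L j).al : ℝ) / DD) (mvXY (((slt L j).l0 : ℝ) / DD)
      (fac (thr k j) 1 (1 - ((slt L j).R : ℝ) / DD)
        (mvX (((slt L j).x0 : ℝ) / DD) (mvY (((slt L j).y0 : ℝ) / DD)
          (mvA ((fld 0 (slt L j).ea : ℝ) / DD) (OVL p0 L k 0 j)))))) := by
  unfold OVL
  rw [OV, drp, Nat.zero_add, rr_eq hL j hj]
  rfl

theorem WVL_succ {p0 : ℝ} {L : List Slot} (k i : ℕ) (hi : i < 136) :
    WVL p0 L k (i + 1) = mvWX ((fld 137 (slt L i).al : ℝ) / DD) (mvXY (((slt L i).li : ℝ) / DD)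
      (fac (thr k i) (1 - ((slt L i).R : ℝ) / DD) 1
        (mvX (((slt L i).xi : ℝ) / DD) (mvY (((slt L i).yi : ℝ) / DD)
          (mvA ((fld 137 (slt L i).ea : ℝ) / DD) (WVL p0 L k i)))))) := by
  have hr : rL L i = ((slt L i).R : ℝ) / DD := by unfold rL; rw [if_pos hi]
  unfold WVL
  rw [WV, drp, hr]
  rfl

theorem OVL_start {p0 : ℝ} {L : List Slot} (k i : ℕ) (hi : i < 136) :
    OVL p0 L k (i + 1) 0 = mvXY 1 (mvWX ((fld 137 (slt L i).al : ℝ) / DD)
      (mvXY (((slt L i).li : ℝ) / DD) (fac (thr k i) (((slt L i).R : ℝ) / DD) 0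
        (mvX (((slt L i).xi : ℝ) / DD) (mvY (((slt L i).yi : ℝ) / DD)
          (mvA ((fld 137 (slt L i).ea : ℝ) / DD) (WVL p0 L k i))))))) := by
  have hr : rL L i = ((slt L i).R : ℝ) / DD := by unfold rL; rw [if_pos hi]
  unfold OVL WVL
  rw [OV, if_neg (by omega), drp, Nat.add_sub_cancel, hr]
  rfl

/-! ### hidden chain -/

theorem UH_on {m : ℕ} {p0 : ℝ} {H : Haz} (k c j : ℕ) (hc : 1 ≤ c) (hc' : c ≤ m) :
    UH m p0 H k c (c + j) = (XY m p0 H k c j).1 + (XY m p0 H k c j).2 := by
  unfold UH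
  rw [if_neg (by omega), if_pos hc', Nat.add_sub_cancel_left]

theorem XY_sum_succ (m : ℕ) (p0 : ℝ) (H : Haz) (k c j : ℕ) :
    (XY m p0 H k c (j + 1)).1 + (XY m p0 H k c (j + 1)).2 =
      (XY m p0 H k c j).1 * (1 - H.x (par m k (c + j)) (c + j)) +
        (XY m p0 H k c j).2 * (1 - H.y (par m k (c + j)) (c + j)) := by
  rw [XY]
  split_ifs
  · simp only; ring
  · simp only; ring

theorem XY_X0 (m : ℕ) (p0 : ℝ) (H : Haz) (k c : ℕ) (hkm : k ≤ m) (hck : c ≤ k) :
    ∀ j, k ≤ c + j → (XY m p0 H k c j).1 = 0 := by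
  intro j
  induction j with
  | zero =>
      intro h
      have : c = k := by omega
      rw [XY]
      simp only [this, if_true]
  | succ j ih =>
      intro h
      rw [XY]
      by_cases h1 : c + j + 1 = k
      · rw [if_pos ⟨h1, hkm⟩]
      · rw [if_neg (by omega), ih (by omega)]
        simp

theorem XY_Y0 (m : ℕ) (p0 : ℝ) (H : Haz) (k c : ℕ) (hkc : k < c) (hla : ∀ i, H.la k i = 0) :
    ∀ j, (XY m p0 H k c j).2 = 0 := by
  intro j
  induction j with
  | zero =>
      rw [XY]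
      rw [if_neg (by omega)]
  | succ j ih =>
      have hp : par m k (c + j) = k := by unfold par; rw [if_neg (by omega)]
      rw [XY]
      rw [if_neg (by omega), ih, hp, hla]
      simp

/-- the two-stage masses are proportional to `m0, m1` -/
def HI (p0 : ℝ) (L : List Slot) (k c j m0 m1 : ℕ) : Prop :=
  ∃ τ : ℝ, 0 ≤ τ ∧ (XY 136 p0 (HL L) k c j).1 = τ * m0 ∧ (XY 136 p0 (HL L) k c j).2 = τ * m1

theorem HI_step {p0 : ℝ} {L : List Slot} {k c j m0 m1 x y la : ℕ} (h : HI p0 L k c j m0 m1)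
    (hp : par 136 k (c + j) = k) (hr : ¬ (c + j + 1 = k ∧ k ≤ 136))
    (hx : (HL L).x k (c + j) = (x : ℝ) / DD) (hy : (HL L).y k (c + j) = (y : ℝ) / DD)
    (hla : (HL L).la k (c + j) = (la : ℝ) / DD) (hx1 : x ≤ DD) (hy1 : y ≤ DD) (hl1 : la ≤ DD) :
    HI p0 L k c (j + 1) (nM0 m0 x la) (nM1 m0 m1 x y la) := by
  obtain ⟨τ, h0, h1, h2⟩ := h
  have hD := DD_pos
  refine ⟨τ / DD ^ 2, by positivity, ?_, ?_⟩
  · rw [XY]
    rw [if_neg hr, hp, hx, hla, h1]
    unfold nM0
    simp only [Nat.mul_eq, Nat.sub_eq]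
    push_cast [Nat.cast_sub hx1, Nat.cast_sub hl1]
    field_simp
  · rw [XY]
    rw [if_neg hr, hp, hx, hla, hy, h1, h2]
    unfold nM1
    simp only [Nat.mul_eq, Nat.sub_eq, Nat.add_eq]
    push_cast [Nat.cast_sub hx1, Nat.cast_sub hy1]
    field_simp

/-- the main inequality (D2) in slot `c + j` -/
def D2' (p0 : ℝ) (L : List Slot) (k c j : ℕ) : Prop :=
  UH 136 p0 (HL L) k c (c + j + 1) * tot4 (OVL p0 L k c j) ≤
    UH 136 p0 (HL L) k c (c + j) * tot4 (OVL p0 L k c (j + 1))

theorem D2_of_H {p0 : ℝ} {L : List Slot} {k c j m0 m1 x y t0 t1 : ℕ} {e : ℝ}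
    (hc : 1 ≤ c) (hc' : c ≤ 136) (h : HI p0 L k c j m0 m1) (hp : par 136 k (c + j) = k)
    (hx : (HL L).x k (c + j) = (x : ℝ) / DD) (hy : (HL L).y k (c + j) = (y : ℝ) / DD)
    (hx1 : x ≤ DD) (hy1 : y ≤ DD)
    (hchk : (t0 + EPS) * (m0 * (DD - x) + m1 * (DD - y)) ≤ t1 * (m0 + m1) * DD)
    (h0 : 2 ^ 60 * tot4 (OVL p0 L k c j) ≤ t0 + e) (he : e ≤ EPS)
    (h1 : (t1 : ℝ) ≤ 2 ^ 60 * tot4 (OVL p0 L k c (j + 1))) : D2' p0 L k c j := by
  obtain ⟨τ, hτ, e1, e2⟩ := h
  unfold D2'
  rw [UH_on k c j hc hc', add_assoc, UH_on k c (j + 1) hc hc', XY_sum_succ, hp, hx, hy, e1, e2]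
  exact ratio_H hchk hx1 hy1 hτ h0 he h1

theorem D2_of_E {p0 : ℝ} {L : List Slot} {k c j ee t0 t1 : ℕ} {e : ℝ}
    (hpos : 0 ≤ UH 136 p0 (HL L) k c (c + j))
    (hU : UH 136 p0 (HL L) k c (c + j + 1) = UH 136 p0 (HL L) k c (c + j) * (1 - (ee : ℝ) / DD))
    (hee : ee ≤ DD)
    (hchk : (t0 + EPS) * DD ≤ t1 * DD + (t0 + EPS) * ee)
    (h0 : 2 ^ 60 * tot4 (OVL p0 L k c j) ≤ t0 + e) (he : e ≤ EPS)
    (h1 : (t1 : ℝ) ≤ 2 ^ 60 * tot4 (OVL p0 L k c (j + 1))) : D2' p0 L k c j := by
  unfold D2'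
  rw [hU, mul_assoc]
  exact mul_le_mul_of_nonneg_left (ratio_E hchk hee h0 he h1) hpos

theorem stOn_PA {p0 : ℝ} {L : List Slot} (hL : GoodSlots L) {c j : ℕ} (hc : 1 ≤ c) (hc' : c ≤ 136)
    (hj : c + j ≤ 136) {e : ℝ} {v : CN} (h : PA e v fun k => OVL p0 L k c j) :
    PA (e + 350) (stOn c (c + j) (slt L (c + j)) v) fun k => OVL p0 L k c (j + 1) := by
  have hg := hL.2 (c + j) (by omega)
  have h1 := ((((h.mA (fld c (slt L (c + j)).ea) (hg.fa c (by omega))).mY
    (fld c (slt L (c + j)).ey) (hg.fy c (by omega))).mX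
    (fld c (slt L (c + j)).ex) (hg.fx c (by omega))).fcP (c + j) (slt L (c + j)).R hg.hR).mWX
    (fld c (slt L (c + j)).al) (hg.fal c (by omega))
  refine (h1.mono (by linarith)).congr fun k _ => ?_
  exact (OVL_succ hL k c j hc hc' hj).symm

theorem stZ_PA {p0 : ℝ} {L : List Slot} (hL : GoodSlots L) {j : ℕ}
    (hj : j ≤ 136) {e : ℝ} {v : CN} (h : PA e v fun k => OVL p0 L k 0 j) :
    PA (e + 420) (stZ j (slt L j) v) fun k => OVL p0 L k 0 (j + 1) := by
  have hg := hL.2 j (by omega)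
  have h1 := (((((h.mA (fld 0 (slt L j).ea) (hg.fa 0 (by omega))).mY
    (slt L j).y0 hg.y0).mX (slt L j).x0 hg.x0).fcP j (slt L j).R hg.hR).mXY
    (slt L j).l0 hg.l0).mWX (fld 0 (slt L j).al) (hg.fal 0 (by omega))
  refine (h1.mono (by linarith)).congr fun k _ => ?_
  exact (OVL_zero_succ hL k j hj).symm

theorem stW_PA {p0 : ℝ} {L : List Slot} (hL : GoodSlots L) {i : ℕ}
    (hi : i < 136) {e : ℝ} {v : CN} (h : PA e v fun k => WVL p0 L k i) :
    PA (e + 420) (stW i (slt L i) v) fun k => WVL p0 L k (i + 1) := by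
  have hg := hL.2 i (by omega)
  have h1 := (((((h.mA (fld 137 (slt L i).ea) (hg.fa 137 (by omega))).mY
    (slt L i).yi hg.yi).mX (slt L i).xi hg.xi).spR i (slt L i).R hg.hR).mXY
    (slt L i).li hg.li).mWX (fld 137 (slt L i).al) (hg.fal 137 (by omega))
  refine (h1.mono (by linarith)).congr fun k _ => ?_
  exact (WVL_succ k i hi).symm

theorem stS_PA {p0 : ℝ} {L : List Slot} (hL : GoodSlots L) {i : ℕ}
    (hi : i < 136) {e : ℝ} {v : CN} (h : PA e v fun k => WVL p0 L k i) :
    PA (e + 420) (stS i (slt L i) v) fun k => OVL p0 L k (i + 1) 0 := by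
  have hg := hL.2 i (by omega)
  have h1 := ((((((h.mA (fld 137 (slt L i).ea) (hg.fa 137 (by omega))).mY
    (slt L i).yi hg.yi).mX (slt L i).xi hg.xi).spZ i (slt L i).R hg.hR).mXY
    (slt L i).li hg.li).mWX (fld 137 (slt L i).al) (hg.fal 137 (by omega))).rlb
  refine (h1.mono (by linarith)).congr fun k _ => ?_
  exact (OVL_start k i hi).symm

/-- soundness of the run of a vertex on since `c ≥ 1` -/
theorem onRun_spec {L : List Slot} (hL : GoodSlots L) {p0 : ℝ}
    (hfam : IsFam 136 (UH 136 p0 (HL L))) (c : ℕ) (hc : 1 ≤ c) (hc' : c ≤ 136) :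
    ∀ (n j : ℕ), n + (c + j) = 137 → ∀ (v : CN) (m0 m1 g0 g1 : ℕ) (e : ℝ),
      e + 350 * n ≤ EPS → PA e v (fun k => OVL p0 L k c j) → HI p0 L 0 c j m0 m1 →
      HI p0 L 137 c j g0 g1 →
      app (onRun c (L.drop (c + j)) (c + j) (tot4N v) m0 m1 g0 g1) v = true →
      ∀ j', j ≤ j' → c + j' ≤ 136 → ∀ k, (k = 0 ∨ k = 137 ∨ (1 ≤ k ∧ k ≤ c + j' ∧ k ≤ 136)) →
        D2' p0 L k c j' := by
  intro n
  induction n with
  | zero => intro j hn v m0 m1 g0 g1 e _ _ _ _ _ j' hj' hcj'; omega
  | succ n ih =>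
      intro j hn v m0 m1 g0 g1 e he hPA hI0 hI1 happ j' hj' hcj' k hk
      have hj : c + j ≤ 136 := by omega
      have hg := hL.2 (c + j) (by omega)
      rw [drop_eq hL.1 (c + j) (by omega)] at happ
      obtain ⟨hE, hH0, hH1, hrest⟩ := onRun_app c (slt L (c + j)) (L.drop (c + j + 1)) (c + j)
        (tot4N v) m0 m1 g0 g1 v happ
      have hPA' := stOn_PA hL hc hc' hj hPA
      have he0 : e ≤ EPS := by
        have : (0 : ℝ) ≤ 350 * ((n + 1 : ℕ) : ℝ) := by positivity
        linarith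
      have p0x : (HL L).x 0 (c + j) = ((slt L (c + j)).x0 : ℝ) / DD := by
        change ((if (0 : ℕ) = 0 then (slt L (c + j)).x0 else if (0 : ℕ) = 137 then
          (slt L (c + j)).xi else fld 0 (slt L (c + j)).ex : ℕ) : ℝ) / DD = _
        rw [if_pos rfl]
      have p0y : (HL L).y 0 (c + j) = ((slt L (c + j)).y0 : ℝ) / DD := by
        change ((if (0 : ℕ) = 0 then (slt L (c + j)).y0 else if (0 : ℕ) = 137 then
          (slt L (c + j)).yi else fld 0 (slt L (c + j)).ey : ℕ) : ℝ) / DD = _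
        rw [if_pos rfl]
      have p0l : (HL L).la 0 (c + j) = ((slt L (c + j)).l0 : ℝ) / DD := by
        change ((if (0 : ℕ) = 0 then (slt L (c + j)).l0 else if (0 : ℕ) = 137 then
          (slt L (c + j)).li else 0 : ℕ) : ℝ) / DD = _
        rw [if_pos rfl]
      have p1x : (HL L).x 137 (c + j) = ((slt L (c + j)).xi : ℝ) / DD := by
        change ((if (137 : ℕ) = 0 then (slt L (c + j)).x0 else if (137 : ℕ) = 137 then
          (slt L (c + j)).xi else fld 137 (slt L (c + j)).ex : ℕ) : ℝ) / DD = _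
        rw [if_neg (by norm_num), if_pos rfl]
      have p1y : (HL L).y 137 (c + j) = ((slt L (c + j)).yi : ℝ) / DD := by
        change ((if (137 : ℕ) = 0 then (slt L (c + j)).y0 else if (137 : ℕ) = 137 then
          (slt L (c + j)).yi else fld 137 (slt L (c + j)).ey : ℕ) : ℝ) / DD = _
        rw [if_neg (by norm_num), if_pos rfl]
      have p1l : (HL L).la 137 (c + j) = ((slt L (c + j)).li : ℝ) / DD := by
        change ((if (137 : ℕ) = 0 then (slt L (c + j)).l0 else if (137 : ℕ) = 137 then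
          (slt L (c + j)).li else 0 : ℕ) : ℝ) / DD = _
        rw [if_neg (by norm_num), if_pos rfl]
      have hp0 : par 136 0 (c + j) = 0 := by unfold par; rw [if_neg (by omega)]
      have hp1 : par 136 137 (c + j) = 137 := by unfold par; rw [if_pos (by omega)]
      have hI0' := HI_step hI0 hp0 (by omega) p0x p0y p0l hg.x0 hg.y0 hg.l0
      have hI1' := HI_step hI1 hp1 (by omega) p1x p1y p1l hg.xi hg.yi hg.li
      rcases Nat.eq_or_lt_of_le hj' with hjj | hjj
      · subst hjj
        obtain ⟨t0, hs0, ht0⟩ := hPA.tot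
        obtain ⟨t1, hs1, ht1⟩ := hPA'.tot
        rw [hs0, hs1] at hE hH0 hH1
        have hb0 : ∀ k < 138, t0 k ≤ 2 ^ 60 := fun k hk => (ht0 k hk).1
        have hb1 : ∀ k < 138, t1 k ≤ 2 ^ 60 := fun k hk => (ht1 k hk).1
        have hf0 : ∀ k < 138, fld k (pk t0) = t0 k :=
          fld_pk t0 fun k hk => le_lt144 (hb0 k hk)
        have hf1 : ∀ k < 138, fld k (pk t1) = t1 k :=
          fld_pk t1 fun k hk => le_lt144 (hb1 k hk)
        rcases hk with hk | hk | ⟨hk1, hk2, hk3⟩
        · subst hk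
          have hch := chkH_spec hH0
          rw [hf0 0 (by norm_num), hf1 0 (by norm_num)] at hch
          exact D2_of_H hc hc' hI0 hp0 p0x p0y hg.x0 hg.y0 hch (ht0 0 (by norm_num)).2.2 he0
            (ht1 0 (by norm_num)).2.1
        · subst hk
          have hch := chkH_spec hH1
          rw [hf0 137 (by norm_num), hf1 137 (by norm_num)] at hch
          exact D2_of_H hc hc' hI1 hp1 p1x p1y hg.xi hg.yi hch (ht0 137 (by norm_num)).2.2 he0
            (ht1 137 (by norm_num)).2.1
        · rw [mixE_eq hc hg.wx hg.wy] at hE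
          have hee : ∀ k < 138, (fun k => if k < c then fld k (slt L (c + j)).ex
              else fld k (slt L (c + j)).ey) k ≤ DD := by
            intro k hk
            simp only
            split_ifs
            · exact hg.fx k hk
            · exact hg.fy k hk
          have hch := chkE_spec t0 t1 _ hb0 hb1 hee hE k (by omega)
          have hpk : par 136 k (c + j) = k := by unfold par; rw [if_neg (by omega)]
          have hpos := hfam.nonneg k c (c + j) (by omega) (by omega) (by omega)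
          refine D2_of_E hpos ?_ (hee k (by omega)) hch (ht0 k (by omega)).2.2 he0
            (ht1 k (by omega)).2.1
          have hU0 := UH_on (m := 136) (p0 := p0) (H := HL L) k c j hc hc'
          have hU1 := UH_on (m := 136) (p0 := p0) (H := HL L) k c (j + 1) hc hc'
          rw [← add_assoc] at hU1
          rw [hU0, hU1, XY_sum_succ, hpk]
          by_cases hkc : k < c
          · have hY : (XY 136 p0 (HL L) k c j).2 = 0 := XY_Y0 136 p0 (HL L) k c hkc (fun i => by
              change ((if k = 0 then (slt L i).l0 else if k = 137 then (slt L i).li else 0 : ℕ) : ℝ)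
                / DD = 0
              rw [if_neg (by omega), if_neg (by omega)]
              simp) j
            have hxk : (HL L).x k (c + j) = (fld k (slt L (c + j)).ex : ℝ) / DD := by
              change ((if k = 0 then (slt L (c + j)).x0 else if k = 137 then (slt L (c + j)).xi
                else fld k (slt L (c + j)).ex : ℕ) : ℝ) / DD = _
              rw [if_neg (by omega), if_neg (by omega)]
            rw [hY, hxk]
            simp only [hkc, if_true]
            ring
          · have hX : (XY 136 p0 (HL L) k c j).1 = 0 :=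
              XY_X0 136 p0 (HL L) k c hk3 (by omega) j hk2
            have hyk : (HL L).y k (c + j) = (fld k (slt L (c + j)).ey : ℝ) / DD := by
              change ((if k = 0 then (slt L (c + j)).y0 else if k = 137 then (slt L (c + j)).yi
                else fld k (slt L (c + j)).ey : ℕ) : ℝ) / DD = _
              rw [if_neg (by omega), if_neg (by omega)]
            rw [hX, hyk]
            simp only [hkc, if_false]
            ring
      · refine ih (j + 1) (by omega) (stOn c (c + j) (slt L (c + j)) v) _ _ _ _ (e + 350) ?_ hPA'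
          hI0' hI1' hrest j' (by omega) hcj' k hk
        push_cast at he ⊢
        linarith

/-- soundness of the run of a vertex on since `0` -/
theorem zRun_spec {L : List Slot} (hL : GoodSlots L) {p0 : ℝ}
    (hfam : IsFam 136 (UH 136 p0 (HL L))) :
    ∀ (n j : ℕ), n + j = 137 → ∀ (v : CN) (e : ℝ),
      e + 420 * n ≤ EPS → PA e v (fun k => OVL p0 L k 0 j) →
      app (zRun (L.drop j) j (tot4N v)) v = true →
      ∀ j', j ≤ j' → j' ≤ 136 → ∀ k, k ≤ 137 → D2' p0 L k 0 j' := by
  intro n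
  induction n with
  | zero => intro j hn v e _ _ _ j' hj' hcj'; omega
  | succ n ih =>
      intro j hn v e he hPA happ j' hj' hcj' k hk
      have hj : j ≤ 136 := by omega
      have hg := hL.2 j (by omega)
      rw [drop_eq hL.1 j (by omega)] at happ
      obtain ⟨hE, hrest⟩ := zRun_app (slt L j) (L.drop (j + 1)) j (tot4N v) v happ
      have hPA' := stZ_PA hL hj hPA
      have he0 : e ≤ EPS := by
        have : (0 : ℝ) ≤ 420 * ((n + 1 : ℕ) : ℝ) := by positivity
        linarith
      rcases Nat.eq_or_lt_of_le hj' with hjj | hjj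
      · subst hjj
        obtain ⟨t0, hs0, ht0⟩ := hPA.tot
        obtain ⟨t1, hs1, ht1⟩ := hPA'.tot
        rw [hs0, hs1, eq_pk _ hg.wa] at hE
        have hch := chkE_spec t0 t1 _ (fun k hk => (ht0 k hk).1) (fun k hk => (ht1 k hk).1)
          (fun k hk => hg.fa k hk) hE k (by omega)
        have hpos := hfam.nonneg k 0 (0 + j) (by omega) (by omega) (by omega)
        refine D2_of_E hpos ?_ (hg.fa k (by omega)) hch (ht0 k (by omega)).2.2 he0
          (ht1 k (by omega)).2.1
        unfold UH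
        rw [if_pos rfl, if_pos rfl, Nat.zero_add, Am]
        rw [hg.pa k (by omega)]
        rfl
      · refine ih (j + 1) (by omega) (stZ j (slt L j) v) (e + 420) ?_ hPA'
          hrest j' (by omega) hcj' k hk
        push_cast at he ⊢
        linarith

end Pool.Agent.H41.GL
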