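import Pool.Agent.H41.GL.Asm
import Pool.Agent.H41.GL.Good
import Pool.Agent.H41.GL.Blk.All

/-!
# The cavity statement
-/

namespace Pool.Agent.H41.GL

theorem cavity_main : CavityMain :=
  num_main slots good_slots PP0 (by unfold PP0; norm_num) (by unfold PP0 DD; norm_num) blkZ blk_all

end Pool.Agent.H41.GL
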