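import Mathlib

/-!
# Words packed with 138 lanes of 144 bits
-/

namespace Pool.Agent.H41.GL

open Finset

/-- packed word with `K` lanes of 144 bits -/
def pkK (K : ℕ) (z : ℕ → ℕ) : ℕ := ∑ k ∈ range K, 2 ^ (144 * k) * z k

/-- packed word with 138 lanes of 144 bits -/
def pk (z : ℕ → ℕ) : ℕ := pkK 138 z

/-- lane `k` of a word -/
def fld (k E : ℕ) : ℕ := Nat.land (Nat.shiftRight E (Nat.mul 144 k)) (2 ^ 144 - 1)

theorem pkK_succ (K : ℕ) (z : ℕ → ℕ) : pkK (K + 1) z = 2 ^ (144 * K) * z K + pkK K z := by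
  unfold pkK; rw [Finset.sum_range_succ, add_comm]

theorem pkK_lt (K : ℕ) (z : ℕ → ℕ) (h : ∀ k < K, z k < 2 ^ 144) : pkK K z < 2 ^ (144 * K) := by
  induction K with
  | zero => simp [pkK]
  | succ K ih =>
      rw [pkK_succ]
      have h1 := ih (fun k hk => h k (by omega))
      have h2 := h K (by omega)
      have h3 : 2 ^ (144 * (K + 1)) = 2 ^ (144 * K) * 2 ^ 144 := by rw [← pow_add]; congr 1
      rw [h3]
      calc 2 ^ (144 * K) * z K + pkK K z < 2 ^ (144 * K) * z K + 2 ^ (144 * K) := by omega
        _ = 2 ^ (144 * K) * (z K + 1) := by ring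
        _ ≤ 2 ^ (144 * K) * 2 ^ 144 := Nat.mul_le_mul_left _ h2

theorem pkK_testBit (K : ℕ) (z : ℕ → ℕ) (h : ∀ k < K, z k < 2 ^ 144) (i : ℕ) :
    (pkK K z).testBit i = (decide (i / 144 < K) && (z (i / 144)).testBit (i % 144)) := by
  induction K generalizing i with
  | zero => simp [pkK]
  | succ K ih =>
      rw [pkK_succ, Nat.testBit_two_pow_mul_add _ (pkK_lt K z fun k hk => h k (by omega))]
      split_ifs with h1
      · rw [ih (fun k hk => h k (by omega))]
        have h2 : i / 144 < K := by omega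
        have h3 : i / 144 < K + 1 := by omega
        simp [h2, h3]
      · by_cases h2 : i < 144 * (K + 1)
        · have h3 : i / 144 = K := by omega
          have h4 : i % 144 = i - 144 * K := by omega
          rw [h3, h4]; simp
        · have h3 : ¬ i / 144 < K + 1 := by omega
          simp only [h3, decide_false, Bool.false_and]
          apply Nat.testBit_eq_false_of_lt
          exact lt_of_lt_of_le (h K (by omega)) (Nat.pow_le_pow_right (by norm_num) (by omega))

theorem pk_testBit (z : ℕ → ℕ) (h : ∀ k < 138, z k < 2 ^ 144) (i : ℕ) :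
    (pk z).testBit i = (decide (i / 144 < 138) && (z (i / 144)).testBit (i % 144)) :=
  pkK_testBit 138 z h i

theorem pk_congr {z z' : ℕ → ℕ} (h : ∀ k < 138, z k = z' k) : pk z = pk z' := by
  unfold pk pkK
  exact Finset.sum_congr rfl fun k hk => by rw [h k (Finset.mem_range.1 hk)]

theorem pk_add (z z' : ℕ → ℕ) : pk z + pk z' = pk fun k => z k + z' k := by
  unfold pk pkK; rw [← Finset.sum_add_distrib]; exact Finset.sum_congr rfl fun k _ => by ring

theorem pk_mul (c : ℕ) (z : ℕ → ℕ) : c * pk z = pk fun k => c * z k := by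
  unfold pk pkK; rw [Finset.mul_sum]; exact Finset.sum_congr rfl fun k _ => by ring

theorem pk_mul' (c : ℕ) (z : ℕ → ℕ) : pk z * c = pk fun k => z k * c := by
  rw [mul_comm, pk_mul]; exact pk_congr fun k _ => mul_comm _ _

theorem pk_le {z z' : ℕ → ℕ} (h : ∀ k < 138, z' k ≤ z k) : pk z' ≤ pk z := by
  unfold pk pkK
  exact Finset.sum_le_sum fun k hk => Nat.mul_le_mul_left _ (h k (Finset.mem_range.1 hk))

theorem pk_sub {z z' : ℕ → ℕ} (h : ∀ k < 138, z' k ≤ z k) : pk z - pk z' = pk fun k => z k - z' k := by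
  have h1 : pk z = (pk fun k => z k - z' k) + pk z' := by
    rw [pk_add]; exact pk_congr fun k hk => by have := h k hk; omega
  omega

theorem pk_zero : (pk fun _ => 0) = 0 := by simp [pk, pkK]

/-- constants -/
def ONES : ℕ := pk fun _ => 1

theorem pk_const (c : ℕ) : (pk fun _ => c) = ONES * c := by
  unfold ONES; rw [pk_mul']; exact pk_congr fun k _ => by ring

/-- general shift and mask -/
theorem pk_trunc (z : ℕ → ℕ) (h : ∀ k < 138, z k < 2 ^ 144) (s : ℕ) (hs : s ≤ 144) :
    Nat.land (Nat.shiftRight (pk z) s) (pk fun _ => 2 ^ (144 - s) - 1) = pk fun k => z k / 2 ^ s := by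
  change (pk z >>> s) &&& (pk fun _ => 2 ^ (144 - s) - 1) = pk fun k => z k / 2 ^ s
  apply Nat.eq_of_testBit_eq
  intro i
  have hp : 0 < 2 ^ s := by positivity
  have hp' : 0 < 2 ^ (144 - s) := by positivity
  have hm : ∀ k < 138, (fun _ : ℕ => 2 ^ (144 - s) - 1) k < 2 ^ 144 := fun k _ => by
    have : 2 ^ (144 - s) ≤ 2 ^ 144 := Nat.pow_le_pow_right (by norm_num) (by omega)
    simp only; omega
  have hq : ∀ k < 138, (fun k => z k / 2 ^ s) k < 2 ^ 144 := fun k hk =>
    lt_of_le_of_lt (Nat.div_le_self _ _) (h k hk)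
  rw [Nat.testBit_and, Nat.testBit_shiftRight, pk_testBit z h, pk_testBit _ hm, pk_testBit _ hq]
  simp only [Nat.testBit_two_pow_sub_one, Nat.testBit_div_two_pow]
  by_cases h1 : i / 144 < 138
  · simp only [h1, decide_true, Bool.true_and]
    by_cases h2 : i % 144 < 144 - s
    · have h3 : (s + i) / 144 = i / 144 := by omega
      have h4 : (s + i) % 144 = i % 144 + s := by omega
      simp [h2, h3, h4, h1]
    · have h5 : (z (i / 144)).testBit (i % 144 + s) = false := by
        apply Nat.testBit_eq_false_of_lt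
        exact lt_of_lt_of_le (h _ h1) (Nat.pow_le_pow_right (by norm_num) (by omega))
      simp [h2, h5]
  · simp [h1]

/-- masks of the form low lanes -/
theorem pk_low (z : ℕ → ℕ) (h : ∀ k < 138, z k < 2 ^ 144) (n : ℕ) :
    Nat.land (pk z) (2 ^ (144 * n) - 1) = pk fun k => if k < n then z k else 0 := by
  change pk z &&& (2 ^ (144 * n) - 1) = _
  apply Nat.eq_of_testBit_eq
  intro i
  have hq : ∀ k < 138, (fun k => if k < n then z k else 0) k < 2 ^ 144 := fun k hk => by
    simp only; split_ifs
    · exact h k hk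
    · positivity
  rw [Nat.testBit_and, pk_testBit z h, pk_testBit _ hq, Nat.testBit_two_pow_sub_one]
  by_cases h1 : i / 144 < n
  · have h2 : i < 144 * n := by omega
    simp [h1, h2]
  · have h2 : ¬ i < 144 * n := by omega
    simp [h1, h2]

/-- fields of a packed word -/
theorem fld_pk (z : ℕ → ℕ) (h : ∀ k < 138, z k < 2 ^ 144) (k : ℕ) (hk : k < 138) :
    fld k (pk z) = z k := by
  change (pk z >>> (144 * k)) &&& (2 ^ 144 - 1) = z k
  apply Nat.eq_of_testBit_eq
  intro i
  rw [Nat.testBit_and, Nat.testBit_shiftRight, pk_testBit z h, Nat.testBit_two_pow_sub_one]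
  by_cases h1 : i < 144
  · have h2 : (144 * k + i) / 144 = k := by omega
    have h3 : (144 * k + i) % 144 = i := by omega
    simp [h1, h2, h3, hk]
  · simp only [h1, decide_false, Bool.and_false]
    symm
    apply Nat.testBit_eq_false_of_lt
    exact lt_of_lt_of_le (h k hk) (Nat.pow_le_pow_right (by norm_num) (by omega))

theorem fld_lt (k E : ℕ) : fld k E < 2 ^ 144 := by
  change (E >>> (144 * k)) &&& (2 ^ 144 - 1) < 2 ^ 144
  have h : (E >>> (144 * k)) &&& (2 ^ 144 - 1) ≤ 2 ^ 144 - 1 := Nat.and_le_right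
  have : 0 < 2 ^ 144 := by positivity
  omega

/-- a word is packed from its fields -/
theorem eq_pk (E : ℕ) (hE : E < 2 ^ (144 * 138)) : E = pk fun k => fld k E := by
  apply Nat.eq_of_testBit_eq
  intro i
  rw [pk_testBit _ (fun k _ => fld_lt k E)]
  by_cases h1 : i / 144 < 138
  · have h2 : i % 144 < 144 := Nat.mod_lt _ (by norm_num)
    have h3 : 144 * (i / 144) + i % 144 = i := Nat.div_add_mod i 144
    change _ = (_ && ((E >>> (144 * (i / 144))) &&& (2 ^ 144 - 1)).testBit (i % 144))
    rw [Nat.testBit_and, Nat.testBit_shiftRight, Nat.testBit_two_pow_sub_one, h3]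
    simp [h1, h2]
  · simp only [h1, decide_false, Bool.false_and]
    apply Nat.testBit_eq_false_of_lt
    exact lt_of_lt_of_le hE (Nat.pow_le_pow_right (by norm_num) (by omega))

/-- top bits -/
def TOP : ℕ := pk fun _ => 2 ^ 143

/-- comparison of all lanes -/
def geAll (A B : ℕ) : Bool := Nat.beq (Nat.land (Nat.sub (Nat.add A TOP) B) TOP) TOP

theorem geAll_spec (a b : ℕ → ℕ) (ha : ∀ k < 138, a k < 2 ^ 143) (hb : ∀ k < 138, b k < 2 ^ 143)
    (h : geAll (pk a) (pk b) = true) : ∀ k < 138, b k ≤ a k := by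
  intro k hk
  unfold geAll at h
  have h1 := Nat.eq_of_beq_eq_true h
  have h2 : Nat.sub (Nat.add (pk a) TOP) (pk b) = pk fun k => a k + 2 ^ 143 - b k := by
    change pk a + TOP - pk b = _
    unfold TOP
    rw [pk_add, pk_sub]
    intro k hk
    have := hb k hk
    omega
  rw [h2] at h1
  have hlt : ∀ k < 138, (fun k => a k + 2 ^ 143 - b k) k < 2 ^ 144 := fun k hk => by
    have := ha k hk
    simp only
    omega
  have hlt2 : ∀ k < 138, (fun _ : ℕ => 2 ^ 143) k < 2 ^ 144 := fun k _ => by norm_num
  have h3 := congrArg (fun n => Nat.testBit n (144 * k + 143)) h1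
  change ((pk fun k => a k + 2 ^ 143 - b k) &&& TOP).testBit (144 * k + 143) =
    TOP.testBit (144 * k + 143) at h3
  unfold TOP at h3
  rw [Nat.testBit_and, pk_testBit _ hlt, pk_testBit _ hlt2] at h3
  have h4 : (144 * k + 143) / 144 = k := by omega
  have h5 : (144 * k + 143) % 144 = 143 := by omega
  simp only [h4, h5, hk, decide_true, Bool.true_and, Nat.testBit_two_pow_self, Bool.and_true] at h3
  by_contra hcon
  have h6 : a k + 2 ^ 143 - b k < 2 ^ 143 := by omega
  rw [Nat.testBit_eq_false_of_lt h6] at h3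
  exact absurd h3 (by simp)

/-- one term of the lane-wise product -/
def pmt (S E b : ℕ) : ℕ :=
  Nat.shiftLeft (Nat.land S (Nat.mul (Nat.land (Nat.shiftRight E b) ONES) (2 ^ 144 - 1))) b

theorem pmt_spec (s e : ℕ → ℕ) (hs : ∀ k < 138, s k < 2 ^ 144) (he : ∀ k < 138, e k < 2 ^ 144)
    (b : ℕ) (hb : b < 144) :
    pmt (pk s) (pk e) b = pk fun k => s k * (2 ^ b * ((e k).testBit b).toNat) := by
  have h1 : Nat.land (Nat.shiftRight (pk e) b) ONES = pk fun k => ((e k).testBit b).toNat := by
    change (pk e >>> b) &&& ONES = _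
    unfold ONES
    apply Nat.eq_of_testBit_eq
    intro i
    have h01 : ∀ k < 138, (fun k => ((e k).testBit b).toNat) k < 2 ^ 144 := fun k _ => by
      have : ((e k).testBit b).toNat ≤ 1 := Bool.toNat_le _
      simp only; omega
    rw [Nat.testBit_and, Nat.testBit_shiftRight, pk_testBit e he,
      pk_testBit _ (fun k _ => by norm_num), pk_testBit _ h01]
    by_cases h1 : i / 144 < 138
    · by_cases h2 : i % 144 = 0
      · have h3 : (b + i) / 144 = i / 144 := by omega
        have h4 : (b + i) % 144 = b := by omega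
        simp only [h3, h4, h1, h2, decide_true, Bool.true_and]
        cases (e (i / 144)).testBit b <;> simp
      · have h5 : (1 : ℕ).testBit (i % 144) = false := by
          rw [Nat.testBit_one_eq_true_iff_self_eq_zero.not.mpr h2 |> Bool.eq_false_iff.mpr]
        have h6 : ∀ c : Bool, (c.toNat).testBit (i % 144) = false := fun c => by
          cases c
          · simp
          · simpa using h5
        simp [h5, h6]
    · simp [h1]
  unfold pmt
  rw [h1]
  have h2 : Nat.mul (pk fun k => ((e k).testBit b).toNat) (2 ^ 144 - 1) =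
      pk fun k => ((e k).testBit b).toNat * (2 ^ 144 - 1) := by
    rw [Nat.mul_eq, pk_mul']
  rw [h2]
  have h3 : Nat.land (pk s) (pk fun k => ((e k).testBit b).toNat * (2 ^ 144 - 1)) =
      pk fun k => s k * ((e k).testBit b).toNat := by
    change pk s &&& _ = _
    apply Nat.eq_of_testBit_eq
    intro i
    have hA : ∀ k < 138, (fun k => ((e k).testBit b).toNat * (2 ^ 144 - 1)) k < 2 ^ 144 :=
      fun k _ => by
        simp only
        cases (e k).testBit b <;> simp
    have hB : ∀ k < 138, (fun k => s k * ((e k).testBit b).toNat) k < 2 ^ 144 := fun k hk => by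
      simp only
      cases (e k).testBit b
      · simp
      · simpa using hs k hk
    rw [Nat.testBit_and, pk_testBit s hs, pk_testBit _ hA, pk_testBit _ hB]
    by_cases h1 : i / 144 < 138
    · simp only [h1, decide_true, Bool.true_and]
      cases (e (i / 144)).testBit b
      · simp
      · have : i % 144 < 144 := Nat.mod_lt _ (by norm_num)
        simp only [Bool.toNat_true, one_mul, mul_one, Nat.testBit_two_pow_sub_one]
        simp [this]
    · simp [h1]
  rw [h3]
  change (pk fun k => s k * ((e k).testBit b).toNat) <<< b = _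
  rw [Nat.shiftLeft_eq, pk_mul']
  exact pk_congr fun k _ => by ring

/-- lane-wise product with a word whose lanes are less than `2 ^ 21` -/
def pmul (S E : ℕ) : ℕ :=
  Nat.add (pmt S E 20) (Nat.add (pmt S E 19) (Nat.add (pmt S E 18) (Nat.add (pmt S E 17)
  (Nat.add (pmt S E 16) (Nat.add (pmt S E 15) (Nat.add (pmt S E 14) (Nat.add (pmt S E 13)
  (Nat.add (pmt S E 12) (Nat.add (pmt S E 11) (Nat.add (pmt S E 10) (Nat.add (pmt S E 9)
  (Nat.add (pmt S E 8) (Nat.add (pmt S E 7) (Nat.add (pmt S E 6) (Nat.add (pmt S E 5)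
  (Nat.add (pmt S E 4) (Nat.add (pmt S E 3) (Nat.add (pmt S E 2) (Nat.add (pmt S E 1)
  (pmt S E 0))))))))))))))))))))

theorem bits_sum (n e : ℕ) (he : e < 2 ^ n) : ∑ b ∈ range n, 2 ^ b * (e.testBit b).toNat = e := by
  induction n generalizing e with
  | zero => simp at he; simp [he]
  | succ n ih =>
      rw [Finset.sum_range_succ']
      have h1 : e / 2 < 2 ^ n := by
        rw [pow_succ] at he; omega
      have h2 := ih (e / 2) h1
      have h3 : ∑ b ∈ range n, 2 ^ (b + 1) * (e.testBit (b + 1)).toNat =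
          2 * ∑ b ∈ range n, 2 ^ b * ((e / 2).testBit b).toNat := by
        rw [Finset.mul_sum]
        refine Finset.sum_congr rfl fun b _ => ?_
        rw [Nat.testBit_succ]
        ring
      rw [h3, h2]
      have h4 : (e.testBit 0).toNat = e % 2 := by
        rw [Nat.testBit_zero]
        have := Nat.mod_two_eq_zero_or_one e
        rcases this with h | h <;> simp [h]
      rw [h4]
      omega

theorem pmul_spec (s e : ℕ → ℕ) (hs : ∀ k < 138, s k < 2 ^ 144) (he : ∀ k < 138, e k < 2 ^ 21) :
    pmul (pk s) (pk e) = pk fun k => s k * e k := by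
  have he' : ∀ k < 138, e k < 2 ^ 144 := fun k hk => lt_trans (he k hk) (by norm_num)
  have h1 : pmul (pk s) (pk e) = ∑ b ∈ range 21, pmt (pk s) (pk e) b := by
    simp only [Finset.sum_range_succ, Finset.sum_range_zero]
    unfold pmul
    simp only [Nat.add_eq]
    ring
  rw [h1]
  have h2 : ∀ b ∈ range 21, pmt (pk s) (pk e) b = pk fun k => s k * (2 ^ b * ((e k).testBit b).toNat) :=
    fun b hb => pmt_spec s e hs he' b (by have := Finset.mem_range.1 hb; omega)
  rw [Finset.sum_congr rfl h2]
  unfold pk pkK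
  rw [Finset.sum_comm]
  refine Finset.sum_congr rfl fun k hk => ?_
  rw [← Finset.mul_sum, ← Finset.mul_sum, bits_sum 21 (e k) (he k (Finset.mem_range.1 hk))]

end Pool.Agent.H41.GL
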