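import Pool.Agent.H41.GL.Chain
import Pool.Agent.H41.GL.Pk

/-!
# Vectors of natural numbers indexed by the children counts
-/

namespace Pool.Agent.H41.GL

open Finset

/-- vectors indexed by `(w, a, y, x)`, natural number entries -/
abbrev CN : Type := ℕ → ℕ → ℕ → ℕ → ℕ

/-- `g 0 + g 1 + ... + g n` -/
def sumLe (n : ℕ) (g : ℕ → ℕ) : ℕ :=
  @Nat.rec (fun _ => ℕ) (g 0) (fun i s => Nat.add s (g (Nat.succ i))) n

/-- denominator of the hazards -/
def DD : ℕ := 1048576

/-- unit of mass -/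
def VV : ℕ := 1152921504606846976

/-- move coefficients, scaled by `2 ^ 80` -/
def cf (q a u : ℕ) : ℕ :=
  Nat.mul (Nat.choose (a + u) a) (Nat.mul (Nat.pow (Nat.sub DD q) a)
    (Nat.mul (Nat.pow q u) (Nat.pow DD (4 - (a + u)))))

def mA (τ : ℕ → ℕ) (T : ℕ → ℕ → ℕ) (v : CN) : CN := fun w a y x =>
  τ (sumLe (4 - (w + a + y + x)) fun u => Nat.mul (T a u) (v w (a + u) y x))

def mY (τ : ℕ → ℕ) (T : ℕ → ℕ → ℕ) (v : CN) : CN := fun w a y x =>
  τ (sumLe (4 - (w + a + y + x)) fun u => Nat.mul (T y u) (v w a (y + u) x))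

def mX (τ : ℕ → ℕ) (T : ℕ → ℕ → ℕ) (v : CN) : CN := fun w a y x =>
  τ (sumLe (4 - (w + a + y + x)) fun u => Nat.mul (T x u) (v w a y (x + u)))

def mXY (τ : ℕ → ℕ) (T : ℕ → ℕ → ℕ) (v : CN) : CN := fun w a y x =>
  τ (sumLe y fun u => Nat.mul (T x u) (v w a (y - u) (x + u)))

def mWX (τ : ℕ → ℕ) (T : ℕ → ℕ → ℕ) (v : CN) : CN := fun w a y x =>
  τ (sumLe x fun u => Nat.mul (T w u) (v (w + u) a y (x - u)))

/-- relabelling of all `X` as `Y` -/
def rlb (v : CN) : CN := fun w a y x =>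
  @Nat.rec (fun _ => ℕ) (sumLe y fun u => v w a (y - u) u) (fun _ _ => 0) x

/-- total mass -/
def tot4N (v : CN) : ℕ :=
  sumLe 4 fun w => sumLe (4 - w) fun a => sumLe (4 - w - a) fun y => sumLe (4 - w - a - y) fun x =>
    v w a y x

/-- `e >> 80` in every lane, with a mask -/
def tr80 (M e : ℕ) : ℕ := Nat.land (Nat.shiftRight e 80) M

def tr20 (M e : ℕ) : ℕ := Nat.land (Nat.shiftRight e 20) M

/-- ring factor while on: with fewer supporters than needed, keep the fraction `keep / DD`.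
`B` is the mask of the lanes for which the parent supports. -/
def fcP (M B keep : ℕ) (v : CN) : CN := fun w a y x =>
  cond (Nat.ble 3 (a + y + x)) (v w a y x)
    (cond (Nat.ble 2 (a + y + x))
      (Nat.add (Nat.land (v w a y x) B)
        (tr20 M (Nat.mul (Nat.sub (v w a y x) (Nat.land (v w a y x) B)) keep)))
      (tr20 M (Nat.mul (v w a y x) keep)))

/-- successful ring while waiting -/
def spZ (M B r : ℕ) (v : CN) : CN := fun w a y x =>
  cond (Nat.ble 3 (a + y + x)) (tr20 M (Nat.mul (v w a y x) r))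
    (cond (Nat.ble 2 (a + y + x)) (tr20 M (Nat.mul (Nat.land (v w a y x) B) r)) 0)

/-- no successful ring while waiting; `r'` is `DD - r` -/
def spR (M B r' : ℕ) (v : CN) : CN := fun w a y x =>
  cond (Nat.ble 3 (a + y + x)) (tr20 M (Nat.mul (v w a y x) r'))
    (cond (Nat.ble 2 (a + y + x))
      (Nat.add (Nat.sub (v w a y x) (Nat.land (v w a y x) B))
        (tr20 M (Nat.mul (Nat.land (v w a y x) B) r')))
      (v w a y x))

end Pool.Agent.H41.GL
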