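import Pool.Agent.H41.GL.Loop

/-!
# Soundness of the run of a waiting vertex
-/

namespace Pool.Agent.H41.GL

open Finset

theorem nOm_eq (o al : ℕ → ℕ) (ho : ∀ k < 138, o k ≤ 2 ^ 60) (hal : ∀ k < 138, al k ≤ DD) :
    nOm (pk o) (pk fun k => o k * al k) =
      pk fun k => (o k * DD - o k * al k + (DD - 1)) / 2 ^ 20 := by
  unfold nOm
  have hD : DD = 2 ^ 20 := by unfold DD; norm_num
  have h1 : Nat.mul ONES (Nat.pred DD) = pk fun _ => DD - 1 := by
    rw [pk_const, Nat.mul_eq, Nat.pred_eq_sub_one]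
  have h2 : Nat.sub (Nat.mul (pk o) DD) (pk fun k => o k * al k) =
      pk fun k => o k * DD - o k * al k := by
    rw [Nat.mul_eq, pk_mul', Nat.sub_eq, pk_sub]
    intro k hk
    exact Nat.mul_le_mul_left _ (hal k hk)
  rw [h1, h2, Nat.add_eq, pk_add]
  have h3 := tr20_pk (fun k => o k * DD - o k * al k + (DD - 1)) (by
    intro k hk
    have a1 : o k * DD ≤ 2 ^ 60 * 2 ^ 20 := by rw [hD]; exact Nat.mul_le_mul_right _ (ho k hk)
    calc o k * DD - o k * al k + (DD - 1) ≤ 2 ^ 60 * 2 ^ 20 + 2 ^ 20 := by omega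
      _ < 2 ^ 144 := by norm_num)
  exact h3

theorem nOm_le {o al : ℕ} : (o * DD - o * al + (DD - 1)) / 2 ^ 20 ≤ o := by
  have hD : DD = 2 ^ 20 := by unfold DD; norm_num
  calc (o * DD - o * al + (DD - 1)) / 2 ^ 20 ≤ (o * DD + (DD - 1)) / 2 ^ 20 :=
        Nat.div_le_div_right (by omega)
    _ = o := by
        rw [hD]
        rw [Nat.div_eq_iff (by norm_num)]
        constructor <;> omega

theorem nOm_ge {o al : ℕ} (hal : al ≤ DD) :
    (o : ℝ) * (1 - (al : ℝ) / DD) ≤ (((o * DD - o * al + (DD - 1)) / 2 ^ 20 : ℕ) : ℝ) := by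
  have hD : DD = 2 ^ 20 := by unfold DD; norm_num
  have hDp := DD_pos
  have h1 : o * DD - o * al ≤ DD * ((o * DD - o * al + (DD - 1)) / 2 ^ 20) := by
    have := Nat.lt_mul_div_succ (o * DD - o * al + (DD - 1)) (by norm_num : 0 < 2 ^ 20)
    rw [← hD] at this ⊢
    rw [Nat.mul_add, Nat.mul_one] at this
    omega
  have h2 : (o : ℝ) * DD - o * al ≤ DD * (((o * DD - o * al + (DD - 1)) / 2 ^ 20 : ℕ) : ℝ) := by
    have h3 : ((o * DD - o * al : ℕ) : ℝ) ≤
        ((DD * ((o * DD - o * al + (DD - 1)) / 2 ^ 20) : ℕ) : ℝ) := by exact_mod_cast h1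
    rw [Nat.cast_sub (Nat.mul_le_mul_left _ hal)] at h3
    push_cast at h3 ⊢
    exact h3
  have h4 : (o : ℝ) * (1 - (al : ℝ) / DD) * DD = (o : ℝ) * DD - o * al := by field_simp
  have h5 : (o : ℝ) * (1 - (al : ℝ) / DD) * DD ≤
      (((o * DD - o * al + (DD - 1)) / 2 ^ 20 : ℕ) : ℝ) * DD := by rw [h4]; linarith
  exact le_of_mul_le_mul_right h5 hDp

/-- (D1) for a vertex on since `c` -/
def D1' (p0 : ℝ) (L : List Slot) (k c : ℕ) : Prop :=
  UH 136 p0 (HL L) k c c ≤ (1 - p0) * tot4 (OVL p0 L k c 0)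

theorem XY_zero_sum (m : ℕ) (p0 : ℝ) (H : Haz) (k i : ℕ) :
    (XY m p0 H k (i + 1) 0).1 + (XY m p0 H k (i + 1) 0).2 = Wm m p0 H k i * H.al (par m k i) i := by
  rw [XY]
  simp only [Nat.add_sub_cancel]
  split_ifs <;> simp

theorem wRun_spec {L : List Slot} (hL : GoodSlots L) {p0 : ℝ} (hp1 : p0 < 1)
    (hfam : IsFam 136 (UH 136 p0 (HL L))) (lo hi : ℕ) :
    ∀ (n i : ℕ), n + i = 137 → ∀ (v : CN) (o : ℕ → ℕ) (e : ℝ),
      e + 420 * n ≤ EPS → PA e v (fun k => WVL p0 L k i) → (∀ k < 138, o k ≤ 2 ^ 60) →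
      (∀ k < 138, 2 ^ 60 * Wm 136 p0 (HL L) k i ≤ (1 - p0) * o k) →
      app (wRun lo hi (L.drop i) i (pk o)) v = true →
      ∀ c, i < c → c ≤ hi → c ≤ 136 → lo ≤ c → (∀ k < 138, D1' p0 L k c) ∧
        ∀ j', c + j' ≤ 136 → ∀ k, (k = 0 ∨ k = 137 ∨ (1 ≤ k ∧ k ≤ c + j' ∧ k ≤ 136)) →
          D2' p0 L k c j' := by
  intro n
  induction n with
  | zero => intro i hn v o e _ _ _ _ _ c h1 h2 h3 h4; omega
  | succ n ih =>
      intro i hn v o e he hPA ho hW happ c h1 h2 h3 h4
      have hi' : i < 136 := by omega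
      have hg := hL.2 i (by omega)
      rw [drop_eq hL.1 i (by omega)] at happ
      obtain ⟨hD1, hon, hrest⟩ := wRun_app lo hi (slt L i) (L.drop (i + 1)) i (pk o) v happ
      have hal : ∀ k < 138, (fun k => fld k (slt L i).al) k < 2 ^ 21 := fun k hk => by
        have := hg.fal k hk
        have hD : DD < 2 ^ 21 := by unfold DD; norm_num
        simp only
        omega
      have hP : pmul (pk o) (slt L i).al = pk fun k => o k * fld k (slt L i).al := by
        conv_lhs => rw [eq_pk _ hg.wal]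
        exact pmul_spec o _ (fun k hk => le_lt144 (ho k hk)) hal
      have halr : ∀ k < 138, (HL L).al (par 136 k i) i = (fld k (slt L i).al : ℝ) / DD := by
        intro k hk
        change (fld (par 136 k i) (slt L i).al : ℝ) / DD = _
        rw [← hg.pal k hk]
      rcases Nat.eq_or_lt_of_le (Nat.succ_le_of_lt h1) with hc | hc
      · subst hc
        have hPA' := stS_PA hL hi' hPA
        obtain ⟨t, hs, ht⟩ := hPA'.tot
        constructor
        · intro k hk
          rw [hs, hP, Nat.mul_eq, pk_mul'] at hD1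
          have hD2 : DD = 2 ^ 20 := by unfold DD; norm_num
          have hch := geAll_spec _ _ (fun k hk => by
              have a1 : t k * DD ≤ 2 ^ 60 * 2 ^ 20 := by
                rw [hD2]; exact Nat.mul_le_mul_right _ (ht k hk).1
              calc t k * DD ≤ 2 ^ 60 * 2 ^ 20 := a1
                _ < 2 ^ 143 := by norm_num) (fun k hk => by
              have a1 : o k * fld k (slt L i).al ≤ 2 ^ 60 * 2 ^ 20 := by
                rw [← hD2]; exact Nat.mul_le_mul (ho k hk) (hg.fal k hk)
              calc o k * fld k (slt L i).al ≤ 2 ^ 60 * 2 ^ 20 := a1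
                _ < 2 ^ 143 := by norm_num) hD1 k hk
          unfold D1'
          have hU := UH_on (m := 136) (p0 := p0) (H := HL L) k (i + 1) 0 (by omega) (by omega)
          rw [Nat.add_zero] at hU
          change UH 136 p0 (HL L) k (i + 1) (i + 1) ≤ _
          rw [hU, XY_zero_sum, halr k hk]
          have hDp := DD_pos
          have b1 : (o k : ℝ) * fld k (slt L i).al ≤ t k * DD := by exact_mod_cast hch
          have b2 : (o k : ℝ) * ((fld k (slt L i).al : ℝ) / DD) ≤ t k := by
            rw [← mul_div_assoc, div_le_iff₀ hDp]; exact b1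
          have b3 := hW k hk
          have b4 : 0 ≤ (fld k (slt L i).al : ℝ) / DD := (frac01 (hg.fal k hk)).1
          have b5 : 2 ^ 60 * Wm 136 p0 (HL L) k i * ((fld k (slt L i).al : ℝ) / DD) ≤
              (1 - p0) * o k * ((fld k (slt L i).al : ℝ) / DD) := mul_le_mul_of_nonneg_right b3 b4
          have b6 : (1 - p0) * (o k * ((fld k (slt L i).al : ℝ) / DD)) ≤ (1 - p0) * t k :=
            mul_le_mul_of_nonneg_left b2 (by linarith)
          have b7 : (1 - p0) * (t k : ℝ) ≤ (1 - p0) * (2 ^ 60 * tot4 (OVL p0 L k (i + 1) 0)) :=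
            mul_le_mul_of_nonneg_left (ht k hk).2.1 (by linarith)
          have b8 : (2 : ℝ) ^ 60 * (Wm 136 p0 (HL L) k i * ((fld k (slt L i).al : ℝ) / DD)) ≤
              2 ^ 60 * ((1 - p0) * tot4 (OVL p0 L k (i + 1) 0)) := by
            calc (2 : ℝ) ^ 60 * (Wm 136 p0 (HL L) k i * ((fld k (slt L i).al : ℝ) / DD))
                = 2 ^ 60 * Wm 136 p0 (HL L) k i * ((fld k (slt L i).al : ℝ) / DD) := by ring
              _ ≤ (1 - p0) * o k * ((fld k (slt L i).al : ℝ) / DD) := b5
              _ = (1 - p0) * (o k * ((fld k (slt L i).al : ℝ) / DD)) := by ring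
              _ ≤ (1 - p0) * t k := b6
              _ ≤ (1 - p0) * (2 ^ 60 * tot4 (OVL p0 L k (i + 1) 0)) := b7
              _ = _ := by ring
          exact le_of_mul_le_mul_left b8 (by positivity)
        · intro j' hj' k hk
          have hrun := hon h4
          refine onRun_spec hL hfam (i + 1) (by omega) h3 n 0 (by omega) (stS i (slt L i) v)
            1 0 1 0 (e + 420) ?_ hPA' ?_ ?_ hrun j' (Nat.zero_le _) hj' k hk
          · have hn0 : (0 : ℝ) ≤ n := Nat.cast_nonneg n
            push_cast at he ⊢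
            linarith
          · refine ⟨(XY 136 p0 (HL L) 0 (i + 1) 0).1, ?_, by simp, ?_⟩
            · have hU := UH_on (m := 136) (p0 := p0) (H := HL L) 0 (i + 1) 0 (by omega) (by omega)
              have hn := hfam.nonneg 0 (i + 1) (i + 1 + 0) (by omega) (by omega) (by omega)
              have h0 : (XY 136 p0 (HL L) 0 (i + 1) 0).2 = 0 := by
                rw [XY]; rw [if_neg (by omega)]
              rw [hU, h0] at hn
              linarith
            · rw [XY]; rw [if_neg (by omega)]; simp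
          · refine ⟨(XY 136 p0 (HL L) 137 (i + 1) 0).1, ?_, by simp, ?_⟩
            · have hU := UH_on (m := 136) (p0 := p0) (H := HL L) 137 (i + 1) 0 (by omega) (by omega)
              have hn := hfam.nonneg 137 (i + 1) (i + 1 + 0) (by omega) (by omega) (by omega)
              have h0 : (XY 136 p0 (HL L) 137 (i + 1) 0).2 = 0 := by
                rw [XY]; rw [if_neg (by omega)]
              rw [hU, h0] at hn
              linarith
            · rw [XY]; rw [if_neg (by omega)]; simp
      · have hrest' := hrest (by omega)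
        rw [hP, nOm_eq o _ ho (fun k hk => hg.fal k hk)] at hrest'
        refine ih (i + 1) (by omega) (stW i (slt L i) v) _ (e + 420) ?_ (stW_PA hL hi' hPA) ?_ ?_
          hrest' c (by omega) h2 h3 h4
        · push_cast at he ⊢
          linarith
        · intro k hk
          exact nOm_le.trans (ho k hk)
        · intro k hk
          rw [Wm, halr k hk]
          have b1 := nOm_ge (o := o k) (hg.fal k hk)
          have b2 := hW k hk
          have b3 := (frac01 (hg.fal k hk)).2
          have b4 : 0 ≤ 1 - (fld k (slt L i).al : ℝ) / DD := by linarith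
          calc 2 ^ 60 * (Wm 136 p0 (HL L) k i * (1 - (fld k (slt L i).al : ℝ) / DD))
              = (2 ^ 60 * Wm 136 p0 (HL L) k i) * (1 - (fld k (slt L i).al : ℝ) / DD) := by ring
            _ ≤ ((1 - p0) * o k) * (1 - (fld k (slt L i).al : ℝ) / DD) :=
                mul_le_mul_of_nonneg_right b2 b4
            _ = (1 - p0) * (o k * (1 - (fld k (slt L i).al : ℝ) / DD)) := by ring
            _ ≤ _ := mul_le_mul_of_nonneg_left b1 (by linarith)

end Pool.Agent.H41.GL
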